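import Mathlib
import Pool.Agent.Lib.MP_dd2c10_pr.Defs

/-!
# Knot diagrams in the plane modulo planar isotopy and the Reidemeister moves I and II, and the diagrams of polygons

All definitions which are used in the classification of the ergodicity classes of the BFACF algorithm in the slab of width one.

A diagram is drawn from left to right. At every moment there are `k` strands, which are numbered `0, 1, ..., k - 1` from
below. The elementary pieces are: a cup (two new strands `i`, `i + 1` are born, joined at their left ends), a cap (the
strands `i`, `i + 1` end, joined at their right ends) and a crossing of the strands `i` and `i + 1`.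

The plane `x = c` of the slab contains the edges of a ladder, the graph `ℤ × {0, 1}` (the `y`- and `z`-coordinates). The
vertex `(y, z)` of the ladder has the number `2 y + z`; it is drawn at the height `y + z / 2`.
-/

namespace Pool.Agent.Lib.MP_dd2c10_prF

section

variable {σ α : Type*}

/-- `w'` arises from `w` by the replacement of a subword `u` by `v`, where the rule `R` allows this replacement at the
state that is reached before the subword. -/
def WStep (next : σ → α → σ) (R : σ → List α → List α → Prop) (s : σ) (w w' : List α) : Prop :=
  ∃ a u v b : List α, w = a ++ u ++ b ∧ w' = a ++ v ++ b ∧ R (a.foldl next s) u v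

/-- The equivalence relation generated by the replacements. -/
def WEq (next : σ → α → σ) (R : σ → List α → List α → Prop) (s : σ) (w w' : List α) : Prop :=
  Relation.EqvGen (WStep next R s) w w'

end

/-- The elementary pieces of a diagram. `cup i`: two new strands appear at the positions `i` and `i + 1`. `cap i`: the
strands at the positions `i` and `i + 1` are joined. `cross i b`: the strands at the positions `i` and `i + 1` cross; the
strand which goes up (from `i` to `i + 1`) passes over the other one if `b` is `true` and under it if `b` is `false`. -/
inductive Gen
  | cup (i : ℕ)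
  | cap (i : ℕ)
  | cross (i : ℕ) (b : Bool)
  deriving DecidableEq

namespace Gen

/-- The lowest position which takes part. -/
def pos : Gen → ℕ
  | cup i => i
  | cap i => i
  | cross i _ => i

/-- The number of the strands that enter. -/
def ins : Gen → ℕ
  | cup _ => 0
  | cap _ => 2
  | cross _ _ => 2

/-- The number of the strands that leave. -/
def outs : Gen → ℕ
  | cup _ => 2
  | cap _ => 0
  | cross _ _ => 2

/-- The same piece at the position `j`. -/
def move (j : ℕ) : Gen → Gen
  | cup _ => cup j
  | cap _ => cap j
  | cross _ b => cross j b

/-- The number of strands after the piece if there are `k` strands before it. -/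
def next (k : ℕ) (g : Gen) : ℕ := k + g.outs - g.ins

/-- The piece makes sense if there are `k` strands. -/
def Ok (k : ℕ) (g : Gen) : Prop := g.pos + g.ins ≤ k

end Gen

open Gen

/-- The local moves at `k` strands: planar isotopy (`far`: distant pieces change places; `zig`, `zag`: a curve with a
maximum and a minimum is straightened; `slideCup`, `slideCap`: a strand slides over or under a cup or cap) and the
Reidemeister moves I (`r1`, `r1'`) and II (`r2`). There is no Reidemeister move III. -/
inductive Rule (k : ℕ) : List Gen → List Gen → Prop
  | far (g h : Gen) : g.pos + g.ins ≤ h.pos → h.pos + h.ins ≤ k →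
      Rule k [g, h.move (h.pos + g.outs - g.ins)] [h, g]
  | zig (i : ℕ) : i < k → Rule k [cup (i + 1), cap i] []
  | zag (i : ℕ) : i < k → Rule k [cup i, cap (i + 1)] []
  | slideCup (i : ℕ) (b : Bool) : i < k → Rule k [cup i, cross (i + 1) b] [cup (i + 1), cross i !b]
  | slideCap (i : ℕ) (b : Bool) : i + 3 ≤ k → Rule k [cross (i + 1) b, cap i] [cross i !b, cap (i + 1)]
  | r1 (i : ℕ) (b : Bool) : i ≤ k → Rule k [cup i, cross i b] [cup i]
  | r1' (i : ℕ) (b : Bool) : i + 2 ≤ k → Rule k [cross i b, cap i] [cap i]
  | r2 (i : ℕ) (b : Bool) : i + 2 ≤ k → Rule k [cross i b, cross i !b] []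

/-- Two words of pieces (starting with `k` strands) are equivalent: they are related by planar isotopies and
Reidemeister moves I and II. -/
def MEq (k : ℕ) : List Gen → List Gen → Prop := WEq next Rule k

/-- Two closed diagrams are equivalent modulo planar isotopy and the Reidemeister moves I and II. -/
def DiagEq : List Gen → List Gen → Prop := MEq 0

/-- The word makes sense if there are `k` strands at its beginning. -/
def Valid (k : ℕ) : List Gen → Prop
  | [] => True
  | g :: w => g.Ok k ∧ Valid (next k g) w

/-- The number of strands at the end. -/
def endk (k : ℕ) (w : List Gen) : ℕ := w.foldl next k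

/-- The word with all positions shifted by `m` (there are `m` more strands below). -/
def sh (m : ℕ) (w : List Gen) : List Gen := w.map fun g => g.move (g.pos + m)

/-- The edges of the ladder. `Y n` joins the vertices with the numbers `n` and `n + 2`, `Z y` joins the vertices with the
numbers `2 y` and `2 y + 1`. -/
inductive Ed
  | Y (n : ℤ)
  | Z (y : ℤ)
  deriving DecidableEq

namespace Ed

/-- The lower end. -/
def a : Ed → ℤ
  | Y n => n
  | Z y => 2 * y

/-- The upper end. -/
def b : Ed → ℤ
  | Y n => n + 2
  | Z y => 2 * y + 1

end Ed

open Ed

/-- The state after the edge `e` is crossed: a strand passes through a vertex of `e` after the edge if and only if no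
strand passed there before it. -/
def act (T : Finset ℤ) (e : Ed) : Finset ℤ := symmDiff T {e.a, e.b}

/-- The number of strands below the vertex with the number `x`. -/
def rank (T : Finset ℤ) (x : ℤ) : ℕ := (T.filter fun s => s < x).card

/-- The diagram of the edge `Y n` (positions relative to the number of strands below `n`); `p` says that `n` is odd, `x`,
`m`, `z` say that strands pass through `n`, `n + 1`, `n + 2` before the edge. -/
def locY (p x m z : Bool) : List Gen :=
  match m, x, z with
  | false, true, false => []
  | false, false, true => []
  | false, false, false => [cup 0]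
  | false, true, true => [cap 0]
  | true, true, false => [cross 0 p]
  | true, false, true => [cross 0 !p]
  | true, false, false => [cup 1, cross 0 !p]
  | true, true, true => [cross 0 p, cap 1]

/-- The diagram of the edge `Z y`; `x`, `z` say that strands pass through `2 y` and `2 y + 1` before the edge. -/
def locZ (x z : Bool) : List Gen :=
  match x, z with
  | true, false => []
  | false, true => []
  | false, false => [cup 0]
  | true, true => [cap 0]

/-- The diagram of an edge which is crossed at the state `T`. -/
def out (T : Finset ℤ) : Ed → List Gen
  | Y n => sh (rank T n) (locY (decide (n % 2 = 1)) (decide (n ∈ T)) (decide (n + 1 ∈ T)) (decide (n + 2 ∈ T)))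
  | Z y => sh (rank T (2 * y)) (locZ (decide (2 * y ∈ T)) (decide (2 * y + 1 ∈ T)))

/-- The diagram of a word which starts at the state `T`. -/
def scan (T : Finset ℤ) : List Ed → List Gen
  | [] => []
  | e :: w => out T e ++ scan (act T e) w

open Pool.Agent.Lib.MP_dd2c10_pr

/-- The lattice point of the column `c` (the plane `x = c`) with the ladder number `n`. -/
def pt (c n : ℤ) : Pt := (c, n / 2, n % 2)

/-- The ladder edge `e` in the column `c`. -/
def edgeAt (c : ℤ) (e : Ed) : Sym2 Pt := s(pt c e.a, pt c e.b)

/-- The ladder edges of a placed word, without their columns. -/
def wd (ℓ : List (ℤ × Ed)) : List Ed := ℓ.map Prod.snd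

/-- `ℓ` lists all ladder edges of `ω`, column after column. -/
def Rdg (ω : Set (Sym2 Pt)) (ℓ : List (ℤ × Ed)) : Prop :=
  ℓ.Pairwise (fun p q => p.1 ≤ q.1) ∧ ℓ.Nodup ∧ ∀ c e, (c, e) ∈ ℓ ↔ edgeAt c e ∈ ω

/-- The colours of the strands before and after a piece (colours are constant along strands). -/
inductive CStep : List Bool → Gen → List Bool → Prop
  | cup (a b : List Bool) (x : Bool) : CStep (a ++ b) (Gen.cup a.length) (a ++ x :: x :: b)
  | cap (a b : List Bool) (x : Bool) : CStep (a ++ x :: x :: b) (Gen.cap a.length) (a ++ b)
  | cross (a b : List Bool) (x y : Bool) (s : Bool) :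
      CStep (a ++ x :: y :: b) (Gen.cross a.length s) (a ++ y :: x :: b)

/-- `CRun l w s l'`: a colouring of the strands of the diagram `w` by two colours, constant along strands; `l` are the colours of the strands (from below) before the first piece, `s` lists the colours
after each piece, `l'` are the colours at the end. -/
inductive CRun : List Bool → List Gen → List (List Bool) → List Bool → Prop
  | nil (l : List Bool) : CRun l [] [] l
  | cons {l l' l'' : List Bool} {g : Gen} {w : List Gen} {s : List (List Bool)} :
      CStep l g l' → CRun l' w s l'' → CRun l (g :: w) (l' :: s) l''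

/-- The diagram is not empty and has only one component: every colouring of its strands by two colours which is constant along strands is constant. -/
def OneComp (w : List Gen) : Prop :=
  w ≠ [] ∧ ∀ s l, CRun [] w s l → ∃ x, ∀ l' ∈ s, ∀ y ∈ l', y = x

/-- `w` is a diagram of `ω`: it is read off from the ladder edges of `ω`, column after column. -/
def IsDiagram (w : List Gen) (ω : Set (Sym2 Pt)) : Prop := ∃ ℓ, Rdg ω ℓ ∧ scan ∅ (wd ℓ) = w

/-- Diagrams of knots: closed, with one component. -/
def KnotDiagram (w : List Gen) : Prop := Valid 0 w ∧ endk 0 w = 0 ∧ OneComp w

end Pool.Agent.Lib.MP_dd2c10_prF
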