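import Pool.Agent.Lib.MP_dd2c10_prF.Up

/-! JOB Can (MP_dd2c10_pr): the canonical path of a decreasing list of strands: the first (highest) strand moves to `2 Q`, the next one to
`2 Q - 4`, and so on.

PROOFS.
* `can_path`: induction on `l` generalizing `Q`, `U`. `[]`: trivial. `s :: l`: put `T = (s :: l).toFinset ∪ U`. `up_path` applies: `s ∈ T`, `s < 2 Q`
  (from `hQ`), and each other `x ∈ T` is `< s` (if `x ∈ l`, by `Pairwise`) or in `U` (then `2 Q + 1 < x` or `x < s`). The state is then
  `insert (2 Q) (T.erase s) = l.toFinset ∪ insert (2 Q) U` (`s ∉ l`, `s ∉ U`). Induction hypothesis with `Q - 2`, `insert (2 Q) U`: its hypotheses: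
  `x + 2 < 2 (Q - 2 (len l + 1)) = 2 ((Q - 2) - 2 len l)`; `2 (Q - 2) + 1 < 2 Q`. Final state:
  `tgt (Q - 2) (len l) ∪ insert (2 Q) U = tgt Q (len l + 1) ∪ U` (`mem_tgt`).
* `can_supp`: induction on `l` generalizing `Q` with `up_supp`: the letters of `up s Q` have `f.a ≥ s > m`. -/

namespace Pool.Agent.Lib.MP_dd2c10_prF

open Gen Ed

/-- The canonical path of a decreasing list of strands. -/
def canL : ℤ → List ℤ → List Ed
  | _, [] => []
  | Q, s :: l => up s Q ++ canL (Q - 2) l

/-- The canonical end position of `r` strands: `2 Q, 2 Q - 4, ...`. -/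
def tgt (Q : ℤ) (r : ℕ) : Finset ℤ := (Finset.range r).image fun j : ℕ => 2 * (Q - 2 * j)

theorem mem_tgt {Q : ℤ} {r : ℕ} {x : ℤ} : x ∈ tgt Q r ↔ ∃ j : ℕ, j < r ∧ x = 2 * (Q - 2 * j) := by
  unfold tgt
  rw [Finset.mem_image]
  constructor
  · rintro ⟨j, hj, rfl⟩
    exact ⟨j, Finset.mem_range.1 hj, rfl⟩
  · rintro ⟨j, hj, rfl⟩
    exact ⟨j, Finset.mem_range.2 hj, rfl⟩

theorem can_path (l : List ℤ) (Q : ℤ) (U : Finset ℤ) (hl : l.Pairwise (· > ·))
    (hQ : ∀ s ∈ l, s + 2 < 2 * (Q - 2 * l.length))
    (hU : ∀ u ∈ U, 2 * Q + 1 < u ∨ ∀ s ∈ l, u < s) :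
    PPath (l.toFinset ∪ U) (canL Q l) ∧ run (l.toFinset ∪ U) (canL Q l) = tgt Q l.length ∪ U := by
  induction l generalizing Q U with
  | nil =>
    refine ⟨trivial, ?_⟩
    show ([] : List ℤ).toFinset ∪ U = tgt Q 0 ∪ U
    rfl
  | cons s l ih =>
    have hp := List.pairwise_cons.1 hl
    have hlen : ((s :: l).length : ℤ) = (l.length : ℤ) + 1 := by
      rw [List.length_cons]
      push_cast
      rfl
    have hlen0 : (0 : ℤ) ≤ (l.length : ℤ) := Int.natCast_nonneg _
    have hsQ : s + 2 < 2 * (Q - 2 * ((l.length : ℤ) + 1)) := by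
      have h := hQ s List.mem_cons_self
      rw [hlen] at h
      exact h
    have hsU : s ∉ U := by
      intro h
      rcases hU s h with h1 | h1
      · omega
      · exact lt_irrefl _ (h1 s List.mem_cons_self)
    have hsl : s ∉ l := fun h => lt_irrefl _ (hp.1 s h)
    have hsT : s ∈ (s :: l).toFinset ∪ U := by
      rw [Finset.mem_union, List.mem_toFinset]
      exact Or.inl List.mem_cons_self
    obtain ⟨hu1, hu2⟩ := up_path (T := (s :: l).toFinset ∪ U) (s := s) (Q := Q) hsT (by omega) (by
      intro x hx hxs
      rw [Finset.mem_union, List.mem_toFinset, List.mem_cons] at hx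
      rcases hx with (hx | hx) | hx
      · exact absurd hx hxs
      · exact Or.inl (hp.1 x hx)
      · rcases hU x hx with h1 | h1
        · exact Or.inr h1
        · exact Or.inl (h1 s List.mem_cons_self))
    have hst : insert (2 * Q) (((s :: l).toFinset ∪ U).erase s) = l.toFinset ∪ insert (2 * Q) U := by
      ext x
      simp only [Finset.mem_insert, Finset.mem_erase, Finset.mem_union, List.mem_toFinset, List.mem_cons]
      constructor
      · rintro (h | ⟨h1, (h2 | h2) | h2⟩)
        · exact Or.inr (Or.inl h)
        · exact absurd h2 h1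
        · exact Or.inl h2
        · exact Or.inr (Or.inr h2)
      · rintro (h | h | h)
        · refine Or.inr ⟨?_, Or.inl (Or.inr h)⟩
          rintro rfl
          exact hsl h
        · exact Or.inl h
        · refine Or.inr ⟨?_, Or.inr h⟩
          rintro rfl
          exact hsU h
    have hi := ih (Q - 2) (insert (2 * Q) U) hp.2 (by
      intro x hx
      have h := hQ x (List.mem_cons_of_mem _ hx)
      rw [hlen] at h
      omega) (by
      intro u hu
      rcases Finset.mem_insert.1 hu with rfl | hu
      · exact Or.inl (by omega)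
      · rcases hU u hu with h1 | h1
        · exact Or.inl (by omega)
        · exact Or.inr fun x hx => h1 x (List.mem_cons_of_mem _ hx))
    have hc : canL Q (s :: l) = up s Q ++ canL (Q - 2) l := rfl
    have hfin : tgt (Q - 2) l.length ∪ insert (2 * Q) U = tgt Q (s :: l).length ∪ U := by
      ext x
      rw [Finset.mem_union, Finset.mem_union, Finset.mem_insert, mem_tgt, mem_tgt]
      constructor
      · rintro (⟨j, hj, hx⟩ | hx | hx)
        · refine Or.inl ⟨j + 1, ?_, ?_⟩
          · rw [List.length_cons]
            omega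
          · rw [hx]
            push_cast
            ring
        · refine Or.inl ⟨0, ?_, ?_⟩
          · rw [List.length_cons]
            omega
          · rw [hx]
            push_cast
            ring
        · exact Or.inr hx
      · rintro (⟨j, hj, hx⟩ | hx)
        · rw [List.length_cons] at hj
          rcases Nat.eq_zero_or_pos j with h0 | h0
          · subst h0
            refine Or.inr (Or.inl ?_)
            rw [hx]
            push_cast
            ring
          · refine Or.inl ⟨j - 1, by omega, ?_⟩
            rw [hx, Nat.cast_sub (by omega)]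
            push_cast
            ring
        · exact Or.inr (Or.inr hx)
    rw [hc, ppath_append, run_append, hu2, hst]
    exact ⟨⟨hu1, hi.1⟩, hi.2.trans hfin⟩

theorem can_supp (l : List ℤ) (Q m : ℤ) (hQ : ∀ s ∈ l, s + 2 < 2 * (Q - 2 * l.length)) (hm : ∀ s ∈ l, m < s) :
    ∀ f ∈ canL Q l, m < f.a := by
  induction l generalizing Q with
  | nil =>
    intro f hf
    exact absurd hf List.not_mem_nil
  | cons s l ih =>
    intro f hf
    have hlen : ((s :: l).length : ℤ) = (l.length : ℤ) + 1 := by
      rw [List.length_cons]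
      push_cast
      rfl
    have hlen0 : (0 : ℤ) ≤ (l.length : ℤ) := Int.natCast_nonneg _
    have hsQ : s + 2 < 2 * (Q - 2 * ((l.length : ℤ) + 1)) := by
      have h := hQ s List.mem_cons_self
      rw [hlen] at h
      exact h
    have hc : canL Q (s :: l) = up s Q ++ canL (Q - 2) l := rfl
    rw [hc, List.mem_append] at hf
    rcases hf with hf | hf
    · exact lt_of_lt_of_le (hm s List.mem_cons_self) (up_supp (by omega) f hf).1
    · refine ih (Q - 2) ?_ (fun x hx => hm x (List.mem_cons_of_mem _ hx)) f hf
      intro x hx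
      have h := hQ x (List.mem_cons_of_mem _ hx)
      rw [hlen] at h
      omega

end Pool.Agent.Lib.MP_dd2c10_prF
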