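import Pool.Agent.Lib.MP_dd2c10_prF.PE

/-! JOB Cas (MP_dd2c10_pr): the squares of elementary moves in the slab of width one.

PROOF. `ElemMove.cases` (file `MP_dd2c10_pr/Moves.lean`) gives `x, y, z` and `MoveData` for one of three squares. In each case by `hm.pat` at least one side of the square is in `ω` (if none were in `ω` the pattern would be the excluded one), so `Good.slab` bounds
the `z`-coordinates of its ends; the sides not in `ω` are in `ω'` (`hm.diff`), so all four corners are in the slab (`Good.slab` for `ω'`). Sides: `A, B, C, D` the corners in the order given.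
(1) `(x, y, z) (x+1, y, z) (x+1, y+1, z) (x, y+1, z)`, `z = 0` or `1`; `n = 2 y + z`, `e = Y n`: `A = pt x n`, `B = pt (x + 1) n`, `C = pt (x + 1) (n + 2)`, `D = pt x (n + 2)`; `s(A, B) = xed x e.a`, `s(B, C) = edgeAt (x + 1) e`, `s(C, D) = xed x e.b`, `s(D, A) = edgeAt x e`
(`Sym2.eq_swap` where needed).
(2) `(x, y, z) (x+1, y, z) (x+1, y, z+1) (x, y, z+1)`: `z = 0`; `e = Z y`: the same names with `e.a = 2 y`, `e.b = 2 y + 1`.
(3) `(x, y, z) (x, y+1, z) (x, y+1, z+1) (x, y, z+1)`: `z = 0`: `s(A, B) = edgeAt x (Y (2 y))`, `s(B, C) = edgeAt x (Z (y + 1))`, `s(C, D) = edgeAt x (Y (2 y + 1))`, `s(D, A) = edgeAt x (Z y)`.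
`ω' = symmDiff ω _`: `Set.ext`, `hm.diff`, `Set.mem_symmDiff` (propositional). The pattern condition is `hm.pat` up to the order of the two equivalences and `Iff` symmetry (for PX: `hm.pat : ¬ ((xed a ↔ xed b) ∧ (edge (x+1) ↔ edge x))`). -/

namespace Pool.Agent.Lib.MP_dd2c10_prF

open Pool.Agent.Lib.MP_dd2c10_pr Ed

private theorem Cas_slab {ω ω' : Set (Sym2 Pt)} {A B C D : Pt} (hm : MoveData ω ω' A B C D) :
    0 ≤ A.2.2 ∧ A.2.2 ≤ 1 := by
  by_cases h : s(A, B) ∈ ω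
  · exact hm.good.slab _ _ h
  · refine hm.good'.slab A B ?_
    rw [hm.diff]
    tauto

private theorem Cas_pt {c x y z n : ℤ} (hz : 0 ≤ z ∧ z ≤ 1) (hx : c = x) (h : n = 2 * y + z) :
    pt c n = (x, y, z) := by
  unfold pt
  rw [hx, show n / 2 = y by omega, show n % 2 = z by omega]

private theorem Cas_px {ω ω' : Set (Sym2 Pt)} {A B C D : Pt} {c : ℤ} {e : Ed} (hm : MoveData ω ω' A B C D)
    (hA : A = pt c e.a) (hB : B = pt (c + 1) e.a) (hC : C = pt (c + 1) e.b) (hD : D = pt c e.b) :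
    ω' = symmDiff ω (PX c e) ∧
      ¬ ((edgeAt c e ∈ ω ↔ edgeAt (c + 1) e ∈ ω) ∧ (xed c e.b ∈ ω ↔ xed c e.a ∈ ω)) := by
  have e1 : s(A, B) = xed c e.a := by rw [hA, hB]; rfl
  have e2 : s(B, C) = edgeAt (c + 1) e := by rw [hB, hC]; rfl
  have e3 : s(C, D) = xed c e.b := by rw [hC, hD, Sym2.eq_swap]; rfl
  have e4 : s(D, A) = edgeAt c e := by rw [hA, hD, Sym2.eq_swap]; rfl
  have hd := hm.diff
  have hp := hm.pat
  rw [e1, e2, e3, e4] at hp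
  rw [e1, e2, e3, e4] at hd
  refine ⟨?_, ?_⟩
  · ext s
    rw [hd, Set.mem_symmDiff]
    simp only [PX, Set.mem_insert_iff, Set.mem_singleton_iff]
    tauto
  · tauto

private theorem Cas_ps {ω ω' : Set (Sym2 Pt)} {A B C D : Pt} {c y : ℤ} (hm : MoveData ω ω' A B C D)
    (hA : A = pt c (2 * y)) (hB : B = pt c (2 * y + 2)) (hC : C = pt c (2 * y + 3)) (hD : D = pt c (2 * y + 1)) :
    ω' = symmDiff ω (PS c y) ∧
      ¬ ((edgeAt c (Y (2 * y)) ∈ ω ↔ edgeAt c (Y (2 * y + 1)) ∈ ω) ∧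
        (edgeAt c (Z (y + 1)) ∈ ω ↔ edgeAt c (Z y) ∈ ω)) := by
  have e1 : s(A, B) = edgeAt c (Y (2 * y)) := by rw [hA, hB]; rfl
  have e2 : s(B, C) = edgeAt c (Z (y + 1)) := by
    rw [hB, hC, edgeAt, a_Z, b_Z, show 2 * (y + 1) = 2 * y + 2 by ring, show 2 * y + 2 + 1 = 2 * y + 3 by ring]
  have e3 : s(C, D) = edgeAt c (Y (2 * y + 1)) := by
    rw [hC, hD, Sym2.eq_swap, edgeAt, a_Y, b_Y, show 2 * y + 1 + 2 = 2 * y + 3 by ring]
  have e4 : s(D, A) = edgeAt c (Z y) := by rw [hA, hD, Sym2.eq_swap]; rfl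
  have hd := hm.diff
  have hp := hm.pat
  rw [e1, e2, e3, e4] at hp
  rw [e1, e2, e3, e4] at hd
  refine ⟨?_, ?_⟩
  · ext s
    rw [hd, Set.mem_symmDiff]
    simp only [PS, Set.mem_insert_iff, Set.mem_singleton_iff]
    tauto
  · tauto

theorem elem_cases {ω ω' : Set (Sym2 Pt)} (h : ElemMove 1 ω ω') :
    (∃ c e, ω' = symmDiff ω (PX c e) ∧
      ¬ ((edgeAt c e ∈ ω ↔ edgeAt (c + 1) e ∈ ω) ∧ (xed c e.b ∈ ω ↔ xed c e.a ∈ ω))) ∨
    ∃ c y, ω' = symmDiff ω (PS c y) ∧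
      ¬ ((edgeAt c (Y (2 * y)) ∈ ω ↔ edgeAt c (Y (2 * y + 1)) ∈ ω) ∧
        (edgeAt c (Z (y + 1)) ∈ ω ↔ edgeAt c (Z y) ∈ ω)) := by
  obtain ⟨x, y, z, hm | hm | hm⟩ := h.cases
  · have hz : 0 ≤ z ∧ z ≤ 1 := Cas_slab hm
    left
    refine ⟨x, Y (2 * y + z), Cas_px hm ?_ ?_ ?_ ?_⟩
    · exact (Cas_pt hz rfl (by rw [a_Y])).symm
    · exact (Cas_pt hz rfl (by rw [a_Y])).symm
    · exact (Cas_pt hz rfl (by rw [b_Y]; ring)).symm
    · exact (Cas_pt hz rfl (by rw [b_Y]; ring)).symm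
  · have hz : 0 ≤ z ∧ z ≤ 1 := Cas_slab hm
    have hz' : 0 ≤ z + 1 ∧ z + 1 ≤ 1 := Cas_slab hm.rot.rot
    left
    refine ⟨x, Z y, Cas_px hm ?_ ?_ ?_ ?_⟩
    · exact (Cas_pt hz rfl (by rw [a_Z]; omega)).symm
    · exact (Cas_pt hz rfl (by rw [a_Z]; omega)).symm
    · exact (Cas_pt hz' rfl (by rw [b_Z]; omega)).symm
    · exact (Cas_pt hz' rfl (by rw [b_Z]; omega)).symm
  · have hz : 0 ≤ z ∧ z ≤ 1 := Cas_slab hm
    have hz' : 0 ≤ z + 1 ∧ z + 1 ≤ 1 := Cas_slab hm.rot.rot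
    right
    refine ⟨x, y, Cas_ps hm ?_ ?_ ?_ ?_⟩
    · exact (Cas_pt hz rfl (by omega)).symm
    · exact (Cas_pt hz rfl (by omega)).symm
    · exact (Cas_pt hz' rfl (by omega)).symm
    · exact (Cas_pt hz' rfl (by omega)).symm

end Pool.Agent.Lib.MP_dd2c10_prF
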