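import Pool.Agent.Lib.MP_dd2c10_prF.Lad

/-!
# Certificates for the equivalence of short diagram words
-/

namespace Pool.Agent.Lib.MP_dd2c10_prF

open Gen

/-- Instances of the local moves of diagrams. -/
inductive RI
  | far (g h : Gen)
  | zig (i : ℕ)
  | zag (i : ℕ)
  | slideCup (i : ℕ) (b : Bool)
  | slideCap (i : ℕ) (b : Bool)
  | r1 (i : ℕ) (b : Bool)
  | r1' (i : ℕ) (b : Bool)
  | r2 (i : ℕ) (b : Bool)

namespace RI

def l : RI → List Gen
  | far g h => [g, h.move (h.pos + g.outs - g.ins)]
  | zig i => [cup (i + 1), cap i]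
  | zag i => [cup i, cap (i + 1)]
  | slideCup i b => [cup i, cross (i + 1) b]
  | slideCap i b => [cross (i + 1) b, cap i]
  | r1 i b => [cup i, cross i b]
  | r1' i b => [cross i b, cap i]
  | r2 i b => [cross i b, cross i !b]

def r : RI → List Gen
  | far g h => [h, g]
  | zig _ => []
  | zag _ => []
  | slideCup i b => [cup (i + 1), cross i !b]
  | slideCap i b => [cross i !b, cap (i + 1)]
  | r1 i _ => [cup i]
  | r1' i _ => [cap i]
  | r2 _ _ => []

def ok (k : ℕ) : RI → Bool
  | far g h => decide (g.pos + g.ins ≤ h.pos) && decide (h.pos + h.ins ≤ k)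
  | zig i => decide (i < k)
  | zag i => decide (i < k)
  | slideCup i _ => decide (i < k)
  | slideCap i _ => decide (i + 3 ≤ k)
  | r1 i _ => decide (i ≤ k)
  | r1' i _ => decide (i + 2 ≤ k)
  | r2 i _ => decide (i + 2 ≤ k)

theorem rule {k : ℕ} (s : RI) (h : s.ok k = true) : Rule k s.l s.r := by
  cases s with
  | far g h' =>
    rw [ok, Bool.and_eq_true, decide_eq_true_iff, decide_eq_true_iff] at h
    exact Rule.far g h' h.1 h.2
  | zig i => exact Rule.zig i (of_decide_eq_true h)
  | zag i => exact Rule.zag i (of_decide_eq_true h)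
  | slideCup i b => exact Rule.slideCup i b (of_decide_eq_true h)
  | slideCap i b => exact Rule.slideCap i b (of_decide_eq_true h)
  | r1 i b => exact Rule.r1 i b (of_decide_eq_true h)
  | r1' i b => exact Rule.r1' i b (of_decide_eq_true h)
  | r2 i b => exact Rule.r2 i b (of_decide_eq_true h)

end RI

/-- The word after the replacement at the position `p`; `d` is the direction. -/
def stepC (k : ℕ) (w : List Gen) (c : ℕ × RI × Bool) : Option (List Gen) :=
  match c with
  | (p, s, d) =>
    let u := if d then s.l else s.r
    let v := if d then s.r else s.l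
    if (s.ok (endk k (w.take p)) && decide ((w.drop p).take u.length = u)) = true then
      some (w.take p ++ v ++ (w.drop p).drop u.length) else none

/-- The word after a list of replacements. -/
def runC (k : ℕ) (w : List Gen) : List (ℕ × RI × Bool) → Option (List Gen)
  | [] => some w
  | c :: cs => match stepC k w c with
    | none => none
    | some w' => runC k w' cs

theorem stepC_aux {k p : ℕ} {w w' u v : List Gen} {b : Bool}
    (h : (if (b && decide ((w.drop p).take u.length = u)) = true then
      some (w.take p ++ v ++ (w.drop p).drop u.length) else none) = some w') :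
    b = true ∧ w = w.take p ++ u ++ (w.drop p).drop u.length ∧ w' = w.take p ++ v ++ (w.drop p).drop u.length := by
  split_ifs at h with h1
  rw [Option.some.injEq] at h
  rw [Bool.and_eq_true, decide_eq_true_iff] at h1
  obtain ⟨h2, h3⟩ := h1
  refine ⟨h2, ?_, h.symm⟩
  have h4 := List.take_append_drop u.length (w.drop p)
  rw [h3] at h4
  rw [List.append_assoc, h4, List.take_append_drop]

theorem stepC_sound {k : ℕ} {w w' : List Gen} {c : ℕ × RI × Bool} (h : stepC k w c = some w') : MEq k w w' := by
  obtain ⟨p, s, d⟩ := c
  cases d with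
  | true =>
    obtain ⟨h1, h2, h3⟩ := stepC_aux (k := k) (u := s.l) (v := s.r) h
    have h5 := s.rule h1
    exact Relation.EqvGen.rel _ _ ⟨_, _, _, _, h2, h3, h5⟩
  | false =>
    obtain ⟨h1, h2, h3⟩ := stepC_aux (k := k) (u := s.r) (v := s.l) h
    have h5 := s.rule h1
    exact (Relation.EqvGen.rel _ _ ⟨_, _, _, _, h3, h2, h5⟩ : MEq k _ _).symm

theorem runC_sound {k : ℕ} (cs : List (ℕ × RI × Bool)) {w w' : List Gen} (h : runC k w cs = some w') : MEq k w w' := by
  induction cs generalizing w with
  | nil =>
    rw [runC, Option.some.injEq] at h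
    exact WEq.of_eq h
  | cons c cs ih =>
    rw [runC] at h
    cases h1 : stepC k w c with
    | none => rw [h1] at h; exact absurd h (by simp)
    | some w₁ =>
      rw [h1] at h
      exact (stepC_sound h1).trans (ih h)

end Pool.Agent.Lib.MP_dd2c10_prF
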