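import Pool.Agent.Lib.MP_dd2c10_prF.Spr

/-! JOB LP (MP_dd2c10_pr): equivalent words give polygons of the same class.

Let `T = run ∅ a`, `P = place 0 a`, `c = a.length`, `B = place (c + 2) b`. All the lists below have increasing columns except where two letters are in the column `c + 1`.
PROOFS (`wd P = a`, columns of `P` are `< c`, columns of `B` are `≥ c + 2`: `mem_place`, `wd_place`).
* `move_pair`: let `ω = ES (P ++ (c, e) :: (c + 1, f) :: B)` (`good_inc`) and `ω' = symmDiff ω (PX c e) = ES (P ++ (c + 1, e) :: (c + 1, f) :: B)` (`es_move`; good by `good_pair` with the column `c + 1`).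
  `pe_x`: pattern: `edgeAt c e ∈ ω`, `edgeAt (c + 1) e ∉ ω` (`mem_es_edge`, the list is nodup, `e ≠ f`).
* `pe_swap`: if `e = f` both words are the same. Otherwise `move_pair` for `e, f` and for `f, e`; the two target lists are permutations of each other (`es_perm`); the hypothesis is symmetric.
* `pe_cancel`: `ω = ES (P ++ (c, e) :: (c + 1, e) :: B)`, `ω' = symmDiff ω (PX c e) = ES (P ++ B)` (`es_cancel`), both `good_inc`. Pattern: both ladder edges are in `ω`; `xed c n ∈ ω ↔ n ∈ st _ c = run ∅ (a ++ [e])`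
  (`mem_es_xed`), so `xed c e.a ∈ ω ↔ e.a ∉ T`, `xed c e.b ∈ ω ↔ e.b ∉ T` (`mem_act`), and exactly one holds. Finally `inc_equiv` from `P ++ B` to `place 0 (a ++ b)`.
* `pe_sqa`: `ES (P ++ (c, Y (2 y)) :: (c + 1, Z y) :: B)` → (`move_pair`, common vertex `2 y`) → `ES (P ++ (c + 1, Y (2 y)) :: (c + 1, Z y) :: B)` → (`pe_s`, `es_sqa`) →
  `ES (P ++ (c + 1, Y (2 y + 1)) :: (c + 1, Z (y + 1)) :: B)` ← (`move_pair`, common vertex `2 y + 3 = 2 y + 1 + 2 = 2 (y + 1) + 1`) ← `ES (P ++ (c, Y (2 y + 1)) :: (c + 1, Z (y + 1)) :: B)`. Pattern for `pe_s`: in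
  the column `c + 1` the edges `Y (2 y)`, `Z y` are present, `Y (2 y + 1)`, `Z (y + 1)` absent (`mem_es_edge`). `pe_sqb`: the same, common vertices `2 y + 2`, `2 y + 1`.
* `lrule_pe`: cases, with `inc_equiv` to pass from `place 0 (a ++ [e, f] ++ b)` to the lists above (`wd` of both is the word; or `place_append` makes them equal). `leq_pe`: induction on the
  generated equivalence (`Relation.EqvGen.rec`), a step is `lrule_pe` with `run ∅ a = a.foldl act ∅`. -/

namespace Pool.Agent.Lib.MP_dd2c10_prF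

open Pool.Agent.Lib.MP_dd2c10_pr Ed

private theorem LP_eq (a b : List Ed) (e f : Ed) :
    place 0 a ++ ((a.length : ℤ), e) :: ((a.length : ℤ) + 1, f) :: place ((a.length : ℤ) + 2) b =
      place 0 (a ++ [e, f] ++ b) := by
  rw [List.append_assoc, place_append]
  show _ = place 0 a ++ ((0 + (a.length : ℤ), e) :: (0 + (a.length : ℤ) + 1, f) :: place (0 + (a.length : ℤ) + 1 + 1) b)
  rw [zero_add, add_assoc, one_add_one_eq_two]

private theorem LP_lt {a : List Ed} {p : ℤ × Ed} (h : p ∈ place 0 a) : p.1 < (a.length : ℤ) := by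
  have := (mem_place h).2
  omega

private theorem LP_gt {a b : List Ed} {p : ℤ × Ed} (h : p ∈ place ((a.length : ℤ) + 2) b) : (a.length : ℤ) + 1 < p.1 := by
  have := (mem_place h).1
  omega

private theorem LP_nodup {l : List (ℤ × Ed)} (h : Inc l) : l.Nodup := by
  refine List.Pairwise.imp (fun {p q} hpq he => ?_) h
  rw [he] at hpq
  exact lt_irrefl _ hpq

private theorem LP_good (a b : List Ed) {e f : Ed} (hef : e ≠ f)
    (h : ∀ v : ℤ, (v = e.a ∨ v = e.b) → (v = f.a ∨ v = f.b) → v ∉ run ∅ a) :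
    Good (ES (place 0 a ++ ((a.length : ℤ) + 1, e) :: ((a.length : ℤ) + 1, f) :: place ((a.length : ℤ) + 2) b)) := by
  refine good_pair (inc_place _ _) (inc_place _ _) (fun p hp => ?_) (fun p hp => LP_gt hp) hef ?_
  · have := LP_lt hp
    omega
  · rw [wd_place]
    exact h

private theorem LP_nodup2 (a b : List Ed) {e f : Ed} (hef : e ≠ f) :
    (place 0 a ++ ((a.length : ℤ) + 1, e) :: ((a.length : ℤ) + 1, f) :: place ((a.length : ℤ) + 2) b).Nodup := by
  rw [List.nodup_append]
  refine ⟨LP_nodup (inc_place _ _), ?_, ?_⟩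
  · rw [List.nodup_cons, List.nodup_cons]
    refine ⟨?_, ?_, LP_nodup (inc_place _ _)⟩
    · rw [List.mem_cons]
      rintro (h | h)
      · exact hef (Prod.mk.inj h).2
      · exact lt_irrefl _ (LP_gt h)
    · intro h
      exact lt_irrefl _ (LP_gt h)
  · rintro p hp q hq rfl
    have h1 := LP_lt hp
    rw [List.mem_cons, List.mem_cons] at hq
    rcases hq with hq | hq | hq
    · rw [hq] at h1
      simp only at h1
      omega
    · rw [hq] at h1
      simp only at h1
      omega
    · have := LP_gt hq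
      omega

private theorem LP_mem (a b : List Ed) {e f : Ed} (hef : e ≠ f) :
    edgeAt ((a.length : ℤ) + 1) e ∈
      ES (place 0 a ++ ((a.length : ℤ) + 1, e) :: ((a.length : ℤ) + 1, f) :: place ((a.length : ℤ) + 2) b) := by
  rw [mem_es_edge (LP_nodup2 a b hef)]
  simp

private theorem LP_mem' (a b : List Ed) {e f : Ed} (hef : e ≠ f) :
    edgeAt ((a.length : ℤ) + 1) f ∈
      ES (place 0 a ++ ((a.length : ℤ) + 1, e) :: ((a.length : ℤ) + 1, f) :: place ((a.length : ℤ) + 2) b) := by
  rw [mem_es_edge (LP_nodup2 a b hef)]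
  simp

private theorem LP_not (a b : List Ed) {e f g : Ed} (hge : g ≠ e) (hgf : g ≠ f) :
    edgeAt ((a.length : ℤ) + 1) g ∉
      ES (place 0 a ++ ((a.length : ℤ) + 1, e) :: ((a.length : ℤ) + 1, f) :: place ((a.length : ℤ) + 2) b) := by
  refine not_mem_es_edge fun h => ?_
  rw [List.mem_append, List.mem_cons, List.mem_cons] at h
  rcases h with h | h | h | h
  · have := LP_lt h
    simp only at this
    omega
  · exact hge (Prod.mk.inj h).2
  · exact hgf (Prod.mk.inj h).2
  · exact lt_irrefl _ (LP_gt h)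

theorem move_pair (a b : List Ed) {e f : Ed} (hef : e ≠ f)
    (h : ∀ v : ℤ, (v = e.a ∨ v = e.b) → (v = f.a ∨ v = f.b) → v ∉ run ∅ a) :
    PE (ES (place 0 a ++ ((a.length : ℤ), e) :: ((a.length : ℤ) + 1, f) :: place ((a.length : ℤ) + 2) b))
      (ES (place 0 a ++ ((a.length : ℤ) + 1, e) :: ((a.length : ℤ) + 1, f) :: place ((a.length : ℤ) + 2) b)) := by
  have h1 := es_move (place 0 a) (((a.length : ℤ) + 1, f) :: place ((a.length : ℤ) + 2) b) (a.length : ℤ) e
  have g' := LP_good a b hef h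
  have hi : Inc (place 0 a ++ ((a.length : ℤ), e) :: ((a.length : ℤ) + 1, f) :: place ((a.length : ℤ) + 2) b) := by
    rw [LP_eq]
    exact inc_place _ _
  rw [← h1] at g' ⊢
  refine pe_x (good_inc hi) g' ?_
  rintro ⟨h2, -⟩
  have h3 : edgeAt (a.length : ℤ) e ∈
      ES (place 0 a ++ ((a.length : ℤ), e) :: ((a.length : ℤ) + 1, f) :: place ((a.length : ℤ) + 2) b) := by
    rw [mem_es_edge (LP_nodup hi)]
    simp
  refine not_mem_es_edge (fun h => ?_) (h2.1 h3)
  rw [List.mem_append, List.mem_cons, List.mem_cons] at h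
  rcases h with h | h | h | h
  · have := LP_lt h
    simp only at this
    omega
  · have := (Prod.mk.inj h).1
    omega
  · exact hef (Prod.mk.inj h).2
  · exact lt_irrefl _ (LP_gt h)

theorem pe_swap (a b : List Ed) {e f : Ed}
    (h : ∀ v : ℤ, (v = e.a ∨ v = e.b) → (v = f.a ∨ v = f.b) → v ∉ run ∅ a) :
    PE (ES (place 0 (a ++ [e, f] ++ b))) (ES (place 0 (a ++ [f, e] ++ b))) := by
  by_cases hef : e = f
  · subst hef
    exact PE.refl _
  · have h1 := move_pair a b hef h
    have h2 := move_pair a b (Ne.symm hef) fun v hv hv' => h v hv' hv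
    rw [LP_eq] at h1 h2
    have h3 : ES (place 0 a ++ ((a.length : ℤ) + 1, f) :: ((a.length : ℤ) + 1, e) :: place ((a.length : ℤ) + 2) b) =
        ES (place 0 a ++ ((a.length : ℤ) + 1, e) :: ((a.length : ℤ) + 1, f) :: place ((a.length : ℤ) + 2) b) :=
      es_perm (List.Perm.append_left _ (List.Perm.swap _ _ _))
    rw [h3] at h2
    exact h1.trans h2.symm

theorem pe_cancel (a b : List Ed) {e : Ed} (h : e.a ∈ run ∅ a ↔ e.b ∉ run ∅ a) :
    PE (ES (place 0 (a ++ [e, e] ++ b))) (ES (place 0 (a ++ [] ++ b))) := by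
  have h1 := es_cancel (place 0 a) (place ((a.length : ℤ) + 2) b) (a.length : ℤ) e
  have hi : Inc (place 0 a ++ ((a.length : ℤ), e) :: ((a.length : ℤ) + 1, e) :: place ((a.length : ℤ) + 2) b) := by
    rw [LP_eq]
    exact inc_place _ _
  have hi' : Inc (place 0 a ++ place ((a.length : ℤ) + 2) b) := by
    unfold Inc
    rw [List.pairwise_append]
    refine ⟨inc_place _ _, inc_place _ _, fun p hp q hq => ?_⟩
    have h2 := LP_lt hp
    have h3 := LP_gt hq
    omega
  have g' := good_inc hi'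
  rw [← h1] at g'
  have h2 : PE (ES (place 0 a ++ ((a.length : ℤ), e) :: ((a.length : ℤ) + 1, e) :: place ((a.length : ℤ) + 2) b))
      (symmDiff (ES (place 0 a ++ ((a.length : ℤ), e) :: ((a.length : ℤ) + 1, e) :: place ((a.length : ℤ) + 2) b))
        (PX (a.length : ℤ) e)) := by
    refine pe_x (good_inc hi) g' ?_
    rintro ⟨-, h2⟩
    rw [mem_es_xed, mem_es_xed] at h2
    have h3 : st (place 0 a ++ ((a.length : ℤ), e) :: ((a.length : ℤ) + 1, e) :: place ((a.length : ℤ) + 2) b)
        (a.length : ℤ) = act (run ∅ a) e := by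
      have h4 : (place 0 a).filter (fun p => decide (p.1 ≤ (a.length : ℤ))) = place 0 a := by
        rw [List.filter_eq_self]
        intro p hp
        exact decide_eq_true (LP_lt hp).le
      have h5 : (place ((a.length : ℤ) + 2) b).filter (fun p => decide (p.1 ≤ (a.length : ℤ))) = [] := by
        rw [List.filter_eq_nil_iff]
        intro p hp
        have := LP_gt hp
        rw [decide_eq_true_iff]
        omega
      unfold st
      rw [List.filter_append, h4, List.filter_cons_of_pos (by simp), List.filter_cons_of_neg (by simp), h5]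
      have h6 : wd (place 0 a ++ [((a.length : ℤ), e)]) = a ++ [e] := by
        have h7 := wd_place 0 a
        unfold wd at h7 ⊢
        rw [List.map_append, h7]
        rfl
      rw [h6, run_append]
      rfl
    rw [h3, mem_act, mem_act] at h2
    tauto
  rw [h1, LP_eq] at h2
  refine h2.trans (inc_equiv hi' (inc_place _ _) ?_)
  have h7 := wd_place 0 a
  have h8 := wd_place ((a.length : ℤ) + 2) b
  have h9 := wd_place 0 (a ++ [] ++ b)
  rw [h9]
  unfold wd at h7 h8 ⊢
  rw [List.map_append, h7, h8, List.append_nil]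

theorem pe_sqa (a b : List Ed) {y : ℤ} (h1 : 2 * y ∉ run ∅ a) (h2 : 2 * y + 3 ∉ run ∅ a) :
    PE (ES (place 0 (a ++ [Y (2 * y), Z y] ++ b))) (ES (place 0 (a ++ [Y (2 * y + 1), Z (y + 1)] ++ b))) := by
  have e1 : Y (2 * y) ≠ Z y := by intro h; cases h
  have e2 : Y (2 * y + 1) ≠ Z (y + 1) := by intro h; cases h
  have c1 : ∀ v : ℤ, (v = (Y (2 * y)).a ∨ v = (Y (2 * y)).b) → (v = (Z y).a ∨ v = (Z y).b) → v ∉ run ∅ a := by
    intro v hv hv'
    rw [a_Y, b_Y] at hv
    rw [a_Z, b_Z] at hv'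
    have : v = 2 * y := by omega
    rw [this]
    exact h1
  have c2 : ∀ v : ℤ, (v = (Y (2 * y + 1)).a ∨ v = (Y (2 * y + 1)).b) → (v = (Z (y + 1)).a ∨ v = (Z (y + 1)).b) →
      v ∉ run ∅ a := by
    intro v hv hv'
    rw [a_Y, b_Y] at hv
    rw [a_Z, b_Z] at hv'
    have : v = 2 * y + 3 := by omega
    rw [this]
    exact h2
  have m1 := move_pair a b e1 c1
  have m2 := move_pair a b e2 c2
  have hq := es_sqa (place 0 a) (place ((a.length : ℤ) + 2) b) ((a.length : ℤ) + 1) y
  have g1 := LP_good a b e1 c1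
  have g2 := LP_good a b e2 c2
  rw [← hq] at g2
  have m3 := pe_s g1 g2 (by
    rintro ⟨h, -⟩
    refine LP_not a b ?_ ?_ (h.1 (LP_mem a b e1))
    · intro h'
      have := Ed.Y.inj h'
      omega
    · intro h'
      cases h')
  rw [hq] at m3
  rw [LP_eq] at m1 m2
  exact (m1.trans m3).trans m2.symm

theorem pe_sqb (a b : List Ed) {y : ℤ} (h1 : 2 * y + 1 ∉ run ∅ a) (h2 : 2 * y + 2 ∉ run ∅ a) :
    PE (ES (place 0 (a ++ [Y (2 * y), Z (y + 1)] ++ b))) (ES (place 0 (a ++ [Z y, Y (2 * y + 1)] ++ b))) := by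
  have e1 : Y (2 * y) ≠ Z (y + 1) := by intro h; cases h
  have e2 : Z y ≠ Y (2 * y + 1) := by intro h; cases h
  have c1 : ∀ v : ℤ, (v = (Y (2 * y)).a ∨ v = (Y (2 * y)).b) → (v = (Z (y + 1)).a ∨ v = (Z (y + 1)).b) →
      v ∉ run ∅ a := by
    intro v hv hv'
    rw [a_Y, b_Y] at hv
    rw [a_Z, b_Z] at hv'
    have : v = 2 * y + 2 := by omega
    rw [this]
    exact h2
  have c2 : ∀ v : ℤ, (v = (Z y).a ∨ v = (Z y).b) → (v = (Y (2 * y + 1)).a ∨ v = (Y (2 * y + 1)).b) → v ∉ run ∅ a := by
    intro v hv hv'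
    rw [a_Z, b_Z] at hv
    rw [a_Y, b_Y] at hv'
    have : v = 2 * y + 1 := by omega
    rw [this]
    exact h1
  have m1 := move_pair a b e1 c1
  have m2 := move_pair a b e2 c2
  have hq := es_sqb (place 0 a) (place ((a.length : ℤ) + 2) b) ((a.length : ℤ) + 1) y
  have g1 := LP_good a b e1 c1
  have g2 := LP_good a b e2 c2
  rw [← hq] at g2
  have m3 := pe_s g1 g2 (by
    rintro ⟨h, -⟩
    refine LP_not a b ?_ ?_ (h.1 (LP_mem a b e1))
    · intro h'
      have := Ed.Y.inj h'
      omega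
    · intro h'
      cases h')
  rw [hq] at m3
  rw [LP_eq] at m1 m2
  exact (m1.trans m3).trans m2.symm

/-- Equivalent words give polygons of the same class. -/
theorem leq_pe {w w' : List Ed} (h : LEq ∅ w w') : PE (ES (place 0 w)) (ES (place 0 w')) := by
  induction h with
  | rel u v h =>
    obtain ⟨a, u, v, b, rfl, rfl, h⟩ := h
    cases h with
    | swap e f h => exact pe_swap a b h
    | cancel e h => exact pe_cancel a b h
    | sqa y h1 h2 => exact pe_sqa a b h1 h2
    | sqb y h1 h2 => exact pe_sqb a b h1 h2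
  | refl u => exact PE.refl _
  | symm u v _ ih => exact ih.symm
  | trans u v w _ _ ih1 ih2 => exact ih1.trans ih2

end Pool.Agent.Lib.MP_dd2c10_prF
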