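import Pool.Agent.Lib.MP_dd2c10_prF.Lad

/-! JOB Sq (MP_dd2c10_pr): one edge of a square is replaced by the other three.

PROOFS. (Vertices of the square: `2 y, 2 y + 1, 2 y + 2, 2 y + 3`; `2 (y + 1) = 2 y + 2`, `2 (y + 1) + 1 = 2 y + 3`.)
* `sq_Y0` (`2 y + 1, 2 y + 3 ∉ T`): if `2 y + 2 ∉ T`: `[Y (2 y)] ~ [Y (2 y), Z (y + 1), Z (y + 1)]` (`LEq.cancel` symm after `Y (2 y)`: `2 y + 2` occupied, `2 y + 3` empty) `~ [Z y, Y (2 y + 1), Z (y + 1)]` (`LEq.sqb`). If `2 y + 2 ∈ T`: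
  `[Y (2 y)] ~ [Z (y + 1), Z (y + 1), Y (2 y)] ~ [Z (y + 1), Y (2 y), Z (y + 1)]` (`LEq.swap` at the state after the first letter, where the common vertex `2 y + 2` is empty) `~ [Z (y + 1), Z y, Y (2 y + 1)]` (`LEq.sqb` at that state) `~ [Z y, Z (y + 1), Y (2 y + 1)]`
  (no common vertex) `~ [Z y, Y (2 y + 1), Z (y + 1)]` (`LEq.swap` at the state after `Z y`, common vertex `2 y + 3` empty).
* `sq_Y1` (`2 y, 2 y + 2 ∉ T`): the mirror image. If `2 y + 3 ∉ T`: `[Y (2 y + 1)] ~ [Y (2 y + 1), Z (y + 1), Z (y + 1)] ~ [Y (2 y), Z y, Z (y + 1)]` (`LEq.sqa` symm: needs `2 y, 2 y + 3 ∉ T`) `~ [Z y, Y (2 y), Z (y + 1)]` (common vertex `2 y`). If `2 y + 3 ∈ T`: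
  `[Y (2 y + 1)] ~ [Z (y + 1), Z (y + 1), Y (2 y + 1)] ~ [Z (y + 1), Y (2 y + 1), Z (y + 1)] ~ [Z (y + 1), Y (2 y), Z y] ~` reorder to `[Z y, Y (2 y), Z (y + 1)]` with `LEq.swap` (common vertices empty at the respective states).
* `sq_Z0` (`2 y + 2, 2 y + 3 ∉ T`): if `2 y + 1 ∉ T`: `[Z y] ~ [Z y, Y (2 y + 1), Y (2 y + 1)] ~ [Y (2 y), Z (y + 1), Y (2 y + 1)]` (`LEq.sqb` symm). If `2 y + 1 ∈ T`: `[Z y] ~ [Y (2 y + 1), Y (2 y + 1), Z y] ~ [Y (2 y + 1), Z y, Y (2 y + 1)]` (common vertex `2 y + 1` empty after the first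
  letter) `~ [Y (2 y + 1), Y (2 y), Z (y + 1)]`, wait: at the state after `Y (2 y + 1)`: `Z y, Y (2 y + 1) ~ Y (2 y), Z (y + 1)` (`sqb` symm: `2 y + 1, 2 y + 2` empty there) `~ [Y (2 y), Y (2 y + 1), Z (y + 1)] ~ [Y (2 y), Z (y + 1), Y (2 y + 1)]` (common vertex `2 y + 3` empty at the
  state after `Y (2 y)`).
* `sq_Z1` (`2 y, 2 y + 1 ∉ T`): if `2 y + 2 ∉ T`: `[Z (y + 1)] ~ [Y (2 y), Y (2 y), Z (y + 1)]`? The strand condition: exactly one of `2 y, 2 y + 2` in `T` is needed in front; if `2 y + 2 ∉ T` insert behind: `[Z (y + 1), Y (2 y), Y (2 y)]` (after `Z (y + 1)`: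
  `2 y + 2` occupied, `2 y` empty) `~ [Y (2 y), Z (y + 1), Y (2 y)]` (common vertex `2 y + 2 ∉ T`) `~ [Z y, Y (2 y + 1), Y (2 y)]` (`sqb`) `~` reorder to `[Y (2 y), Z y, Y (2 y + 1)]` with `LEq.swap` (common vertices `2 y`, `2 y + 1` empty). If
  `2 y + 2 ∈ T`: `[Z (y + 1)] ~ [Y (2 y), Y (2 y), Z (y + 1)] ~ [Y (2 y), Z y, Y (2 y + 1)]` (`sqb` at the state after the first letter: `2 y + 1, 2 y + 2` empty there).
In all cases the intermediate states are computed with `mem_act` and `omega`. -/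

namespace Pool.Agent.Lib.MP_dd2c10_prF

open Ed

set_option linter.unusedSimpArgs false

theorem sq_Y0 {T : Finset ℤ} {y : ℤ} (h1 : 2 * y + 1 ∉ T) (h3 : 2 * y + 3 ∉ T) :
    LEq T [Y (2 * y)] [Z y, Y (2 * y + 1), Z (y + 1)] := by
  have e1 : 2 * (y + 1) = 2 * y + 2 := by ring
  have e2 : 2 * y + 2 + 1 = 2 * y + 3 := by ring
  have e3 : 2 * y + 1 + 2 = 2 * y + 3 := by ring
  by_cases h2 : 2 * y + 2 ∈ T
  · refine (LEq.cancel (Z (y + 1)) [Y (2 * y)] (by simp [mem_act, e1, e2, e3, h2, h3])).symm.trans ?_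
    refine (LEq.cons _ (LEq.swap (Z (y + 1)) (Y (2 * y)) [] (by
        intro v hv hv'
        simp only [a_Y, b_Y, a_Z, b_Z] at hv hv'
        have hv0 : v = 2 * y + 2 := by omega
        rw [hv0]
        simp [mem_act, e1, e2, e3, h2, h3]))).trans ?_
    refine (LEq.cons _ (LEq.sqb y [] (by simp [mem_act, e1, e2, e3, h1, h2, h3]) (by simp [mem_act, e1, e2, e3, h1, h2, h3]))).trans ?_
    refine (LEq.swap (Z (y + 1)) (Z y) [Y (2 * y + 1)] (by
        intro v hv hv'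
        simp only [a_Y, b_Y, a_Z, b_Z] at hv hv'
        exfalso
        omega)).trans ?_
    exact LEq.cons _ (LEq.swap (Z (y + 1)) (Y (2 * y + 1)) [] (by
        intro v hv hv'
        simp only [a_Y, b_Y, a_Z, b_Z] at hv hv'
        have hv0 : v = 2 * y + 3 := by omega
        rw [hv0]
        simp [mem_act, e1, e2, e3, h1, h2, h3]))
  · refine (LEq.cons (Y (2 * y)) (LEq.cancel (Z (y + 1)) [] (by simp [mem_act, e1, e2, e3, h2, h3])).symm).trans ?_
    exact LEq.sqb y [Z (y + 1)] h1 h2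

theorem sq_Y1 {T : Finset ℤ} {y : ℤ} (h0 : 2 * y ∉ T) (h2 : 2 * y + 2 ∉ T) :
    LEq T [Y (2 * y + 1)] [Z y, Y (2 * y), Z (y + 1)] := by
  have e1 : 2 * (y + 1) = 2 * y + 2 := by ring
  have e2 : 2 * y + 2 + 1 = 2 * y + 3 := by ring
  have e3 : 2 * y + 1 + 2 = 2 * y + 3 := by ring
  by_cases h3 : 2 * y + 3 ∈ T
  · refine (LEq.cancel (Z (y + 1)) [Y (2 * y + 1)] (by simp [mem_act, e1, e2, e3, h2, h3])).symm.trans ?_
    refine (LEq.cons _ (LEq.swap (Z (y + 1)) (Y (2 * y + 1)) [] (by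
        intro v hv hv'
        simp only [a_Y, b_Y, a_Z, b_Z] at hv hv'
        have hv0 : v = 2 * y + 3 := by omega
        rw [hv0]
        simp [mem_act, e1, e2, e3, h2, h3]))).trans ?_
    refine (LEq.cons _ (LEq.sqa y [] (by simp [mem_act, e1, e2, e3, h0, h2, h3]) (by simp [mem_act, e1, e2, e3, h0, h2, h3])).symm).trans ?_
    refine (LEq.cons _ (LEq.swap (Y (2 * y)) (Z y) [] (by
        intro v hv hv'
        simp only [a_Y, b_Y, a_Z, b_Z] at hv hv'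
        have hv0 : v = 2 * y := by omega
        rw [hv0]
        simp [mem_act, e1, e2, e3, h0, h2, h3]))).trans ?_
    refine (LEq.swap (Z (y + 1)) (Z y) [Y (2 * y)] (by
        intro v hv hv'
        simp only [a_Y, b_Y, a_Z, b_Z] at hv hv'
        exfalso
        omega)).trans ?_
    exact LEq.cons _ (LEq.swap (Z (y + 1)) (Y (2 * y)) [] (by
        intro v hv hv'
        simp only [a_Y, b_Y, a_Z, b_Z] at hv hv'
        have hv0 : v = 2 * y + 2 := by omega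
        rw [hv0]
        simp [mem_act, e1, e2, e3, h0, h2, h3]))
  · refine (LEq.cons (Y (2 * y + 1)) (LEq.cancel (Z (y + 1)) [] (by simp [mem_act, e1, e2, e3, h2, h3])).symm).trans ?_
    refine (LEq.sqa y [Z (y + 1)] h0 h3).symm.trans ?_
    exact LEq.swap (Y (2 * y)) (Z y) [Z (y + 1)] (by
        intro v hv hv'
        simp only [a_Y, b_Y, a_Z, b_Z] at hv hv'
        have hv0 : v = 2 * y := by omega
        rw [hv0]
        simp [mem_act, e1, e2, e3, h0, h2, h3])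

theorem sq_Z0 {T : Finset ℤ} {y : ℤ} (h2 : 2 * y + 2 ∉ T) (h3 : 2 * y + 3 ∉ T) :
    LEq T [Z y] [Y (2 * y), Z (y + 1), Y (2 * y + 1)] := by
  have e1 : 2 * (y + 1) = 2 * y + 2 := by ring
  have e2 : 2 * y + 2 + 1 = 2 * y + 3 := by ring
  have e3 : 2 * y + 1 + 2 = 2 * y + 3 := by ring
  by_cases h1 : 2 * y + 1 ∈ T
  · refine (LEq.cancel (Y (2 * y + 1)) [Z y] (by simp [mem_act, e1, e2, e3, h1, h3])).symm.trans ?_
    refine (LEq.cons _ (LEq.swap (Y (2 * y + 1)) (Z y) [] (by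
        intro v hv hv'
        simp only [a_Y, b_Y, a_Z, b_Z] at hv hv'
        have hv0 : v = 2 * y + 1 := by omega
        rw [hv0]
        simp [mem_act, e1, e2, e3, h1, h3]))).trans ?_
    refine (LEq.cons _ (LEq.sqb y [] (by simp [mem_act, e1, e2, e3, h1, h2, h3]) (by simp [mem_act, e1, e2, e3, h1, h2, h3])).symm).trans ?_
    refine (LEq.swap (Y (2 * y + 1)) (Y (2 * y)) [Z (y + 1)] (by
        intro v hv hv'
        simp only [a_Y, b_Y, a_Z, b_Z] at hv hv'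
        exfalso
        omega)).trans ?_
    exact LEq.cons _ (LEq.swap (Y (2 * y + 1)) (Z (y + 1)) [] (by
        intro v hv hv'
        simp only [a_Y, b_Y, a_Z, b_Z] at hv hv'
        have hv0 : v = 2 * y + 3 := by omega
        rw [hv0]
        simp [mem_act, e1, e2, e3, h1, h2, h3]))
  · refine (LEq.cons (Z y) (LEq.cancel (Y (2 * y + 1)) [] (by simp [mem_act, e1, e2, e3, h1, h3])).symm).trans ?_
    exact (LEq.sqb y [Y (2 * y + 1)] h1 h2).symm

theorem sq_Z1 {T : Finset ℤ} {y : ℤ} (h0 : 2 * y ∉ T) (h1 : 2 * y + 1 ∉ T) :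
    LEq T [Z (y + 1)] [Y (2 * y), Z y, Y (2 * y + 1)] := by
  have e1 : 2 * (y + 1) = 2 * y + 2 := by ring
  have e2 : 2 * y + 2 + 1 = 2 * y + 3 := by ring
  have e3 : 2 * y + 1 + 2 = 2 * y + 3 := by ring
  by_cases h2 : 2 * y + 2 ∈ T
  · refine (LEq.cancel (Y (2 * y)) [Z (y + 1)] (by simp [mem_act, e1, e2, e3, h0, h2])).symm.trans ?_
    exact LEq.cons _ (LEq.sqb y [] (by simp [mem_act, e1, e2, e3, h0, h1, h2]) (by simp [mem_act, e1, e2, e3, h0, h1, h2]))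
  · refine (LEq.cons (Z (y + 1)) (LEq.cancel (Y (2 * y)) [] (by simp [mem_act, e1, e2, e3, h0, h2])).symm).trans ?_
    refine (LEq.swap (Z (y + 1)) (Y (2 * y)) [Y (2 * y)] (by
        intro v hv hv'
        simp only [a_Y, b_Y, a_Z, b_Z] at hv hv'
        have hv0 : v = 2 * y + 2 := by omega
        rw [hv0]
        simp [mem_act, e1, e2, e3, h0, h1, h2])).trans ?_
    refine (LEq.sqb y [Y (2 * y)] h1 h2).trans ?_
    refine (LEq.cons _ (LEq.swap (Y (2 * y + 1)) (Y (2 * y)) [] (by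
        intro v hv hv'
        simp only [a_Y, b_Y, a_Z, b_Z] at hv hv'
        exfalso
        omega))).trans ?_
    exact LEq.swap (Z y) (Y (2 * y)) [Y (2 * y + 1)] (by
        intro v hv hv'
        simp only [a_Y, b_Y, a_Z, b_Z] at hv hv'
        have hv0 : v = 2 * y := by omega
        rw [hv0]
        simp [mem_act, e1, e2, e3, h0, h1, h2])

end Pool.Agent.Lib.MP_dd2c10_prF
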