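import Pool.Agent.Lib.MP_dd2c10_prF.Reo
import Pool.Agent.Lib.MP_dd2c10_prF.Sq

/-! JOB MvS (MP_dd2c10_pr): elementary moves across a square of a column give equivalent words.

The square `y` of the column `c` has the edges `Y0 = Y (2 y)`, `Z1 = Z (y + 1)`, `Y1 = Y (2 y + 1)`, `Z0 = Z y` (in cyclic order) with the vertices `2 y` (`Z0 Y0`), `2 y + 2` (`Y0 Z1`), `2 y + 3` (`Z1 Y1`), `2 y + 1` (`Y1 Z0`).
`ω' = symmDiff ω (PS c y)`: the four edges are toggled in the column `c`, nothing else changes.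

PROOFS.
* `vertex_out`: `n ∈ run ∅ (wd A)` is the parity of the number of letters of `A` with the end `n`. The letters of `A` in columns `≤ c - 1` are all letters of the reading in these columns, so they give `n ∈ st _ (c - 1)`, i.e. `xed (c - 1) n ∈ ω`
  (`rdg_es`, `mem_es_xed`), false. The letters of `A` in the column `c` do not have the end `n`. Formal proof: sort `A` is `A₁ ++ A₂` with `A₁ = A.filter (·.1 ≤ c - 1)`, `A₂ = A.filter (·.1 = c)` (`A` is sorted: or prove that membership of `n` in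
  `run T (wd A)` equals membership in `run T (wd (A.filter q))` if the letters outside `q` do not have the end `n`, by induction on `A` generalizing `T`; apply it with `q p = (p.1 ≤ c - 1)`).
* `mvs_core`: `S`, `S'` list the edges of the square in `ω`, `ω'`. `exists_split` with `S` (and `S' := []` there) gives the reading `A ++ (S in the column c) ++ B` of `ω`; then `A ++ (S' in the column c) ++ B` is a reading of `ω'`. `rdg_leq` for `ω` and for `ω'`, and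
  `wd A ++ S ++ wd B ~ wd A ++ S' ++ wd B` by the hypothesis `hS` at `T = run ∅ (wd A)`. The hypothesis `hS` may use: for each vertex `n` such that two of the four edges in `ω` meet in `n`, or two of the four edges in `ω'` meet in `n`, `n ∉ T`: by `vertex_out`: `loc_of_good` for `ω`
  or `ω'` gives `xed (c - 1) n ∉` and that there is no third ladder edge at `n` in the column `c` (letters of `A` in the column `c` are edges of both `ω` and `ω'` outside the square).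
* `mvs`: by `hp` one of twelve patterns of the four edges in `ω`. `{Y0}`: `sq_Y0` (in `ω'` the edges `Z1, Y1` meet in `2 y + 3`, `Y1, Z0` in `2 y + 1`). `{Y1}`: `sq_Y1`; `{Z0}`: `sq_Z0`; `{Z1}`: `sq_Z1`; `{Y0, Z0}`: `LEq.sqa` (`2 y`, `2 y + 3`); `{Y0, Z1}`: `LEq.sqb` (`2 y + 2`, `2 y + 1`).
  The other six patterns are these six with `ω` and `ω'` exchanged (`ω = symmDiff ω' (PS c y)`, `LEq.symm`). -/

namespace Pool.Agent.Lib.MP_dd2c10_prF

open Pool.Agent.Lib.MP_dd2c10_pr Ed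

private theorem MvS_congr {n : ℤ} {T T' : Finset ℤ} (w : List Ed) (h : n ∈ T ↔ n ∈ T') : n ∈ run T w ↔ n ∈ run T' w := by
  induction w generalizing T T' with
  | nil => exact h
  | cons e w ih =>
    rw [run_cons, run_cons]
    refine ih ?_
    rw [mem_act, mem_act, h]

private theorem MvS_filter {n : ℤ} (q : ℤ × Ed → Bool) (ℓ : List (ℤ × Ed)) (T : Finset ℤ)
    (h : ∀ p ∈ ℓ, q p = false → ¬ (p.2.a = n ∨ p.2.b = n)) :
    n ∈ run T (wd ℓ) ↔ n ∈ run T (wd (ℓ.filter q)) := by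
  induction ℓ generalizing T with
  | nil => exact Iff.rfl
  | cons p ℓ ih =>
    have ih' := fun T => ih T fun p' hp' => h p' (List.mem_cons_of_mem _ hp')
    have e1 : wd (p :: ℓ) = p.2 :: wd ℓ := rfl
    rw [e1, run_cons]
    cases hq : q p
    · rw [List.filter_cons_of_neg (by rw [hq]; exact Bool.false_ne_true)]
      rw [← ih' T]
      refine MvS_congr _ ?_
      have h1 := h p List.mem_cons_self hq
      rw [mem_act]
      constructor
      · intro h2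
        by_contra h3
        exact h2 ⟨fun h4 => absurd h4 h3, fun h4 => absurd (h4.imp Eq.symm Eq.symm) h1⟩
      · intro h2 h3
        exact h1 ((h3.1 h2).imp Eq.symm Eq.symm)
    · rw [List.filter_cons_of_pos hq]
      have e2 : wd (p :: ℓ.filter q) = p.2 :: wd (ℓ.filter q) := rfl
      rw [e2, run_cons]
      exact ih' _

theorem vertex_out {ω : Set (Sym2 Pt)} (hG : Good ω) (hf : ω.Finite) {c n : ℤ} {A B : List (ℤ × Ed)} {S : List Ed}
    (hr : Rdg ω (A ++ (S.map fun e => (c, e)) ++ B)) (hA : ∀ p ∈ A, p.1 ≤ c) (hB : ∀ p ∈ B, c + 1 ≤ p.1)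
    (h1 : xed (c - 1) n ∉ ω) (h2 : ∀ g, (c, g) ∈ A → ¬ (g.a = n ∨ g.b = n)) : n ∉ run ∅ (wd A) := by
  rw [rdg_es hG hf hr, mem_es_xed] at h1
  have e1 : (A ++ (S.map fun e => (c, e)) ++ B).filter (fun p => decide (p.1 ≤ c - 1)) =
      A.filter (fun p => decide (p.1 ≤ c - 1)) := by
    rw [List.filter_append, List.filter_append]
    have f1 : (S.map fun e => (c, e)).filter (fun p => decide (p.1 ≤ c - 1)) = [] := by
      rw [List.filter_eq_nil_iff]
      intro p hp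
      obtain ⟨e, _, rfl⟩ := List.mem_map.1 hp
      simp
    have f2 : B.filter (fun p => decide (p.1 ≤ c - 1)) = [] := by
      rw [List.filter_eq_nil_iff]
      intro p hp
      have := hB p hp
      simp only [decide_eq_true_eq]
      omega
    rw [f1, f2, List.append_nil, List.append_nil]
  unfold st at h1
  rw [e1] at h1
  rw [MvS_filter (fun p => decide (p.1 ≤ c - 1)) A ∅]
  · exact h1
  · intro p hp hq
    have h3 := hA p hp
    have h4 : ¬ (p.1 ≤ c - 1) := by simpa using hq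
    have h5 : p.1 = c := by omega
    refine h2 p.2 ?_
    rw [← h5]
    exact hp

theorem mvs_core {ω ω' : Set (Sym2 Pt)} {c y : ℤ} {ℓ ℓ' : List (ℤ × Ed)} (hG : Good ω) (hf : ω.Finite) (hG' : Good ω')
    (hf' : ω'.Finite) (h : ω' = symmDiff ω (PS c y)) (hr : Rdg ω ℓ) (hr' : Rdg ω' ℓ') (S S' : List Ed)
    (hn : S.Nodup) (hn' : S'.Nodup)
    (hm : ∀ e, e ∈ S ↔ (e = Y (2 * y) ∨ e = Z (y + 1) ∨ e = Y (2 * y + 1) ∨ e = Z y) ∧ edgeAt c e ∈ ω)
    (hm' : ∀ e, e ∈ S' ↔ (e = Y (2 * y) ∨ e = Z (y + 1) ∨ e = Y (2 * y + 1) ∨ e = Z y) ∧ edgeAt c e ∈ ω')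
    (hS : ∀ T : Finset ℤ, (∀ (n : ℤ) (e f : Ed), e ≠ f → (e.a = n ∨ e.b = n) → (f.a = n ∨ f.b = n) →
      ((e ∈ S ∧ f ∈ S) ∨ (e ∈ S' ∧ f ∈ S')) → n ∉ T) → LEq T S S') : LEq ∅ (wd ℓ) (wd ℓ') := by
  obtain ⟨A, B, hAB, hA, hB⟩ := exists_split hf c (S := S) (S' := []) hn List.nodup_nil
    (fun e he => ((hm e).1 he).2) (fun e he => absurd he List.not_mem_nil)
  rw [List.map_nil, List.append_nil] at hAB
  have hps : ∀ c' e, edgeAt c' e ∈ PS c y ↔ c' = c ∧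
      (e = Y (2 * y) ∨ e = Z (y + 1) ∨ e = Y (2 * y + 1) ∨ e = Z y) := by
    intro c' e
    unfold PS
    rw [Set.mem_insert_iff, Set.mem_insert_iff, Set.mem_insert_iff, Set.mem_singleton_iff,
      edgeAt_inj, edgeAt_inj, edgeAt_inj, edgeAt_inj]
    rw [← and_or_left, ← and_or_left, ← and_or_left]
  have hnd := hAB.2.1
  rw [List.nodup_append, List.nodup_append] at hnd
  obtain ⟨⟨nA, nS, dAS⟩, nB, dAB⟩ := hnd
  have hA0 : ∀ e, (e = Y (2 * y) ∨ e = Z (y + 1) ∨ e = Y (2 * y + 1) ∨ e = Z y) → (c, e) ∉ A := by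
    intro e he hmem
    have h1 : edgeAt c e ∈ ω := by
      rw [← hAB.2.2]
      rw [List.mem_append, List.mem_append]
      exact Or.inl (Or.inl hmem)
    have h2 : e ∈ S := (hm e).2 ⟨he, h1⟩
    exact dAS _ hmem _ (List.mem_map.2 ⟨e, h2, rfl⟩) rfl
  have hB0 : ∀ e, (c, e) ∉ B := by
    intro e he
    have := hB _ he
    simp only at this
    omega
  have hr2 : Rdg ω' (A ++ (S'.map fun e => (c, e)) ++ B) := by
    refine ⟨?_, ?_, ?_⟩
    · have h1 := hAB.1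
      rw [List.pairwise_append, List.pairwise_append] at h1 ⊢
      refine ⟨⟨h1.1.1, ?_, ?_⟩, h1.2.1, ?_⟩
      · rw [List.pairwise_map]
        exact List.Pairwise.imp (fun _ => le_rfl) (List.pairwise_of_forall (R := fun _ _ => True) fun _ _ => trivial)
      · intro p hp q hq
        obtain ⟨e, _, rfl⟩ := List.mem_map.1 hq
        exact hA p hp
      · intro p hp q hq
        have h2 := hB q hq
        rcases List.mem_append.1 hp with h3 | h3
        · have := hA p h3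
          omega
        · obtain ⟨e, _, rfl⟩ := List.mem_map.1 h3
          simp only
          omega
    · rw [List.nodup_append, List.nodup_append]
      refine ⟨⟨nA, hn'.map fun e f h => (Prod.mk.injEq _ _ _ _ ▸ h : _ ∧ _).2, ?_⟩, nB, ?_⟩
      · intro p hp q hq
        obtain ⟨e, he, rfl⟩ := List.mem_map.1 hq
        intro h1
        rw [h1] at hp
        exact hA0 e ((hm' e).1 he).1 hp
      · intro p hp q hq h1
        rcases List.mem_append.1 hp with h3 | h3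
        · exact dAB p (List.mem_append.2 (Or.inl h3)) q hq h1
        · obtain ⟨e, _, rfl⟩ := List.mem_map.1 h3
          rw [← h1] at hq
          exact hB0 e hq
    · intro c' e
      have h1 := hAB.2.2 c' e
      rw [List.mem_append, List.mem_append] at h1 ⊢
      have h2 : ∀ L : List Ed, (c', e) ∈ (L.map fun e => (c, e)) ↔ c' = c ∧ e ∈ L := by
        intro L
        rw [List.mem_map]
        constructor
        · rintro ⟨f, hf, h3⟩
          rw [Prod.mk.injEq] at h3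
          exact ⟨h3.1.symm, h3.2 ▸ hf⟩
        · rintro ⟨h3, h4⟩
          exact ⟨e, h4, by rw [h3]⟩
      rw [h2] at h1 ⊢
      have h3 := hps c' e
      by_cases hq : c' = c ∧ (e = Y (2 * y) ∨ e = Z (y + 1) ∨ e = Y (2 * y + 1) ∨ e = Z y)
      · obtain ⟨hc, hq⟩ := hq
        rw [hc]
        constructor
        · intro h4
          rcases h4 with (h4 | h4) | h4
          · exact absurd h4 (hA0 e hq)
          · exact ((hm' e).1 h4.2).2
          · exact absurd h4 (hB0 e)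
        · intro h4
          exact Or.inl (Or.inr ⟨rfl, (hm' e).2 ⟨hq, h4⟩⟩)
      · have h4 : edgeAt c' e ∉ PS c y := fun h5 => hq (h3.1 h5)
        have h5 : edgeAt c' e ∈ ω' ↔ edgeAt c' e ∈ ω := by
          rw [h, Set.mem_symmDiff]
          constructor
          · intro h6
            rcases h6 with h6 | h6
            · exact h6.1
            · exact absurd h6.1 h4
          · intro h6
            exact Or.inl ⟨h6, h4⟩
        have h6 : ¬ (c' = c ∧ e ∈ S) := fun h7 => hq ⟨h7.1, ((hm e).1 h7.2).1⟩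
        have h7 : ¬ (c' = c ∧ e ∈ S') := fun h7 => hq ⟨h7.1, ((hm' e).1 h7.2).1⟩
        rw [h5, ← h1]
        constructor
        · intro h8
          rcases h8 with (h8 | h8) | h8
          · exact Or.inl (Or.inl h8)
          · exact absurd h8 h7
          · exact Or.inr h8
        · intro h8
          rcases h8 with (h8 | h8) | h8
          · exact Or.inl (Or.inl h8)
          · exact absurd h8 h6
          · exact Or.inr h8
  have hlA : ∀ L : List Ed, wd (A ++ (L.map fun e => (c, e)) ++ B) = wd A ++ (L ++ wd B) := by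
    intro L
    unfold wd
    rw [List.map_append, List.map_append, List.map_map, List.append_assoc]
    have e1 : List.map (Prod.snd ∘ fun e : Ed => (c, e)) L = L := by
      have e2 : (Prod.snd ∘ fun e : Ed => (c, e)) = id := rfl
      rw [e2, List.map_id]
    rw [e1]
  have k1 := rdg_leq hG hf hr hAB
  have k2 := rdg_leq hG' hf' hr2 hr'
  rw [hlA] at k1 k2
  refine k1.trans (LEq.trans (LEq.left (wd A) (LEq.right (hS _ ?_) (wd B))) k2)
  intro n e f hef he hfn hSS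
  rcases hSS with ⟨h1, h2⟩ | ⟨h1, h2⟩
  · obtain ⟨l1, l2⟩ := loc_of_good hG c n e f hef he hfn ((hm e).1 h1).2 ((hm f).1 h2).2
    refine vertex_out hG hf hAB hA hB l1 ?_
    intro g hg hgn
    have h3 : edgeAt c g ∈ ω := by
      rw [← hAB.2.2, List.mem_append, List.mem_append]
      exact Or.inl (Or.inl hg)
    rcases l2 g hgn h3 with h4 | h4
    · rw [h4] at hg
      exact hA0 e ((hm e).1 h1).1 hg
    · rw [h4] at hg
      exact hA0 f ((hm f).1 h2).1 hg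
  · obtain ⟨l1, l2⟩ := loc_of_good hG' c n e f hef he hfn ((hm' e).1 h1).2 ((hm' f).1 h2).2
    refine vertex_out hG' hf' hr2 hA hB l1 ?_
    intro g hg hgn
    have h3 : edgeAt c g ∈ ω' := by
      rw [← hr2.2.2, List.mem_append, List.mem_append]
      exact Or.inl (Or.inl hg)
    rcases l2 g hgn h3 with h4 | h4
    · rw [h4] at hg
      exact hA0 e ((hm' e).1 h1).1 hg
    · rw [h4] at hg
      exact hA0 f ((hm' f).1 h2).1 hg

private theorem MvS_half {ω ω' : Set (Sym2 Pt)} {c y : ℤ} {ℓ ℓ' : List (ℤ × Ed)} (hG : Good ω) (hf : ω.Finite) (hG' : Good ω')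
    (hf' : ω'.Finite) (h : ω' = symmDiff ω (PS c y)) (hr : Rdg ω ℓ) (hr' : Rdg ω' ℓ')
    (hx : ∀ e, (e = Y (2 * y) ∨ e = Z (y + 1) ∨ e = Y (2 * y + 1) ∨ e = Z y) → (edgeAt c e ∈ ω' ↔ edgeAt c e ∉ ω))
    (hp : (edgeAt c (Y (2 * y)) ∈ ω ∧ edgeAt c (Z (y + 1)) ∉ ω ∧ edgeAt c (Y (2 * y + 1)) ∉ ω ∧ edgeAt c (Z y) ∉ ω) ∨
      (edgeAt c (Y (2 * y)) ∉ ω ∧ edgeAt c (Z (y + 1)) ∉ ω ∧ edgeAt c (Y (2 * y + 1)) ∈ ω ∧ edgeAt c (Z y) ∉ ω) ∨
      (edgeAt c (Y (2 * y)) ∉ ω ∧ edgeAt c (Z (y + 1)) ∉ ω ∧ edgeAt c (Y (2 * y + 1)) ∉ ω ∧ edgeAt c (Z y) ∈ ω) ∨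
      (edgeAt c (Y (2 * y)) ∉ ω ∧ edgeAt c (Z (y + 1)) ∈ ω ∧ edgeAt c (Y (2 * y + 1)) ∉ ω ∧ edgeAt c (Z y) ∉ ω) ∨
      (edgeAt c (Y (2 * y)) ∈ ω ∧ edgeAt c (Z (y + 1)) ∉ ω ∧ edgeAt c (Y (2 * y + 1)) ∉ ω ∧ edgeAt c (Z y) ∈ ω) ∨
      (edgeAt c (Y (2 * y)) ∈ ω ∧ edgeAt c (Z (y + 1)) ∈ ω ∧ edgeAt c (Y (2 * y + 1)) ∉ ω ∧ edgeAt c (Z y) ∉ ω)) :
    LEq ∅ (wd ℓ) (wd ℓ') := by
  have x0 := hx (Y (2 * y)) (Or.inl rfl)
  have x1 := hx (Z (y + 1)) (Or.inr (Or.inl rfl))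
  have x2 := hx (Y (2 * y + 1)) (Or.inr (Or.inr (Or.inl rfl)))
  have x3 := hx (Z y) (Or.inr (Or.inr (Or.inr rfl)))
  have d01 : Y (2 * y) ≠ Z (y + 1) := by simp
  have d02 : Y (2 * y) ≠ Y (2 * y + 1) := by simp
  have d03 : Y (2 * y) ≠ Z y := by simp
  have d12 : Y (2 * y + 1) ≠ Z (y + 1) := by simp
  have d13 : Z y ≠ Z (y + 1) := by simp
  have d23 : Y (2 * y + 1) ≠ Z y := by simp
  have v0 : (Y (2 * y)).a = 2 * y := rfl
  have v0' : (Z y).a = 2 * y := rfl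
  have v1 : (Y (2 * y + 1)).a = 2 * y + 1 := rfl
  have v1' : (Z y).b = 2 * y + 1 := rfl
  have v2 : (Y (2 * y)).b = 2 * y + 2 := rfl
  have v2' : (Z (y + 1)).a = 2 * y + 2 := by rw [a_Z]; ring
  have v3 : (Y (2 * y + 1)).b = 2 * y + 3 := by rw [b_Y]; ring
  have v3' : (Z (y + 1)).b = 2 * y + 3 := by rw [b_Z]; ring
  rcases hp with ⟨p0, p1, p2, p3⟩ | ⟨p0, p1, p2, p3⟩ | ⟨p0, p1, p2, p3⟩ | ⟨p0, p1, p2, p3⟩ | ⟨p0, p1, p2, p3⟩ | ⟨p0, p1, p2, p3⟩
  · refine mvs_core hG hf hG' hf' h hr hr' [Y (2 * y)] [Z y, Y (2 * y + 1), Z (y + 1)] (by simp) (by simp) ?_ ?_ ?_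
    · intro e
      constructor <;> grind
    · intro e
      constructor <;> grind
    · intro T hT
      exact sq_Y0 (hT _ _ _ d23 (Or.inl v1) (Or.inr v1') (Or.inr ⟨by simp, by simp⟩))
        (hT _ _ _ d12 (Or.inr v3) (Or.inr v3') (Or.inr ⟨by simp, by simp⟩))
  · refine mvs_core hG hf hG' hf' h hr hr' [Y (2 * y + 1)] [Z y, Y (2 * y), Z (y + 1)] (by simp) (by simp) ?_ ?_ ?_
    · intro e
      constructor <;> grind
    · intro e
      constructor <;> grind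
    · intro T hT
      exact sq_Y1 (hT _ _ _ d03 (Or.inl v0) (Or.inl v0') (Or.inr ⟨by simp, by simp⟩))
        (hT _ _ _ d01 (Or.inr v2) (Or.inl v2') (Or.inr ⟨by simp, by simp⟩))
  · refine mvs_core hG hf hG' hf' h hr hr' [Z y] [Y (2 * y), Z (y + 1), Y (2 * y + 1)] (by simp) (by simp) ?_ ?_ ?_
    · intro e
      constructor <;> grind
    · intro e
      constructor <;> grind
    · intro T hT
      exact sq_Z0 (hT _ _ _ d01 (Or.inr v2) (Or.inl v2') (Or.inr ⟨by simp, by simp⟩))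
        (hT _ _ _ d12 (Or.inr v3) (Or.inr v3') (Or.inr ⟨by simp, by simp⟩))
  · refine mvs_core hG hf hG' hf' h hr hr' [Z (y + 1)] [Y (2 * y), Z y, Y (2 * y + 1)] (by simp) (by simp) ?_ ?_ ?_
    · intro e
      constructor <;> grind
    · intro e
      constructor <;> grind
    · intro T hT
      exact sq_Z1 (hT _ _ _ d03 (Or.inl v0) (Or.inl v0') (Or.inr ⟨by simp, by simp⟩))
        (hT _ _ _ d23 (Or.inl v1) (Or.inr v1') (Or.inr ⟨by simp, by simp⟩))
  · refine mvs_core hG hf hG' hf' h hr hr' [Y (2 * y), Z y] [Y (2 * y + 1), Z (y + 1)] (by simp) (by simp) ?_ ?_ ?_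
    · intro e
      constructor <;> grind
    · intro e
      constructor <;> grind
    · intro T hT
      exact LEq.sqa y [] (hT _ _ _ d03 (Or.inl v0) (Or.inl v0') (Or.inl ⟨by simp, by simp⟩))
        (hT _ _ _ d12 (Or.inr v3) (Or.inr v3') (Or.inr ⟨by simp, by simp⟩))
  · refine mvs_core hG hf hG' hf' h hr hr' [Y (2 * y), Z (y + 1)] [Z y, Y (2 * y + 1)] (by simp) (by simp) ?_ ?_ ?_
    · intro e
      constructor <;> grind
    · intro e
      constructor <;> grind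
    · intro T hT
      exact LEq.sqb y [] (hT _ _ _ d23 (Or.inl v1) (Or.inr v1') (Or.inr ⟨by simp, by simp⟩))
        (hT _ _ _ d01 (Or.inr v2) (Or.inl v2') (Or.inl ⟨by simp, by simp⟩))

theorem mvs {ω ω' : Set (Sym2 Pt)} {c y : ℤ} {ℓ ℓ' : List (ℤ × Ed)} (hG : Good ω) (hf : ω.Finite) (hG' : Good ω')
    (hf' : ω'.Finite) (h : ω' = symmDiff ω (PS c y))
    (hp : ¬ ((edgeAt c (Y (2 * y)) ∈ ω ↔ edgeAt c (Y (2 * y + 1)) ∈ ω) ∧
      (edgeAt c (Z (y + 1)) ∈ ω ↔ edgeAt c (Z y) ∈ ω)))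
    (hr : Rdg ω ℓ) (hr' : Rdg ω' ℓ') : LEq ∅ (wd ℓ) (wd ℓ') := by
  have hx : ∀ e, (e = Y (2 * y) ∨ e = Z (y + 1) ∨ e = Y (2 * y + 1) ∨ e = Z y) →
      (edgeAt c e ∈ ω' ↔ edgeAt c e ∉ ω) := by
    intro e he
    have h1 : edgeAt c e ∈ PS c y := by
      unfold PS
      rcases he with rfl | rfl | rfl | rfl <;> simp
    rw [h, Set.mem_symmDiff]
    constructor
    · intro h2
      rcases h2 with h2 | h2
      · exact absurd h1 h2.2
      · exact h2.2
    · intro h2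
      exact Or.inr ⟨h1, h2⟩
  have hx' : ∀ e, (e = Y (2 * y) ∨ e = Z (y + 1) ∨ e = Y (2 * y + 1) ∨ e = Z y) →
      (edgeAt c e ∈ ω ↔ edgeAt c e ∉ ω') := by
    intro e he
    have := hx e he
    constructor
    · intro h1 h2
      exact this.1 h2 h1
    · intro h1
      by_contra h2
      exact h1 (this.2 h2)
  have h' : ω = symmDiff ω' (PS c y) := by
    rw [h, symmDiff_symmDiff_cancel_right]
  have x0 := hx (Y (2 * y)) (Or.inl rfl)
  have x1 := hx (Z (y + 1)) (Or.inr (Or.inl rfl))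
  have x2 := hx (Y (2 * y + 1)) (Or.inr (Or.inr (Or.inl rfl)))
  have x3 := hx (Z y) (Or.inr (Or.inr (Or.inr rfl)))
  have key : (edgeAt c (Y (2 * y)) ∈ ω ∧ edgeAt c (Z (y + 1)) ∉ ω ∧ edgeAt c (Y (2 * y + 1)) ∉ ω ∧ edgeAt c (Z y) ∉ ω) ∨
      (edgeAt c (Y (2 * y)) ∉ ω ∧ edgeAt c (Z (y + 1)) ∉ ω ∧ edgeAt c (Y (2 * y + 1)) ∈ ω ∧ edgeAt c (Z y) ∉ ω) ∨
      (edgeAt c (Y (2 * y)) ∉ ω ∧ edgeAt c (Z (y + 1)) ∉ ω ∧ edgeAt c (Y (2 * y + 1)) ∉ ω ∧ edgeAt c (Z y) ∈ ω) ∨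
      (edgeAt c (Y (2 * y)) ∉ ω ∧ edgeAt c (Z (y + 1)) ∈ ω ∧ edgeAt c (Y (2 * y + 1)) ∉ ω ∧ edgeAt c (Z y) ∉ ω) ∨
      (edgeAt c (Y (2 * y)) ∈ ω ∧ edgeAt c (Z (y + 1)) ∉ ω ∧ edgeAt c (Y (2 * y + 1)) ∉ ω ∧ edgeAt c (Z y) ∈ ω) ∨
      (edgeAt c (Y (2 * y)) ∈ ω ∧ edgeAt c (Z (y + 1)) ∈ ω ∧ edgeAt c (Y (2 * y + 1)) ∉ ω ∧ edgeAt c (Z y) ∉ ω) ∨
      (edgeAt c (Y (2 * y)) ∈ ω' ∧ edgeAt c (Z (y + 1)) ∉ ω' ∧ edgeAt c (Y (2 * y + 1)) ∉ ω' ∧ edgeAt c (Z y) ∉ ω') ∨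
      (edgeAt c (Y (2 * y)) ∉ ω' ∧ edgeAt c (Z (y + 1)) ∉ ω' ∧ edgeAt c (Y (2 * y + 1)) ∈ ω' ∧ edgeAt c (Z y) ∉ ω') ∨
      (edgeAt c (Y (2 * y)) ∉ ω' ∧ edgeAt c (Z (y + 1)) ∉ ω' ∧ edgeAt c (Y (2 * y + 1)) ∉ ω' ∧ edgeAt c (Z y) ∈ ω') ∨
      (edgeAt c (Y (2 * y)) ∉ ω' ∧ edgeAt c (Z (y + 1)) ∈ ω' ∧ edgeAt c (Y (2 * y + 1)) ∉ ω' ∧ edgeAt c (Z y) ∉ ω') ∨
      (edgeAt c (Y (2 * y)) ∈ ω' ∧ edgeAt c (Z (y + 1)) ∉ ω' ∧ edgeAt c (Y (2 * y + 1)) ∉ ω' ∧ edgeAt c (Z y) ∈ ω') ∨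
      (edgeAt c (Y (2 * y)) ∈ ω' ∧ edgeAt c (Z (y + 1)) ∈ ω' ∧ edgeAt c (Y (2 * y + 1)) ∉ ω' ∧ edgeAt c (Z y) ∉ ω') := by
    rw [x0, x1, x2, x3]
    clear x0 x1 x2 x3 hx hx' h h' hr hr' hG hG' hf hf'
    by_cases p0 : edgeAt c (Y (2 * y)) ∈ ω <;> by_cases p1 : edgeAt c (Z (y + 1)) ∈ ω <;>
      by_cases p2 : edgeAt c (Y (2 * y + 1)) ∈ ω <;> by_cases p3 : edgeAt c (Z y) ∈ ω <;>
      simp only [p0, p1, p2, p3, not_true_eq_false, not_false_eq_true, and_true, and_false, or_true,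
        or_false, iff_true, iff_false, and_self, or_self, iff_self] at hp ⊢
  rcases key with k | k | k | k | k | k | k
  · exact MvS_half hG hf hG' hf' h hr hr' hx (Or.inl k)
  · exact MvS_half hG hf hG' hf' h hr hr' hx (Or.inr (Or.inl k))
  · exact MvS_half hG hf hG' hf' h hr hr' hx (Or.inr (Or.inr (Or.inl k)))
  · exact MvS_half hG hf hG' hf' h hr hr' hx (Or.inr (Or.inr (Or.inr (Or.inl k))))
  · exact MvS_half hG hf hG' hf' h hr hr' hx (Or.inr (Or.inr (Or.inr (Or.inr (Or.inl k)))))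
  · exact MvS_half hG hf hG' hf' h hr hr' hx (Or.inr (Or.inr (Or.inr (Or.inr (Or.inr k)))))
  · exact (MvS_half hG' hf' hG hf h' hr' hr hx' k).symm

end Pool.Agent.Lib.MP_dd2c10_prF
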