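import Pool.Agent.Lib.MP_dd2c10_prF.MvX
import Pool.Agent.Lib.MP_dd2c10_prF.MvS
import Pool.Agent.Lib.MP_dd2c10_prF.Cas
import Pool.Agent.Lib.MP_dd2c10_prF.LP

/-! JOB Cls (MP_dd2c10_pr): two polygons are in the same class if and only if their words are equivalent.

PROOFS.
* `fwd_step`: `elem_cases`, `mvx`, `mvs`; `good_of_polygon`, `fin_polygon`.
* `fwd`: induction on the generated equivalence; prove for `h : Relation.EqvGen (ElemMove 1) ω ω'`: `(IsPolygon 1 ω ↔ IsPolygon 1 ω') ∧ (IsPolygon 1 ω → ∀ ℓ ℓ', Rdg ω ℓ → Rdg ω' ℓ' → LEq ∅ (wd ℓ) (wd ℓ'))`. `rel`: both are polygons (first components of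
  `ElemMove`), `fwd_step`. `refl`: `rdg_leq`. `symm`: `LEq.symm`. `trans`: `exists_rdg` for the middle polygon.
* `bwd`: `ω = ES ℓ` (`rdg_es`). Let `N` be larger than all columns of `ℓ`. `spread` gives `PE ω (ES (place N (wd ℓ)))`, `inc_equiv` (`inc_place`, `wd_place`) `PE (..) (ES (place 0 (wd ℓ)))`; the same for `ω'`; `leq_pe` in the middle. -/

namespace Pool.Agent.Lib.MP_dd2c10_prF

open Pool.Agent.Lib.MP_dd2c10_pr Ed

theorem fwd_step {ω ω' : Set (Sym2 Pt)} (h : ElemMove 1 ω ω') {ℓ ℓ' : List (ℤ × Ed)} (hr : Rdg ω ℓ) (hr' : Rdg ω' ℓ') :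
    LEq ∅ (wd ℓ) (wd ℓ') := by
  have hG := good_of_polygon h.1
  have hG' := good_of_polygon h.2.1
  have hf := (fin_polygon h.1).1
  have hf' := (fin_polygon h.2.1).1
  rcases elem_cases h with ⟨c, e, h1, h2⟩ | ⟨c, y, h1, h2⟩
  · exact mvx hG hf hG' hf' h1 h2 hr hr'
  · exact mvs hG hf hG' hf' h1 h2 hr hr'

private theorem Cls_aux {ω ω' : Set (Sym2 Pt)} (h : SameClass 1 ω ω') : (IsPolygon 1 ω ↔ IsPolygon 1 ω') ∧
    (IsPolygon 1 ω → ∀ ℓ ℓ' : List (ℤ × Ed), Rdg ω ℓ → Rdg ω' ℓ' → LEq ∅ (wd ℓ) (wd ℓ')) := by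
  induction h with
  | rel u v h =>
    exact ⟨⟨fun _ => h.2.1, fun _ => h.1⟩, fun _ ℓ ℓ' hr hr' => fwd_step h hr hr'⟩
  | refl u =>
    exact ⟨Iff.rfl, fun hu ℓ ℓ' hr hr' => rdg_leq (good_of_polygon hu) (fin_polygon hu).1 hr hr'⟩
  | symm u v _ ih =>
    exact ⟨ih.1.symm, fun hv ℓ ℓ' hr hr' => (ih.2 (ih.1.2 hv) ℓ' ℓ hr' hr).symm⟩
  | trans u v w _ _ ih1 ih2 =>
    refine ⟨ih1.1.trans ih2.1, fun hu ℓ ℓ' hr hr' => ?_⟩
    have hv := ih1.1.1 hu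
    obtain ⟨m, hm⟩ := exists_rdg (fin_polygon hv).1
    exact (ih1.2 hu ℓ m hr hm).trans (ih2.2 hv m ℓ' hm hr')

theorem fwd {ω ω' : Set (Sym2 Pt)} (h : SameClass 1 ω ω') (hω : IsPolygon 1 ω) {ℓ ℓ' : List (ℤ × Ed)} (hr : Rdg ω ℓ)
    (hr' : Rdg ω' ℓ') : LEq ∅ (wd ℓ) (wd ℓ') := by
  exact (Cls_aux h).2 hω ℓ ℓ' hr hr'

private theorem Cls_bound (ℓ : List (ℤ × Ed)) : ∃ N : ℤ, ∀ p ∈ ℓ, p.1 < N := by
  induction ℓ with
  | nil => exact ⟨0, fun p hp => absurd hp (List.not_mem_nil)⟩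
  | cons q ℓ ih =>
    obtain ⟨N, hN⟩ := ih
    refine ⟨max N (q.1 + 1), fun p hp => ?_⟩
    rcases List.mem_cons.1 hp with rfl | hp
    · exact lt_of_lt_of_le (Int.lt_succ _) (le_max_right _ _)
    · exact lt_of_lt_of_le (hN p hp) (le_max_left _ _)

/-- A polygon and the placed word of a reading are in the same class. -/
theorem rdg_pe {ω : Set (Sym2 Pt)} (hω : IsPolygon 1 ω) {ℓ : List (ℤ × Ed)} (hr : Rdg ω ℓ) :
    PE ω (ES (place 0 (wd ℓ))) := by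
  have hG := good_of_polygon hω
  have he := rdg_es hG (fin_polygon hω).1 hr
  obtain ⟨N, hN⟩ := Cls_bound ℓ
  have h1 : PE (ES ℓ) (ES (place N (wd ℓ))) := spread hr.1 hr.2.1 hN (by rw [← he]; exact hG)
  have h2 : PE (ES (place N (wd ℓ))) (ES (place 0 (wd ℓ))) :=
    inc_equiv (inc_place _ _) (inc_place _ _) (by rw [wd_place, wd_place])
  rw [he]
  exact h1.trans h2

theorem bwd {ω ω' : Set (Sym2 Pt)} (hω : IsPolygon 1 ω) (hω' : IsPolygon 1 ω') {ℓ ℓ' : List (ℤ × Ed)} (hr : Rdg ω ℓ)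
    (hr' : Rdg ω' ℓ') (h : LEq ∅ (wd ℓ) (wd ℓ')) : SameClass 1 ω ω' := by
  exact (((rdg_pe hω hr).trans (leq_pe h)).trans (rdg_pe hω' hr').symm).2 hω

end Pool.Agent.Lib.MP_dd2c10_prF
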