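import Pool.Agent.Lib.MP_dd2c10_prF.Can

/-! JOB CohA (MP_dd2c10_pr): a planar edge followed by the canonical path is equivalent to the canonical path.

`mv e` moves the strand at one end of `e` to the other end.

PROOF of `can_letter`: induction on `l` generalizing `Q`, `U`. Put `T = l.toFinset ∪ U`.
`[]`: no end of `e` is in `U` (`e.b + 4 < 2 Q` but elements of `U` are `> 2 Q + 1`; `e.a < e.b`), so `hp.1` is impossible.
`s :: l`: exactly one end of `e` is in `T`, and not in `U` by the bounds, so exactly one end is in `s :: l`.
Case 1, `s` is an end of `e`; let `s'` be the other end, `s' ∉ T`. Each `x ∈ l` satisfies `x < s` and `x < s'`: if `s' < x < s` then `x` is strictly between the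
ends of `e`, excluded by `hp.2`; `x ≠ s'`. So no element of `l` is an end of `e`: `l.map (mv e) = l`, `(s :: l).map (mv e) = s' :: l`.
Pairwise: clear. State: `ext`, `mem_act`. Word: `e :: (up s' Q ++ canL (Q - 2) l) ~ up s Q ++ canL (Q - 2) l` by `up_single` (`LEq.right`); its
hypothesis: `x ∈ T`, `x ≠ s`: `x ∈ l` (both inequalities) or `x ∈ U` (`2 Q + 1 < x`).
Case 2, `s` is not an end of `e`. One end, `t`, is in `l`, `t < s`; the other end `t'` is also `< s`: `t' ≠ s`, and `t < s < t'` is excluded by `hp.2`. So
`e.b < s`, `mv e s = s`. By `comm_word` (`up_supp`: the letters `f` of `up s Q` have `f.a ≥ s > e.b`, so `Dsj e f`)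
`e :: (up s Q ++ w) ~ up s Q ++ (e :: w)`. By `up_path` the state after `up s Q` is `l.toFinset ∪ insert (2 Q) U`
(as in `can_path`). Induction hypothesis with `Q - 2`, `insert (2 Q) U`; `Pln` at that state: the ends and the vertices between them are `< s`, where the
two states agree except at `s` itself. Pairwise for `s :: l.map (mv e)`: the elements of `l.map (mv e)` are elements of `l` or an
end of `e`, all `< s`. State: `act` and the union with `{s}` (`ext`, `mem_act`): membership in `act T e` of `x` is toggled only at the ends. -/

namespace Pool.Agent.Lib.MP_dd2c10_prF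

open Gen Ed

/-- The strand at one end of `e` moves to the other end. -/
def mv (e : Ed) (s : ℤ) : ℤ := if s = e.a then e.b else if s = e.b then e.a else s

private theorem CohA_mem {s : ℤ} {l : List ℤ} {U : Finset ℤ} {x : ℤ} :
    x ∈ (s :: l).toFinset ∪ U ↔ x = s ∨ x ∈ l ∨ x ∈ U := by
  rw [Finset.mem_union, List.mem_toFinset, List.mem_cons, or_assoc]

private theorem CohA_mem' {l : List ℤ} {U : Finset ℤ} {x z : ℤ} :
    x ∈ l.toFinset ∪ insert z U ↔ x ∈ l ∨ x = z ∨ x ∈ U := by
  rw [Finset.mem_union, List.mem_toFinset, Finset.mem_insert]

private theorem CohA_mv {e : Ed} {x : ℤ} : mv e x = x ∨ mv e x = e.a ∨ mv e x = e.b := by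
  unfold mv
  split_ifs
  · exact Or.inr (Or.inr rfl)
  · exact Or.inr (Or.inl rfl)
  · exact Or.inl rfl

private theorem CohA_one {l : List ℤ} {Q s s' : ℤ} {U : Finset ℤ} {e : Ed}
    (he : (e.a = s ∧ e.b = s') ∨ (e.a = s' ∧ e.b = s))
    (hU : ∀ u ∈ U, 2 * Q + 1 < u) (hsQ : s + 4 < 2 * Q) (h1 : ∀ x ∈ l, x < s ∧ x < s')
    (hs' : s' ∉ (s :: l).toFinset ∪ U) (hl : l.Pairwise (· > ·)) :
    ((s :: l).map (mv e)).Pairwise (· > ·) ∧ act ((s :: l).toFinset ∪ U) e = ((s :: l).map (mv e)).toFinset ∪ U ∧
      LEq ((s :: l).toFinset ∪ U) (e :: canL Q ((s :: l).map (mv e))) (canL Q (s :: l)) := by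
  have hne := a_ne_b e
  have hmap : l.map (mv e) = l := by
    conv_rhs => rw [← List.map_id l]
    refine List.map_congr_left fun x hx => ?_
    have := h1 x hx
    have h2 : x ≠ e.a := by rcases he with ⟨h, h'⟩ | ⟨h, h'⟩ <;> omega
    have h3 : x ≠ e.b := by rcases he with ⟨h, h'⟩ | ⟨h, h'⟩ <;> omega
    simp only [mv, if_neg h2, if_neg h3, id]
  have hms : mv e s = s' := by
    rcases he with ⟨h, h'⟩ | ⟨h, h'⟩
    · unfold mv
      rw [if_pos h.symm, h']
    · unfold mv
      rw [if_neg (fun h3 => hne (by rw [h', h3])), if_pos h'.symm, h]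
  have hmap' : (s :: l).map (mv e) = s' :: l := by
    rw [List.map_cons, hmap, hms]
  rw [hmap']
  refine ⟨?_, ?_, ?_⟩
  · rw [List.pairwise_cons]
    exact ⟨fun x hx => (h1 x hx).2, hl⟩
  · have hss : s ≠ s' := by rcases he with ⟨h, h'⟩ | ⟨h, h'⟩ <;> omega
    have hend : ∀ x, (x = e.a ∨ x = e.b) ↔ (x = s ∨ x = s') := by
      intro x
      rcases he with ⟨h, h'⟩ | ⟨h, h'⟩
      · rw [h, h']
      · rw [h, h']
        exact or_comm
    ext x
    rw [mem_act, CohA_mem, CohA_mem, hend]
    rw [CohA_mem] at hs'
    by_cases e1 : x = s
    · subst e1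
      have h2 : x ∉ l := fun h => by
        have := h1 x h
        omega
      have h3 : x ∉ U := fun h => by
        have := hU x h
        omega
      tauto
    · by_cases e2 : x = s'
      · subst e2
        tauto
      · tauto
  · have h2 := up_single (T := (s :: l).toFinset ∪ U) (Q := Q) he (CohA_mem.2 (Or.inl rfl)) hs' (by omega) ?_
    · exact h2.right (canL (Q - 2) l)
    · intro x hx hxs
      rw [CohA_mem] at hx
      rcases hx with hx | hx | hx
      · exact absurd hx hxs
      · exact Or.inl (h1 x hx)
      · exact Or.inr (hU x hx)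

theorem can_letter (l : List ℤ) (Q : ℤ) (U : Finset ℤ) (e : Ed) (hl : l.Pairwise (· > ·))
    (hU : ∀ u ∈ U, 2 * Q + 1 < u) (hQ : ∀ s ∈ l, s + 4 < 2 * (Q - 2 * l.length))
    (he : e.b + 4 < 2 * (Q - 2 * l.length)) (hp : Pln (l.toFinset ∪ U) e) :
    (l.map (mv e)).Pairwise (· > ·) ∧ act (l.toFinset ∪ U) e = (l.map (mv e)).toFinset ∪ U ∧
      LEq (l.toFinset ∪ U) (e :: canL Q (l.map (mv e))) (canL Q l) := by
  have hab := a_lt_b e
  induction l generalizing Q U with
  | nil =>
    exfalso
    have h1 := hp.1
    rw [List.toFinset_nil, Finset.empty_union] at h1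
    rw [List.length_nil] at he
    have h2 : e.a ∉ U := fun h => by
      have := hU _ h
      push_cast at he
      omega
    have h3 : e.b ∉ U := fun h => by
      have := hU _ h
      push_cast at he
      omega
    tauto
  | cons s l ih =>
    rw [List.pairwise_cons] at hl
    obtain ⟨hsl, hl⟩ := hl
    rw [List.length_cons] at hQ he
    push_cast at hQ he
    have hn : (0 : ℤ) ≤ (l.length : ℤ) := Int.natCast_nonneg _
    have hsQ : s + 4 < 2 * Q := by
      have := hQ s List.mem_cons_self
      omega
    obtain ⟨hp1, hp2⟩ := hp
    have haU : e.a ∉ U := fun h => by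
      have := hU _ h
      omega
    have hbU : e.b ∉ U := fun h => by
      have := hU _ h
      omega
    by_cases c1 : s = e.a
    · subst c1
      have hs' : e.b ∉ (e.a :: l).toFinset ∪ U := hp1.1 (CohA_mem.2 (Or.inl rfl))
      exact CohA_one (Or.inl ⟨rfl, rfl⟩) hU hsQ (fun x hx => ⟨hsl x hx, lt_trans (hsl x hx) hab⟩) hs' hl
    · by_cases c2 : s = e.b
      · subst c2
        have hs' : e.a ∉ (e.b :: l).toFinset ∪ U := fun h => hp1.1 h (CohA_mem.2 (Or.inl rfl))
        refine CohA_one (Or.inr ⟨rfl, rfl⟩) hU hsQ (fun x hx => ⟨hsl x hx, ?_⟩) hs' hl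
        by_contra hcon
        have h1 : x ≠ e.a := fun h => hs' (CohA_mem.2 (Or.inr (Or.inl (h ▸ hx))))
        exact hp2 x (by omega) (hsl x hx) (CohA_mem.2 (Or.inr (Or.inl hx)))
      · rw [CohA_mem, CohA_mem] at hp1
        have hbs : e.b < s := by
          by_contra hcon
          have h1 : s < e.b := by omega
          have h2 : ¬ (e.a < s) := fun h => hp2 s h h1 (CohA_mem.2 (Or.inl rfl))
          have h3 : e.a ∉ l := fun h => by
            have := hsl _ h
            omega
          have h4 : e.b ∉ l := fun h => by
            have := hsl _ h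
            omega
          have h5 : e.a ≠ s := fun h => c1 h.symm
          have h6 : e.b ≠ s := fun h => c2 h.symm
          tauto
        have h5 : e.a ≠ s := by omega
        have h6 : e.b ≠ s := by omega
        have hp' : Pln (l.toFinset ∪ insert (2 * Q) U) e := by
          refine ⟨?_, fun x hx1 hx2 hx => ?_⟩
          · rw [CohA_mem', CohA_mem']
            have h7 : e.a ≠ 2 * Q := by omega
            have h8 : e.b ≠ 2 * Q := by omega
            tauto
          · rw [CohA_mem'] at hx
            rcases hx with hx | hx | hx
            · exact hp2 x hx1 hx2 (CohA_mem.2 (Or.inr (Or.inl hx)))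
            · omega
            · exact hp2 x hx1 hx2 (CohA_mem.2 (Or.inr (Or.inr hx)))
        obtain ⟨i1, i2, i3⟩ := ih (Q - 2) (insert (2 * Q) U) hl (fun u hu => by
            rw [Finset.mem_insert] at hu
            rcases hu with hu | hu
            · omega
            · have := hU u hu
              omega) (fun x hx => by
            have := hQ x (List.mem_cons_of_mem _ hx)
            omega) (by omega) hp'
        have hmlt : ∀ y ∈ l.map (mv e), y < s := by
          intro y hy
          obtain ⟨x, hx, rfl⟩ := List.mem_map.1 hy
          have := hsl x hx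
          rcases CohA_mv (e := e) (x := x) with h | h | h <;> rw [h] <;> omega
        have hms : mv e s = s := by
          unfold mv
          rw [if_neg c1, if_neg c2]
        rw [List.map_cons, hms]
        refine ⟨?_, ?_, ?_⟩
        · rw [List.pairwise_cons]
          exact ⟨hmlt, i1⟩
        · ext x
          have h7 := Finset.ext_iff.1 i2 x
          rw [mem_act, CohA_mem', CohA_mem'] at h7
          rw [mem_act, CohA_mem, CohA_mem]
          by_cases d1 : x = s
          · subst d1
            have h8 : ¬ (x = e.a ∨ x = e.b) := by
              rintro (h | h) <;> omega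
            tauto
          · by_cases d2 : x = 2 * Q
            · have h8 : x ∉ U := fun h => by
                have := hU x h
                omega
              have h9 : x ∉ l := fun h => by
                have := hsl x h
                omega
              have h10 : x ∉ l.map (mv e) := fun h => by
                have := hmlt x h
                omega
              have h11 : ¬ (x = e.a ∨ x = e.b) := by
                rintro (h | h) <;> omega
              tauto
            · tauto
        · have hT : ∀ x ∈ (s :: l).toFinset ∪ U, x ≠ s → x < s ∨ 2 * Q + 1 < x := by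
            intro x hx hxs
            rw [CohA_mem] at hx
            rcases hx with hx | hx | hx
            · exact absurd hx hxs
            · exact Or.inl (hsl x hx)
            · exact Or.inr (hU x hx)
          obtain ⟨-, h7⟩ := up_path (T := (s :: l).toFinset ∪ U) (Q := Q) (CohA_mem.2 (Or.inl rfl)) (by omega) hT
          have h8 : run ((s :: l).toFinset ∪ U) (up s Q) = l.toFinset ∪ insert (2 * Q) U := by
            rw [h7]
            ext x
            rw [Finset.mem_insert, Finset.mem_erase, CohA_mem, CohA_mem']
            by_cases d1 : x = s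
            · subst d1
              have h9 : x ∉ l := fun h => by
                have := hsl x h
                omega
              have h10 : x ∉ U := fun h => by
                have := hU x h
                omega
              tauto
            · tauto
          have h9 : ∀ f ∈ up s Q, Dsj e f := by
            intro f hf
            have h10 := up_supp (s := s) (Q := Q) (by omega) f hf
            have h11 := a_lt_b f
            unfold Dsj
            omega
          have h12 : LEq ((s :: l).toFinset ∪ U) ((e :: up s Q) ++ canL (Q - 2) (l.map (mv e)))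
              ((up s Q ++ [e]) ++ canL (Q - 2) (l.map (mv e))) := (comm_word e (up s Q) h9).right _
          have h13 : LEq ((s :: l).toFinset ∪ U) (up s Q ++ (e :: canL (Q - 2) (l.map (mv e))))
              (up s Q ++ canL (Q - 2) l) := by
            refine LEq.left _ ?_
            rw [h8]
            exact i3
          rw [List.append_assoc, List.singleton_append] at h12
          exact h12.trans h13

end Pool.Agent.Lib.MP_dd2c10_prF
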