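import Pool.Agent.Lib.MP_dd2c10_prF.CohA

/-! JOB CohB (MP_dd2c10_pr): COHERENCE: two planar paths with the same ends are equivalent.

PROOF.
* `coh_aux`: induction on `p` generalizing `l`. `[]`: `l' = l`. `e :: p`: `can_letter` with `U = ∅` gives `act l.toFinset e = (l.map (mv e)).toFinset`
  (rewrite `Finset.union_empty`); `l.map (mv e)` has the same length, is decreasing, and its elements are elements of `l` or ends of `e`, so they
  satisfy the bound. Induction hypothesis for `l.map (mv e)`; then `e :: (p ++ canL Q l') ~ e :: canL Q (l.map (mv e)) ~ canL Q l`.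
* `coh`: let `l = T.sort (· ≥ ·)` (strictly decreasing: `Finset.sort_sorted`/`Finset.sort_nodup`, `Finset.sort_toFinset`; or take any
  strictly decreasing list `l` with `l.toFinset = T`, `exists_desc`). Choose `Q` with `s + 4 < 2 (Q - 2 len)` for all `s ∈ l` and
  `f.b + 4 < 2 (Q - 2 len)` for all `f ∈ p ++ q` (finitely many conditions: e.g. `Q = 2 len + 3 + Σ |s| + Σ |f.b|`, or induction). `coh_aux` for `p` and `q`
  gives `l'`, `l''` decreasing with `l'.toFinset = run T p = run T q = l''.toFinset`, so `l' = l''` (`desc_unique`). With `c = canL Q l'`: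
  `c` is a planar path from `run T p` (`can_path` with `U = ∅`), so `p ~ p ++ (c ++ c.reverse) ~ canL Q l ++ c.reverse ~ q ++ (c ++ c.reverse) ~ q`
  (`PPath.cancel`, `LEq.left`, `LEq.right`).
* `exists_desc`: `T.sort (· ≥ ·)`, or induction. `desc_unique`: `List.Perm.eq_of_pairwise`-type lemma
  (`List.Perm.eq_of_sorted`), nodup lists with the same `toFinset` are permutations of each other (`List.perm_of_nodup_nodup_toFinset_eq`). -/

namespace Pool.Agent.Lib.MP_dd2c10_prF

open Gen Ed

theorem exists_desc (T : Finset ℤ) : ∃ l : List ℤ, l.Pairwise (· > ·) ∧ l.toFinset = T ∧ l.length = T.card :=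
  ⟨T.sort (· ≥ ·), (Finset.sortedGT_sort T).pairwise, Finset.sort_toFinset T _, Finset.length_sort _⟩

theorem desc_unique {l l' : List ℤ} (h : l.Pairwise (· > ·)) (h' : l'.Pairwise (· > ·))
    (he : l.toFinset = l'.toFinset) : l = l' := by
  have h1 : l.Nodup := h.imp fun {a b} hab => ne_of_gt hab
  have h2 : l'.Nodup := h'.imp fun {a b} hab => ne_of_gt hab
  exact List.Perm.eq_of_pairwise (fun a b _ _ hab hba => absurd hab (lt_asymm hba)) h h'
    (List.perm_of_nodup_nodup_toFinset_eq h1 h2 he)

theorem coh_aux (p : List Ed) (l : List ℤ) (Q : ℤ) (hl : l.Pairwise (· > ·))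
    (hQ : ∀ s ∈ l, s + 4 < 2 * (Q - 2 * l.length)) (he : ∀ f ∈ p, f.b + 4 < 2 * (Q - 2 * l.length))
    (hp : PPath l.toFinset p) :
    ∃ l' : List ℤ, l'.Pairwise (· > ·) ∧ l'.length = l.length ∧ (∀ s ∈ l', s + 4 < 2 * (Q - 2 * l.length)) ∧
      run l.toFinset p = l'.toFinset ∧ LEq l.toFinset (p ++ canL Q l') (canL Q l) := by
  induction p generalizing l with
  | nil => exact ⟨l, hl, rfl, hQ, rfl, LEq.refl _⟩
  | cons e p ih =>
    have h0 : Pln (l.toFinset ∪ ∅) e := by
      rw [Finset.union_empty]
      exact hp.1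
    have heb := he e List.mem_cons_self
    obtain ⟨h1, h2, h3⟩ := can_letter l Q ∅ e hl (fun u hu => absurd hu (Finset.notMem_empty u)) hQ heb h0
    rw [Finset.union_empty, Finset.union_empty] at h2
    rw [Finset.union_empty] at h3
    have hab := e.a_lt_b
    have h4 : ∀ s ∈ l.map (mv e), s + 4 < 2 * (Q - 2 * (l.map (mv e)).length) := by
      intro s hs
      rw [List.length_map]
      obtain ⟨t, ht, rfl⟩ := List.mem_map.1 hs
      have h5 := hQ t ht
      unfold mv
      split_ifs
      · exact heb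
      · omega
      · exact h5
    obtain ⟨l', i1, i2, i3, i4, i5⟩ := ih (l.map (mv e)) h1 h4
      (fun f hf => by
        rw [List.length_map]
        exact he f (List.mem_cons_of_mem _ hf)) (by
        rw [← h2]
        exact hp.2)
    rw [List.length_map] at i2 i3
    rw [← h2] at i4 i5
    exact ⟨l', i1, i2, i3, i4, (LEq.cons e i5).trans h3⟩

/-- **Coherence.** Two planar paths with the same ends are equivalent. -/
theorem coh {T : Finset ℤ} {p q : List Ed} (hp : PPath T p) (hq : PPath T q) (h : run T p = run T q) : LEq T p q := by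
  obtain ⟨l, hl, hlT, hlc⟩ := exists_desc T
  subst hlT
  obtain ⟨M, hM⟩ := (l.toFinset ∪ ((p ++ q).map Ed.b).toFinset).bddAbove
  have hM1 : ∀ s, s ∈ l ∨ (∃ f ∈ p ++ q, f.b = s) → s ≤ M := by
    intro s hs
    refine hM ?_
    rw [Finset.mem_coe, Finset.mem_union, List.mem_toFinset, List.mem_toFinset, List.mem_map]
    exact hs
  obtain ⟨Q, hQ⟩ : ∃ Q : ℤ, Q = |M| + 3 + 2 * l.length := ⟨_, rfl⟩
  have hab := le_abs_self M
  have hab0 := abs_nonneg M
  have hQl : ∀ s ∈ l, s + 4 < 2 * (Q - 2 * l.length) := by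
    intro s hs
    have := hM1 s (Or.inl hs)
    omega
  have hQf : ∀ f ∈ p ++ q, f.b + 4 < 2 * (Q - 2 * l.length) := by
    intro f hf
    have := hM1 f.b (Or.inr ⟨f, hf, rfl⟩)
    omega
  obtain ⟨l', i1, i2, i3, i4, i5⟩ := coh_aux p l Q hl hQl
    (fun f hf => hQf f (List.mem_append_left _ hf)) hp
  obtain ⟨l'', j1, j2, j3, j4, j5⟩ := coh_aux q l Q hl hQl
    (fun f hf => hQf f (List.mem_append_right _ hf)) hq
  have hll : l' = l'' := desc_unique i1 j1 (by rw [← i4, ← j4, h])
  subst hll
  have hc := (can_path l' Q ∅ i1 (fun s hs => by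
    have := i3 s hs
    rw [i2]
    omega) (fun u hu => absurd hu (Finset.notMem_empty u))).1
  rw [Finset.union_empty] at hc
  have key : ∀ r : List Ed, run l.toFinset r = l'.toFinset → LEq l.toFinset (r ++ canL Q l') (canL Q l) →
      LEq l.toFinset r (canL Q l ++ (canL Q l').reverse) := by
    intro r hr1 hr2
    have e1 : LEq (run l.toFinset r) (canL Q l' ++ (canL Q l').reverse) [] := by
      rw [hr1]
      exact hc.cancel
    have e2 := (e1.left r).symm
    rw [List.append_nil, ← List.append_assoc] at e2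
    exact e2.trans (hr2.right _)
  exact (key p i4 i5).trans (key q j4 j5).symm

end Pool.Agent.Lib.MP_dd2c10_prF
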