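import Pool.Agent.Lib.MP_dd2c10_prF.Near

/-! JOB Rk (MP_dd2c10_pr): ranks, and validity of the diagram of a word.

`rank T x = #{s ∈ T | s < x}`. `(decide P).toNat` is `1` or `0`.

PROOFS.
* `rank_succ`: `{s ∈ T | s < x + 1} = {s ∈ T | s < x} ∪ ({x} ∩ T)` (`Int.lt_add_one_iff`, `le_iff_lt_or_eq`).
* `rank_congr`: the two filtered sets are equal (`Finset.filter_congr` is for one set; use `congrArg` and `ext`).
* `rank_act_le`: `rank_congr` with `mem_act`: for `s < x ≤ e.a < e.b` membership is not changed.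
* `rank_all`: the filter is `T`.
* `out_loc`: two cases. `e = Y n`: put `r = rank T n`; by `rank_succ` (three times)
  `rank T (n + 3) = r + [n ∈ T] + [n + 1 ∈ T] + [n + 2 ∈ T]`, and for `m ≥ n + 3` `rank T m = rank T (n + 3) + j` and
  `rank (act T e) m = rank (act T e) (n + 3) + j` with the same `j = #{s ∈ T | n + 3 ≤ s < m}` (act does not change the vertices
  `≥ n + 3`). So `rank (act T e) m = r + [n ∉ T] + [n + 1 ∈ T] + [n + 2 ∉ T] + j`. `out T e = sh r (locY ..)`. Case distinction
  over the three memberships: unfold `locY, sh, Gen.move, Gen.pos, Valid, Gen.Ok, endk, next`; everything is `omega`.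
  `e = Z y`: the same with two memberships. (It may be convenient to prove first the statement for all `x₀ x₁ x₂ : Bool`, `r j : ℕ`:
  `Valid (r + x₀.toNat + x₁.toNat + x₂.toNat + j) (sh r (locY p x₀ x₁ x₂)) ∧ endk (..) (..) = r + (!x₀).toNat + x₁.toNat + (!x₂).toNat + j`
  by `cases` on the Booleans.)
* `valid_out`: `out_loc` with `m` larger than `e.b` and all elements of `T` and of `act T e`, and `rank_all`.
* `valid_scan`, `endk_scan`: induction on `w` (generalizing `T`) with `valid_append`, `endk_append`, `valid_out`. -/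

namespace Pool.Agent.Lib.MP_dd2c10_prF

open Gen Ed

private theorem Rk_filter (T : Finset ℤ) (p : ℤ → Prop) [DecidablePred p] (q : ℤ → Prop) [DecidablePred q]
    (h : ∀ s ∈ T, (p s ↔ q s)) : (T.filter p).card = (T.filter q).card := by
  rw [Finset.filter_congr h]

theorem rank_succ (T : Finset ℤ) (x : ℤ) : rank T (x + 1) = rank T x + (decide (x ∈ T)).toNat := by
  unfold rank
  have h1 : (T.filter fun s => s < x + 1) = (T.filter fun s => s < x) ∪ (T.filter fun s => s = x) := by
    ext s
    simp only [Finset.mem_filter, Finset.mem_union]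
    constructor
    · rintro ⟨hs, h⟩
      by_cases h2 : s = x
      · exact Or.inr ⟨hs, h2⟩
      · exact Or.inl ⟨hs, by omega⟩
    · rintro (⟨hs, h⟩ | ⟨hs, h⟩)
      · exact ⟨hs, by omega⟩
      · exact ⟨hs, by omega⟩
  have h2 : Disjoint (T.filter fun s => s < x) (T.filter fun s => s = x) := by
    rw [Finset.disjoint_left]
    intro s hs hs'
    rw [Finset.mem_filter] at hs hs'
    omega
  rw [h1, Finset.card_union_of_disjoint h2]
  congr 1
  by_cases hx : x ∈ T
  · have h3 : (T.filter fun s => s = x) = {x} := by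
      ext s
      rw [Finset.mem_filter, Finset.mem_singleton]
      constructor
      · exact fun h => h.2
      · rintro rfl
        exact ⟨hx, rfl⟩
    rw [h3, Finset.card_singleton, decide_eq_true hx]
    rfl
  · have h3 : (T.filter fun s => s = x) = ∅ := by
      rw [Finset.filter_eq_empty_iff]
      rintro s hs rfl
      exact hx hs
    rw [h3, Finset.card_empty, decide_eq_false hx]
    rfl

theorem rank_congr {T T' : Finset ℤ} {x : ℤ} (h : ∀ s, s < x → (s ∈ T ↔ s ∈ T')) : rank T x = rank T' x := by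
  unfold rank
  have h1 : (T.filter fun s => s < x) = T'.filter fun s => s < x := by
    ext s
    rw [Finset.mem_filter, Finset.mem_filter]
    constructor
    · rintro ⟨h1, h2⟩
      exact ⟨(h s h2).1 h1, h2⟩
    · rintro ⟨h1, h2⟩
      exact ⟨(h s h2).2 h1, h2⟩
  rw [h1]

theorem rank_act_le {T : Finset ℤ} {e : Ed} {x : ℤ} (h : x ≤ e.a) : rank (act T e) x = rank T x := by
  refine rank_congr fun s hs => ?_
  have h1 := a_lt_b e
  have h2 : ¬ (s = e.a ∨ s = e.b) := by omega
  rw [mem_act]
  tauto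

theorem rank_all {T : Finset ℤ} {x : ℤ} (h : ∀ s ∈ T, s < x) : rank T x = T.card := by
  unfold rank
  rw [Finset.filter_true_of_mem h]

theorem rank_le_card (T : Finset ℤ) (x : ℤ) : rank T x ≤ T.card := by
  exact Finset.card_filter_le _ _

theorem rank_mono (T : Finset ℤ) {x y : ℤ} (h : x ≤ y) : rank T x ≤ rank T y := by
  unfold rank
  refine Finset.card_le_card fun s hs => ?_
  rw [Finset.mem_filter] at hs ⊢
  exact ⟨hs.1, by omega⟩

/-- Number of strands in `[x, y)`. -/
theorem rank_add (T : Finset ℤ) {x y : ℤ} (h : x ≤ y) :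
    rank T y = rank T x + (T.filter fun s => x ≤ s ∧ s < y).card := by
  unfold rank
  have h1 : (T.filter fun s => s < y) = (T.filter fun s => s < x) ∪ (T.filter fun s => x ≤ s ∧ s < y) := by
    ext s
    simp only [Finset.mem_filter, Finset.mem_union]
    constructor
    · rintro ⟨hs, h⟩
      by_cases h2 : s < x
      · exact Or.inl ⟨hs, h2⟩
      · exact Or.inr ⟨hs, by omega, h⟩
    · rintro (⟨hs, h⟩ | ⟨hs, h⟩)
      · exact ⟨hs, by omega⟩
      · exact ⟨hs, by omega⟩
  have h2 : Disjoint (T.filter fun s => s < x) (T.filter fun s => x ≤ s ∧ s < y) := by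
    rw [Finset.disjoint_left]
    intro s hs hs'
    rw [Finset.mem_filter] at hs hs'
    omega
  rw [h1, Finset.card_union_of_disjoint h2]

private theorem Rk_locY (p x0 x1 x2 : Bool) (r j : ℕ) :
    Valid (r + x0.toNat + x1.toNat + x2.toNat + j) (sh r (locY p x0 x1 x2)) ∧
      endk (r + x0.toNat + x1.toNat + x2.toNat + j) (sh r (locY p x0 x1 x2)) =
        r + (!x0).toNat + x1.toNat + (!x2).toNat + j := by
  cases x0 <;> cases x1 <;> cases x2 <;>
    simp only [locY, sh_nil, sh_cons, Gen.move, Gen.pos, Valid, Gen.Ok, endk_nil, endk_cons, Gen.next, Gen.ins, Gen.outs,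
      Bool.toNat_true, Bool.toNat_false, Bool.not_true, Bool.not_false, and_true] <;> omega

private theorem Rk_locZ (x0 x1 : Bool) (r j : ℕ) :
    Valid (r + x0.toNat + x1.toNat + j) (sh r (locZ x0 x1)) ∧
      endk (r + x0.toNat + x1.toNat + j) (sh r (locZ x0 x1)) = r + (!x0).toNat + (!x1).toNat + j := by
  cases x0 <;> cases x1 <;>
    simp only [locZ, sh_nil, sh_cons, Gen.move, Gen.pos, Valid, Gen.Ok, endk_nil, endk_cons, Gen.next, Gen.ins, Gen.outs,
      Bool.toNat_true, Bool.toNat_false, Bool.not_true, Bool.not_false, and_true] <;> omega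

private theorem Rk_tog {T : Finset ℤ} {e : Ed} {x : ℤ} (h : x = e.a ∨ x = e.b) :
    decide (x ∈ act T e) = !decide (x ∈ T) := by
  rw [← decide_not, decide_eq_decide, mem_act]
  tauto

private theorem Rk_same {T : Finset ℤ} {e : Ed} {x : ℤ} (h : ¬ (x = e.a ∨ x = e.b)) :
    decide (x ∈ act T e) = decide (x ∈ T) := by
  rw [decide_eq_decide, mem_act]
  tauto

private theorem Rk_j {T : Finset ℤ} {e : Ed} {x m : ℤ} (h : e.b < x) :
    ((act T e).filter fun s => x ≤ s ∧ s < m).card = (T.filter fun s => x ≤ s ∧ s < m).card := by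
  have h1 : ((act T e).filter fun s => x ≤ s ∧ s < m) = T.filter fun s => x ≤ s ∧ s < m := by
    ext s
    rw [Finset.mem_filter, Finset.mem_filter, mem_act]
    have h1 := a_lt_b e
    constructor
    · rintro ⟨h2, h3⟩
      have h4 : ¬ (s = e.a ∨ s = e.b) := by omega
      exact ⟨by tauto, h3⟩
    · rintro ⟨h2, h3⟩
      have h4 : ¬ (s = e.a ∨ s = e.b) := by omega
      exact ⟨by tauto, h3⟩
  rw [h1]

theorem out_loc (T : Finset ℤ) (e : Ed) (m : ℤ) (h : e.b < m) :
    Valid (rank T m) (out T e) ∧ endk (rank T m) (out T e) = rank (act T e) m := by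
  cases e with
  | Y n =>
    rw [b_Y] at h
    have e1 : rank T m = rank T n + (decide (n ∈ T)).toNat + (decide (n + 1 ∈ T)).toNat + (decide (n + 2 ∈ T)).toNat +
        (T.filter fun s => n + 3 ≤ s ∧ s < m).card := by
      rw [rank_add T (show n + 3 ≤ m by omega), show n + 3 = n + 2 + 1 by ring, rank_succ, show n + 2 = n + 1 + 1 by ring,
        rank_succ, rank_succ]
    have e2 : rank (act T (Y n)) m = rank T n + (!decide (n ∈ T)).toNat + (decide (n + 1 ∈ T)).toNat +
        (!decide (n + 2 ∈ T)).toNat + (T.filter fun s => n + 3 ≤ s ∧ s < m).card := by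
      rw [rank_add _ (show n + 3 ≤ m by omega), Rk_j (show (Y n).b < n + 3 by rw [b_Y]; omega),
        show n + 3 = n + 2 + 1 by ring, rank_succ,
        Rk_tog (show n + 2 = (Y n).a ∨ n + 2 = (Y n).b from Or.inr rfl), show n + 2 = n + 1 + 1 by ring,
        rank_succ, Rk_same (show ¬ (n + 1 = (Y n).a ∨ n + 1 = (Y n).b) by rw [a_Y, b_Y]; omega),
        rank_succ, Rk_tog (show n = (Y n).a ∨ n = (Y n).b from Or.inl rfl), rank_act_le (show n ≤ (Y n).a from le_rfl)]
    rw [e1, e2]
    exact Rk_locY _ _ _ _ _ _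
  | Z y =>
    rw [b_Z] at h
    have e1 : rank T m = rank T (2 * y) + (decide (2 * y ∈ T)).toNat + (decide (2 * y + 1 ∈ T)).toNat +
        (T.filter fun s => 2 * y + 2 ≤ s ∧ s < m).card := by
      rw [rank_add T (show 2 * y + 2 ≤ m by omega), show 2 * y + 2 = 2 * y + 1 + 1 by ring, rank_succ, rank_succ]
    have e2 : rank (act T (Z y)) m = rank T (2 * y) + (!decide (2 * y ∈ T)).toNat + (!decide (2 * y + 1 ∈ T)).toNat +
        (T.filter fun s => 2 * y + 2 ≤ s ∧ s < m).card := by
      rw [rank_add _ (show 2 * y + 2 ≤ m by omega), Rk_j (show (Z y).b < 2 * y + 2 by rw [b_Z]; omega),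
        show 2 * y + 2 = 2 * y + 1 + 1 by ring, rank_succ,
        Rk_tog (show 2 * y + 1 = (Z y).a ∨ 2 * y + 1 = (Z y).b from Or.inr rfl),
        rank_succ, Rk_tog (show 2 * y = (Z y).a ∨ 2 * y = (Z y).b from Or.inl rfl),
        rank_act_le (show 2 * y ≤ (Z y).a from le_rfl)]
    rw [e1, e2]
    exact Rk_locZ _ _ _ _

theorem valid_out (T : Finset ℤ) (e : Ed) :
    Valid T.card (out T e) ∧ endk T.card (out T e) = (act T e).card := by
  obtain ⟨m, hm1, hm2⟩ : ∃ m : ℤ, e.b < m ∧ ∀ s ∈ T ∪ act T e, s < m := by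
    refine ⟨1 + |e.b| + ∑ s ∈ T ∪ act T e, |s|, ?_, fun s hs => ?_⟩
    · have h1 : 0 ≤ ∑ s ∈ T ∪ act T e, |s| := Finset.sum_nonneg fun _ _ => abs_nonneg _
      have h2 := le_abs_self e.b
      omega
    · have h1 : |s| ≤ ∑ s ∈ T ∪ act T e, |s| :=
        Finset.single_le_sum (f := fun s : ℤ => |s|) (fun _ _ => abs_nonneg _) hs
      have h2 := le_abs_self s
      have h3 := abs_nonneg e.b
      omega
  have h := out_loc T e m hm1
  rw [rank_all fun s hs => hm2 s (Finset.mem_union_left _ hs), rank_all fun s hs => hm2 s (Finset.mem_union_right _ hs)] at h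
  exact h

theorem valid_scan (T : Finset ℤ) (w : List Ed) : Valid T.card (scan T w) := by
  induction w generalizing T with
  | nil => trivial
  | cons e w ih =>
    rw [scan_cons, valid_append]
    have h := valid_out T e
    exact ⟨h.1, by rw [h.2]; exact ih _⟩

theorem endk_scan (T : Finset ℤ) (w : List Ed) : endk T.card (scan T w) = (run T w).card := by
  induction w generalizing T with
  | nil => rfl
  | cons e w ih =>
    rw [scan_cons, endk_append, (valid_out T e).2, ih, run_cons]

end Pool.Agent.Lib.MP_dd2c10_prF
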