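import Pool.Agent.Lib.MP_dd2c10_prF.Pl
import Pool.Agent.Lib.MP_dd2c10_prF.Rk

/-! JOB Col (MP_dd2c10_pr): colourings of diagrams by two colours, and the number of components.

PROOFS: inductions on the runs. `crun_append`: `CRun l (u ++ v) s l''` splits at the end of `u`. `crun_last`: the last state is the end. `crun_length`. -/

namespace Pool.Agent.Lib.MP_dd2c10_prF

open Gen

theorem crun_append {u v : List Gen} {l l' l'' : List Bool} {s t : List (List Bool)} (h : CRun l u s l')
    (h' : CRun l' v t l'') : CRun l (u ++ v) (s ++ t) l'' := by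
  induction h with
  | nil l => exact h'
  | cons hs _ ih => exact CRun.cons hs (ih h')

theorem crun_split {u v : List Gen} {l l'' : List Bool} {r : List (List Bool)} (h : CRun l (u ++ v) r l'') :
    ∃ s t l', r = s ++ t ∧ CRun l u s l' ∧ CRun l' v t l'' := by
  induction u generalizing l r with
  | nil => exact ⟨[], r, l, rfl, CRun.nil l, h⟩
  | cons g u ih =>
    cases h with
    | cons hs hr =>
      obtain ⟨s, t, l', h1, h2, h3⟩ := ih hr
      exact ⟨_ :: s, t, l', by rw [h1]; rfl, CRun.cons hs h2, h3⟩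

theorem crun_last {w : List Gen} {l l' : List Bool} {s : List (List Bool)} (h : CRun l w s l') :
    (w = [] ∧ l' = l) ∨ l' ∈ s := by
  induction h with
  | nil l => exact Or.inl ⟨rfl, rfl⟩
  | cons hs hr ih =>
    right
    rcases ih with ⟨_, h2⟩ | h2
    · rw [h2]
      exact List.mem_cons_self
    · exact List.mem_cons_of_mem _ h2

/-- The colours of the strands of a state. -/
def cl (T : Finset ℤ) (f : ℤ → Bool) : List Bool := (T.sort (· ≤ ·)).map f

/-- Consistent colours before (`f`) and after (`f'`) the edge `e`. -/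
def LStep (T : Finset ℤ) (e : Ed) (f f' : ℤ → Bool) : Prop :=
  (∀ x ∈ T, x ≠ e.a → x ≠ e.b → f' x = f x) ∧ (e.a ∈ T → e.b ∉ T → f' e.b = f e.a) ∧
    (e.b ∈ T → e.a ∉ T → f' e.a = f e.b) ∧ (e.a ∈ T → e.b ∈ T → f e.a = f e.b) ∧
    (e.a ∉ T → e.b ∉ T → f' e.a = f' e.b)

end Pool.Agent.Lib.MP_dd2c10_prF
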