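import Pool.Agent.Lib.MP_dd2c10_prF.Col

/-! JOB ColA (MP_dd2c10_pr): sorted lists of strands, split at a window.

PROOFS.
* `cl_congr`: `List.map_congr_left`, `Finset.mem_sort`.
* `cl_split`: let `W` be a strictly increasing list which lists the elements of `T` in `[a, b]`. Then `T.sort (· ≤ ·) = (T.filter (· < a)).sort ++ W ++ (T.filter (b < ·)).sort`: both sides are strictly increasing lists with the same members (`List.Perm.eq_of_sorted`/
  `List.eq_of_perm_of_sorted`, or `Finset.sort_sorted_lt`, uniqueness of the strictly sorted list: compare with `desc_unique` in `CohB.lean`). Map by `f`.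
* `cl_low_length`: length of `(T.filter (· < a)).sort` is the card, which is `rank T a` by definition.
* `cl_low`, `cl_high`: the filtered sets agree: `Finset.filter` of `act T e` below `e.a` and above `e.b` (`mem_act`). -/

namespace Pool.Agent.Lib.MP_dd2c10_prF

open Gen

private theorem ColA_uniq {l l' : List ℤ} (h : l.Pairwise (· < ·)) (h' : l'.Pairwise (· < ·)) (hm : ∀ x, x ∈ l ↔ x ∈ l') :
    l = l' := by
  have hn : l.Nodup := List.Pairwise.imp (fun hab => ne_of_lt hab) h
  have hn' : l'.Nodup := List.Pairwise.imp (fun hab => ne_of_lt hab) h'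
  have hp : l.Perm l' := (List.perm_ext_iff_of_nodup hn hn').2 hm
  exact List.Perm.eq_of_pairwise (fun a b _ _ hab hba => absurd hba (lt_asymm hab)) h h' hp

theorem cl_congr {T : Finset ℤ} {f f' : ℤ → Bool} (h : ∀ x ∈ T, f x = f' x) : cl T f = cl T f' := by
  unfold cl
  exact List.map_congr_left fun x hx => h x ((Finset.mem_sort _).1 hx)

theorem cl_split {T : Finset ℤ} {a b : ℤ} (f : ℤ → Bool) (W : List ℤ) (hW : W.Pairwise (· < ·))
    (hm : ∀ x, x ∈ W ↔ x ∈ T ∧ a ≤ x ∧ x ≤ b) (hab : a ≤ b) :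
    cl T f = cl (T.filter (· < a)) f ++ W.map f ++ cl (T.filter (b < ·)) f := by
  unfold cl
  rw [← List.map_append, ← List.map_append]
  refine congrArg (List.map f) ?_
  have h1 : ∀ x ∈ (T.filter (· < a)).sort (· ≤ ·), x < a ∧ x ∈ T := by
    intro x hx
    have h2 := Finset.mem_filter.1 ((Finset.mem_sort _).1 hx)
    exact ⟨h2.2, h2.1⟩
  have h3 : ∀ x ∈ (T.filter (b < ·)).sort (· ≤ ·), b < x ∧ x ∈ T := by
    intro x hx
    have h2 := Finset.mem_filter.1 ((Finset.mem_sort _).1 hx)
    exact ⟨h2.2, h2.1⟩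
  have hs : ∀ U : Finset ℤ, (U.sort (· ≤ ·)).Pairwise (· < ·) := fun U => (Finset.sortedLT_sort U).pairwise
  have hp : ((T.filter (· < a)).sort (· ≤ ·) ++ W ++ (T.filter (b < ·)).sort (· ≤ ·)).Pairwise (· < ·) := by
    rw [List.pairwise_append, List.pairwise_append]
    refine ⟨⟨hs _, hW, ?_⟩, hs _, ?_⟩
    · intro x hx y hy
      have h4 := (h1 x hx).1
      have h5 := ((hm y).1 hy).2.1
      omega
    · intro x hx y hy
      have h5 := (h3 y hy).1
      rcases List.mem_append.1 hx with h4 | h4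
      · have h6 := (h1 x h4).1
        omega
      · have h6 := ((hm x).1 h4).2.2
        omega
  have hmem : ∀ x, x ∈ T.sort (· ≤ ·) ↔ x ∈ (T.filter (· < a)).sort (· ≤ ·) ++ W ++ (T.filter (b < ·)).sort (· ≤ ·) := by
    intro x
    rw [List.mem_append, List.mem_append, Finset.mem_sort, Finset.mem_sort, Finset.mem_sort, hm, Finset.mem_filter,
      Finset.mem_filter]
    constructor
    · intro hx
      by_cases h4 : x < a
      · exact Or.inl (Or.inl ⟨hx, h4⟩)
      · by_cases h5 : b < x
        · exact Or.inr ⟨hx, h5⟩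
        · exact Or.inl (Or.inr ⟨hx, by omega, by omega⟩)
    · rintro ((h4 | h4) | h4)
      · exact h4.1
      · exact h4.1
      · exact h4.1
  exact ColA_uniq (hs T) hp hmem


theorem cl_low_length (T : Finset ℤ) (a : ℤ) (f : ℤ → Bool) : (cl (T.filter (· < a)) f).length = rank T a := by
  unfold cl rank
  rw [List.length_map, Finset.length_sort]

theorem filter_low (T : Finset ℤ) (e : Ed) : (act T e).filter (· < e.a) = T.filter (· < e.a) := by
  ext x
  rw [Finset.mem_filter, Finset.mem_filter, mem_act]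
  have h := Ed.a_lt_b e
  by_cases hx : x < e.a
  · have h1 : ¬ (x = e.a ∨ x = e.b) := by omega
    tauto
  · exact ⟨fun h1 => absurd h1.2 hx, fun h1 => absurd h1.2 hx⟩

theorem filter_high (T : Finset ℤ) (e : Ed) : (act T e).filter (e.b < ·) = T.filter (e.b < ·) := by
  ext x
  rw [Finset.mem_filter, Finset.mem_filter, mem_act]
  have h := Ed.a_lt_b e
  by_cases hx : e.b < x
  · have h1 : ¬ (x = e.a ∨ x = e.b) := by omega
    tauto
  · exact ⟨fun h1 => absurd h1.2 hx, fun h1 => absurd h1.2 hx⟩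

theorem mem_cl {T : Finset ℤ} {f : ℤ → Bool} {y : Bool} : y ∈ cl T f ↔ ∃ x ∈ T, f x = y := by
  unfold cl
  rw [List.mem_map]
  constructor
  · rintro ⟨x, hx, h⟩
    exact ⟨x, (Finset.mem_sort _).1 hx, h⟩
  · rintro ⟨x, hx, h⟩
    exact ⟨x, (Finset.mem_sort _).2 hx, h⟩

end Pool.Agent.Lib.MP_dd2c10_prF
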