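import Pool.Agent.Lib.MP_dd2c10_pr.Moves

/-! JOB Cyc (MP_dd2c10_pr): a finite connected set of edges with all degrees two is a polygon, and polygons are connected.

PROOFS.
* `poly_conn`: `ω` is the edge set of a cycle `c`; `F` is constant along the walk (induction on the walk: all vertices of the support have the same value), and each vertex of an edge of `ω` is in the support.
* `polygon_of_conn`: let `G = SimpleGraph.fromEdgeSet ω` (elements of `ω` are not loops: `Good.adj`, `cubic` is loopless). Each vertex of `G` has no neighbour or exactly two (`Good.deg`): `G.IsCycles` (Mathlib, `SimpleGraph.IsCycles`: `∀ ⦃v⦄, (G.neighborSet v).Nonempty → (G.neighborSet v).ncard = 2`). Take `s(u, v) ∈ ω`.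
  Mathlib: `SimpleGraph.IsCycles.exists_cycle_toSubgraph_verts_eq_connectedComponentSupp` (search the exact name): for a connected component whose support is finite and with a neighbour there is a cycle through all its vertices. Let `p` be this cycle for the component of `u`. Its vertex set is closed: `F := decide (w ∈ component)`
  is constant along `ω` and true at `u`, so by `hc` true at all vertices of `ω`. So all vertices of `ω` are on `p`; each vertex of `p` has two edges of `p` (`IsCycle.ncard_neighborSet_toSubgraph_eq_two`) which are its two edges in `ω`; so `ω = p.edges`. Map `p` to `cubic` (`Walk.mapLe` with `G ≤ cubic`, `IsCycle.mapLe`, edges unchanged: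
  `Walk.edges_mapLe`/`edges_map`). Slab: `Good.slab`. -/

namespace Pool.Agent.Lib.MP_dd2c10_prF

open Pool.Agent.Lib.MP_dd2c10_pr

private theorem Cyc_walk {F : Pt → Bool} {a b : Pt} (p : cubic.Walk a b) :
    (∀ u v, s(u, v) ∈ p.edges → F u = F v) → ∀ w ∈ p.support, F w = F a := by
  induction p with
  | nil =>
    intro _ w hw
    rw [SimpleGraph.Walk.support_nil, List.mem_singleton] at hw
    rw [hw]
  | cons h p ih =>
    intro hF w hw
    rw [SimpleGraph.Walk.support_cons, List.mem_cons] at hw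
    rcases hw with hw | hw
    · rw [hw]
    · rw [ih (fun u v huv => hF u v (by
        rw [SimpleGraph.Walk.edges_cons]
        exact List.mem_cons_of_mem _ huv)) w hw]
      refine (hF _ _ ?_).symm
      rw [SimpleGraph.Walk.edges_cons]
      exact List.mem_cons_self

theorem poly_conn {ω : Set (Sym2 Pt)} (h : IsPolygon 1 ω) {F : Pt → Bool} (hF : ∀ u v, s(u, v) ∈ ω → F u = F v) :
    ∃ x, ∀ u v, s(u, v) ∈ ω → F u = x := by
  obtain ⟨v, c, hc, hs, rfl⟩ := h
  have key : ∀ w ∈ c.support, F w = F v := Cyc_walk c fun a b hab => hF a b hab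
  exact ⟨F v, fun a b hab => key a (c.fst_mem_support_of_mem_edges hab)⟩

theorem polygon_of_conn {ω : Set (Sym2 Pt)} (hG : Good ω) (hf : ω.Finite) (hne : ω.Nonempty)
    (hc : ∀ F : Pt → Bool, (∀ u v, s(u, v) ∈ ω → F u = F v) → ∃ x, ∀ u v, s(u, v) ∈ ω → F u = x) :
    IsPolygon 1 ω := by
  classical
  obtain ⟨S, hS⟩ : ∃ S : Set Pt, S = {v | ∃ w, s(v, w) ∈ ω} := ⟨_, rfl⟩
  have hmem : ∀ v, v ∈ S ↔ ∃ w, s(v, w) ∈ ω := fun v => by rw [hS]; rfl
  have hSf : S.Finite := by
    refine (hf.biUnion (t := fun e : Sym2 Pt => {v | v ∈ e}) fun e _ => ?_).subset fun v hv => ?_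
    · induction e using Sym2.ind with
      | _ x y =>
        refine (Set.toFinite {x, y}).subset fun z hz => ?_
        exact Sym2.mem_iff.1 hz
    · obtain ⟨w, hw⟩ := (hmem v).1 hv
      exact Set.mem_biUnion hw (Sym2.mem_mk_left v w)
  have hfin : Finite S := hSf.to_subtype
  let G : SimpleGraph S :=
    { Adj := fun u v => s(u.1, v.1) ∈ ω
      symm := ⟨fun u v h => by
        rw [Sym2.eq_swap]
        exact h⟩
      loopless := ⟨fun u h => (hG.adj u.1 u.1 h).ne rfl⟩ }
  have hGadj : ∀ u v : S, G.Adj u v ↔ s(u.1, v.1) ∈ ω := fun u v => Iff.rfl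
  let f : G →g cubic := ⟨fun u => u.1, fun {u v} h => hG.adj u.1 v.1 h⟩
  have hfinj : Function.Injective f := fun u v h => Subtype.ext h
  have hcyc : G.IsCycles := by
    intro v _
    obtain ⟨w, hw⟩ := (hmem v.1).1 v.2
    obtain ⟨x, y, hxy, hz⟩ := hG.deg v.1 w hw
    have hx : s(v.1, x) ∈ ω := (hz x).2 (Or.inl rfl)
    have hy : s(v.1, y) ∈ ω := (hz y).2 (Or.inr rfl)
    have hxS : x ∈ S := (hmem x).2 ⟨v.1, by rw [Sym2.eq_swap]; exact hx⟩
    have hyS : y ∈ S := (hmem y).2 ⟨v.1, by rw [Sym2.eq_swap]; exact hy⟩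
    rw [Set.ncard_eq_two]
    refine ⟨⟨x, hxS⟩, ⟨y, hyS⟩, fun h => hxy (congrArg Subtype.val h), ?_⟩
    ext z
    rw [SimpleGraph.mem_neighborSet, hGadj, hz z.1, Set.mem_insert_iff, Set.mem_singleton_iff, Subtype.ext_iff,
      Subtype.ext_iff]
  obtain ⟨e, he⟩ := hne
  obtain ⟨u, v, huv⟩ : ∃ u v, s(u, v) ∈ ω := by
    induction e using Sym2.ind with
    | _ x y => exact ⟨x, y, he⟩
  have huS : u ∈ S := (hmem u).2 ⟨v, huv⟩
  have hvS : v ∈ S := (hmem v).2 ⟨u, by rw [Sym2.eq_swap]; exact huv⟩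
  have hne' : (G.neighborSet ⟨u, huS⟩).Nonempty := ⟨⟨v, hvS⟩, huv⟩
  obtain ⟨p, hp, hpv⟩ := hcyc.exists_cycle_toSubgraph_verts_eq_connectedComponentSupp
    (c := G.connectedComponentMk ⟨u, huS⟩) rfl hne'
  have hall : ∀ w : S, w ∈ p.toSubgraph.verts := by
    obtain ⟨x, hx⟩ := hc (fun w => decide (∃ h : w ∈ S, (⟨w, h⟩ : S) ∈ p.toSubgraph.verts)) fun a b hab => by
      have haS : a ∈ S := (hmem a).2 ⟨b, hab⟩
      have hbS : b ∈ S := (hmem b).2 ⟨a, by rw [Sym2.eq_swap]; exact hab⟩
      have hadj : G.Adj ⟨a, haS⟩ ⟨b, hbS⟩ := hab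
      refine decide_eq_decide.2 ?_
      rw [hpv]
      have h1 : ∀ w : S, w ∈ (G.connectedComponentMk ⟨u, huS⟩).supp ↔
        G.connectedComponentMk w = G.connectedComponentMk ⟨u, huS⟩ := fun w => Iff.rfl
      have h2 : G.connectedComponentMk ⟨a, haS⟩ = G.connectedComponentMk ⟨b, hbS⟩ :=
        SimpleGraph.ConnectedComponent.connectedComponentMk_eq_of_adj hadj
      constructor
      · rintro ⟨h, h3⟩
        exact ⟨hbS, (h1 _).2 (h2.symm.trans ((h1 _).1 h3))⟩
      · rintro ⟨h, h3⟩
        exact ⟨haS, (h1 _).2 (h2.trans ((h1 _).1 h3))⟩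
    have hxt : true = x := by
      rw [← hx u v huv]
      refine (decide_eq_true ?_).symm
      refine ⟨huS, ?_⟩
      rw [hpv]
      rfl
    intro w
    obtain ⟨w', hw'⟩ := (hmem w.1).1 w.2
    have h1 := hx w.1 w' hw'
    rw [← hxt] at h1
    obtain ⟨h2, h3⟩ := of_decide_eq_true h1
    exact h3
  refine ⟨u, p.map f, hp.map hfinj, ?_, ?_⟩
  · intro x hx
    rw [SimpleGraph.Walk.support_map, List.mem_map] at hx
    obtain ⟨y, _, rfl⟩ := hx
    obtain ⟨w, hw⟩ := (hmem y.1).1 y.2
    exact hG.slab y.1 w hw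
  · have hlf : G.LocallyFinite := fun v => Fintype.ofFinite _
    ext e
    induction e using Sym2.ind with
    | _ a b =>
      show s(a, b) ∈ ω ↔ s(a, b) ∈ (p.map f).edges
      rw [SimpleGraph.Walk.edges_map, List.mem_map]
      constructor
      · intro hab
        have haS : a ∈ S := (hmem a).2 ⟨b, hab⟩
        have hbS : b ∈ S := (hmem b).2 ⟨a, by rw [Sym2.eq_swap]; exact hab⟩
        refine ⟨s(⟨a, haS⟩, ⟨b, hbS⟩), ?_, rfl⟩
        rw [← SimpleGraph.Walk.adj_toSubgraph_iff_mem_edges, hp.adj_toSubgraph_iff_of_isCycles hcyc (hall _)]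
        exact hab
      · rintro ⟨e', he', hee⟩
        induction e' using Sym2.ind with
        | _ a' b' =>
          rw [← hee]
          exact SimpleGraph.Walk.adj_of_mem_edges p he'

end Pool.Agent.Lib.MP_dd2c10_prF
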