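import Pool.Agent.Lib.MP_dd2c10_prF.TogE

/-! JOB Spr (MP_dd2c10_pr): the letters of a placed word can be spread over different columns far to the right.

PROOFS.
* `step_right`: let `ω = ES (a ++ (c, e) :: b)`, `ω' = symmDiff ω (PX c e) = ES (a ++ (c + 1, e) :: b)` (`es_move`). `Good ω'` by `good_es`: `Loc ω'`: two ladder edges `f₁ ≠ f₂` of `ω'` in a column `c'`
  which meet in `n`. `c' = c + 1`: the only ladder edge of `ω'` in the column `c + 1` is `e` (letters of `a` have columns `≤ c`, letters of `b` columns `> c + 1`; `not_mem_es_edge`): impossible. `c' ≠ c + 1`: the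
  ladder edges of `ω'` in the column `c'` are those of `ω` (without `e` if `c' = c`), and `xed (c' - 1) n` is in `ω` iff it is in `ω'` (only `xed c _` is toggled and
  `c' - 1 ≠ c`); use `loc_of_good hG` for `ω`. (Membership in `symmDiff ω (PX c e)`: `Set.mem_symmDiff`, `PX` by `edgeAt_inj`, `xed_inj`, `edgeAt_ne_xed`.) Then `pe_x`: pattern: `edgeAt c e ∈ ω` and
  `edgeAt (c + 1) e ∉ ω`. For `edgeAt c e ∈ ω`: `ω = ES a ∆ V c e ∆ ES b`; `(c, e) ∉ a`, `(c, e) ∉ b` (`not_mem_es_edge`), `mem_V_edge`.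
* `far_right`: induction on `(d - c).toNat` with `step_right` (the hypotheses persist: `p.1 ≤ c ≤ c + 1`, `(c + 1, e) ∉ a` since columns of `a` are `≤ c`).
* `spread_aux`: induction on `ℓ₁` from the right (`List.reverseRecOn`, generalizing `w₂`): `ℓ₁ = ℓ₀ ++ [(c, e)]`: move the letter `(c, e)` to the column `N + ℓ₀.length` by `far_right` with
  `b = place (N + ℓ₀.length + 1) w₂`; then `ℓ₀ ++ (N + ℓ₀.length, e) :: place (N + ℓ₀.length + 1) w₂ = ℓ₀ ++ place (N + ℓ₀.length) (e :: w₂)`.
* `spread`: `spread_aux` with `w₂ = []`. `inc_equiv`: both are `PE` to `ES (place N w)`, `N` larger than all columns (`good_inc`, `Inc` implies the hypotheses of `spread`). -/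

namespace Pool.Agent.Lib.MP_dd2c10_prF

open Pool.Agent.Lib.MP_dd2c10_pr Ed

/-- The word `w` placed in the columns `c, c + 1, ...`. -/
def place : ℤ → List Ed → List (ℤ × Ed)
  | _, [] => []
  | c, e :: w => (c, e) :: place (c + 1) w

theorem place_append (c : ℤ) (u v : List Ed) : place c (u ++ v) = place c u ++ place (c + u.length) v := by
  induction u generalizing c with
  | nil =>
    rw [List.length_nil, Int.natCast_zero, add_zero]
    rfl
  | cons e u ih =>
    have h1 : c + ((e :: u).length : ℤ) = c + 1 + (u.length : ℤ) := by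
      rw [List.length_cons]
      push_cast
      ring
    show (c, e) :: place (c + 1) (u ++ v) = (c, e) :: (place (c + 1) u ++ place (c + ((e :: u).length : ℤ)) v)
    rw [h1, ih]

theorem wd_place (c : ℤ) (w : List Ed) : wd (place c w) = w := by
  induction w generalizing c with
  | nil => rfl
  | cons e w ih =>
    show e :: wd (place (c + 1) w) = e :: w
    rw [ih]

theorem mem_place {c : ℤ} {w : List Ed} {p : ℤ × Ed} (h : p ∈ place c w) : c ≤ p.1 ∧ p.1 < c + w.length := by
  induction w generalizing c with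
  | nil => exact absurd h List.not_mem_nil
  | cons e w ih =>
    rw [List.length_cons]
    push_cast
    rcases List.mem_cons.1 h with h1 | h1
    · rw [h1]
      show c ≤ c ∧ c < c + ((w.length : ℤ) + 1)
      omega
    · have h2 := ih h1
      omega

theorem inc_place (c : ℤ) (w : List Ed) : Inc (place c w) := by
  induction w generalizing c with
  | nil => exact List.Pairwise.nil
  | cons e w ih =>
    refine List.pairwise_cons.2 ⟨fun p hp => ?_, ih (c + 1)⟩
    have h1 := mem_place hp
    show c < p.1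
    omega

private theorem Spr_px_edge {c c' : ℤ} {e g : Ed} : edgeAt c' g ∈ PX c e ↔ (c' = c ∨ c' = c + 1) ∧ g = e := by
  unfold PX
  rw [Set.mem_insert_iff, Set.mem_insert_iff, Set.mem_insert_iff, Set.mem_singleton_iff, edgeAt_inj, edgeAt_inj]
  have h1 : ¬ (edgeAt c' g = xed c e.b) := edgeAt_ne_xed
  have h2 : ¬ (edgeAt c' g = xed c e.a) := edgeAt_ne_xed
  tauto

private theorem Spr_px_xed {c c' n : ℤ} {e : Ed} : xed c' n ∈ PX c e ↔ c' = c ∧ (n = e.a ∨ n = e.b) := by
  unfold PX
  rw [Set.mem_insert_iff, Set.mem_insert_iff, Set.mem_insert_iff, Set.mem_singleton_iff, xed_inj, xed_inj]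
  have h1 : ¬ (xed c' n = edgeAt c e) := fun h => edgeAt_ne_xed h.symm
  have h2 : ¬ (xed c' n = edgeAt (c + 1) e) := fun h => edgeAt_ne_xed h.symm
  tauto

private theorem Spr_mem {a b : List (ℤ × Ed)} {c : ℤ} {e : Ed} (hn : (c, e) ∉ a) (hb : (c, e) ∉ b) :
    edgeAt c e ∈ ES (a ++ (c, e) :: b) := by
  rw [es_append]
  show edgeAt c e ∈ symmDiff (ES a) (symmDiff (V c e) (ES b))
  have h1 : edgeAt c e ∉ ES a := not_mem_es_edge hn
  have h2 : edgeAt c e ∉ ES b := not_mem_es_edge hb
  have h3 : edgeAt c e ∈ V c e := mem_V_edge.2 ⟨rfl, rfl⟩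
  rw [Set.mem_symmDiff, Set.mem_symmDiff]
  tauto

theorem step_right {a b : List (ℤ × Ed)} {c : ℤ} {e : Ed} (hG : Good (ES (a ++ (c, e) :: b)))
    (ha : ∀ p ∈ a, p.1 ≤ c) (hn : (c, e) ∉ a) (hb : ∀ p ∈ b, c + 1 < p.1) :
    Good (ES (a ++ (c + 1, e) :: b)) ∧ PE (ES (a ++ (c, e) :: b)) (ES (a ++ (c + 1, e) :: b)) := by
  have hbn : (c, e) ∉ b := fun h => by
    have h1 : c + 1 < c := hb _ h
    omega
  have hm : edgeAt c e ∈ ES (a ++ (c, e) :: b) := Spr_mem hn hbn
  have hm' : edgeAt (c + 1) e ∉ ES (a ++ (c, e) :: b) := by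
    refine not_mem_es_edge fun h => ?_
    rcases List.mem_append.1 h with h | h
    · have h1 : c + 1 ≤ c := ha _ h
      omega
    · rcases List.mem_cons.1 h with h | h
      · have h1 : c + 1 = c := congrArg Prod.fst h
        omega
      · have h1 : c + 1 < c + 1 := hb _ h
        omega
  have hes := es_move a b c e
  have hG' : Good (ES (a ++ (c + 1, e) :: b)) := by
    refine good_es ?_
    intro c' n e1 f1 hne he hf h1 h2
    by_cases hc : c' = c + 1
    · subst hc
      exfalso
      have key : ∀ g : Ed, edgeAt (c + 1) g ∈ ES (a ++ (c + 1, e) :: b) → g = e := by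
        intro g hg
        by_contra hge
        refine not_mem_es_edge (fun h => ?_) hg
        rcases List.mem_append.1 h with h | h
        · have h1 : c + 1 ≤ c := ha _ h
          omega
        · rcases List.mem_cons.1 h with h | h
          · exact hge (congrArg Prod.snd h)
          · have h1 : c + 1 < c + 1 := hb _ h
            omega
      exact hne ((key e1 h1).trans (key f1 h2).symm)
    · have key : ∀ g : Ed, edgeAt c' g ∈ ES (a ++ (c + 1, e) :: b) → edgeAt c' g ∈ ES (a ++ (c, e) :: b) := by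
        intro g hg
        rw [← hes, Set.mem_symmDiff] at hg
        rcases hg with hg | hg
        · exact hg.1
        · have h3 := Spr_px_edge.1 hg.1
          rcases h3.1 with h4 | h4
          · rw [h4, h3.2]
            exact hm
          · exact absurd h4 hc
      have h3 := loc_of_good hG c' n e1 f1 hne he hf (key e1 h1) (key f1 h2)
      refine ⟨fun h4 => ?_, fun g hg hg2 => h3.2 g hg (key g hg2)⟩
      rw [← hes, Set.mem_symmDiff] at h4
      rcases h4 with h4 | h4
      · exact h3.1 h4.1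
      · have h5 := (Spr_px_xed.1 h4.1).1
        omega
  refine ⟨hG', ?_⟩
  rw [← hes] at hG' ⊢
  refine pe_x hG hG' fun h => ?_
  exact hm' (h.1.1 hm)

theorem far_right {a b : List (ℤ × Ed)} {c d : ℤ} {e : Ed} (hcd : c ≤ d) (hG : Good (ES (a ++ (c, e) :: b)))
    (ha : ∀ p ∈ a, p.1 ≤ c) (hn : (c, e) ∉ a) (hb : ∀ p ∈ b, d < p.1) :
    Good (ES (a ++ (d, e) :: b)) ∧ PE (ES (a ++ (c, e) :: b)) (ES (a ++ (d, e) :: b)) := by
  obtain ⟨k, rfl⟩ : ∃ k : ℕ, d = c + k := ⟨(d - c).toNat, by omega⟩
  clear hcd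
  induction k generalizing c with
  | zero =>
    rw [Int.natCast_zero, add_zero]
    exact ⟨hG, PE.refl _⟩
  | succ k ih =>
    have h1 : ∀ p ∈ b, c + 1 < p.1 ∨ (k = 0 ∧ c + 1 < p.1) := fun p hp => by
      have := hb p hp
      push_cast at this
      left
      omega
    have h2 := step_right hG ha hn fun p hp => by
      rcases h1 p hp with h | h
      · exact h
      · exact h.2
    have h3 : c + ((k + 1 : ℕ) : ℤ) = c + 1 + (k : ℤ) := by
      push_cast
      ring
    rw [h3] at hb ⊢
    have h4 := ih (c := c + 1) h2.1 (fun p hp => (ha p hp).trans (by omega)) (fun h => by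
      have h5 : c + 1 ≤ c := ha _ h
      omega) hb
    exact ⟨h4.1, h2.2.trans h4.2⟩

theorem spread_aux (N : ℤ) (l₁ : List (ℤ × Ed)) (w₂ : List Ed) (h1 : l₁.Pairwise fun p q => p.1 ≤ q.1) (h2 : l₁.Nodup)
    (h3 : ∀ p ∈ l₁, p.1 < N) (hG : Good (ES (l₁ ++ place (N + l₁.length) w₂))) :
    PE (ES (l₁ ++ place (N + l₁.length) w₂)) (ES (place N (wd l₁ ++ w₂))) := by
  induction l₁ using List.reverseRecOn generalizing w₂ with
  | nil =>
    rw [List.length_nil, Int.natCast_zero, add_zero]
    exact PE.refl _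
  | append_singleton l q ih =>
    obtain ⟨c, e⟩ := q
    have e1 : N + ((l ++ [(c, e)]).length : ℤ) = N + (l.length : ℤ) + 1 := by
      rw [List.length_append, List.length_singleton]
      push_cast
      ring
    have e2 : l ++ [(c, e)] ++ place (N + ((l ++ [(c, e)]).length : ℤ)) w₂ =
        l ++ (c, e) :: place (N + (l.length : ℤ) + 1) w₂ := by
      rw [e1, List.append_assoc]
      rfl
    have e3 : wd (l ++ [(c, e)]) ++ w₂ = wd l ++ e :: w₂ := by
      unfold wd
      rw [List.map_append, List.append_assoc]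
      rfl
    rw [e2] at hG
    rw [e2, e3]
    have h1' := List.pairwise_append.1 h1
    have h2' := List.nodup_append.1 h2
    have hc : c < N := h3 (c, e) (List.mem_append_right _ List.mem_cons_self)
    have h4 := far_right (a := l) (b := place (N + (l.length : ℤ) + 1) w₂) (c := c) (d := N + (l.length : ℤ)) (e := e)
      (by omega) hG (fun p hp => h1'.2.2 p hp (c, e) List.mem_cons_self)
      (fun h => h2'.2.2 (c, e) h (c, e) List.mem_cons_self rfl)
      (fun p hp => by
        have := mem_place hp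
        omega)
    exact h4.2.trans (ih (e :: w₂) h1'.1 h2'.1 (fun p hp => h3 p (List.mem_append_left _ hp)) h4.1)

theorem spread {N : ℤ} {ℓ : List (ℤ × Ed)} (h1 : ℓ.Pairwise fun p q => p.1 ≤ q.1) (h2 : ℓ.Nodup)
    (h3 : ∀ p ∈ ℓ, p.1 < N) (hG : Good (ES ℓ)) : PE (ES ℓ) (ES (place N (wd ℓ))) := by
  have e1 : ℓ ++ place (N + (ℓ.length : ℤ)) [] = ℓ := List.append_nil _
  have h4 := spread_aux N ℓ [] h1 h2 h3 (by rw [e1]; exact hG)
  rw [e1, List.append_nil] at h4
  exact h4

private theorem Spr_bound (ℓ : List (ℤ × Ed)) : ∃ N : ℤ, ∀ p ∈ ℓ, p.1 < N := by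
  induction ℓ with
  | nil => exact ⟨0, fun p hp => absurd hp List.not_mem_nil⟩
  | cons q ℓ ih =>
    obtain ⟨N, hN⟩ := ih
    refine ⟨max N (q.1 + 1), fun p hp => ?_⟩
    rcases List.mem_cons.1 hp with rfl | hp
    · exact lt_of_lt_of_le (Int.lt_succ _) (le_max_right _ _)
    · exact lt_of_lt_of_le (hN p hp) (le_max_left _ _)

private theorem Spr_nodup {ℓ : List (ℤ × Ed)} (h : Inc ℓ) : ℓ.Nodup := by
  have h0 : ℓ.Pairwise fun p q => p.1 < q.1 := h
  exact h0.imp fun hpq e => hpq.ne (congrArg Prod.fst e)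

private theorem Spr_le {ℓ : List (ℤ × Ed)} (h : Inc ℓ) : ℓ.Pairwise fun p q => p.1 ≤ q.1 := by
  have h0 : ℓ.Pairwise fun p q => p.1 < q.1 := h
  exact h0.imp fun hpq => hpq.le

/-- The columns of a placed word with different columns do not matter. -/
theorem inc_equiv {ℓ ℓ' : List (ℤ × Ed)} (h : Inc ℓ) (h' : Inc ℓ') (hw : wd ℓ = wd ℓ') : PE (ES ℓ) (ES ℓ') := by
  obtain ⟨N, hN⟩ := Spr_bound (ℓ ++ ℓ')
  have h1 := spread (Spr_le h) (Spr_nodup h)
    (fun p hp => hN p (List.mem_append_left _ hp)) (good_inc h)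
  have h2 := spread (Spr_le h') (Spr_nodup h')
    (fun p hp => hN p (List.mem_append_right _ hp)) (good_inc h')
  rw [hw] at h1
  exact h1.trans h2.symm

end Pool.Agent.Lib.MP_dd2c10_prF
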