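import Pool.Agent.Lib.MP_dd2c10_prF.ColW
import Pool.Agent.Lib.MP_dd2c10_prF.Cyc
import Pool.Agent.Lib.MP_dd2c10_prF.Spr

/-! JOB ColE (MP_dd2c10_pr): the placed word is a polygon if and only if its diagram has one component.

PROOFS.
* `fok_of_es`: prove for all `a`, `w` with `u = a ++ w`: if `F` is constant along `ES (place 0 u)` then `FOk F a.length (run ∅ a) w`, by induction on `w` generalizing `a` (the next `a` is `a ++ [e]`): `edgeAt a.length e ∈ ES (place 0 u)` (`mem_es_edge`, `place_append`; the placed word is nodup since `inc_place`),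
  and for `n ∈ act (run ∅ a) e = run ∅ (a ++ [e])`: `xed a.length n ∈ ES (place 0 u)`: `mem_es_xed` and `st (place 0 (a ++ e :: w)) a.length = run ∅ (a ++ [e])` (`st_place`: the letters in the columns `≤ a.length` are the first `a.length + 1`).
* `es_of_fok`: conversely `FOk F 0 ∅ w` and `run ∅ w = ∅` imply that `F` is constant along `ES (place 0 w)`: an edge `s(u, v)` of `ES (place 0 w)` is `edgeAt c e` with `(c, e) ∈ place 0 w` or `xed c n` with `n ∈ st (place 0 w) c` (`es_sub`, `mem_es_edge`, `mem_es_xed`); for `c < 0` or `c ≥ w.length` the state is `∅`. For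
  `0 ≤ c < w.length` use `FOk` at the letter number `c` (lemma: `FOk F 0 ∅ (a ++ w) → FOk F a.length (run ∅ a) w`). `Sym2.eq_iff` gives `u, v` in one of two orders.
* `es_of_fall`, `fall_of_es`: the same for `FAll`: `F = x` at the ends of all edges of `ES (place 0 w)` iff `FAll F x 0 ∅ w` (`run ∅ w = ∅`): a vertex `pt c n` with `n` in the state before or after the letter number `c` is an end of `xed (c - 1) n` or `xed c n`, and conversely.
* `onecomp_poly`: `polygon_of_conn`: `Good` by `good_inc`, finite: the edges are `edgeAt c e`, `(c, e) ∈ place 0 w`, and `xed c n` with `0 ≤ c < w.length`, `n` in one of finitely many states. Nonempty: `w ≠ []` since its diagram is not empty. Connected: let `F` be constant along the edges; `fok_of_es`, `fok_run` (with `T = ∅`, `cl ∅ _ = []`) give a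
  run `CRun [] (scan ∅ w) s l`; `OneComp` gives `x`; so `FAll F x 0 ∅ w`; `es_of_fall`.
* `poly_onecomp`: the diagram is not empty: `w ≠ []` (`ES [] = ∅` is not a polygon), and the first edge `e` at `∅` has `out ∅ e = [cup 0]`. Given `CRun [] (scan ∅ w) s l`: `run_fok` with `T = ∅`, `c = 0` (`cl ∅ f = []`) gives `F`; `es_of_fok`; `poly_conn` gives `x`; `fall_of_es`; so all colours in `s` are `x`. -/

namespace Pool.Agent.Lib.MP_dd2c10_prF

open Pool.Agent.Lib.MP_dd2c10_pr Gen Ed

private theorem ColE_filter (w : List Ed) (c d : ℤ) :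
    (place d w).filter (fun p => decide (p.1 ≤ c)) = place d (w.take (c + 1 - d).toNat) := by
  induction w generalizing d with
  | nil =>
    rw [List.take_nil]
    rfl
  | cons e w ih =>
    have h0 : place d (e :: w) = (d, e) :: place (d + 1) w := rfl
    rw [h0]
    by_cases h : d ≤ c
    · rw [List.filter_cons_of_pos (by simpa using h), ih]
      have h1 : (c + 1 - d).toNat = (c + 1 - (d + 1)).toNat + 1 := by omega
      rw [h1, List.take_succ_cons]
      rfl
    · rw [List.filter_cons_of_neg (by simpa using h), ih]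
      have h1 : (c + 1 - (d + 1)).toNat = 0 := by omega
      have h2 : (c + 1 - d).toNat = 0 := by omega
      rw [h1, h2, List.take_zero, List.take_zero]
      rfl

theorem st_place (w : List Ed) (c : ℤ) : st (place 0 w) c = run ∅ (w.take (c + 1).toNat) := by
  unfold st
  rw [ColE_filter, wd_place]
  have h : c + 1 - 0 = c + 1 := by ring
  rw [h]

private theorem ColE_take (a b : List Ed) (e : Ed) : (a ++ e :: b).take (a.length + 1) = a ++ [e] := by
  rw [List.take_append, List.take_of_length_le (Nat.le_succ a.length)]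
  have h : a.length + 1 - a.length = 1 := by omega
  rw [h]
  rfl

private theorem ColE_st (a b : List Ed) (e : Ed) :
    st (place 0 (a ++ e :: b)) (a.length : ℤ) = act (run ∅ a) e := by
  rw [st_place]
  have h : ((a.length : ℤ) + 1).toNat = a.length + 1 := by omega
  rw [h, ColE_take, run_append]
  rfl

private theorem ColE_st_pred (a b : List Ed) :
    st (place 0 (a ++ b)) ((a.length : ℤ) - 1) = run ∅ a := by
  rw [st_place]
  have h : ((a.length : ℤ) - 1 + 1).toNat = a.length := by omega
  rw [h, List.take_left]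

private theorem ColE_mem (a b : List Ed) (e : Ed) : ((a.length : ℤ), e) ∈ place 0 (a ++ e :: b) := by
  rw [place_append, List.mem_append]
  right
  rw [zero_add]
  exact List.mem_cons_self

private theorem ColE_nodup (c : ℤ) (w : List Ed) : (place c w).Nodup := by
  refine (inc_place c w).imp ?_
  intro p q h h1
  rw [h1] at h
  exact lt_irrefl _ h

private theorem ColE_len (a : List Ed) (e : Ed) : ((a ++ [e]).length : ℤ) = (a.length : ℤ) + 1 := by
  rw [List.length_append]
  rfl

private theorem ColE_run (a : List Ed) (e : Ed) : run ∅ (a ++ [e]) = act (run ∅ a) e := by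
  rw [run_append]
  rfl

private theorem ColE_assoc (a w : List Ed) (e : Ed) : a ++ e :: w = (a ++ [e]) ++ w := by
  rw [List.append_assoc]
  rfl

private theorem ColE_fok_aux {F : Pt → Bool} {u : List Ed} (h : ∀ x y, s(x, y) ∈ ES (place 0 u) → F x = F y)
    (w a : List Ed) (hu : u = a ++ w) : FOk F (a.length : ℤ) (run ∅ a) w := by
  induction w generalizing a with
  | nil => exact trivial
  | cons e w ih =>
    refine ⟨?_, ?_, ?_⟩
    · apply h
      rw [hu]
      exact (mem_es_edge (ColE_nodup 0 _) _ _).mpr (ColE_mem a w e)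
    · intro n hn
      apply h
      rw [hu]
      refine (mem_es_xed _ _ _).mpr ?_
      rw [ColE_st]
      exact hn
    · have h1 := ih (a ++ [e]) (hu.trans (ColE_assoc a w e))
      rw [ColE_len, ColE_run] at h1
      exact h1

theorem fok_of_es {F : Pt → Bool} {w : List Ed} (h : ∀ u v, s(u, v) ∈ ES (place 0 w) → F u = F v) : FOk F 0 ∅ w := by
  exact ColE_fok_aux h w [] rfl

private theorem ColE_fok_drop {F : Pt → Bool} (a w : List Ed) (c : ℤ) (T : Finset ℤ) (h : FOk F c T (a ++ w)) :
    FOk F (c + (a.length : ℤ)) (run T a) w := by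
  induction a generalizing c T with
  | nil =>
    have h1 : c + (([] : List Ed).length : ℤ) = c := by
      rw [List.length_nil]
      exact add_zero c
    rw [h1]
    exact h
  | cons e a ih =>
    have h1 : c + ((e :: a).length : ℤ) = (c + 1) + (a.length : ℤ) := by
      rw [List.length_cons]
      push_cast
      ring
    rw [h1]
    exact ih (c + 1) (act T e) h.2.2

private theorem ColE_fall_drop {F : Pt → Bool} {x : Bool} (a w : List Ed) (c : ℤ) (T : Finset ℤ)
    (h : FAll F x c T (a ++ w)) : FAll F x (c + (a.length : ℤ)) (run T a) w := by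
  induction a generalizing c T with
  | nil =>
    have h1 : c + (([] : List Ed).length : ℤ) = c := by
      rw [List.length_nil]
      exact add_zero c
    rw [h1]
    exact h
  | cons e a ih =>
    have h1 : c + ((e :: a).length : ℤ) = (c + 1) + (a.length : ℤ) := by
      rw [List.length_cons]
      push_cast
      ring
    rw [h1]
    exact ih (c + 1) (act T e) h.2

private theorem ColE_mem_split {w : List Ed} {c d : ℤ} {e : Ed} (h : (c, e) ∈ place d w) :
    ∃ a b : List Ed, w = a ++ e :: b ∧ c = d + (a.length : ℤ) := by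
  induction w generalizing d with
  | nil => exact absurd h List.not_mem_nil
  | cons f w ih =>
    have h1 : (c, e) ∈ (d, f) :: place (d + 1) w := h
    rw [List.mem_cons] at h1
    rcases h1 with h1 | h1
    · rw [Prod.mk.injEq] at h1
      refine ⟨[], w, ?_, ?_⟩
      · rw [h1.2]
        rfl
      · rw [h1.1]
        exact (add_zero d).symm
    · obtain ⟨a, b, h2, h3⟩ := ih h1
      refine ⟨f :: a, b, ?_, ?_⟩
      · rw [h2]
        rfl
      · rw [h3, List.length_cons]
        push_cast
        ring

private theorem ColE_st_split {w : List Ed} {c n : ℤ} (hw : run ∅ w = ∅) (h : n ∈ st (place 0 w) c) :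
    ∃ (a : List Ed) (e : Ed) (b : List Ed), w = a ++ e :: b ∧ c = (a.length : ℤ) ∧ n ∈ act (run ∅ a) e := by
  have h0 : ∀ m, m ∉ (∅ : Finset ℤ) := fun m => Finset.notMem_empty m
  by_cases h1 : c < 0
  · exfalso
    rw [st_place] at h
    have h2 : (c + 1).toNat = 0 := by omega
    rw [h2, List.take_zero] at h
    exact h0 n h
  by_cases h3 : (w.length : ℤ) ≤ c
  · exfalso
    rw [st_place] at h
    have h2 : w.length ≤ (c + 1).toNat := by omega
    rw [List.take_of_length_le h2, hw] at h
    exact h0 n h
  have h4 : c.toNat < w.length := by omega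
  have h5 : w = w.take c.toNat ++ w[c.toNat] :: w.drop (c.toNat + 1) := by
    rw [← List.drop_eq_getElem_cons h4, List.take_append_drop]
  have h6 : (w.take c.toNat).length = c.toNat := by
    rw [List.length_take]
    omega
  have h7 : c = ((w.take c.toNat).length : ℤ) := by
    rw [h6]
    omega
  refine ⟨w.take c.toNat, w[c.toNat], w.drop (c.toNat + 1), h5, h7, ?_⟩
  rw [← ColE_st (w.take c.toNat) (w.drop (c.toNat + 1)) w[c.toNat], ← h5, ← h7]
  exact h

theorem es_of_fok {F : Pt → Bool} {w : List Ed} (hw : run ∅ w = ∅) (h : FOk F 0 ∅ w) :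
    ∀ u v, s(u, v) ∈ ES (place 0 w) → F u = F v := by
  intro u v hs
  rcases es_sub hs with ⟨c, e, he⟩ | ⟨c, n, he⟩
  · rw [he, mem_es_edge (ColE_nodup 0 _)] at hs
    obtain ⟨a, b, rfl, hc⟩ := ColE_mem_split hs
    have h1 := ColE_fok_drop a (e :: b) 0 ∅ h
    rw [← hc] at h1
    have h2 := h1.1
    unfold edgeAt at he
    rw [Sym2.eq_iff] at he
    rcases he with ⟨rfl, rfl⟩ | ⟨rfl, rfl⟩
    · exact h2
    · exact h2.symm
  · rw [he, mem_es_xed] at hs
    obtain ⟨a, e, b, rfl, hc, hn⟩ := ColE_st_split hw hs
    have h1 := ColE_fok_drop a (e :: b) 0 ∅ h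
    rw [zero_add, ← hc] at h1
    have h2 := h1.2.1 n hn
    unfold xed at he
    rw [Sym2.eq_iff] at he
    rcases he with ⟨rfl, rfl⟩ | ⟨rfl, rfl⟩
    · exact h2
    · exact h2.symm

theorem es_of_fall {F : Pt → Bool} {x : Bool} {w : List Ed} (hw : run ∅ w = ∅) (h : FAll F x 0 ∅ w) :
    ∀ u v, s(u, v) ∈ ES (place 0 w) → F u = x := by
  intro u v hs
  rcases es_sub hs with ⟨c, e, he⟩ | ⟨c, n, he⟩
  · rw [he, mem_es_edge (ColE_nodup 0 _)] at hs
    obtain ⟨a, b, rfl, hc⟩ := ColE_mem_split hs
    have h1 := ColE_fall_drop a (e :: b) 0 ∅ h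
    rw [← hc] at h1
    have ha : e.a ∈ run ∅ a ∨ e.a ∈ act (run ∅ a) e := by
      rw [mem_act]
      tauto
    have hb : e.b ∈ run ∅ a ∨ e.b ∈ act (run ∅ a) e := by
      rw [mem_act]
      tauto
    have h2 := h1.1 e.a ha
    have h3 := h1.1 e.b hb
    unfold edgeAt at he
    rw [Sym2.eq_iff] at he
    rcases he with ⟨rfl, rfl⟩ | ⟨rfl, rfl⟩
    · exact h2
    · exact h3
  · rw [he, mem_es_xed] at hs
    obtain ⟨a, e, b, rfl, hc, hn⟩ := ColE_st_split hw hs
    have h1 := ColE_fall_drop a (e :: b) 0 ∅ h
    rw [zero_add, ← hc] at h1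
    have h2 := h1.1 n (Or.inr hn)
    have h3 : F (pt (c + 1) n) = x := by
      have h4 := h1.2
      cases b with
      | nil =>
        exfalso
        rw [run_append] at hw
        have h5 : act (run ∅ a) e = ∅ := hw
        rw [h5] at hn
        exact Finset.notMem_empty n hn
      | cons f b => exact h4.1 n (Or.inl hn)
    unfold xed at he
    rw [Sym2.eq_iff] at he
    rcases he with ⟨rfl, rfl⟩ | ⟨rfl, rfl⟩
    · exact h2
    · exact h3

private theorem ColE_fall_aux {F : Pt → Bool} {z : Bool} {u : List Ed}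
    (h : ∀ x y, s(x, y) ∈ ES (place 0 u) → F x = z) (w a : List Ed) (hu : u = a ++ w) :
    FAll F z (a.length : ℤ) (run ∅ a) w := by
  induction w generalizing a with
  | nil => exact trivial
  | cons e w ih =>
    refine ⟨?_, ?_⟩
    · intro n hn
      rcases hn with hn | hn
      · apply h _ (pt ((a.length : ℤ) - 1) n)
        rw [hu, Sym2.eq_swap]
        have h1 : xed ((a.length : ℤ) - 1) n ∈ ES (place 0 (a ++ e :: w)) := by
          refine (mem_es_xed _ _ _).mpr ?_
          rw [ColE_st_pred]
          exact hn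
        unfold xed at h1
        rw [sub_add_cancel] at h1
        exact h1
      · apply h _ (pt ((a.length : ℤ) + 1) n)
        rw [hu]
        refine (mem_es_xed _ _ _).mpr ?_
        rw [ColE_st]
        exact hn
    · have h1 := ih (a ++ [e]) (hu.trans (ColE_assoc a w e))
      rw [ColE_len, ColE_run] at h1
      exact h1

theorem fall_of_es {F : Pt → Bool} {x : Bool} {w : List Ed} (h : ∀ u v, s(u, v) ∈ ES (place 0 w) → F u = x) :
    FAll F x 0 ∅ w := by
  exact ColE_fall_aux h w [] rfl

private theorem ColE_cl (f : ℤ → Bool) : cl ∅ f = [] := by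
  unfold cl
  rw [Finset.sort_empty]
  rfl

private theorem ColE_finite {w : List Ed} (hw : run ∅ w = ∅) : (ES (place 0 w)).Finite := by
  have h1 : ((fun p : ℤ × Ed => edgeAt p.1 p.2) '' {p | p ∈ place 0 w}).Finite :=
    (List.finite_toSet (place 0 w)).image _
  have h2 : (⋃ k ∈ Finset.range w.length, (fun n => xed (k : ℤ) n) '' (st (place 0 w) (k : ℤ) : Set ℤ)).Finite := by
    refine Set.Finite.biUnion (Finset.finite_toSet (Finset.range w.length)) ?_
    intro k _
    exact (Finset.finite_toSet _).image _
  refine (h1.union h2).subset ?_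
  intro s hs
  rcases es_sub hs with ⟨c, e, rfl⟩ | ⟨c, n, rfl⟩
  · left
    exact ⟨(c, e), (mem_es_edge (ColE_nodup 0 _) _ _).mp hs, rfl⟩
  · right
    rw [mem_es_xed] at hs
    obtain ⟨a, e, b, h3, hc, hn⟩ := ColE_st_split hw hs
    refine Set.mem_biUnion (x := a.length) ?_ ?_
    · rw [Finset.mem_coe, Finset.mem_range, h3, List.length_append, List.length_cons]
      omega
    · rw [hc] at hs ⊢
      exact ⟨n, hs, rfl⟩

theorem onecomp_poly {w : List Ed} (hw : run ∅ w = ∅) (h : OneComp (scan ∅ w)) : IsPolygon 1 (ES (place 0 w)) := by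
  have hne : w ≠ [] := by
    rintro rfl
    exact h.1 rfl
  refine polygon_of_conn (good_inc (inc_place 0 w)) ?_ ?_ ?_
  · exact ColE_finite hw
  · cases w with
    | nil => exact absurd rfl hne
    | cons e b =>
      exact ⟨edgeAt 0 e, (mem_es_edge (ColE_nodup 0 _) _ _).mpr List.mem_cons_self⟩
  · intro F hF
    obtain ⟨s, l, h1, h2⟩ := fok_run (fok_of_es hF)
    rw [ColE_cl] at h1
    obtain ⟨x, hx⟩ := h.2 s l h1
    refine ⟨x, es_of_fall hw (h2 x ?_ hx)⟩
    intro y hy
    rw [ColE_cl] at hy
    exact absurd hy List.not_mem_nil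

private theorem ColE_out (e : Ed) : out ∅ e ≠ [] := by
  cases e with
  | Y n =>
    intro h
    have h1 := congrArg List.length h
    simp [out, sh, locY] at h1
  | Z y =>
    intro h
    have h1 := congrArg List.length h
    simp [out, sh, locZ] at h1

theorem poly_onecomp {w : List Ed} (hw : run ∅ w = ∅) (h : IsPolygon 1 (ES (place 0 w))) : OneComp (scan ∅ w) := by
  have hne : w ≠ [] := by
    rintro rfl
    obtain ⟨v, c, hc, -, hs⟩ := h
    have h1 := hc.three_le_length
    have h2 : c.edges = [] := by
      rw [List.eq_nil_iff_forall_not_mem]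
      intro s hs'
      have h3 : s ∈ ES (place 0 []) := by
        rw [hs]
        exact hs'
      exact Set.notMem_empty s h3
    have h3 : c.edges.length = c.length := c.length_edges
    rw [h2, List.length_nil] at h3
    omega
  refine ⟨?_, ?_⟩
  · cases w with
    | nil => exact absurd rfl hne
    | cons e b =>
      rw [scan_cons]
      intro h1
      exact ColE_out e (List.append_eq_nil_iff.mp h1).1
  · intro s l h1
    rw [← ColE_cl (fun _ => true)] at h1
    obtain ⟨F, -, h2, h3⟩ := run_fok (c := 0) h1
    obtain ⟨x, hx⟩ := poly_conn h (es_of_fok hw h2)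
    exact ⟨x, h3 x (fall_of_es hx)⟩

end Pool.Agent.Lib.MP_dd2c10_prF
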