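import Pool.Agent.Lib.MP_dd2c10_prF.ColA

/-! JOB ColF (MP_dd2c10_pr): consistent colours at an edge give a colouring of its diagram.

PROOF. Let `A = cl (T.filter (· < e.a)) f`, `B = cl (T.filter (e.b < ·)) f`, `A.length = rank T e.a =: r` (`cl_low_length`). `f' = f` on the lower and upper strands (`LStep`, first part), so `cl (act T e) f' = A ++ W'.map f' ++ B` (`cl_split`, `filter_low`,
`filter_high`, `cl_congr`), `cl T f = A ++ W.map f ++ B`, where `W`, `W'` list the strands in the window `[e.a, e.b]` before and after. The window of `Z y` is `{2 y, 2 y + 1}`, the window of `Y n` is `{n, n + 1, n + 2}`. Cases as in `locY`, `locZ`: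
* exactly one end occupied, middle empty: `out = []`; `W = [x]`, `W' = [x']`, `f' x' = f x`: `CRun.nil` (both lists equal).
* ends empty, middle empty: `out = [cup r]`; `W = []`, `W' = [a, b]`, `f' a = f' b`: `CStep.cup A B (f' a)`.
* ends occupied, middle empty: `[cap r]`: `CStep.cap A B (f a)`.
* `Y n`, middle `m = n + 1` occupied. `n` occupied, `n + 2` not: `[cross r p]`: `W = [n, m]`, `W' = [m, n + 2]`: `CStep.cross A B (f n) (f m) p`, `f' m = f m`, `f' (n + 2) = f n`. `n + 2` occupied, `n` not: `W = [m, n + 2]`, `W' = [n, m]`: the same.
  none: `[cup (r + 1), cross r !p]`: `W = [m]`, `W' = [n, m, n + 2]`, `u := f' n = f' (n + 2)`: `A ++ [f m] ++ B → (A ++ [f m]) ++ [u, u] ++ B → A ++ [u, f m] ++ (u :: B)` (`CStep.cup (A ++ [f m]) B u`, `CStep.cross A (u :: B) (f m) u _`).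
  both: `[cross r p, cap (r + 1)]`: `W = [n, m, n + 2]`, `W' = [m]`, `u := f n = f (n + 2)`: `A ++ [u, f m, u] ++ B → A ++ [f m, u, u] ++ B → A ++ [f m] ++ B`.
The statement about colours: the intermediate states contain only colours of `cl T f` or `cl (act T e) f'` (all states are written out above). Rewriting hint: `out T (Y n) = sh r (locY ..)`; `simp` with the memberships turns it into the explicit list (`Gen.move`, `Gen.pos`, `0 + r = r`, `1 + r`). -/

namespace Pool.Agent.Lib.MP_dd2c10_prF

open Gen Ed

private theorem ColF_one {L l : List Bool} {g : Gen} (h : CStep L g l) : ∃ s, CRun L [g] s l :=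
  ⟨_, CRun.cons h (CRun.nil l)⟩

private theorem ColF_two {L l₁ l : List Bool} {g g' : Gen} (h : CStep L g l₁) (h' : CStep l₁ g' l) :
    ∃ s, CRun L [g, g'] s l := ⟨_, CRun.cons h (CRun.cons h' (CRun.nil l))⟩

/-- The same with one more strand below. -/
private theorem ColF_cup' (A B : List Bool) (w x : Bool) :
    CStep (A ++ w :: B) (Gen.cup (1 + A.length)) (A ++ w :: x :: x :: B) := by
  have h1 := CStep.cup (A ++ [w]) B x
  rw [List.append_assoc, List.append_assoc, List.singleton_append, List.singleton_append, List.length_append,
    List.length_singleton, Nat.add_comm] at h1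
  exact h1

private theorem ColF_cap' (A B : List Bool) (w x : Bool) :
    CStep (A ++ w :: x :: x :: B) (Gen.cap (1 + A.length)) (A ++ w :: B) := by
  have h1 := CStep.cap (A ++ [w]) B x
  rw [List.append_assoc, List.append_assoc, List.singleton_append, List.singleton_append, List.length_append,
    List.length_singleton, Nat.add_comm] at h1
  exact h1

private theorem ColF_main {T : Finset ℤ} {e : Ed} {f f' : ℤ → Bool} (h : LStep T e f f') (V : List ℤ)
    (hV : V.Pairwise (· < ·)) (hm : ∀ x, x ∈ V ↔ e.a ≤ x ∧ x ≤ e.b) :
    ∃ A B : List Bool, A.length = rank T e.a ∧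
      cl T f = A ++ ((V.filter (fun x => decide (x ∈ T))).map f ++ B) ∧
      cl (act T e) f' = A ++ ((V.filter (fun x => decide (x ∈ act T e))).map f' ++ B) := by
  have hab : e.a < e.b := a_lt_b e
  refine ⟨cl (T.filter (· < e.a)) f, cl (T.filter (e.b < ·)) f, cl_low_length T e.a f, ?_, ?_⟩
  · rw [← List.append_assoc]
    refine cl_split f _ (hV.filter _) ?_ (a_lt_b _).le
    intro x
    rw [List.mem_filter, hm, decide_eq_true_iff]
    exact and_comm
  · have h1 : cl (T.filter (· < e.a)) f = cl (T.filter (· < e.a)) f' := by
      refine cl_congr ?_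
      intro x hx
      rw [Finset.mem_filter] at hx
      exact (h.1 x hx.1 hx.2.ne (hx.2.trans hab).ne).symm
    have h2 : cl (T.filter (e.b < ·)) f = cl (T.filter (e.b < ·)) f' := by
      refine cl_congr ?_
      intro x hx
      rw [Finset.mem_filter] at hx
      exact (h.1 x hx.1 (hab.trans hx.2).ne' hx.2.ne').symm
    rw [h1, h2, ← List.append_assoc, ← filter_low T e, ← filter_high T e]
    refine cl_split f' _ (hV.filter _) ?_ (a_lt_b _).le
    intro x
    rw [List.mem_filter, hm, decide_eq_true_iff]
    exact and_comm

private theorem ColF_Z {T : Finset ℤ} {y : ℤ} {f f' : ℤ → Bool} (h : LStep T (Z y) f f') :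
    ∃ s, CRun (cl T f) (out T (Z y)) s (cl (act T (Z y)) f') := by
  obtain ⟨A, B, hA, h0, h5⟩ := ColF_main h [2 * y, 2 * y + 1] (by simp) (by intro x; simp; omega)
  have ha : (2 * y ∈ act T (Z y)) ↔ 2 * y ∉ T := by rw [mem_act]; simp
  have hb : (2 * y + 1 ∈ act T (Z y)) ↔ 2 * y + 1 ∉ T := by rw [mem_act]; simp
  obtain ⟨g1, g2, g3, g4, g5⟩ := h
  simp only [a_Z, b_Z] at hA g2 g3 g4 g5
  unfold out
  by_cases c0 : 2 * y ∈ T
  · by_cases c1 : 2 * y + 1 ∈ T
    · simp only [c0, c1, decide_true, locZ, sh_cons, sh_nil, Gen.move, Gen.pos, Nat.zero_add]
      simp only [c0, c1, decide_true, List.filter_cons, List.filter_nil, if_true, List.map_cons, List.map_nil,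
        List.cons_append, List.nil_append] at h0
      simp only [ha, hb, c0, c1, not_true, decide_false, List.filter_cons, List.filter_nil, List.map_nil,
        List.nil_append, Bool.false_eq_true, if_false] at h5
      rw [h0, h5, ← hA, g4 c0 c1]
      exact ColF_one (CStep.cap A B _)
    · simp only [c0, c1, decide_true, decide_false, locZ, sh_nil]
      simp only [c0, c1, decide_true, decide_false, List.filter_cons, List.filter_nil, if_true, List.map_cons, List.map_nil,
        List.cons_append, List.nil_append, Bool.false_eq_true, if_false] at h0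
      simp only [ha, hb, c0, c1, not_true, not_false_eq_true, decide_true, decide_false, List.filter_cons, List.filter_nil,
        List.map_cons, List.map_nil, List.cons_append, List.nil_append, Bool.false_eq_true, if_false, if_true] at h5
      rw [h0, h5, g2 c0 c1]
      exact ⟨[], CRun.nil _⟩
  · by_cases c1 : 2 * y + 1 ∈ T
    · simp only [c0, c1, decide_true, decide_false, locZ, sh_nil]
      simp only [c0, c1, decide_true, decide_false, List.filter_cons, List.filter_nil, if_true, List.map_cons, List.map_nil,
        List.cons_append, List.nil_append, Bool.false_eq_true, if_false] at h0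
      simp only [ha, hb, c0, c1, not_true, not_false_eq_true, decide_true, decide_false, List.filter_cons, List.filter_nil,
        List.map_cons, List.map_nil, List.cons_append, List.nil_append, Bool.false_eq_true, if_false, if_true] at h5
      rw [h0, h5, g3 c1 c0]
      exact ⟨[], CRun.nil _⟩
    · simp only [c0, c1, decide_false, locZ, sh_cons, sh_nil, Gen.move, Gen.pos, Nat.zero_add]
      simp only [c0, c1, decide_false, List.filter_cons, List.filter_nil, Bool.false_eq_true, if_false, List.map_nil,
        List.nil_append] at h0
      simp only [ha, hb, c0, c1, not_false_eq_true, decide_true, List.filter_cons, List.filter_nil, List.map_cons,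
        List.map_nil, List.cons_append, List.nil_append, if_true] at h5
      rw [h0, h5, ← hA, g5 c0 c1]
      exact ColF_one (CStep.cup A B _)

private theorem ColF_Y {T : Finset ℤ} {n : ℤ} {f f' : ℤ → Bool} (h : LStep T (Y n) f f') :
    ∃ s, CRun (cl T f) (out T (Y n)) s (cl (act T (Y n)) f') := by
  obtain ⟨A, B, hA, h0, h5⟩ := ColF_main h [n, n + 1, n + 2] (by simp) (by intro x; simp; omega)
  have ha : (n ∈ act T (Y n)) ↔ n ∉ T := by rw [mem_act]; simp
  have hb : (n + 2 ∈ act T (Y n)) ↔ n + 2 ∉ T := by rw [mem_act]; simp
  have hc : (n + 1 ∈ act T (Y n)) ↔ n + 1 ∈ T := by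
    rw [mem_act]
    have e1 : ¬ (n + 1 = (Y n).a ∨ n + 1 = (Y n).b) := by
      rw [a_Y, b_Y]
      omega
    tauto
  have m1 : n + 1 ≠ n := by omega
  have m2 : n + 1 ≠ n + 2 := by omega
  obtain ⟨g1, g2, g3, g4, g5⟩ := h
  simp only [a_Y, b_Y] at hA g1 g2 g3 g4 g5
  unfold out
  by_cases cm : n + 1 ∈ T
  · have fc : f' (n + 1) = f (n + 1) := g1 _ cm m1 m2
    by_cases c0 : n ∈ T
    · by_cases c1 : n + 2 ∈ T
      · -- cross r, cap (r + 1)
        simp only [c0, c1, cm, decide_true, locY, sh_cons, sh_nil, Gen.move, Gen.pos, Nat.zero_add]
        simp only [c0, c1, cm, decide_true, List.filter_cons, List.filter_nil, if_true, List.map_cons, List.map_nil,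
          List.cons_append, List.nil_append] at h0
        simp only [ha, hb, hc, c0, c1, cm, not_true, decide_true, decide_false, List.filter_cons, List.filter_nil,
          List.map_cons, List.map_nil, List.cons_append, List.nil_append, Bool.false_eq_true, if_false, if_true, fc] at h5
        rw [h0, h5, ← hA, g4 c0 c1]
        exact ColF_two (CStep.cross A _ _ _ _) (ColF_cap' A B _ _)
      · -- cross r
        simp only [c0, c1, cm, decide_true, decide_false, locY, sh_cons, sh_nil, Gen.move, Gen.pos, Nat.zero_add]
        simp only [c0, c1, cm, decide_true, decide_false, List.filter_cons, List.filter_nil, if_true, List.map_cons,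
          List.map_nil, List.cons_append, List.nil_append, Bool.false_eq_true, if_false] at h0
        simp only [ha, hb, hc, c0, c1, cm, not_true, not_false_eq_true, decide_true, decide_false, List.filter_cons,
          List.filter_nil, List.map_cons, List.map_nil, List.cons_append, List.nil_append, Bool.false_eq_true, if_false,
          if_true, fc] at h5
        rw [h0, h5, ← hA, g2 c0 c1]
        exact ColF_one (CStep.cross A _ _ _ _)
    · by_cases c1 : n + 2 ∈ T
      · simp only [c0, c1, cm, decide_true, decide_false, locY, sh_cons, sh_nil, Gen.move, Gen.pos, Nat.zero_add]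
        simp only [c0, c1, cm, decide_true, decide_false, List.filter_cons, List.filter_nil, if_true, List.map_cons,
          List.map_nil, List.cons_append, List.nil_append, Bool.false_eq_true, if_false] at h0
        simp only [ha, hb, hc, c0, c1, cm, not_true, not_false_eq_true, decide_true, decide_false, List.filter_cons,
          List.filter_nil, List.map_cons, List.map_nil, List.cons_append, List.nil_append, Bool.false_eq_true, if_false,
          if_true, fc] at h5
        rw [h0, h5, ← hA, g3 c1 c0]
        exact ColF_one (CStep.cross A _ _ _ _)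
      · -- cup (r + 1), cross r
        simp only [c0, c1, cm, decide_true, decide_false, locY, sh_cons, sh_nil, Gen.move, Gen.pos, Nat.zero_add]
        simp only [c0, c1, cm, decide_true, decide_false, List.filter_cons, List.filter_nil, if_true, List.map_cons,
          List.map_nil, List.cons_append, List.nil_append, Bool.false_eq_true, if_false] at h0
        simp only [ha, hb, hc, c0, c1, cm, not_false_eq_true, decide_true, List.filter_cons, List.filter_nil,
          List.map_cons, List.map_nil, List.cons_append, List.nil_append, if_true, fc] at h5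
        rw [h0, h5, ← hA, g5 c0 c1]
        exact ColF_two (ColF_cup' A B _ _) (CStep.cross A _ _ _ _)
  · by_cases c0 : n ∈ T
    · by_cases c1 : n + 2 ∈ T
      · -- cap r
        simp only [c0, c1, cm, decide_true, decide_false, locY, sh_cons, sh_nil, Gen.move, Gen.pos, Nat.zero_add]
        simp only [c0, c1, cm, decide_true, decide_false, List.filter_cons, List.filter_nil, if_true, List.map_cons,
          List.map_nil, List.cons_append, List.nil_append, Bool.false_eq_true, if_false] at h0
        simp only [ha, hb, hc, c0, c1, cm, not_true, decide_false, List.filter_cons, List.filter_nil, List.map_nil,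
          List.nil_append, Bool.false_eq_true, if_false] at h5
        rw [h0, h5, ← hA, g4 c0 c1]
        exact ColF_one (CStep.cap A B _)
      · simp only [c0, c1, cm, decide_true, decide_false, locY, sh_nil]
        simp only [c0, c1, cm, decide_true, decide_false, List.filter_cons, List.filter_nil, if_true, List.map_cons,
          List.map_nil, List.cons_append, List.nil_append, Bool.false_eq_true, if_false] at h0
        simp only [ha, hb, hc, c0, c1, cm, not_true, not_false_eq_true, decide_true, decide_false, List.filter_cons,
          List.filter_nil, List.map_cons, List.map_nil, List.cons_append, List.nil_append, Bool.false_eq_true, if_false,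
          if_true] at h5
        rw [h0, h5, g2 c0 c1]
        exact ⟨[], CRun.nil _⟩
    · by_cases c1 : n + 2 ∈ T
      · simp only [c0, c1, cm, decide_true, decide_false, locY, sh_nil]
        simp only [c0, c1, cm, decide_true, decide_false, List.filter_cons, List.filter_nil, if_true, List.map_cons,
          List.map_nil, List.cons_append, List.nil_append, Bool.false_eq_true, if_false] at h0
        simp only [ha, hb, hc, c0, c1, cm, not_true, not_false_eq_true, decide_true, decide_false, List.filter_cons,
          List.filter_nil, List.map_cons, List.map_nil, List.cons_append, List.nil_append, Bool.false_eq_true, if_false,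
          if_true] at h5
        rw [h0, h5, g3 c1 c0]
        exact ⟨[], CRun.nil _⟩
      · -- cup r
        simp only [c0, c1, cm, decide_false, locY, sh_cons, sh_nil, Gen.move, Gen.pos, Nat.zero_add]
        simp only [c0, c1, cm, decide_false, List.filter_cons, List.filter_nil, Bool.false_eq_true, if_false,
          List.map_nil, List.nil_append] at h0
        simp only [ha, hb, hc, c0, c1, cm, not_false_eq_true, decide_true, decide_false, List.filter_cons,
          List.filter_nil, List.map_cons, List.map_nil, List.cons_append, List.nil_append, if_true, if_false,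
          Bool.false_eq_true] at h5
        rw [h0, h5, ← hA, g5 c0 c1]
        exact ColF_one (CStep.cup A B _)

theorem col_fwd {T : Finset ℤ} {e : Ed} {f f' : ℤ → Bool} (h : LStep T e f f') :
    ∃ s, CRun (cl T f) (out T e) s (cl (act T e) f') := by
  cases e with
  | Y n => exact ColF_Y h
  | Z y => exact ColF_Z h

end Pool.Agent.Lib.MP_dd2c10_prF
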