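import Pool.Agent.Lib.MP_dd2c10_prF.ColA

/-! JOB ColG (MP_dd2c10_pr): a colouring of the diagram of an edge comes from consistent colours at the edge.

PROOF. Let `A = cl (T.filter (· < e.a)) f`, `B = cl (T.filter (e.b < ·)) f`, `A.length = rank T e.a =: r` (`cl_low_length`); `cl T f = A ++ W.map f ++ B` (`cl_split`), `W` the strands in the window. Cases as in `locY`, `locZ`; in each case invert the run (`cases h`, then `cases` on `CStep`;
a step with the piece `cup i` from the list `L` has `L = a ++ b`, `a.length = i`, and the new list is `a ++ x :: x :: b`; compare with `L = A ++ ..`, `A.length = r`: `List.append_inj`) and define `f'`: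
* exactly one end (`x`) occupied, the other one is `x'`, middle empty: `out = []`, `l = cl T f`: `f' = Function.update f x' (f x)`.
* ends and middle empty, `[cup r]`: `l = A ++ [u, u] ++ B`: `f' = Function.update (Function.update f e.a u) e.b u`.
* ends occupied, middle empty, `[cap r]`: the step gives `f e.a = f e.b`; `f' = f`.
* `Y n`, `m = n + 1` occupied. One end: `[cross r _]`: `f'` as in the first case (the list `A ++ [f n, f m] ++ B` becomes `A ++ [f m, f n] ++ B`). None: `[cup (r + 1), cross r _]`: the list `A ++ [f m] ++ B` becomes `A ++ [f m, u, u] ++ B`, then `A ++ [u, f m, u] ++ B`: `f'` = `f` updated to `u` at `n` and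
  `n + 2`. Both: `[cross r _, cap (r + 1)]`: `A ++ [f n, f m, f (n + 2)] ++ B → A ++ [f m, f n, f (n + 2)] ++ B → A ++ [f m] ++ B` with `f n = f (n + 2)`: `f' = f`.
In each case `cl (act T e) f' = l` by `cl_split` for `act T e` (`filter_low`, `filter_high`, `cl_congr`), and the colours of the intermediate states occur in `cl T f` or in `l` (`mem_cl` or the explicit lists). `LStep` is immediate from the definition of `f'`. -/

namespace Pool.Agent.Lib.MP_dd2c10_prF

open Gen Ed

private theorem ColG_cup {A B L : List Bool} (h : CStep (A ++ B) (Gen.cup A.length) L) :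
    ∃ x, L = A ++ x :: x :: B := by
  generalize hM : A ++ B = M at h
  generalize hg : Gen.cup A.length = g at h
  cases h with
  | cup a b x =>
    have h1 : A.length = a.length := by injection hg
    obtain ⟨rfl, rfl⟩ := List.append_inj hM h1
    exact ⟨x, rfl⟩
  | cap a b x => cases hg
  | cross a b x y s => cases hg

private theorem ColG_cap {A B L : List Bool} {u v : Bool} (h : CStep (A ++ u :: v :: B) (Gen.cap A.length) L) :
    u = v ∧ L = A ++ B := by
  generalize hM : A ++ u :: v :: B = M at h
  generalize hg : Gen.cap A.length = g at h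
  cases h with
  | cap a b x =>
    have h1 : A.length = a.length := by injection hg
    obtain ⟨rfl, h2⟩ := List.append_inj hM h1
    injection h2 with h3 h4
    injection h4 with h5 h6
    exact ⟨h3.trans h5.symm, by rw [h6]⟩
  | cup a b x => cases hg
  | cross a b x y s => cases hg

private theorem ColG_cross {A B L : List Bool} {u v c : Bool}
    (h : CStep (A ++ u :: v :: B) (Gen.cross A.length c) L) : L = A ++ v :: u :: B := by
  generalize hM : A ++ u :: v :: B = M at h
  generalize hg : Gen.cross A.length c = g at h
  cases h with
  | cross a b x y s =>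
    have h1 : A.length = a.length := by injection hg
    obtain ⟨rfl, h2⟩ := List.append_inj hM h1
    injection h2 with h3 h4
    injection h4 with h5 h6
    rw [h3, h5, h6]
  | cup a b x => cases hg
  | cap a b x => cases hg

/-- The same with one more strand below. -/
private theorem ColG_cup' {A B L : List Bool} {w : Bool} (h : CStep (A ++ w :: B) (Gen.cup (1 + A.length)) L) :
    ∃ x, L = A ++ w :: x :: x :: B := by
  have h1 : CStep ((A ++ [w]) ++ B) (Gen.cup (A ++ [w]).length) L := by
    rw [List.append_assoc, List.singleton_append, List.length_append, List.length_singleton, Nat.add_comm]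
    exact h
  obtain ⟨x, hx⟩ := ColG_cup h1
  refine ⟨x, ?_⟩
  rw [hx, List.append_assoc, List.singleton_append]

private theorem ColG_cap' {A B L : List Bool} {w u v : Bool}
    (h : CStep (A ++ w :: u :: v :: B) (Gen.cap (1 + A.length)) L) : u = v ∧ L = A ++ w :: B := by
  have h1 : CStep ((A ++ [w]) ++ u :: v :: B) (Gen.cap (A ++ [w]).length) L := by
    rw [List.append_assoc, List.singleton_append, List.length_append, List.length_singleton, Nat.add_comm]
    exact h
  obtain ⟨hx, hy⟩ := ColG_cap h1
  refine ⟨hx, ?_⟩
  rw [hy, List.append_assoc, List.singleton_append]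

private theorem ColG_nil {L l : List Bool} {s : List (List Bool)} (h : CRun L [] s l) : s = [] ∧ l = L := by
  cases h
  exact ⟨rfl, rfl⟩

private theorem ColG_one {L l : List Bool} {g : Gen} {s : List (List Bool)} (h : CRun L [g] s l) :
    s = [l] ∧ CStep L g l := by
  cases h with
  | cons h1 h2 =>
    cases h2
    exact ⟨rfl, h1⟩

private theorem ColG_two {L l : List Bool} {g g' : Gen} {s : List (List Bool)} (h : CRun L [g, g'] s l) :
    ∃ l₁, s = [l₁, l] ∧ CStep L g l₁ ∧ CStep l₁ g' l := by
  cases h with
  | cons h1 h2 =>
    cases h2 with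
    | cons h3 h4 =>
      cases h4
      exact ⟨_, rfl, h1, h3⟩

private theorem ColG_main (T : Finset ℤ) (e : Ed) (f : ℤ → Bool) (V : List ℤ) (hV : V.Pairwise (· < ·))
    (hm : ∀ x, x ∈ V ↔ e.a ≤ x ∧ x ≤ e.b) :
    ∃ A B : List Bool, A.length = rank T e.a ∧
      cl T f = A ++ ((V.filter (fun x => decide (x ∈ T))).map f ++ B) ∧
      ∀ c : Bool, (e.a ∈ T → f e.a = c) → (e.b ∈ T → f e.b = c) →
        ∃ f' : ℤ → Bool, LStep T e f f' ∧ f' e.a = c ∧ f' e.b = c ∧ (∀ x, x ≠ e.a → x ≠ e.b → f' x = f x) ∧
          cl (act T e) f' = A ++ ((V.filter (fun x => decide (x ∈ act T e))).map f' ++ B) := by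
  refine ⟨cl (T.filter (· < e.a)) f, cl (T.filter (e.b < ·)) f, cl_low_length T e.a f, ?_, ?_⟩
  · rw [← List.append_assoc]
    refine cl_split f _ (hV.filter _) ?_ (a_lt_b _).le
    intro x
    rw [List.mem_filter, hm, decide_eq_true_iff]
    exact and_comm
  · intro c ca cb
    have hab : e.a < e.b := a_lt_b e
    obtain ⟨f', fa, fb, fm⟩ : ∃ f' : ℤ → Bool, f' e.a = c ∧ f' e.b = c ∧ ∀ x, x ≠ e.a → x ≠ e.b → f' x = f x := by
      refine ⟨Function.update (Function.update f e.a c) e.b c, ?_, ?_, ?_⟩
      · rw [Function.update_of_ne hab.ne, Function.update_self]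
      · rw [Function.update_self]
      · intro x xa xb
        rw [Function.update_of_ne xb, Function.update_of_ne xa]
    refine ⟨f', ⟨fun x _ xa xb => fm x xa xb, ?_, ?_, ?_, ?_⟩, fa, fb, fm, ?_⟩
    · intro p _
      rw [fb, ca p]
    · intro p _
      rw [fa, cb p]
    · intro p q
      rw [ca p, cb q]
    · intro _ _
      rw [fa, fb]
    · have h1 : cl (T.filter (· < e.a)) f = cl (T.filter (· < e.a)) f' := by
        refine cl_congr ?_
        intro x hx
        rw [Finset.mem_filter] at hx
        exact (fm x hx.2.ne (hx.2.trans hab).ne).symm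
      have h2 : cl (T.filter (e.b < ·)) f = cl (T.filter (e.b < ·)) f' := by
        refine cl_congr ?_
        intro x hx
        rw [Finset.mem_filter] at hx
        exact (fm x (hab.trans hx.2).ne' hx.2.ne').symm
      rw [h1, h2, ← List.append_assoc, ← filter_low T e, ← filter_high T e]
      refine cl_split f' _ (hV.filter _) ?_ (a_lt_b _).le
      intro x
      rw [List.mem_filter, hm, decide_eq_true_iff]
      exact and_comm

private theorem ColG_Z {T : Finset ℤ} {y : ℤ} {f : ℤ → Bool} {s : List (List Bool)} {l : List Bool}
    (h : CRun (cl T f) (out T (Z y)) s l) :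
    ∃ f', LStep T (Z y) f f' ∧ l = cl (act T (Z y)) f' ∧
      ∀ l' ∈ s, ∀ c ∈ l', c ∈ cl T f ∨ c ∈ cl (act T (Z y)) f' := by
  obtain ⟨A, B, hA, h0, h1⟩ := ColG_main T (Z y) f [2 * y, 2 * y + 1] (by simp) (by intro x; simp; omega)
  have ha : (2 * y ∈ act T (Z y)) ↔ 2 * y ∉ T := by rw [mem_act]; simp
  have hb : (2 * y + 1 ∈ act T (Z y)) ↔ 2 * y + 1 ∉ T := by rw [mem_act]; simp
  simp only [a_Z, b_Z] at hA h1
  unfold out at h
  by_cases c0 : 2 * y ∈ T
  · by_cases c1 : 2 * y + 1 ∈ T
    · simp only [c0, c1, decide_true, locZ, sh_cons, sh_nil, Gen.move, Gen.pos, Nat.zero_add] at h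
      simp only [c0, c1, decide_true, List.filter_cons, List.filter_nil, if_true, List.map_cons, List.map_nil,
        List.cons_append, List.nil_append] at h0
      rw [h0, ← hA] at h
      obtain ⟨rfl, h2⟩ := ColG_one h
      obtain ⟨h3, h4⟩ := ColG_cap h2
      obtain ⟨f', hL, fa, fb, fm, h5⟩ := h1 (f (2 * y)) (fun _ => rfl) (fun _ => h3.symm)
      simp only [ha, hb, c0, c1, not_true, decide_false, List.filter_cons, List.filter_nil, List.map_nil,
        List.nil_append, Bool.false_eq_true, if_false] at h5
      refine ⟨f', hL, by rw [h4, h5], ?_⟩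
      intro l' hl c hc
      rw [List.mem_singleton] at hl
      rw [hl, h4, ← h5] at hc
      exact Or.inr hc
    · simp only [c0, c1, decide_true, decide_false, locZ, sh_nil] at h
      obtain ⟨rfl, rfl⟩ := ColG_nil h
      obtain ⟨f', hL, fa, fb, fm, h5⟩ := h1 (f (2 * y)) (fun _ => rfl) (fun q => absurd q c1)
      simp only [c0, c1, decide_true, decide_false, List.filter_cons, List.filter_nil, if_true, List.map_cons, List.map_nil,
        List.cons_append, List.nil_append, Bool.false_eq_true, if_false] at h0
      simp only [ha, hb, c0, c1, not_true, not_false_eq_true, decide_true, decide_false, List.filter_cons, List.filter_nil,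
        List.map_cons, List.map_nil, List.cons_append, List.nil_append, Bool.false_eq_true, if_false, if_true, fb] at h5
      refine ⟨f', hL, by rw [h0, h5], ?_⟩
      intro l' hl
      cases hl
  · by_cases c1 : 2 * y + 1 ∈ T
    · simp only [c0, c1, decide_true, decide_false, locZ, sh_nil] at h
      obtain ⟨rfl, rfl⟩ := ColG_nil h
      obtain ⟨f', hL, fa, fb, fm, h5⟩ := h1 (f (2 * y + 1)) (fun q => absurd q c0) (fun _ => rfl)
      simp only [c0, c1, decide_true, decide_false, List.filter_cons, List.filter_nil, if_true, List.map_cons, List.map_nil,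
        List.cons_append, List.nil_append, Bool.false_eq_true, if_false] at h0
      simp only [ha, hb, c0, c1, not_true, not_false_eq_true, decide_true, decide_false, List.filter_cons, List.filter_nil,
        List.map_cons, List.map_nil, List.cons_append, List.nil_append, Bool.false_eq_true, if_false, if_true, fa] at h5
      refine ⟨f', hL, by rw [h0, h5], ?_⟩
      intro l' hl
      cases hl
    · simp only [c0, c1, decide_false, locZ, sh_cons, sh_nil, Gen.move, Gen.pos, Nat.zero_add] at h
      simp only [c0, c1, decide_false, List.filter_cons, List.filter_nil, Bool.false_eq_true, if_false, List.map_nil,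
        List.nil_append] at h0
      rw [h0, ← hA] at h
      obtain ⟨rfl, h2⟩ := ColG_one h
      obtain ⟨u, h4⟩ := ColG_cup h2
      obtain ⟨f', hL, fa, fb, fm, h5⟩ := h1 u (fun q => absurd q c0) (fun q => absurd q c1)
      simp only [ha, hb, c0, c1, not_false_eq_true, decide_true, List.filter_cons, List.filter_nil, List.map_cons,
        List.map_nil, List.cons_append, List.nil_append, if_true, fa, fb] at h5
      refine ⟨f', hL, by rw [h4, h5], ?_⟩
      intro l' hl c hc
      rw [List.mem_singleton] at hl
      rw [hl, h4, ← h5] at hc
      exact Or.inr hc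

private theorem ColG_Y {T : Finset ℤ} {n : ℤ} {f : ℤ → Bool} {s : List (List Bool)} {l : List Bool}
    (h : CRun (cl T f) (out T (Y n)) s l) :
    ∃ f', LStep T (Y n) f f' ∧ l = cl (act T (Y n)) f' ∧
      ∀ l' ∈ s, ∀ c ∈ l', c ∈ cl T f ∨ c ∈ cl (act T (Y n)) f' := by
  obtain ⟨A, B, hA, h0, h1⟩ := ColG_main T (Y n) f [n, n + 1, n + 2] (by simp) (by intro x; simp; omega)
  have ha : (n ∈ act T (Y n)) ↔ n ∉ T := by rw [mem_act]; simp
  have hb : (n + 2 ∈ act T (Y n)) ↔ n + 2 ∉ T := by rw [mem_act]; simp
  have hc : (n + 1 ∈ act T (Y n)) ↔ n + 1 ∈ T := by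
    rw [mem_act]
    have e1 : ¬ (n + 1 = (Y n).a ∨ n + 1 = (Y n).b) := by
      rw [a_Y, b_Y]
      omega
    tauto
  have m1 : n + 1 ≠ n := by omega
  have m2 : n + 1 ≠ n + 2 := by omega
  simp only [a_Y, b_Y] at hA h1
  unfold out at h
  by_cases cm : n + 1 ∈ T
  · by_cases c0 : n ∈ T
    · by_cases c1 : n + 2 ∈ T
      · -- cross r, cap (r + 1)
        simp only [c0, c1, cm, decide_true, locY, sh_cons, sh_nil, Gen.move, Gen.pos, Nat.zero_add] at h
        simp only [c0, c1, cm, decide_true, List.filter_cons, List.filter_nil, if_true, List.map_cons, List.map_nil,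
          List.cons_append, List.nil_append] at h0
        rw [h0, ← hA] at h
        obtain ⟨l₁, rfl, h2, h3⟩ := ColG_two h
        have h4 := ColG_cross h2
        rw [h4] at h3
        obtain ⟨h6, h7⟩ := ColG_cap' h3
        obtain ⟨f', hL, fa, fb, fm, h5⟩ := h1 (f n) (fun _ => rfl) (fun _ => h6.symm)
        have fc : f' (n + 1) = f (n + 1) := fm _ m1 m2
        simp only [ha, hb, hc, c0, c1, cm, not_true, decide_true, decide_false, List.filter_cons, List.filter_nil,
          List.map_cons, List.map_nil, List.cons_append, List.nil_append, Bool.false_eq_true, if_false, if_true, fc] at h5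
        refine ⟨f', hL, by rw [h7, h5], ?_⟩
        intro l' hl c hc'
        rw [List.mem_cons, List.mem_singleton] at hl
        rcases hl with rfl | rfl
        · left
          rw [h0]
          rw [h4] at hc'
          simp only [List.mem_append, List.mem_cons] at hc' ⊢
          tauto
        · right
          rw [h5, ← h7]
          exact hc'
      · -- cross r
        simp only [c0, c1, cm, decide_true, decide_false, locY, sh_cons, sh_nil, Gen.move, Gen.pos, Nat.zero_add] at h
        simp only [c0, c1, cm, decide_true, decide_false, List.filter_cons, List.filter_nil, if_true, List.map_cons,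
          List.map_nil, List.cons_append, List.nil_append, Bool.false_eq_true, if_false] at h0
        rw [h0, ← hA] at h
        obtain ⟨rfl, h2⟩ := ColG_one h
        have h4 := ColG_cross h2
        obtain ⟨f', hL, fa, fb, fm, h5⟩ := h1 (f n) (fun _ => rfl) (fun q => absurd q c1)
        have fc : f' (n + 1) = f (n + 1) := fm _ m1 m2
        simp only [ha, hb, hc, c0, c1, cm, not_true, not_false_eq_true, decide_true, decide_false, List.filter_cons,
          List.filter_nil, List.map_cons, List.map_nil, List.cons_append, List.nil_append, Bool.false_eq_true, if_false,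
          if_true, fc, fb] at h5
        refine ⟨f', hL, by rw [h4, h5], ?_⟩
        intro l' hl c hc'
        rw [List.mem_singleton] at hl
        rw [hl, h4, ← h5] at hc'
        exact Or.inr hc'
    · by_cases c1 : n + 2 ∈ T
      · simp only [c0, c1, cm, decide_true, decide_false, locY, sh_cons, sh_nil, Gen.move, Gen.pos, Nat.zero_add] at h
        simp only [c0, c1, cm, decide_true, decide_false, List.filter_cons, List.filter_nil, if_true, List.map_cons,
          List.map_nil, List.cons_append, List.nil_append, Bool.false_eq_true, if_false] at h0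
        rw [h0, ← hA] at h
        obtain ⟨rfl, h2⟩ := ColG_one h
        have h4 := ColG_cross h2
        obtain ⟨f', hL, fa, fb, fm, h5⟩ := h1 (f (n + 2)) (fun q => absurd q c0) (fun _ => rfl)
        have fc : f' (n + 1) = f (n + 1) := fm _ m1 m2
        simp only [ha, hb, hc, c0, c1, cm, not_true, not_false_eq_true, decide_true, decide_false, List.filter_cons,
          List.filter_nil, List.map_cons, List.map_nil, List.cons_append, List.nil_append, Bool.false_eq_true, if_false,
          if_true, fc, fa] at h5
        refine ⟨f', hL, by rw [h4, h5], ?_⟩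
        intro l' hl c hc'
        rw [List.mem_singleton] at hl
        rw [hl, h4, ← h5] at hc'
        exact Or.inr hc'
      · -- cup (r + 1), cross r
        simp only [c0, c1, cm, decide_true, decide_false, locY, sh_cons, sh_nil, Gen.move, Gen.pos, Nat.zero_add] at h
        simp only [c0, c1, cm, decide_true, decide_false, List.filter_cons, List.filter_nil, if_true, List.map_cons,
          List.map_nil, List.cons_append, List.nil_append, Bool.false_eq_true, if_false] at h0
        rw [h0, ← hA] at h
        obtain ⟨l₁, rfl, h2, h3⟩ := ColG_two h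
        obtain ⟨u, h4⟩ := ColG_cup' h2
        rw [h4] at h3
        have h7 := ColG_cross h3
        obtain ⟨f', hL, fa, fb, fm, h5⟩ := h1 u (fun q => absurd q c0) (fun q => absurd q c1)
        have fc : f' (n + 1) = f (n + 1) := fm _ m1 m2
        simp only [ha, hb, hc, c0, c1, cm, not_false_eq_true, decide_true, List.filter_cons, List.filter_nil,
          List.map_cons, List.map_nil, List.cons_append, List.nil_append, if_true, fa, fb, fc] at h5
        refine ⟨f', hL, by rw [h7, h5], ?_⟩
        intro l' hl c hc'
        rw [List.mem_cons, List.mem_singleton] at hl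
        right
        rcases hl with rfl | rfl
        · rw [h5]
          rw [h4] at hc'
          simp only [List.mem_append, List.mem_cons] at hc' ⊢
          tauto
        · rw [h5, ← h7]
          exact hc'
  · by_cases c0 : n ∈ T
    · by_cases c1 : n + 2 ∈ T
      · -- cap r
        simp only [c0, c1, cm, decide_true, decide_false, locY, sh_cons, sh_nil, Gen.move, Gen.pos, Nat.zero_add] at h
        simp only [c0, c1, cm, decide_true, decide_false, List.filter_cons, List.filter_nil, if_true, List.map_cons,
          List.map_nil, List.cons_append, List.nil_append, Bool.false_eq_true, if_false] at h0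
        rw [h0, ← hA] at h
        obtain ⟨rfl, h2⟩ := ColG_one h
        obtain ⟨h3, h4⟩ := ColG_cap h2
        obtain ⟨f', hL, fa, fb, fm, h5⟩ := h1 (f n) (fun _ => rfl) (fun _ => h3.symm)
        simp only [ha, hb, hc, c0, c1, cm, not_true, decide_false, List.filter_cons, List.filter_nil, List.map_nil,
          List.nil_append, Bool.false_eq_true, if_false] at h5
        refine ⟨f', hL, by rw [h4, h5], ?_⟩
        intro l' hl c hc'
        rw [List.mem_singleton] at hl
        rw [hl, h4, ← h5] at hc'
        exact Or.inr hc'
      · simp only [c0, c1, cm, decide_true, decide_false, locY, sh_nil] at h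
        obtain ⟨rfl, rfl⟩ := ColG_nil h
        obtain ⟨f', hL, fa, fb, fm, h5⟩ := h1 (f n) (fun _ => rfl) (fun q => absurd q c1)
        simp only [c0, c1, cm, decide_true, decide_false, List.filter_cons, List.filter_nil, if_true, List.map_cons,
          List.map_nil, List.cons_append, List.nil_append, Bool.false_eq_true, if_false] at h0
        simp only [ha, hb, hc, c0, c1, cm, not_true, not_false_eq_true, decide_true, decide_false, List.filter_cons,
          List.filter_nil, List.map_cons, List.map_nil, List.cons_append, List.nil_append, Bool.false_eq_true, if_false,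
          if_true, fb] at h5
        refine ⟨f', hL, by rw [h0, h5], ?_⟩
        intro l' hl
        cases hl
    · by_cases c1 : n + 2 ∈ T
      · simp only [c0, c1, cm, decide_true, decide_false, locY, sh_nil] at h
        obtain ⟨rfl, rfl⟩ := ColG_nil h
        obtain ⟨f', hL, fa, fb, fm, h5⟩ := h1 (f (n + 2)) (fun q => absurd q c0) (fun _ => rfl)
        simp only [c0, c1, cm, decide_true, decide_false, List.filter_cons, List.filter_nil, if_true, List.map_cons,
          List.map_nil, List.cons_append, List.nil_append, Bool.false_eq_true, if_false] at h0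
        simp only [ha, hb, hc, c0, c1, cm, not_true, not_false_eq_true, decide_true, decide_false, List.filter_cons,
          List.filter_nil, List.map_cons, List.map_nil, List.cons_append, List.nil_append, Bool.false_eq_true, if_false,
          if_true, fa] at h5
        refine ⟨f', hL, by rw [h0, h5], ?_⟩
        intro l' hl
        cases hl
      · -- cup r
        simp only [c0, c1, cm, decide_false, locY, sh_cons, sh_nil, Gen.move, Gen.pos, Nat.zero_add] at h
        simp only [c0, c1, cm, decide_false, List.filter_cons, List.filter_nil, Bool.false_eq_true, if_false,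
          List.map_nil, List.nil_append] at h0
        rw [h0, ← hA] at h
        obtain ⟨rfl, h2⟩ := ColG_one h
        obtain ⟨u, h4⟩ := ColG_cup h2
        obtain ⟨f', hL, fa, fb, fm, h5⟩ := h1 u (fun q => absurd q c0) (fun q => absurd q c1)
        simp only [ha, hb, hc, c0, c1, cm, not_false_eq_true, decide_true, decide_false, List.filter_cons,
          List.filter_nil, List.map_cons, List.map_nil, List.cons_append, List.nil_append, if_true, if_false,
          Bool.false_eq_true, fa, fb] at h5
        refine ⟨f', hL, by rw [h4, h5], ?_⟩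
        intro l' hl c hc'
        rw [List.mem_singleton] at hl
        rw [hl, h4, ← h5] at hc'
        exact Or.inr hc'

theorem col_bwd {T : Finset ℤ} {e : Ed} {f : ℤ → Bool} {s : List (List Bool)} {l : List Bool}
    (h : CRun (cl T f) (out T e) s l) :
    ∃ f', LStep T e f f' ∧ l = cl (act T e) f' ∧ ∀ l' ∈ s, ∀ y ∈ l', y ∈ cl T f ∨ y ∈ cl (act T e) f' := by
  cases e with
  | Y n => exact ColG_Y h
  | Z y => exact ColG_Z h

end Pool.Agent.Lib.MP_dd2c10_prF
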