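import Pool.Agent.Lib.MP_dd2c10_prF.ColF
import Pool.Agent.Lib.MP_dd2c10_prF.ColG

/-! JOB ColW (MP_dd2c10_pr): colourings of placed words and colourings of their diagrams.

`FOk F c T w`: `F` is constant along the edges of the word `w` placed in the columns `c, c + 1, ...` (with the state `T` before the column `c`). `FAll F x c T w`: `F = x` at all its vertices.

PROOFS.
* `fok_run`: induction on `w` generalizing `c`, `T`. `[]`: `CRun.nil`. `e :: w`: let `g n = F (pt c n)`. `LStep T e g g`: all five parts from `F (pt c e.a) = F (pt c e.b)`. `col_fwd` gives `s₁` with `CRun (cl T g) (out T e) s₁ (cl (act T e) g)`, and `cl (act T e) g = cl (act T e) g'` with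
  `g' n = F (pt (c + 1) n)` (`cl_congr`, second part of `FOk`). Induction hypothesis for `w`, `crun_append`. Colours: let all entries of `cl T g` and of the lists in `s = s₁ ++ s₂` be `x`. By `crun_last` the entries of `cl (act T e) g` are `x` too (it is in `s₁`, or equal to `cl T g`). So `F (pt c n) = x` for
  `n ∈ T` or `n ∈ act T e` (`mem_cl`), and the induction hypothesis gives the rest (`cl (act T e) g'` has the same entries).
* `run_fok`: induction on `w` generalizing `c`, `T`, `f`, `s`. `e :: w`: `crun_split` at `out T e`; `col_bwd` gives `f'`; the induction hypothesis for `w` at `c + 1`, `act T e`, `f'` gives `F'`. Define `F p = if p.1 = c then (let n := 2 * p.2.1 + p.2.2; if n ∈ T then f n else f' n) else F' p`. For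
  `p = pt c n`: `2 * (n / 2) + n % 2 = n`. `FOk F c T (e :: w)`: first part by cases with `LStep`; second part: `n ∈ act T e`: if `n ∈ T` then `n` is not an end, `f n = f' n`; `F (pt (c + 1) n) = F' (pt (c + 1) n) = f' n`; third part: `FOk` and `FAll` for `c + 1` depend only on the values of `F` in
  columns `≥ c + 1` (`fok_congr`). Colours: `FAll F x c T (e :: w)` gives `f n = x` for `n ∈ T` and `f' n = x` for `n ∈ act T e`, so entries of `cl T f`, `cl (act T e) f'` are `x`, and of the lists of `s₁` by `col_bwd`; the lists of `s₂` by the induction hypothesis. -/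

namespace Pool.Agent.Lib.MP_dd2c10_prF

open Pool.Agent.Lib.MP_dd2c10_pr Gen Ed

/-- `F` is constant along the edges of the placed word. -/
def FOk (F : Pt → Bool) : ℤ → Finset ℤ → List Ed → Prop
  | _, _, [] => True
  | c, T, e :: w => F (pt c e.a) = F (pt c e.b) ∧ (∀ n ∈ act T e, F (pt c n) = F (pt (c + 1) n)) ∧
      FOk F (c + 1) (act T e) w

/-- `F = x` at all vertices of the placed word. -/
def FAll (F : Pt → Bool) (x : Bool) : ℤ → Finset ℤ → List Ed → Prop
  | _, _, [] => True
  | c, T, e :: w => (∀ n, n ∈ T ∨ n ∈ act T e → F (pt c n) = x) ∧ FAll F x (c + 1) (act T e) w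

theorem fok_congr {F F' : Pt → Bool} {c : ℤ} {T : Finset ℤ} {w : List Ed} (h : ∀ c' n, c ≤ c' → F (pt c' n) = F' (pt c' n)) :
    (FOk F c T w → FOk F' c T w) ∧ ∀ x, FAll F x c T w → FAll F' x c T w := by
  induction w generalizing c T with
  | nil => exact ⟨fun _ => trivial, fun _ _ => trivial⟩
  | cons e w ih =>
    have ih' := ih (c := c + 1) (T := act T e) (fun c' n hc => h c' n (by omega))
    refine ⟨?_, ?_⟩
    · rintro ⟨h1, h2, h3⟩
      refine ⟨?_, ?_, ih'.1 h3⟩
      · rw [← h c _ le_rfl, ← h c _ le_rfl]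
        exact h1
      · intro n hn
        rw [← h c _ le_rfl, ← h (c + 1) _ (by omega)]
        exact h2 n hn
    · rintro x ⟨h1, h2⟩
      refine ⟨?_, ih'.2 x h2⟩
      intro n hn
      rw [← h c _ le_rfl]
      exact h1 n hn

theorem fok_run {F : Pt → Bool} {c : ℤ} {T : Finset ℤ} {w : List Ed} (h : FOk F c T w) :
    ∃ s l, CRun (cl T fun n => F (pt c n)) (scan T w) s l ∧
      ∀ x, (∀ y ∈ cl T fun n => F (pt c n), y = x) → (∀ l' ∈ s, ∀ y ∈ l', y = x) → FAll F x c T w := by
  induction w generalizing c T with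
  | nil => exact ⟨[], _, CRun.nil _, fun x _ _ => trivial⟩
  | cons e w ih =>
    obtain ⟨h1, h2, h3⟩ := h
    have hL : LStep T e (fun n => F (pt c n)) (fun n => F (pt c n)) :=
      ⟨fun _ _ _ _ => rfl, fun _ _ => h1.symm, fun _ _ => h1, fun _ _ => h1, fun _ _ => h1⟩
    obtain ⟨s₁, hs₁⟩ := col_fwd hL
    have e1 : cl (act T e) (fun n => F (pt c n)) = cl (act T e) (fun n => F (pt (c + 1) n)) :=
      cl_congr h2
    obtain ⟨s₂, l, hs₂, hx₂⟩ := ih h3
    rw [← e1] at hs₂
    refine ⟨s₁ ++ s₂, l, crun_append hs₁ hs₂, ?_⟩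
    intro x hxT hxs
    have hA : ∀ y ∈ cl (act T e) (fun n => F (pt c n)), y = x := by
      rcases crun_last hs₁ with ⟨_, h⟩ | h
      · rw [h]
        exact hxT
      · exact hxs _ (List.mem_append_left _ h)
    refine ⟨?_, ?_⟩
    · rintro n (hn | hn)
      · exact hxT _ (mem_cl.2 ⟨n, hn, rfl⟩)
      · exact hA _ (mem_cl.2 ⟨n, hn, rfl⟩)
    · refine hx₂ x ?_ ?_
      · rw [← e1]
        exact hA
      · intro l' hl'
        exact hxs l' (List.mem_append_right _ hl')

theorem run_fok {c : ℤ} {T : Finset ℤ} {w : List Ed} {f : ℤ → Bool} {s : List (List Bool)} {l : List Bool}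
    (h : CRun (cl T f) (scan T w) s l) :
    ∃ F : Pt → Bool, (∀ n ∈ T, F (pt c n) = f n) ∧ FOk F c T w ∧
      ∀ x, FAll F x c T w → ∀ l' ∈ s, ∀ y ∈ l', y = x := by
  induction w generalizing c T f s with
  | nil =>
    have hs : s = [] := by
      rw [scan_nil] at h
      cases h
      rfl
    refine ⟨fun p => f (2 * p.2.1 + p.2.2), ?_, trivial, ?_⟩
    · intro n _
      show f (2 * (n / 2) + n % 2) = f n
      rw [show 2 * (n / 2) + n % 2 = n by omega]
    · intro x _ l' hl'
      rw [hs] at hl'
      exact absurd hl' (List.not_mem_nil)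
  | cons e w ih =>
    rw [scan_cons] at h
    obtain ⟨s₁, s₂, l₁, hs, h1, h2⟩ := crun_split h
    obtain ⟨f', hf', hl₁, hs₁⟩ := col_bwd h1
    rw [hl₁] at h2
    obtain ⟨F', hF1, hF2, hF3⟩ := ih (c := c + 1) h2
    let F : Pt → Bool := fun p =>
      if p.1 = c then (if 2 * p.2.1 + p.2.2 ∈ T then f (2 * p.2.1 + p.2.2) else f' (2 * p.2.1 + p.2.2)) else F' p
    have hFc : ∀ n, F (pt c n) = if n ∈ T then f n else f' n := by
      intro n
      show (if c = c then (if 2 * (n / 2) + n % 2 ∈ T then f (2 * (n / 2) + n % 2)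
        else f' (2 * (n / 2) + n % 2)) else F' (pt c n)) = _
      rw [if_pos rfl, show 2 * (n / 2) + n % 2 = n by omega]
    have hFn : ∀ c' n, c + 1 ≤ c' → F (pt c' n) = F' (pt c' n) := by
      intro c' n hc
      show (if c' = c then _ else F' (pt c' n)) = _
      rw [if_neg (by omega)]
    have hcong := fok_congr (F := F) (F' := F') (c := c + 1) (T := act T e) (w := w) hFn
    have hcong' := fok_congr (F := F') (F' := F) (c := c + 1) (T := act T e) (w := w)
      (fun c' n hc => (hFn c' n hc).symm)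
    obtain ⟨L1, L2, L3, L4, L5⟩ := hf'
    have hact : ∀ n ∈ act T e, F (pt c n) = f' n := by
      intro n hn
      rw [hFc]
      split_ifs with hT
      · rw [mem_act] at hn
        have hna : n ≠ e.a := fun h => hn ⟨fun _ => Or.inl h, fun _ => hT⟩
        have hnb : n ≠ e.b := fun h => hn ⟨fun _ => Or.inr h, fun _ => hT⟩
        exact (L1 n hT hna hnb).symm
      · rfl
    refine ⟨F, ?_, ⟨?_, ?_, hcong'.1 hF2⟩, ?_⟩
    · intro n hn
      rw [hFc, if_pos hn]
    · rw [hFc, hFc]
      by_cases ha : e.a ∈ T <;> by_cases hb : e.b ∈ T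
      · rw [if_pos ha, if_pos hb]
        exact L4 ha hb
      · rw [if_pos ha, if_neg hb]
        exact (L2 ha hb).symm
      · rw [if_neg ha, if_pos hb]
        exact L3 hb ha
      · rw [if_neg ha, if_neg hb]
        exact L5 ha hb
    · intro n hn
      rw [hact n hn, hFn _ _ le_rfl, hF1 n hn]
    · rintro x ⟨hx1, hx2⟩ l' hl' y hy
      rw [hs] at hl'
      rcases List.mem_append.1 hl' with hl | hl
      · rcases hs₁ l' hl y hy with hy' | hy'
        · obtain ⟨n, hn, rfl⟩ := mem_cl.1 hy'
          have := hx1 n (Or.inl hn)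
          rwa [hFc, if_pos hn] at this
        · obtain ⟨n, hn, rfl⟩ := mem_cl.1 hy'
          have := hx1 n (Or.inr hn)
          rwa [hact n hn] at this
      · exact hF3 x (hcong.2 x hx2) l' hl y hy

end Pool.Agent.Lib.MP_dd2c10_prF
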