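import Pool.Agent.Lib.MP_dd2c10_prF.Rk

/-! JOB Fr (MP_dd2c10_pr): frames: `i` strands below `n`, the set `W` in `[n, n + 4]`, `c` strands from `n + 8` on.

PROOFS. `mem_fr`: unfold, `Finset.mem_union`, `Finset.mem_image`. `fr_win`: the lower strands are `≤ n - 4`, the upper ones `≥ n + 8`. `fr_rank`: the
strands `< n` are exactly the lower ones (`W` and the upper ones are `≥ n`); the filter is the image of `range i`, of cardinality `i`
(`Finset.card_image_of_injective`). `fr_card`: the three parts are disjoint. -/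

namespace Pool.Agent.Lib.MP_dd2c10_prF

open Gen Ed

/-- `i` strands at `n - 4, n - 8, ...`, the set `W`, and `c` strands at `n + 8, n + 12, ...`. -/
def Fr (n : ℤ) (i c : ℕ) (W : Finset ℤ) : Finset ℤ :=
  ((Finset.range i).image fun j : ℕ => n - 4 * ((j : ℤ) + 1)) ∪ W ∪ ((Finset.range c).image fun j : ℕ => n + 8 + 4 * (j : ℤ))

theorem mem_fr {n x : ℤ} {i c : ℕ} {W : Finset ℤ} :
    x ∈ Fr n i c W ↔ (∃ j : ℕ, j < i ∧ x = n - 4 * (j + 1)) ∨ x ∈ W ∨ ∃ j : ℕ, j < c ∧ x = n + 8 + 4 * j := by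
  unfold Fr
  simp only [Finset.mem_union, Finset.mem_image, Finset.mem_range, or_assoc]
  constructor
  · rintro (⟨j, hj, rfl⟩ | h | ⟨j, hj, rfl⟩)
    · exact Or.inl ⟨j, hj, rfl⟩
    · exact Or.inr (Or.inl h)
    · exact Or.inr (Or.inr ⟨j, hj, rfl⟩)
  · rintro (⟨j, hj, rfl⟩ | h | ⟨j, hj, rfl⟩)
    · exact Or.inl ⟨j, hj, rfl⟩
    · exact Or.inr (Or.inl h)
    · exact Or.inr (Or.inr ⟨j, hj, rfl⟩)

/-- In the window the frame is `W`. -/
theorem fr_win {n x : ℤ} {i c : ℕ} {W : Finset ℤ} (h1 : n - 3 ≤ x) (h2 : x ≤ n + 7) : x ∈ Fr n i c W ↔ x ∈ W := by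
  rw [mem_fr]
  constructor
  · rintro (⟨j, hj, h⟩ | h | ⟨j, hj, h⟩)
    · omega
    · exact h
    · omega
  · exact fun h => Or.inr (Or.inl h)

private theorem Fr_low (n : ℤ) (i : ℕ) :
    ((Finset.range i).image fun j : ℕ => n - 4 * ((j : ℤ) + 1)).card = i := by
  rw [Finset.card_image_of_injective, Finset.card_range]
  intro a b h
  have h' : n - 4 * ((a : ℤ) + 1) = n - 4 * ((b : ℤ) + 1) := h
  omega

private theorem Fr_up (n : ℤ) (c : ℕ) :
    ((Finset.range c).image fun j : ℕ => n + 8 + 4 * (j : ℤ)).card = c := by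
  rw [Finset.card_image_of_injective, Finset.card_range]
  intro a b h
  have h' : n + 8 + 4 * (a : ℤ) = n + 8 + 4 * (b : ℤ) := h
  omega

theorem fr_rank {n : ℤ} {i c : ℕ} {W : Finset ℤ} (hW : ∀ x ∈ W, n ≤ x ∧ x ≤ n + 4) {m : ℤ} (h1 : n - 3 ≤ m) (h2 : m ≤ n) :
    rank (Fr n i c W) m = i := by
  unfold rank
  rw [← Fr_low n i]
  refine congrArg Finset.card ?_
  ext x
  rw [Finset.mem_filter, mem_fr, Finset.mem_image]
  constructor
  · rintro ⟨⟨j, hj, h⟩ | h | ⟨j, hj, h⟩, hx⟩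
    · rw [Fr_low] at hj
      exact ⟨j, Finset.mem_range.2 hj, h.symm⟩
    · have := hW x h
      omega
    · omega
  · rintro ⟨j, hj, h⟩
    have h3 : n - 4 * ((j : ℤ) + 1) = x := h
    refine ⟨Or.inl ⟨j, ?_, h.symm⟩, by omega⟩
    rw [Fr_low]
    exact Finset.mem_range.1 hj

theorem fr_card {n : ℤ} {i c : ℕ} {W : Finset ℤ} (hW : ∀ x ∈ W, n ≤ x ∧ x ≤ n + 4) :
    (Fr n i c W).card = i + W.card + c := by
  unfold Fr
  rw [Finset.card_union_of_disjoint, Finset.card_union_of_disjoint, Fr_low, Fr_up]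
  · rw [Finset.disjoint_left]
    intro x hx hx'
    obtain ⟨j, hj, h⟩ := Finset.mem_image.1 hx
    have h3 : n - 4 * ((j : ℤ) + 1) = x := h
    have := hW x hx'
    omega
  · rw [Finset.disjoint_left]
    intro x hx hx'
    obtain ⟨l, hl, h'⟩ := Finset.mem_image.1 hx'
    have h4 : n + 8 + 4 * (l : ℤ) = x := h'
    rcases Finset.mem_union.1 hx with h | h
    · obtain ⟨j, hj, h⟩ := Finset.mem_image.1 h
      have h3 : n - 4 * ((j : ℤ) + 1) = x := h
      omega
    · have := hW x h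
      omega

end Pool.Agent.Lib.MP_dd2c10_prF
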