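import Pool.Agent.Lib.MP_dd2c10_prF.EvW
import Pool.Agent.Lib.MP_dd2c10_prF.Fr

/-! JOB StdB (MP_dd2c10_pr): all crossings of the same kind with the same numbers of strands below and above are equivalent.

PROOFS.
* `cross_step`: let `T₀ = Fr n i c {n, n + 1}`; `n, n + 1 ∈ T₀`, `n + 2, n + 3, n + 4 ∉ T₀` (`fr_win`). `cross_up` leads to
  `T₁ = run T₀ [Y (n + 1), Y n]` (`mem_act`: `n, n + 1` are removed, `n + 2, n + 3` added, nothing else changed). Then `Ev.free` from `T₁` to
  `T₂ = Fr (n + 2) i c {n + 2, n + 3}` for the edge `Y (n + 2)`: on `[n + 2, n + 4]` both contain exactly `n + 2, n + 3`; ranks of `n + 2`: `i` for `T₂`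
  (`fr_rank`), for `T₁`: the strands below `n + 2` are the lower strands of `T₀` (`rank_congr` with `Fr n i c ∅` and `fr_rank`, `rank_succ` twice, or
  `rank T₁ (n + 2) = rank T₁ n + 0 + 0` by `rank_succ` and `rank T₁ n = rank T₀ n = i` by `rank_congr`); cardinalities: both `i + 2 + c` (`T₁` is reached by a planar
  path, `PPath.card`, or `Ev` gives it: the first path of an `Ev` is planar; or directly).
* `cross_base`: write `n = 2 m + n % 2` and use integer induction on `m` with `cross_step` (as for cups: upwards and downwards).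
* `std_up`: `i = rank T n`, `c = T.card - 2 - i`; `i + 2 ≤ T.card` by `rank_succ` (three times) and `rank_le_card`. `Ev.free` from `T` to
  `Fr n i c {n, n + 1}` for `Y n`, then `cross_base`.
* `std_down`: `Ev.free` from `T` to `T₀ = Fr n i c {n + 1, n + 2}` for `Y n`; `cross_turn` (symm) gives `Ev T₀ T₀ (Y n) (Y (n + 1))`; then `std_up` for
  `T₀`, `n + 1`: `rank T₀ (n + 1) = i` (`rank_succ`, `n ∉ T₀`), `T₀.card = T.card`. -/

namespace Pool.Agent.Lib.MP_dd2c10_prF

open Gen Ed

private theorem StdB_card {T T' : Finset ℤ} {e e' : Ed} (h : Ev T T' e e') : T'.card = T.card := by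
  obtain ⟨p, q, hp, hpT, -, -, -⟩ := h
  rw [← hpT]
  exact hp.card

private theorem StdB_two (n : ℤ) : ({n, n + 1} : Finset ℤ).card = 2 :=
  Finset.card_pair (by omega)

private theorem StdB_mem2 {n x a b : ℤ} {i c : ℕ} (h1 : n - 3 ≤ x) (h2 : x ≤ n + 7) :
    x ∈ Fr n i c {a, b} ↔ (x = a ∨ x = b) := by
  rw [fr_win h1 h2, Finset.mem_insert, Finset.mem_singleton]

private theorem StdB_win {n a b : ℤ} (h1 : n ≤ a) (h2 : a ≤ n + 4) (h3 : n ≤ b) (h4 : b ≤ n + 4) :
    ∀ x ∈ ({a, b} : Finset ℤ), n ≤ x ∧ x ≤ n + 4 := by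
  intro x hx
  rw [Finset.mem_insert, Finset.mem_singleton] at hx
  omega

theorem cross_step (n : ℤ) (i c : ℕ) :
    Ev (Fr n i c {n, n + 1}) (Fr (n + 2) i c {n + 2, n + 3}) (Y n) (Y (n + 2)) := by
  have w1 := StdB_win (n := n) (a := n) (b := n + 1) (by omega) (by omega) (by omega) (by omega)
  have w2 := StdB_win (n := n + 2) (a := n + 2) (b := n + 3) (by omega) (by omega) (by omega) (by omega)
  have m0 : n ∈ Fr n i c {n, n + 1} := (StdB_mem2 (by omega) (by omega)).mpr (by omega)
  have m1 : n + 1 ∈ Fr n i c {n, n + 1} := (StdB_mem2 (by omega) (by omega)).mpr (by omega)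
  have m2 : n + 2 ∉ Fr n i c {n, n + 1} := fun h => by
    have := (StdB_mem2 (by omega) (by omega)).mp h
    omega
  have m3 : n + 3 ∉ Fr n i c {n, n + 1} := fun h => by
    have := (StdB_mem2 (by omega) (by omega)).mp h
    omega
  have m4 : n + 4 ∉ Fr n i c {n, n + 1} := fun h => by
    have := (StdB_mem2 (by omega) (by omega)).mp h
    omega
  have key := cross_up m0 m1 m2 m3 m4
  refine key.trans (Ev.free ?_ ?_ ?_)
  · intro x hx1 hx2
    rw [a_Y] at hx1
    rw [b_Y] at hx2
    rw [StdB_mem2 (by omega) (by omega)]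
    simp only [run_cons, run_nil, mem_act, a_Y, b_Y]
    have hm : x ∈ Fr n i c {n, n + 1} ↔ (x = n ∨ x = n + 1) := StdB_mem2 (by omega) (by omega)
    rw [hm]
    omega
  · rw [a_Y, fr_rank w2 (by omega) (by omega)]
    have e2 : n + 2 = n + 1 + 1 := by ring
    have q1 : n + 1 ∉ run (Fr n i c {n, n + 1}) [Y (n + 1), Y n] := by
      simp only [run_cons, run_nil, mem_act, a_Y, b_Y]
      have a1 : ¬ (n + 1 = n) := by omega
      have a2 : ¬ (n + 1 = n + 2) := by omega
      tauto
    have q0 : n ∉ run (Fr n i c {n, n + 1}) [Y (n + 1), Y n] := by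
      simp only [run_cons, run_nil, mem_act, a_Y, b_Y]
      have a1 : ¬ (n = n + 1) := by omega
      have a2 : ¬ (n = n + 1 + 2) := by omega
      tauto
    rw [e2, rank_succ, rank_succ, decide_eq_false q1, decide_eq_false q0]
    have r : rank (run (Fr n i c {n, n + 1}) [Y (n + 1), Y n]) n = i := by
      rw [run_cons, run_cons, run_nil, rank_act_le (by rw [a_Y]), rank_act_le (by rw [a_Y]; omega)]
      exact fr_rank w1 (by omega) (by omega)
    rw [r]
    rfl
  · rw [StdB_card key, fr_card w1, fr_card w2, StdB_two]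
    have : ({n + 2, n + 3} : Finset ℤ).card = 2 := Finset.card_pair (by omega)
    rw [this]

theorem cross_base (n : ℤ) (i c : ℕ) :
    Ev (Fr n i c {n, n + 1}) (Fr (n % 2) i c {n % 2, n % 2 + 1}) (Y n) (Y (n % 2)) := by
  have key : ∀ (r m : ℤ), Ev (Fr (r + 2 * m) i c {r + 2 * m, r + 2 * m + 1}) (Fr r i c {r, r + 1}) (Y (r + 2 * m)) (Y r) := by
    intro r m
    induction m with
    | zero =>
      have e : r + 2 * 0 = r := by ring
      rw [e]
      exact Ev.refl _ _
    | succ m ih =>
      have h := (cross_step (r + 2 * (m : ℤ)) i c).symm.trans ih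
      have e1 : r + 2 * ((m : ℤ) + 1) = r + 2 * (m : ℤ) + 2 := by ring
      have e2 : r + 2 * (m : ℤ) + 2 + 1 = r + 2 * (m : ℤ) + 3 := by ring
      rw [e1, e2]
      exact h
    | pred m ih =>
      have h := cross_step (r + 2 * (-(m : ℤ) - 1)) i c
      have e1 : r + 2 * (-(m : ℤ) - 1) + 2 = r + 2 * (-(m : ℤ)) := by ring
      have e2 : r + 2 * (-(m : ℤ) - 1) + 3 = r + 2 * (-(m : ℤ)) + 1 := by ring
      rw [e1, e2] at h
      exact h.trans ih
  have h := key (n % 2) (n / 2)
  have e : n % 2 + 2 * (n / 2) = n := by omega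
  rw [e] at h
  exact h

theorem std_up {T : Finset ℤ} {n : ℤ} (h0 : n ∈ T) (h1 : n + 1 ∈ T) (h2 : n + 2 ∉ T) :
    Ev T (Fr (n % 2) (rank T n) (T.card - 2 - rank T n) {n % 2, n % 2 + 1}) (Y n) (Y (n % 2)) := by
  have w1 := StdB_win (n := n) (a := n) (b := n + 1) (by omega) (by omega) (by omega) (by omega)
  have r1 := rank_succ T n
  have r2 := rank_succ T (n + 1)
  have e2 : n + 1 + 1 = n + 2 := by ring
  rw [decide_eq_true h0, Bool.toNat_true] at r1
  rw [decide_eq_true h1, Bool.toNat_true, e2] at r2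
  have r3 := rank_le_card T (n + 2)
  refine (Ev.free (T' := Fr n (rank T n) (T.card - 2 - rank T n) {n, n + 1}) ?_ ?_ ?_).trans (cross_base n _ _)
  · intro x hx1 hx2
    rw [a_Y] at hx1
    rw [b_Y] at hx2
    rw [StdB_mem2 (by omega) (by omega)]
    have hc : x = n ∨ x = n + 1 ∨ x = n + 2 := by omega
    rcases hc with hc | hc | hc
    · subst hc
      exact ⟨fun _ => Or.inl rfl, fun _ => h0⟩
    · subst hc
      exact ⟨fun _ => Or.inr rfl, fun _ => h1⟩
    · subst hc
      exact ⟨fun h => absurd h h2, fun h => by omega⟩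
  · rw [a_Y, fr_rank w1 (by omega) (by omega)]
  · rw [fr_card w1, StdB_two]
    omega

theorem std_down {T : Finset ℤ} {n : ℤ} (h0 : n ∉ T) (h1 : n + 1 ∈ T) (h2 : n + 2 ∈ T) :
    Ev T (Fr ((n + 1) % 2) (rank T n) (T.card - 2 - rank T n) {(n + 1) % 2, (n + 1) % 2 + 1}) (Y n)
      (Y ((n + 1) % 2)) := by
  have w1 := StdB_win (n := n) (a := n + 1) (b := n + 2) (by omega) (by omega) (by omega) (by omega)
  have r0 := rank_succ T n
  have r1 := rank_succ T (n + 1)
  have r2 := rank_succ T (n + 2)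
  have e1 : n + 1 + 1 = n + 2 := by ring
  rw [decide_eq_false h0, Bool.toNat_false] at r0
  rw [decide_eq_true h1, Bool.toNat_true, e1] at r1
  rw [decide_eq_true h2, Bool.toNat_true] at r2
  have r3 := rank_le_card T (n + 2 + 1)
  have hc2 : ({n + 1, n + 2} : Finset ℤ).card = 2 := Finset.card_pair (by omega)
  have m0 : n ∉ Fr n (rank T n) (T.card - 2 - rank T n) {n + 1, n + 2} := fun h => by
    have := (StdB_mem2 (by omega) (by omega)).mp h
    omega
  have m1 : n + 1 ∈ Fr n (rank T n) (T.card - 2 - rank T n) {n + 1, n + 2} :=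
    (StdB_mem2 (by omega) (by omega)).mpr (by omega)
  have m2 : n + 2 ∈ Fr n (rank T n) (T.card - 2 - rank T n) {n + 1, n + 2} :=
    (StdB_mem2 (by omega) (by omega)).mpr (by omega)
  have m3 : n + 3 ∉ Fr n (rank T n) (T.card - 2 - rank T n) {n + 1, n + 2} := fun h => by
    have := (StdB_mem2 (by omega) (by omega)).mp h
    omega
  have hcard : (Fr n (rank T n) (T.card - 2 - rank T n) {n + 1, n + 2}).card = T.card := by
    rw [fr_card w1, hc2]
    omega
  have hrank : rank (Fr n (rank T n) (T.card - 2 - rank T n) {n + 1, n + 2}) n = rank T n :=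
    fr_rank w1 (by omega) (by omega)
  have hrank' : rank (Fr n (rank T n) (T.card - 2 - rank T n) {n + 1, n + 2}) (n + 1) = rank T n := by
    rw [rank_succ, decide_eq_false m0, Bool.toNat_false, hrank]
    rfl
  have s1 : Ev T (Fr n (rank T n) (T.card - 2 - rank T n) {n + 1, n + 2}) (Y n) (Y n) := by
    refine Ev.free ?_ ?_ ?_
    · intro x hx1 hx2
      rw [a_Y] at hx1
      rw [b_Y] at hx2
      rw [StdB_mem2 (by omega) (by omega)]
      have hc : x = n ∨ x = n + 1 ∨ x = n + 2 := by omega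
      rcases hc with hc | hc | hc
      · subst hc
        exact ⟨fun h => absurd h h0, fun h => by omega⟩
      · subst hc
        exact ⟨fun _ => Or.inl rfl, fun _ => h1⟩
      · subst hc
        exact ⟨fun _ => Or.inr rfl, fun _ => h2⟩
    · rw [a_Y, hrank]
    · rw [hcard]
  have s2 := (cross_turn m0 m1 m2 m3).symm
  have s3 := std_up m1 (by rw [e1]; exact m2) (by rw [show n + 1 + 2 = n + 3 by ring]; exact m3)
  rw [hrank', hcard] at s3
  exact (s1.trans s2).trans s3

end Pool.Agent.Lib.MP_dd2c10_prF
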