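import Pool.Agent.Lib.MP_dd2c10_prF.StdA
import Pool.Agent.Lib.MP_dd2c10_prF.StdB

/-! JOB StdC (MP_dd2c10_pr): two edges with the same one-piece diagram (and the same number of strands) are equivalent.

PROOFS.
* `out_cup`: `cases e`. `out T (Y n) = sh (rank T n) (locY p x m z)`: case distinction over `n ∈ T`, `n + 1 ∈ T`, `n + 2 ∈ T`: the value is `[cup i]` only
  if none of them is in `T`, and then `i = rank T n`: `std_Ycup`. `Z y`: only if both ends are not in `T`: `std_Zcup`.
* `out_cap`: `out (act T e) e = rinv (out T e) = [cup i]` (`out_rev`), `(act T e).card = T.card - 2` (`valid_out`: `endk T.card [cap i] = T.card + 0 - 2`), so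
  `out_cup` gives `Ev (act T e) (Fr 0 i (T.card - 2 - i) ∅) e (Y 0)`; `Ev.rev` and `act_act`.
* `out_cross`: only `e = Y n` with `n + 1 ∈ T` and exactly one of `n`, `n + 2` in `T`. `n ∈ T`: `b = decide (n % 2 = 1)`, `std_up`. `n + 2 ∈ T`:
  `b = !decide (n % 2 = 1)`, `std_down`, and `(n + 1) % 2 = if b then 1 else 0`.
* `ev_of_out`: cases on `g`, `(out_.. h).trans (out_.. h').symm` with `T.card = T'.card`. -/

namespace Pool.Agent.Lib.MP_dd2c10_prF

open Gen Ed

theorem out_cup {T : Finset ℤ} {e : Ed} {i : ℕ} (h : out T e = [cup i]) :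
    Ev T (Fr 0 i (T.card - i) ∅) e (Y 0) := by
  cases e with
  | Y n =>
    by_cases hx : n ∈ T <;> by_cases hm : n + 1 ∈ T <;> by_cases hz : n + 2 ∈ T <;>
      simp [out, locY, hx, hm, hz, sh, Gen.move, Gen.pos] at h
    rw [← h]
    exact std_Ycup hx hm hz
  | Z y =>
    by_cases hx : 2 * y ∈ T <;> by_cases hz : 2 * y + 1 ∈ T <;>
      simp [out, locZ, hx, hz, sh, Gen.move, Gen.pos] at h
    rw [← h]
    exact std_Zcup hx hz

theorem out_cap {T : Finset ℤ} {e : Ed} {i : ℕ} (h : out T e = [cap i]) :
    Ev T (act (Fr 0 i (T.card - 2 - i) ∅) (Y 0)) e (Y 0) := by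
  have h1 : out (act T e) e = [cup i] := by
    rw [out_rev, h]
    rfl
  have h2 : (act T e).card = T.card - 2 := by
    have h3 := (valid_out T e).2
    rw [h] at h3
    have h4 : endk T.card [cap i] = T.card + 0 - 2 := rfl
    rw [← h3, h4]
    omega
  have h3 := (out_cup h1).rev
  rw [act_act, h2] at h3
  exact h3

theorem out_cross {T : Finset ℤ} {e : Ed} {i : ℕ} {b : Bool} (h : out T e = [cross i b]) :
    Ev T (Fr (if b then 1 else 0) i (T.card - 2 - i) {if b then 1 else 0, (if b then 1 else 0) + 1}) e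
      (Y (if b then 1 else 0)) := by
  cases e with
  | Y n =>
    have h01 : n % 2 = 0 ∨ n % 2 = 1 := Int.emod_two_eq_zero_or_one n
    by_cases hx : n ∈ T <;> by_cases hm : n + 1 ∈ T <;> by_cases hz : n + 2 ∈ T <;>
      simp [out, locY, hx, hm, hz, sh, Gen.move, Gen.pos] at h
    · obtain ⟨h1, h2⟩ := h
      have hn : n % 2 = if b then 1 else 0 := by
        rw [← h2]
        rcases h01 with h3 | h3 <;> simp [h3]
      rw [← hn, ← h1]
      exact std_up hx hm hz
    · obtain ⟨h1, h2⟩ := h
      have hn : (n + 1) % 2 = if b then 1 else 0 := by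
        rcases h01 with h3 | h3
        · have h4 : (n + 1) % 2 = 1 := by omega
          rw [h4]
          cases b <;> simp [h3] at h2 ⊢
        · have h4 : (n + 1) % 2 = 0 := by omega
          rw [h4]
          cases b <;> simp [h3] at h2 ⊢
      rw [← hn, ← h1]
      exact std_down hx hm hz
  | Z y =>
    by_cases hx : 2 * y ∈ T <;> by_cases hz : 2 * y + 1 ∈ T <;>
      simp [out, locZ, hx, hz, sh, Gen.move, Gen.pos] at h

/-- Edges with the same one-piece diagram are equivalent. -/
theorem ev_of_out {T T' : Finset ℤ} {e e' : Ed} {g : Gen} (h : out T e = [g]) (h' : out T' e' = [g])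
    (hc : T.card = T'.card) : Ev T T' e e' := by
  cases g with
  | cup i =>
    have h1 := out_cup h'
    rw [← hc] at h1
    exact (out_cup h).trans h1.symm
  | cap i =>
    have h1 := out_cap h'
    rw [← hc] at h1
    exact (out_cap h).trans h1.symm
  | cross i b =>
    have h1 := out_cross h'
    rw [← hc] at h1
    exact (out_cross h).trans h1.symm

end Pool.Agent.Lib.MP_dd2c10_prF
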