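import Pool.Agent.Lib.MP_dd2c10_prF.Dec
import Pool.Agent.Lib.MP_dd2c10_prF.StdC

/-! JOB ML (MP_dd2c10_pr): MAIN LEMMA: words with the same diagram and the same ends are equivalent.

PROOF of `ml`: induction on `N` (bound of `w.length + w'.length`). Cases:
(1) `w = e :: w₁` with `out T e = []`: then `Pln T e` (`out_nil_iff`). The path `e :: p : act T e → T → S` is planar (`Pln.act`, `act_act`). The induction
hypothesis for `w₁`, `w'`, `act T e`, `S`, `e :: p`, `q` gives `w₁ ++ q ~ (e :: p) ++ w'` at `act T e`, so
`e :: (w₁ ++ q) ~ e :: e :: (p ++ w') ~ p ++ w'` (`LEq.cons`, `LEq.cancel` with `hp.1`).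
(2) `w' = e' :: w₁'` with `out S e' = []`: the path `p ++ [e'] : T → act S e'` is planar; the induction hypothesis gives
`w ++ q ~ (p ++ [e']) ++ w₁'`, which is the claim.
(3) `w = []`: then `scan S w' = []`, so `w' = []` or its first edge has the diagram `[]` (case 2). `w = w' = []`: `q ~ p` by `coh`. Similarly
`w' = []`.
(4) `w = e :: w₁`, `w' = e' :: w₁'` with `out T e`, `out S e'` of length exactly one (by `Simple`): comparing the first elements of
`scan T w = scan S w'` gives `out T e = [g] = out S e'` and `scan (act T e) w₁ = scan (act S e') w₁'`. `T.card = S.card` (`PPath.card`), so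
`Ev T S e e'` by `ev_of_out`. `(act T e).card = (act S e').card` (`valid_out`: both are `endk .. [g]`); `conn` gives a planar path
`q₂ : act T e → act S e'`. `Ev.any` gives `e :: q₂ ~ p ++ [e']`. The induction hypothesis for `w₁`, `w₁'`, `act T e`, `act S e'`, `q₂`, `q` gives
`w₁ ++ q ~ q₂ ++ w₁'` at `act T e`. Hence `e :: (w₁ ++ q) ~ e :: (q₂ ++ w₁') ~ (p ++ [e']) ++ w₁'`.
`ml0`: `dec` for `w` and `w'`, then `ml` with `p = q = []`, `S = T` (`List.append_nil`). -/

namespace Pool.Agent.Lib.MP_dd2c10_prF

open Gen Ed

theorem ml (N : ℕ) (w w' : List Ed) (T S : Finset ℤ) (p q : List Ed) (hN : w.length + w'.length ≤ N)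
    (hw : Simple T w) (hw' : Simple S w') (hp : PPath T p) (hpS : run T p = S) (hq : PPath (run T w) q)
    (hqS : run (run T w) q = run S w') (hs : scan T w = scan S w') : LEq T (w ++ q) (p ++ w') := by
  induction N generalizing w w' T S p q with
  | zero =>
    have h1 : w = [] := List.length_eq_zero_iff.1 (by omega)
    have h2 : w' = [] := List.length_eq_zero_iff.1 (by omega)
    subst h1
    subst h2
    rw [List.nil_append, List.append_nil]
    refine coh hq hp ?_
    rw [hpS]
    exact hqS
  | succ N ih =>
    have case2 : ∀ (e' : Ed) (w₁' : List Ed), w' = e' :: w₁' → out S e' = [] →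
        LEq T (w ++ q) (p ++ w') := by
      intro e' w₁' hww he'
      subst hww
      have h1 := ih w w₁' T (act S e') (p ++ [e']) q (by rw [List.length_cons] at hN; omega) hw hw'.2
        (ppath_append.2 ⟨hp, by rw [hpS]; exact ⟨out_nil_iff.1 he', trivial⟩⟩)
        (by rw [run_append, hpS]; rfl) hq hqS (by rw [hs, scan_cons, he', List.nil_append])
      rw [List.append_assoc, List.singleton_append] at h1
      exact h1
    rcases w with _ | ⟨e, w₁⟩
    · rcases w' with _ | ⟨e', w₁'⟩
      · rw [List.nil_append, List.append_nil]
        refine coh hq hp ?_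
        rw [hpS]
        exact hqS
      · refine case2 e' w₁' rfl ?_
        rw [scan_nil, scan_cons] at hs
        exact (List.append_eq_nil_iff.1 hs.symm).1
    · by_cases he : out T e = []
      · have hP : Pln T e := out_nil_iff.1 he
        have h1 := ih w₁ w' (act T e) S (e :: p) q (by rw [List.length_cons] at hN; omega) hw.2 hw'
          ⟨hP.act, by rw [act_act]; exact hp⟩ (by rw [run_cons, act_act]; exact hpS) hq hqS
          (by rw [← hs, scan_cons, he, List.nil_append])
        exact (LEq.cons e h1).trans (LEq.cancel e (p ++ w') hP.1)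
      · rcases w' with _ | ⟨e', w₁'⟩
        · rw [scan_nil, scan_cons] at hs
          exact absurd (List.append_eq_nil_iff.1 hs).1 he
        · by_cases he' : out S e' = []
          · exact case2 e' w₁' rfl he'
          · have hl := List.length_pos_iff.2 he
            have hl' := List.length_pos_iff.2 he'
            have hw1 := hw.1
            have hw1' := hw'.1
            obtain ⟨g, hg⟩ := List.length_eq_one_iff.1 (show (out T e).length = 1 by omega)
            obtain ⟨g', hg'⟩ := List.length_eq_one_iff.1 (show (out S e').length = 1 by omega)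
            rw [scan_cons, scan_cons, hg, hg', List.singleton_append, List.singleton_append,
              List.cons.injEq] at hs
            obtain ⟨hgg, hs'⟩ := hs
            subst hgg
            have hc : T.card = S.card := by rw [← hpS, hp.card]
            have hEv : Ev T S e e' := ev_of_out hg hg' hc
            have hc2 : (act T e).card = (act S e').card := by
              rw [← (valid_out T e).2, ← (valid_out S e').2, hg, hg', hc]
            obtain ⟨q₂, hq₂, hq₂'⟩ := conn hc2
            have h1 : LEq T (e :: q₂) (p ++ [e']) := hEv.any hp hpS hq₂ hq₂'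
            have h2 := ih w₁ w₁' (act T e) (act S e') q₂ q
              (by rw [List.length_cons, List.length_cons] at hN; omega) hw.2 hw'.2 hq₂ hq₂' hq hqS hs'
            have h3 : LEq T ((e :: q₂) ++ w₁') ((p ++ [e']) ++ w₁') := h1.right w₁'
            rw [List.append_assoc, List.singleton_append] at h3
            exact (LEq.cons e h2).trans h3

/-- Words with the same diagram and the same ends are equivalent. -/
theorem ml0 {T : Finset ℤ} {w w' : List Ed} (hs : scan T w = scan T w') (hr : run T w = run T w') : LEq T w w' := by
  obtain ⟨v, hv1, hv2, hv3⟩ := dec T w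
  obtain ⟨v', hv1', hv2', hv3'⟩ := dec T w'
  have h1 := ml (v.length + v'.length) v v' T T [] [] le_rfl hv3 hv3' trivial rfl trivial
    (by rw [run_nil, ← hv1.run_eq, ← hv1'.run_eq, hr]) (by rw [hv2, hv2', hs])
  rw [List.append_nil, List.nil_append] at h1
  exact hv1.trans (h1.trans hv1'.symm)

end Pool.Agent.Lib.MP_dd2c10_prF
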