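import Pool.Agent.Lib.MP_dd2c10_prF.Rk

/-! JOB SndN (MP_dd2c10_pr): overlapping edges `Y n`, `Y m` change places.

PROOF of `snd_YY1`. Put `r = rank T n`, `p = decide (n % 2 = 1)`, `xᵢ = decide (n + i ∈ T)`. Then
`scan T [Y n, Y (n + 1)] = sh r (locY p x0 x1 x2) ++ sh (r + (!x0).toNat) (locY (!p) x1 (!x2) x3)`: the rank of `n + 1` in `act T (Y n)` is
`rank (act T (Y n)) n + [n ∈ act T (Y n)]` (`rank_succ`), `rank (act T (Y n)) n = r` (`rank_act_le`), and `n ∈ act T (Y n) ↔ n ∉ T`, `n + 2` is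
toggled, `n + 1`, `n + 3` are not (`mem_act`; `simp only` with `decide_not` or `Bool.eq_iff_iff`; `decide ((n+1) % 2 = 1) = !p`). This is
`sh r (locY p x0 x1 x2 ++ sh (!x0).toNat (locY (!p) x1 (!x2) x3))` (`sh_append`, `sh_sh`; note `sh_sh m l w : sh m (sh l w) = sh (l + m) w`).
The same for the other word. Then `MEq.lift (near_YY1 ..) (near_YY1_valid ..)` with
`r + (x0.toNat + x1.toNat + x2.toNat + x3.toNat) ≤ T.card`, which follows from `rank_succ` four times and `rank_le_card`.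
`snd_YY2` is the same with `near_YY2` (`x2 = false`). -/

namespace Pool.Agent.Lib.MP_dd2c10_prF

open Gen Ed

private theorem SndN_Y {T : Finset ℤ} {n : ℤ} {r : ℕ} {p x m z : Bool} (hr : rank T n = r)
    (hp : decide (n % 2 = 1) = p) (h0 : decide (n ∈ T) = x) (h1 : decide (n + 1 ∈ T) = m) (h2 : decide (n + 2 ∈ T) = z) :
    out T (Y n) = sh r (locY p x m z) := by
  subst hr hp h0 h1 h2
  rfl

private theorem SndN_tog {T : Finset ℤ} {e : Ed} {x : ℤ} (h : x = e.a ∨ x = e.b) :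
    decide (x ∈ act T e) = !decide (x ∈ T) := by
  rw [← decide_not, decide_eq_decide, mem_act]
  tauto

private theorem SndN_not {T : Finset ℤ} {e : Ed} {x : ℤ} (h : ¬ (x = e.a ∨ x = e.b)) :
    decide (x ∈ act T e) = decide (x ∈ T) := by
  rw [decide_eq_decide, mem_act]
  tauto

private theorem SndN_rank (T : Finset ℤ) (x : ℤ) {y : ℤ} (h : x + 1 = y) :
    rank T y = rank T x + (decide (x ∈ T)).toNat := by
  rw [← h]
  exact rank_succ T x

private theorem SndN_par {n : ℤ} : decide ((n + 1) % 2 = 1) = !decide (n % 2 = 1) := by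
  rw [← decide_not, decide_eq_decide]
  omega

private theorem SndN_par2 {n : ℤ} : decide ((n + 2) % 2 = 1) = decide (n % 2 = 1) := by
  rw [decide_eq_decide]
  omega

theorem snd_YY1 (T : Finset ℤ) (n : ℤ) : MEq T.card (scan T [Y n, Y (n + 1)]) (scan T [Y (n + 1), Y n]) := by
  obtain ⟨r, hr⟩ : ∃ r, r = rank T n := ⟨_, rfl⟩
  obtain ⟨p, hp⟩ : ∃ p, p = decide (n % 2 = 1) := ⟨_, rfl⟩
  obtain ⟨x0, h0⟩ : ∃ x0, x0 = decide (n ∈ T) := ⟨_, rfl⟩
  obtain ⟨x1, h1⟩ : ∃ x1, x1 = decide (n + 1 ∈ T) := ⟨_, rfl⟩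
  obtain ⟨x2, h2⟩ : ∃ x2, x2 = decide (n + 2 ∈ T) := ⟨_, rfl⟩
  obtain ⟨x3, h3⟩ : ∃ x3, x3 = decide (n + 3 ∈ T) := ⟨_, rfl⟩
  have e2 : n + 1 + 1 = n + 2 := by ring
  have e3 : n + 1 + 2 = n + 3 := by ring
  have o1 : out T (Y n) = sh r (locY p x0 x1 x2) := SndN_Y hr.symm hp.symm h0.symm h1.symm h2.symm
  have o2 : out (act T (Y n)) (Y (n + 1)) = sh (r + (!x0).toNat) (locY (!p) x1 (!x2) x3) := by
    refine SndN_Y ?_ (by rw [SndN_par, hp]) ?_ ?_ ?_
    · rw [SndN_rank _ n rfl, rank_act_le (by simp), SndN_tog (by simp), ← hr, ← h0]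
    · rw [SndN_not (by simp only [a_Y, b_Y]; omega), h1]
    · rw [e2, SndN_tog (by simp), h2]
    · rw [e3, SndN_not (by simp only [a_Y, b_Y]; omega), h3]
  have o3 : out T (Y (n + 1)) = sh (r + x0.toNat) (locY (!p) x1 x2 x3) := by
    refine SndN_Y ?_ (by rw [SndN_par, hp]) h1.symm (by rw [e2, h2]) (by rw [e3, h3])
    rw [SndN_rank _ n rfl, ← hr, ← h0]
  have o4 : out (act T (Y (n + 1))) (Y n) = sh r (locY p x0 (!x1) x2) := by
    refine SndN_Y ?_ hp.symm ?_ ?_ ?_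
    · rw [rank_act_le (by simp only [a_Y]; omega), hr]
    · rw [SndN_not (by simp only [a_Y, b_Y]; omega), h0]
    · rw [SndN_tog (by simp), h1]
    · rw [SndN_not (by simp only [a_Y, b_Y]; omega), h2]
  have hK : r + (x0.toNat + x1.toNat + x2.toNat + x3.toNat) ≤ T.card := by
    have k1 := SndN_rank T n (y := n + 1) rfl
    have k2 := SndN_rank T (n + 1) (y := n + 2) e2
    have k3 := SndN_rank T (n + 2) (y := n + 3) (by ring)
    have k4 := SndN_rank T (n + 3) (y := n + 4) (by ring)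
    have k5 := rank_le_card T (n + 4)
    rw [← h0, ← hr] at k1
    rw [← h1] at k2
    rw [← h2] at k3
    rw [← h3] at k4
    omega
  have hM := MEq.lift (near_YY1 p x0 x1 x2 x3) (near_YY1_valid p x0 x1 x2 x3) hK
  rw [sh_append, sh_append, sh_sh, sh_sh, Nat.add_comm _ r, Nat.add_comm _ r] at hM
  rw [scan_cons, scan_cons, scan_nil, scan_cons, scan_cons, scan_nil, List.append_nil, List.append_nil, o1, o2, o3, o4]
  exact hM

theorem snd_YY2 (T : Finset ℤ) (n : ℤ) (h : n + 2 ∉ T) :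
    MEq T.card (scan T [Y n, Y (n + 2)]) (scan T [Y (n + 2), Y n]) := by
  obtain ⟨r, hr⟩ : ∃ r, r = rank T n := ⟨_, rfl⟩
  obtain ⟨p, hp⟩ : ∃ p, p = decide (n % 2 = 1) := ⟨_, rfl⟩
  obtain ⟨x0, h0⟩ : ∃ x0, x0 = decide (n ∈ T) := ⟨_, rfl⟩
  obtain ⟨x1, h1⟩ : ∃ x1, x1 = decide (n + 1 ∈ T) := ⟨_, rfl⟩
  have h2 : false = decide (n + 2 ∈ T) := (decide_eq_false h).symm
  obtain ⟨x3, h3⟩ : ∃ x3, x3 = decide (n + 3 ∈ T) := ⟨_, rfl⟩
  obtain ⟨x4, h4⟩ : ∃ x4, x4 = decide (n + 4 ∈ T) := ⟨_, rfl⟩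
  have e2 : n + 1 + 1 = n + 2 := by ring
  have e3 : n + 2 + 1 = n + 3 := by ring
  have e4 : n + 2 + 2 = n + 4 := by ring
  have o1 : out T (Y n) = sh r (locY p x0 x1 false) := SndN_Y hr.symm hp.symm h0.symm h1.symm h2.symm
  have o2 : out (act T (Y n)) (Y (n + 2)) = sh (r + ((!x0).toNat + x1.toNat)) (locY p true x3 x4) := by
    refine SndN_Y ?_ (by rw [SndN_par2, hp]) ?_ ?_ ?_
    · rw [SndN_rank _ (n + 1) e2, SndN_rank _ n rfl, rank_act_le (by simp), SndN_tog (by simp),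
        SndN_not (by simp only [a_Y, b_Y]; omega), ← hr, ← h0, ← h1, Nat.add_assoc]
    · rw [SndN_tog (by simp), ← h2]
      rfl
    · rw [e3, SndN_not (by simp only [a_Y, b_Y]; omega), h3]
    · rw [e4, SndN_not (by simp only [a_Y, b_Y]; omega), h4]
  have o3 : out T (Y (n + 2)) = sh (r + (x0.toNat + x1.toNat)) (locY p false x3 x4) := by
    refine SndN_Y ?_ (by rw [SndN_par2, hp]) h2.symm (by rw [e3, h3]) (by rw [e4, h4])
    rw [SndN_rank _ (n + 1) e2, SndN_rank _ n rfl, ← hr, ← h0, ← h1, Nat.add_assoc]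
  have o4 : out (act T (Y (n + 2))) (Y n) = sh r (locY p x0 x1 true) := by
    refine SndN_Y ?_ hp.symm ?_ ?_ ?_
    · rw [rank_act_le (by simp only [a_Y]; omega), hr]
    · rw [SndN_not (by simp only [a_Y, b_Y]; omega), h0]
    · rw [SndN_not (by simp only [a_Y, b_Y]; omega), h1]
    · rw [SndN_tog (by simp), ← h2]
      rfl
  have hK : r + (x0.toNat + x1.toNat + x3.toNat + x4.toNat) ≤ T.card := by
    have k1 := SndN_rank T n (y := n + 1) rfl
    have k2 := SndN_rank T (n + 1) (y := n + 2) e2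
    have k3 := SndN_rank T (n + 2) (y := n + 3) (by ring)
    have k4 := SndN_rank T (n + 3) (y := n + 4) (by ring)
    have k6 := SndN_rank T (n + 4) (y := n + 5) (by ring)
    have k5 := rank_le_card T (n + 5)
    rw [← h0, ← hr] at k1
    rw [← h1] at k2
    rw [← h3] at k4
    rw [← h4] at k6
    omega
  have hM := MEq.lift (near_YY2 p x0 x1 x3 x4) (near_YY2_valid p x0 x1 x3 x4) hK
  rw [sh_append, sh_append, sh_sh, sh_sh, Nat.add_comm _ r, Nat.add_comm _ r] at hM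
  rw [scan_cons, scan_cons, scan_nil, scan_cons, scan_cons, scan_nil, List.append_nil, List.append_nil, o1, o2, o3, o4]
  exact hM

end Pool.Agent.Lib.MP_dd2c10_prF
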