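import Pool.Agent.Lib.MP_dd2c10_prF.Rk

/-! JOB SndS (MP_dd2c10_pr): the square moves and the cancellation.

PROOF. `snd_sqa`, `snd_sqb`: write both scans as `sh r (..)`, `r = rank T (2 y)`, of the two sides of `near_sqa`, `near_sqb` and use `MEq.lift` with
the `_valid` theorem and `r + k ≤ T.card` (from `rank_succ` four times and `rank_le_card`). In `sqa`: `x1, x2` = membership of
`2 y + 1`, `2 y + 2`; `rank T (2 y + 1) = r` since `2 y ∉ T`; after `Y (2 y + 1)` the vertex `2 y + 1` is toggled and `2 y + 3` is occupied, so the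
rank of `2 (y + 1) = 2 y + 2` is `r + (!x1).toNat`. In `sqb`: `x0, x3` = membership of `2 y`, `2 y + 3`; after `Y (2 y)`: `2 y` toggled,
`2 y + 2` occupied, `2 y + 1` empty, rank of `2 y + 2` is `r + (!x0).toNat`. Tools: `rank_succ`, `rank_act_le`, `mem_act`, `sh_append`,
`sh_sh m l w : sh m (sh l w) = sh (l + m) w`.
`snd_cancel`: exactly one end of `e` is in `T`. `e = Z y`: both pieces are `[]`. `e = Y n`: if `n + 1 ∉ T` both pieces are `[]`; if
`n + 1 ∈ T` the pieces are `[cross r b]`, `[cross r !b]` with `r = rank T n`, and `Rule.r2` applies (`r + 2 ≤ T.card` since two of the three vertices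
are in `T`: `rank_succ` three times; the middle vertex is in `T` and exactly one end). Write `!b` carefully: `b = p` or `b = !p`. -/

namespace Pool.Agent.Lib.MP_dd2c10_prF

open Gen Ed

private theorem SndS_outY {T : Finset ℤ} {n : ℤ} {p x m z : Bool} {r : ℕ} (hp : decide (n % 2 = 1) = p)
    (hx : decide (n ∈ T) = x) (hm : decide (n + 1 ∈ T) = m) (hz : decide (n + 2 ∈ T) = z) (hr : rank T n = r) :
    out T (Y n) = sh r (locY p x m z) := by
  subst hp hx hm hz hr
  rfl

private theorem SndS_outZ {T : Finset ℤ} {y : ℤ} {x z : Bool} {r : ℕ}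
    (hx : decide (2 * y ∈ T) = x) (hz : decide (2 * y + 1 ∈ T) = z) (hr : rank T (2 * y) = r) :
    out T (Z y) = sh r (locZ x z) := by
  subst hx hz hr
  rfl

private theorem SndS_true {P : Prop} [Decidable P] (h : P) : decide P = true := decide_eq_true h

private theorem SndS_false {P : Prop} [Decidable P] (h : ¬ P) : decide P = false := decide_eq_false h

private theorem SndS_iff {P Q : Prop} [Decidable P] [Decidable Q] (h : P ↔ Q) : decide P = decide Q := decide_eq_decide.2 h

private theorem SndS_not {P Q : Prop} [Decidable P] [Decidable Q] (h : P ↔ ¬ Q) : decide P = !decide Q := by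
  by_cases hQ : Q
  · rw [decide_eq_true hQ, decide_eq_false (fun hP => (h.1 hP) hQ)]
    rfl
  · rw [decide_eq_false hQ, decide_eq_true (h.2 hQ)]
    rfl

theorem snd_sqa (T : Finset ℤ) (y : ℤ) (h1 : 2 * y ∉ T) (h2 : 2 * y + 3 ∉ T) :
    MEq T.card (scan T [Y (2 * y), Z y]) (scan T [Y (2 * y + 1), Z (y + 1)]) := by
  obtain ⟨r, hr⟩ : ∃ r, r = rank T (2 * y) := ⟨_, rfl⟩
  have hr1 : rank T (2 * y + 1) = r := by
    rw [rank_succ, SndS_false h1, hr]
    rfl
  have hr2 : rank T (2 * y + 2) = r + (decide (2 * y + 1 ∈ T)).toNat := by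
    rw [show 2 * y + 2 = 2 * y + 1 + 1 by omega, rank_succ, hr1]
  have hr3 : rank T (2 * y + 3) = r + (decide (2 * y + 1 ∈ T)).toNat + (decide (2 * y + 2 ∈ T)).toNat := by
    rw [show 2 * y + 3 = 2 * y + 2 + 1 by omega, rank_succ, hr2]
  have hK : r + ((decide (2 * y + 1 ∈ T)).toNat + (decide (2 * y + 2 ∈ T)).toNat) ≤ T.card := by
    rw [← add_assoc, ← hr3]
    exact rank_le_card _ _
  -- the first word
  have e1 : out T (Y (2 * y)) = sh r (locY false false (decide (2 * y + 1 ∈ T)) (decide (2 * y + 2 ∈ T))) :=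
    SndS_outY (SndS_false (by omega)) (SndS_false h1) rfl rfl hr.symm
  have e2 : out (act T (Y (2 * y))) (Z y) = sh r (locZ true (decide (2 * y + 1 ∈ T))) := by
    refine SndS_outZ (SndS_true ?_) (SndS_iff ?_) ((rank_act_le (le_refl _)).trans hr.symm)
    · rw [mem_act]
      simp only [a_Y, b_Y]
      tauto
    · rw [mem_act]
      simp only [a_Y, b_Y]
      have h3 : ¬ (2 * y + 1 = 2 * y) := by omega
      have h4 : ¬ (2 * y + 1 = 2 * y + 2) := by omega
      tauto
  -- the second word
  have e3 : out T (Y (2 * y + 1)) = sh r (locY true (decide (2 * y + 1 ∈ T)) (decide (2 * y + 2 ∈ T)) false) := by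
    refine SndS_outY (SndS_true (by omega)) rfl (SndS_iff ?_) (SndS_false ?_) hr1
    · rw [show 2 * y + 1 + 1 = 2 * y + 2 by omega]
    · rw [show 2 * y + 1 + 2 = 2 * y + 3 by omega]
      exact h2
  have e4 : out (act T (Y (2 * y + 1))) (Z (y + 1)) =
      sh (r + (!decide (2 * y + 1 ∈ T)).toNat) (locZ (decide (2 * y + 2 ∈ T)) true) := by
    refine SndS_outZ (SndS_iff ?_) (SndS_true ?_) ?_
    · rw [mem_act]
      simp only [a_Y, b_Y]
      have h3 : ¬ (2 * (y + 1) = 2 * y + 1) := by omega
      have h4 : ¬ (2 * (y + 1) = 2 * y + 1 + 2) := by omega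
      rw [show 2 * (y + 1) = 2 * y + 2 by omega] at h3 h4 ⊢
      tauto
    · rw [mem_act]
      simp only [a_Y, b_Y]
      have h3 : 2 * (y + 1) + 1 = 2 * y + 1 + 2 := by omega
      have h4 : 2 * (y + 1) + 1 ∉ T := by
        rw [show 2 * (y + 1) + 1 = 2 * y + 3 by omega]
        exact h2
      tauto
    · rw [show 2 * (y + 1) = 2 * y + 1 + 1 by omega, rank_succ, rank_act_le (le_refl (2 * y + 1)), hr1,
        SndS_not (Q := 2 * y + 1 ∈ T) ?_]
      rw [mem_act]
      simp only [a_Y, b_Y]
      tauto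
  have h := MEq.lift (near_sqa (decide (2 * y + 1 ∈ T)) (decide (2 * y + 2 ∈ T)))
    (near_sqa_valid (decide (2 * y + 1 ∈ T)) (decide (2 * y + 2 ∈ T))) hK
  rw [sh_append, sh_append, sh_sh, Nat.add_comm _ r] at h
  rw [scan_cons, scan_cons, scan_nil, scan_cons, scan_cons, scan_nil, e1, e2, e3, e4, List.append_nil, List.append_nil]
  exact h

theorem snd_sqb (T : Finset ℤ) (y : ℤ) (h1 : 2 * y + 1 ∉ T) (h2 : 2 * y + 2 ∉ T) :
    MEq T.card (scan T [Y (2 * y), Z (y + 1)]) (scan T [Z y, Y (2 * y + 1)]) := by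
  obtain ⟨r, hr⟩ : ∃ r, r = rank T (2 * y) := ⟨_, rfl⟩
  have hr1 : rank T (2 * y + 1) = r + (decide (2 * y ∈ T)).toNat := by
    rw [rank_succ, hr]
  have hr2 : rank T (2 * y + 2) = r + (decide (2 * y ∈ T)).toNat := by
    rw [show 2 * y + 2 = 2 * y + 1 + 1 by omega, rank_succ, hr1, SndS_false h1]
    rfl
  have hr3 : rank T (2 * y + 3) = r + (decide (2 * y ∈ T)).toNat := by
    rw [show 2 * y + 3 = 2 * y + 2 + 1 by omega, rank_succ, hr2, SndS_false h2]
    rfl
  have hr4 : rank T (2 * y + 4) = r + (decide (2 * y ∈ T)).toNat + (decide (2 * y + 3 ∈ T)).toNat := by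
    rw [show 2 * y + 4 = 2 * y + 3 + 1 by omega, rank_succ, hr3]
  have hK : r + ((decide (2 * y ∈ T)).toNat + (decide (2 * y + 3 ∈ T)).toNat) ≤ T.card := by
    rw [← add_assoc, ← hr4]
    exact rank_le_card _ _
  have e1 : out T (Y (2 * y)) = sh r (locY false (decide (2 * y ∈ T)) false false) :=
    SndS_outY (SndS_false (by omega)) rfl (SndS_false h1) (SndS_false h2) hr.symm
  have e2 : out (act T (Y (2 * y))) (Z (y + 1)) =
      sh (r + (!decide (2 * y ∈ T)).toNat) (locZ true (decide (2 * y + 3 ∈ T))) := by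
    refine SndS_outZ (SndS_true ?_) (SndS_iff ?_) ?_
    · rw [mem_act]
      simp only [a_Y, b_Y]
      rw [show 2 * (y + 1) = 2 * y + 2 by omega]
      tauto
    · rw [mem_act]
      simp only [a_Y, b_Y]
      rw [show 2 * (y + 1) + 1 = 2 * y + 3 by omega]
      have h3 : ¬ (2 * y + 3 = 2 * y) := by omega
      have h4 : ¬ (2 * y + 3 = 2 * y + 2) := by omega
      tauto
    · rw [show 2 * (y + 1) = 2 * y + 1 + 1 by omega, rank_succ, rank_succ, rank_act_le (le_refl (2 * y)), ← hr,
        SndS_not (P := 2 * y ∈ act T (Y (2 * y))) (Q := 2 * y ∈ T) ?_, SndS_false (P := 2 * y + 1 ∈ act T (Y (2 * y))) ?_]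
      · rfl
      · rw [mem_act]
        simp only [a_Y, b_Y]
        have h3 : ¬ (2 * y + 1 = 2 * y) := by omega
        have h4 : ¬ (2 * y + 1 = 2 * y + 2) := by omega
        tauto
      · rw [mem_act]
        simp only [a_Y, b_Y]
        tauto
  have e3 : out T (Z y) = sh r (locZ (decide (2 * y ∈ T)) false) := SndS_outZ rfl (SndS_false h1) hr.symm
  have e4 : out (act T (Z y)) (Y (2 * y + 1)) =
      sh (r + (!decide (2 * y ∈ T)).toNat) (locY true true false (decide (2 * y + 3 ∈ T))) := by
    refine SndS_outY (SndS_true (by omega)) (SndS_true ?_) (SndS_false ?_) (SndS_iff ?_) ?_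
    · rw [mem_act]
      simp only [a_Z, b_Z]
      tauto
    · rw [mem_act, show 2 * y + 1 + 1 = 2 * y + 2 by omega]
      simp only [a_Z, b_Z]
      have h3 : ¬ (2 * y + 2 = 2 * y) := by omega
      have h4 : ¬ (2 * y + 2 = 2 * y + 1) := by omega
      tauto
    · rw [mem_act, show 2 * y + 1 + 2 = 2 * y + 3 by omega]
      simp only [a_Z, b_Z]
      have h3 : ¬ (2 * y + 3 = 2 * y) := by omega
      have h4 : ¬ (2 * y + 3 = 2 * y + 1) := by omega
      tauto
    · rw [rank_succ, rank_act_le (le_refl (2 * y)), ← hr, SndS_not (Q := 2 * y ∈ T) ?_]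
      rw [mem_act]
      simp only [a_Z, b_Z]
      tauto
  have h := MEq.lift (near_sqb (decide (2 * y ∈ T)) (decide (2 * y + 3 ∈ T)))
    (near_sqb_valid (decide (2 * y ∈ T)) (decide (2 * y + 3 ∈ T))) hK
  rw [sh_append, sh_append, sh_sh, sh_sh, Nat.add_comm _ r] at h
  rw [scan_cons, scan_cons, scan_nil, scan_cons, scan_cons, scan_nil, e1, e2, e3, e4, List.append_nil, List.append_nil]
  exact h

theorem snd_cancel (T : Finset ℤ) (e : Ed) (h : e.a ∈ T ↔ e.b ∉ T) : MEq T.card (scan T [e, e]) [] := by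
  rw [scan_cons, scan_cons, scan_nil, List.append_nil]
  cases e with
  | Z y =>
    simp only [a_Z, b_Z] at h
    have e2 : ∀ x : Bool, locZ x (!x) = [] := by decide
    have e1 : out T (Z y) = [] := by
      rw [SndS_outZ (T := T) (y := y) rfl (SndS_not (Q := 2 * y ∈ T) (by tauto)) rfl, e2]
      rfl
    have e3 : out (act T (Z y)) (Z y) = [] := by
      rw [SndS_outZ (T := act T (Z y)) (y := y) rfl (SndS_not (Q := 2 * y ∈ act T (Z y)) ?_) rfl, e2]
      · rfl
      · rw [mem_act, mem_act]
        simp only [a_Z, b_Z]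
        have h3 : ¬ (2 * y + 1 = 2 * y) := by omega
        tauto
    rw [e1, e3]
    exact WEq.refl _
  | Y n =>
    simp only [a_Y, b_Y] at h
    obtain ⟨r, hr⟩ : ∃ r, r = rank T n := ⟨_, rfl⟩
    obtain ⟨p, hp⟩ : ∃ p, p = decide (n % 2 = 1) := ⟨_, rfl⟩
    obtain ⟨x, hx⟩ : ∃ x, x = decide (n ∈ T) := ⟨_, rfl⟩
    obtain ⟨m, hm⟩ : ∃ m, m = decide (n + 1 ∈ T) := ⟨_, rfl⟩
    have hz : decide (n + 2 ∈ T) = !x := by
      rw [hx]
      exact SndS_not (by tauto)
    have e1 : out T (Y n) = sh r (locY p x m (!x)) := SndS_outY hp.symm hx.symm hm.symm hz hr.symm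
    have e2 : out (act T (Y n)) (Y n) = sh r (locY p (!x) m x) := by
      refine SndS_outY hp.symm ?_ ?_ ?_ ((rank_act_le (le_refl _)).trans hr.symm)
      · rw [hx]
        refine SndS_not ?_
        rw [mem_act]
        simp only [a_Y, b_Y]
        tauto
      · rw [hm]
        refine SndS_iff ?_
        rw [mem_act]
        simp only [a_Y, b_Y]
        have h3 : ¬ (n + 1 = n) := by omega
        have h4 : ¬ (n + 1 = n + 2) := by omega
        tauto
      · rw [hx]
        refine SndS_iff ?_
        rw [mem_act]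
        simp only [a_Y, b_Y]
        tauto
    rw [e1, e2]
    cases m with
    | false =>
      have h3 : ∀ x : Bool, locY p x false (!x) = [] ∧ locY p (!x) false x = [] := by
        intro x
        cases x <;> exact ⟨rfl, rfl⟩
      rw [(h3 x).1, (h3 x).2]
      exact WEq.refl _
    | true =>
      have hK : r + 2 ≤ T.card := by
        have h4 : rank T (n + 3) = r + 2 := by
          rw [show n + 3 = n + 1 + 1 + 1 by omega, rank_succ, rank_succ, rank_succ, ← hr, ← hx, ← hm,
            show n + 1 + 1 = n + 2 by omega, hz]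
          cases x <;> rfl
        rw [← h4]
        exact rank_le_card _ _
      cases x with
      | true =>
        have h5 : sh r (locY p true true (!true)) ++ sh r (locY p (!true) true true) = [cross r p, cross r !p] := by
          change [cross (0 + r) p] ++ [cross (0 + r) !p] = _
          rw [Nat.zero_add]
          rfl
        rw [h5]
        exact WEq.rule (Rule.r2 r p hK)
      | false =>
        have h5 : sh r (locY p false true (!false)) ++ sh r (locY p (!false) true false) =
            [cross r !p, cross r !!p] := by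
          change [cross (0 + r) !p] ++ [cross (0 + r) p] = _
          rw [Nat.zero_add, Bool.not_not]
          rfl
        rw [h5]
        exact WEq.rule (Rule.r2 r (!p) hK)

end Pool.Agent.Lib.MP_dd2c10_prF
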