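import Pool.Agent.Lib.MP_dd2c10_prF.Rk

/-! JOB SndZ (MP_dd2c10_pr): overlapping edges `Y n`, `Z y` change places.

PROOF. The same for each of the four: write both scans as `sh r (..)` of the two sides of `near_YZa`, `near_YZb`,
`near_YZc`, `near_YZd` and use `MEq.lift` with the `_valid` theorem. `r` = the rank of the lowest vertex involved
(`2 y`, `2 y`, `2 y - 1`, `2 y - 2`); `xᵢ` = membership of the `i`-th vertex from there. Tools: `rank_succ`, `rank_act_le`, `mem_act`,
`sh_append`, `sh_sh m l w : sh m (sh l w) = sh (l + m) w`, parity of `n` by `omega` (e.g. `(2 * y - 1) % 2 = 1`), and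
`r + k ≤ T.card` from `rank_succ` and `rank_le_card`. Example `snd_YZb`: `r = rank T (2 y)`, `x0, x2, x3` the memberships of
`2 y, 2 y + 2, 2 y + 3`; `rank T (2 y + 1) = r + x0.toNat`, so `out T (Y (2 y + 1)) = sh r (sh x0.toNat (locY true false x2 x3))`; after it
`2 y + 1` is occupied and `rank (..) (2 y) = r`, so the second piece is `sh r (locZ x0 true)`. -/

namespace Pool.Agent.Lib.MP_dd2c10_prF

open Gen Ed

private theorem SndZ_tog {T : Finset ℤ} {e : Ed} {x : ℤ} (hx : x = e.a ∨ x = e.b) :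
    decide (x ∈ act T e) = !decide (x ∈ T) := by
  by_cases h : x ∈ T
  · have h1 : x ∉ act T e := by
      rw [mem_act]
      exact fun q => q (iff_of_true h hx)
    rw [decide_eq_false h1, decide_eq_true h]
    rfl
  · have h1 : x ∈ act T e := by
      rw [mem_act]
      exact fun q => h (q.mpr hx)
    rw [decide_eq_true h1, decide_eq_false h]
    rfl

private theorem SndZ_same {T : Finset ℤ} {e : Ed} {x : ℤ} (ha : x ≠ e.a) (hb : x ≠ e.b) :
    decide (x ∈ act T e) = decide (x ∈ T) := by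
  have h1 : x ∈ act T e ↔ x ∈ T := by
    rw [mem_act]
    have h2 : ¬ (x = e.a ∨ x = e.b) := fun q => q.elim ha hb
    tauto
  exact decide_eq_decide.mpr h1

private theorem SndZ_Y (T : Finset ℤ) {n : ℤ} {p x m z : Bool} {r : ℕ} (hr : rank T n = r) (hp : decide (n % 2 = 1) = p)
    (hx : decide (n ∈ T) = x) (hm : decide (n + 1 ∈ T) = m) (hz : decide (n + 2 ∈ T) = z) :
    out T (Y n) = sh r (locY p x m z) := by
  subst hr hp hx hm hz
  rfl

private theorem SndZ_Z (T : Finset ℤ) {y : ℤ} {x z : Bool} {r : ℕ} (hr : rank T (2 * y) = r)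
    (hx : decide (2 * y ∈ T) = x) (hz : decide (2 * y + 1 ∈ T) = z) :
    out T (Z y) = sh r (locZ x z) := by
  subst hr hx hz
  rfl

theorem snd_YZa (T : Finset ℤ) (y : ℤ) (h : 2 * y ∉ T) :
    MEq T.card (scan T [Y (2 * y), Z y]) (scan T [Z y, Y (2 * y)]) := by
  have k1 := rank_succ T (2 * y)
  have k2 := rank_succ T (2 * y + 1)
  have k3 := rank_succ T (2 * y + 1 + 1)
  have k4 := rank_le_card T (2 * y + 1 + 1 + 1)
  have q0 : decide (2 * y ∈ T) = false := decide_eq_false h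
  have q2 : (2 * y + 1 + 1 : ℤ) = 2 * y + 2 := by ring
  rw [q2] at k3
  have key := MEq.lift (K := T.card) (i := rank T (2 * y))
    (near_YZa (decide (2 * y + 1 ∈ T)) (decide (2 * y + 2 ∈ T)))
    (near_YZa_valid (decide (2 * y + 1 ∈ T)) (decide (2 * y + 2 ∈ T))) (by rw [q2] at k2 k4; omega)
  have e1 : out T (Y (2 * y)) = sh (rank T (2 * y)) (locY false false (decide (2 * y + 1 ∈ T)) (decide (2 * y + 2 ∈ T))) :=
    SndZ_Y T rfl (decide_eq_false (by omega)) q0 rfl rfl
  have e2 : out (act T (Y (2 * y))) (Z y) = sh (rank T (2 * y)) (locZ true (decide (2 * y + 1 ∈ T))) := by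
    refine SndZ_Z _ (rank_act_le (le_of_eq (a_Y _).symm)) ?_ ?_
    · rw [SndZ_tog (Or.inl (a_Y _).symm), q0]
      rfl
    · exact SndZ_same (by rw [a_Y]; omega) (by rw [b_Y]; omega)
  have e3 : out T (Z y) = sh (rank T (2 * y)) (locZ false (decide (2 * y + 1 ∈ T))) :=
    SndZ_Z T rfl q0 rfl
  have e4 : out (act T (Z y)) (Y (2 * y)) =
      sh (rank T (2 * y)) (locY false true (!decide (2 * y + 1 ∈ T)) (decide (2 * y + 2 ∈ T))) := by
    refine SndZ_Y _ (rank_act_le (le_of_eq (a_Z _).symm)) (decide_eq_false (by omega)) ?_ ?_ ?_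
    · rw [SndZ_tog (Or.inl (a_Z _).symm), q0]
      rfl
    · exact SndZ_tog (Or.inr (b_Z _).symm)
    · exact SndZ_same (by rw [a_Z]; omega) (by rw [b_Z]; omega)
  rw [sh_append, sh_append] at key
  rw [scan_cons, scan_cons, scan_nil, scan_cons, scan_cons, scan_nil, List.append_nil, List.append_nil, e1, e2, e3, e4]
  exact key

theorem snd_YZb (T : Finset ℤ) (y : ℤ) (h : 2 * y + 1 ∉ T) :
    MEq T.card (scan T [Y (2 * y + 1), Z y]) (scan T [Z y, Y (2 * y + 1)]) := by
  have k1 := rank_succ T (2 * y)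
  have k2 := rank_succ T (2 * y + 1)
  have k3 := rank_succ T (2 * y + 2)
  have k4 := rank_succ T (2 * y + 3)
  have k5 := rank_le_card T (2 * y + 4)
  have q1 : decide (2 * y + 1 ∈ T) = false := decide_eq_false h
  have g2 : (2 * y + 1 + 1 : ℤ) = 2 * y + 2 := by ring
  have g3 : (2 * y + 2 + 1 : ℤ) = 2 * y + 3 := by ring
  have g4 : (2 * y + 3 + 1 : ℤ) = 2 * y + 4 := by ring
  have g5 : (2 * y + 1 + 2 : ℤ) = 2 * y + 3 := by ring
  rw [g2] at k2
  rw [g3] at k3
  rw [g4] at k4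
  have key := MEq.lift (K := T.card) (i := rank T (2 * y))
    (near_YZb (decide (2 * y ∈ T)) (decide (2 * y + 2 ∈ T)) (decide (2 * y + 3 ∈ T)))
    (near_YZb_valid (decide (2 * y ∈ T)) (decide (2 * y + 2 ∈ T)) (decide (2 * y + 3 ∈ T))) (by omega)
  have e1 : out T (Y (2 * y + 1)) = sh (rank T (2 * y)) (sh (decide (2 * y ∈ T)).toNat
      (locY true false (decide (2 * y + 2 ∈ T)) (decide (2 * y + 3 ∈ T)))) := by
    rw [sh_sh]
    exact SndZ_Y T (by rw [k1, Nat.add_comm]) (decide_eq_true (by omega)) q1 (by rw [g2]) (by rw [g5])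
  have e2 : out (act T (Y (2 * y + 1))) (Z y) = sh (rank T (2 * y)) (locZ (decide (2 * y ∈ T)) true) := by
    refine SndZ_Z _ (rank_act_le (by rw [a_Y]; omega)) ?_ ?_
    · exact SndZ_same (by rw [a_Y]; omega) (by rw [b_Y]; omega)
    · rw [SndZ_tog (Or.inl (a_Y _).symm), q1]
      rfl
  have e3 : out T (Z y) = sh (rank T (2 * y)) (locZ (decide (2 * y ∈ T)) false) :=
    SndZ_Z T rfl rfl q1
  have e4 : out (act T (Z y)) (Y (2 * y + 1)) = sh (rank T (2 * y)) (sh (!decide (2 * y ∈ T)).toNat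
      (locY true true (decide (2 * y + 2 ∈ T)) (decide (2 * y + 3 ∈ T)))) := by
    rw [sh_sh]
    refine SndZ_Y _ ?_ (decide_eq_true (by omega)) ?_ ?_ ?_
    · rw [rank_succ, SndZ_tog (Or.inl (a_Z _).symm), rank_act_le (le_of_eq (a_Z _).symm), Nat.add_comm]
    · rw [SndZ_tog (Or.inr (b_Z _).symm), q1]
      rfl
    · rw [g2]
      exact SndZ_same (by rw [a_Z]; omega) (by rw [b_Z]; omega)
    · rw [g5]
      exact SndZ_same (by rw [a_Z]; omega) (by rw [b_Z]; omega)
  rw [sh_append, sh_append] at key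
  rw [scan_cons, scan_cons, scan_nil, scan_cons, scan_cons, scan_nil, List.append_nil, List.append_nil, e1, e2, e3, e4]
  exact key

theorem snd_YZc (T : Finset ℤ) (y : ℤ) (h : 2 * y + 1 ∉ T) :
    MEq T.card (scan T [Y (2 * y - 1), Z y]) (scan T [Z y, Y (2 * y - 1)]) := by
  have g1 : (2 * y - 1 + 1 : ℤ) = 2 * y := by ring
  have g2 : (2 * y + 1 + 1 : ℤ) = 2 * y + 2 := by ring
  have g3 : (2 * y - 1 + 2 : ℤ) = 2 * y + 1 := by ring
  have k0 := rank_succ T (2 * y - 1)
  have k1 := rank_succ T (2 * y)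
  have k2 := rank_succ T (2 * y + 1)
  have k3 := rank_le_card T (2 * y + 2)
  have q1 : decide (2 * y + 1 ∈ T) = false := decide_eq_false h
  rw [g1] at k0
  rw [g2] at k2
  have key := MEq.lift (K := T.card) (i := rank T (2 * y - 1))
    (near_YZc (decide (2 * y - 1 ∈ T)) (decide (2 * y ∈ T)))
    (near_YZc_valid (decide (2 * y - 1 ∈ T)) (decide (2 * y ∈ T))) (by omega)
  have e1 : out T (Y (2 * y - 1)) = sh (rank T (2 * y - 1)) (locY true (decide (2 * y - 1 ∈ T)) (decide (2 * y ∈ T)) false) :=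
    SndZ_Y T rfl (decide_eq_true (by omega)) rfl (by rw [g1]) (by rw [g3, q1])
  have e2 : out (act T (Y (2 * y - 1))) (Z y) = sh (rank T (2 * y - 1)) (sh (!decide (2 * y - 1 ∈ T)).toNat
      (locZ (decide (2 * y ∈ T)) true)) := by
    rw [sh_sh]
    refine SndZ_Z _ ?_ ?_ ?_
    · have k := rank_succ (act T (Y (2 * y - 1))) (2 * y - 1)
      rw [g1] at k
      rw [k, SndZ_tog (Or.inl (a_Y _).symm), rank_act_le (le_of_eq (a_Y _).symm), Nat.add_comm]
    · exact SndZ_same (by rw [a_Y]; omega) (by rw [b_Y]; omega)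
    · rw [SndZ_tog (Or.inr (by rw [b_Y]; omega)), q1]
      rfl
  have e3 : out T (Z y) = sh (rank T (2 * y - 1)) (sh (decide (2 * y - 1 ∈ T)).toNat (locZ (decide (2 * y ∈ T)) false)) := by
    rw [sh_sh]
    exact SndZ_Z T (by rw [k0, Nat.add_comm]) rfl q1
  have e4 : out (act T (Z y)) (Y (2 * y - 1)) =
      sh (rank T (2 * y - 1)) (locY true (decide (2 * y - 1 ∈ T)) (!decide (2 * y ∈ T)) true) := by
    refine SndZ_Y _ (rank_act_le (by rw [a_Z]; omega)) (decide_eq_true (by omega)) ?_ ?_ ?_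
    · exact SndZ_same (by rw [a_Z]; omega) (by rw [b_Z]; omega)
    · rw [g1]
      exact SndZ_tog (Or.inl (a_Z _).symm)
    · rw [g3, SndZ_tog (Or.inr (b_Z _).symm), q1]
      rfl
  rw [sh_append, sh_append] at key
  rw [scan_cons, scan_cons, scan_nil, scan_cons, scan_cons, scan_nil, List.append_nil, List.append_nil, e1, e2, e3, e4]
  exact key

theorem snd_YZd (T : Finset ℤ) (y : ℤ) (h : 2 * y ∉ T) :
    MEq T.card (scan T [Y (2 * y - 2), Z y]) (scan T [Z y, Y (2 * y - 2)]) := by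
  have g1 : (2 * y - 2 + 1 : ℤ) = 2 * y - 1 := by ring
  have g2 : (2 * y - 1 + 1 : ℤ) = 2 * y := by ring
  have g3 : (2 * y - 2 + 2 : ℤ) = 2 * y := by ring
  have g4 : (2 * y + 1 + 1 : ℤ) = 2 * y + 2 := by ring
  have k0 := rank_succ T (2 * y - 2)
  have k1 := rank_succ T (2 * y - 1)
  have k2 := rank_succ T (2 * y)
  have k3 := rank_succ T (2 * y + 1)
  have k4 := rank_le_card T (2 * y + 2)
  have q1 : decide (2 * y ∈ T) = false := decide_eq_false h
  rw [g1] at k0
  rw [g2] at k1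
  rw [g4] at k3
  have key := MEq.lift (K := T.card) (i := rank T (2 * y - 2))
    (near_YZd (decide (2 * y - 2 ∈ T)) (decide (2 * y - 1 ∈ T)) (decide (2 * y + 1 ∈ T)))
    (near_YZd_valid (decide (2 * y - 2 ∈ T)) (decide (2 * y - 1 ∈ T)) (decide (2 * y + 1 ∈ T))) (by omega)
  have e1 : out T (Y (2 * y - 2)) =
      sh (rank T (2 * y - 2)) (locY false (decide (2 * y - 2 ∈ T)) (decide (2 * y - 1 ∈ T)) false) :=
    SndZ_Y T rfl (decide_eq_false (by omega)) rfl (by rw [g1]) (by rw [g3, q1])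
  have e2 : out (act T (Y (2 * y - 2))) (Z y) = sh (rank T (2 * y - 2))
      (sh ((!decide (2 * y - 2 ∈ T)).toNat + (decide (2 * y - 1 ∈ T)).toNat) (locZ true (decide (2 * y + 1 ∈ T)))) := by
    rw [sh_sh]
    refine SndZ_Z _ ?_ ?_ ?_
    · have k := rank_succ (act T (Y (2 * y - 2))) (2 * y - 2)
      have k' := rank_succ (act T (Y (2 * y - 2))) (2 * y - 1)
      rw [g1, SndZ_tog (Or.inl (a_Y _).symm), rank_act_le (le_of_eq (a_Y _).symm)] at k
      rw [g2, SndZ_same (by rw [a_Y]; omega) (by rw [b_Y]; omega), k] at k'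
      rw [k']
      omega
    · rw [SndZ_tog (Or.inr (by rw [b_Y]; omega)), q1]
      rfl
    · exact SndZ_same (by rw [a_Y]; omega) (by rw [b_Y]; omega)
  have e3 : out T (Z y) = sh (rank T (2 * y - 2))
      (sh ((decide (2 * y - 2 ∈ T)).toNat + (decide (2 * y - 1 ∈ T)).toNat) (locZ false (decide (2 * y + 1 ∈ T)))) := by
    rw [sh_sh]
    exact SndZ_Z T (by omega) q1 rfl
  have e4 : out (act T (Z y)) (Y (2 * y - 2)) =
      sh (rank T (2 * y - 2)) (locY false (decide (2 * y - 2 ∈ T)) (decide (2 * y - 1 ∈ T)) true) := by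
    refine SndZ_Y _ (rank_act_le (by rw [a_Z]; omega)) (decide_eq_false (by omega)) ?_ ?_ ?_
    · exact SndZ_same (by rw [a_Z]; omega) (by rw [b_Z]; omega)
    · rw [g1]
      exact SndZ_same (by rw [a_Z]; omega) (by rw [b_Z]; omega)
    · rw [g3, SndZ_tog (Or.inl (a_Z _).symm), q1]
      rfl
  rw [sh_append, sh_append] at key
  rw [scan_cons, scan_cons, scan_nil, scan_cons, scan_cons, scan_nil, List.append_nil, List.append_nil, e1, e2, e3, e4]
  exact key

end Pool.Agent.Lib.MP_dd2c10_prF
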