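import Pool.Agent.Lib.MP_dd2c10_prF.SndF
import Pool.Agent.Lib.MP_dd2c10_prF.SndN
import Pool.Agent.Lib.MP_dd2c10_prF.SndZ
import Pool.Agent.Lib.MP_dd2c10_prF.SndS

/-! JOB Snd (MP_dd2c10_pr): equivalent words have equivalent diagrams.

PROOF. `LRule.sound`: cases. `cancel`, `sqa`, `sqb`: the theorems of `SndS`. `swap e f h`: if `e.b < f.a` `snd_far`; if `f.b < e.a` `snd_far` and
`symm`. Otherwise: `e = Y n, f = Y m`: `|n - m| ≤ 2`: `m = n`: refl; `m = n + 1`, `n = m + 1`: `snd_YY1` (or its symm); `m = n + 2`, `n = m + 2`: the common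
vertex is not in `T` by `h`: `snd_YY2` (or symm). `e = Y n, f = Z y`: `2 y - 2 ≤ n ≤ 2 y + 1`: the four cases `snd_YZd`, `snd_YZc`, `snd_YZa`,
`snd_YZb`; the common vertex is `2 y`, `2 y + 1`, `2 y`, `2 y + 1`, not in `T` by `h`. `e = Z y, f = Y n`: symm of these. `e = Z y, f = Z y'`: `y = y'`: refl.
(`scan T (u ++ ..)`.)
`LEq.sound`: induction on the generated equivalence (as in `WEq.map` / `WEq.run_eq` of `Words.lean`); a step `a ++ u ++ b → a ++ v ++ b`:
`scan_append` (twice), `run_append`, the two states after `u` and `v` agree (`LRule.run_eq`), then `WEq.left`, `WEq.right`: the number of strands after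
`scan T a` is `(run T a).card` by `endk_scan` (`endk` is `List.foldl next`, by `rfl`). -/

namespace Pool.Agent.Lib.MP_dd2c10_prF

open Gen Ed

private theorem Snd_YZ (T : Finset ℤ) (n y : ℤ)
    (h : ∀ v : ℤ, (v = (Y n).a ∨ v = (Y n).b) → (v = (Z y).a ∨ v = (Z y).b) → v ∉ T) :
    MEq T.card (scan T [Y n, Z y]) (scan T [Z y, Y n]) := by
  simp only [a_Y, b_Y, a_Z, b_Z] at h
  by_cases h1 : n + 2 < 2 * y
  · exact snd_far T (Y n) (Z y) h1
  by_cases h2 : 2 * y + 1 < n
  · exact (snd_far T (Z y) (Y n) h2).symm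
  rcases (show n = 2 * y - 2 ∨ n = 2 * y - 1 ∨ n = 2 * y ∨ n = 2 * y + 1 by omega) with h3 | h3 | h3 | h3
  · subst h3
    exact snd_YZd T y (h (2 * y) (Or.inr (by omega)) (Or.inl rfl))
  · subst h3
    exact snd_YZc T y (h (2 * y + 1) (Or.inr (by omega)) (Or.inr rfl))
  · subst h3
    exact snd_YZa T y (h (2 * y) (Or.inl rfl) (Or.inl rfl))
  · subst h3
    exact snd_YZb T y (h (2 * y + 1) (Or.inl rfl) (Or.inr rfl))

private theorem Snd_swap (T : Finset ℤ) (e f : Ed)
    (h : ∀ v : ℤ, (v = e.a ∨ v = e.b) → (v = f.a ∨ v = f.b) → v ∉ T) :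
    MEq T.card (scan T [e, f]) (scan T [f, e]) := by
  cases e with
  | Y n =>
    cases f with
    | Y l =>
      simp only [a_Y, b_Y] at h
      by_cases h1 : n + 2 < l
      · exact snd_far T (Y n) (Y l) h1
      by_cases h2 : l + 2 < n
      · exact (snd_far T (Y l) (Y n) h2).symm
      rcases (show l = n ∨ l = n + 1 ∨ l = n + 2 ∨ n = l + 1 ∨ n = l + 2 by omega) with h3 | h3 | h3 | h3 | h3
      · subst h3
        exact WEq.refl _
      · subst h3
        exact snd_YY1 T n
      · subst h3
        exact snd_YY2 T n (h (n + 2) (Or.inr rfl) (Or.inl rfl))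
      · subst h3
        exact (snd_YY1 T l).symm
      · subst h3
        exact (snd_YY2 T l (h (l + 2) (Or.inl rfl) (Or.inr rfl))).symm
    | Z y => exact Snd_YZ T n y h
  | Z y =>
    cases f with
    | Y n => exact (Snd_YZ T n y fun v h1 h2 => h v h2 h1).symm
    | Z y' =>
      by_cases h1 : 2 * y + 1 < 2 * y'
      · exact snd_far T (Z y) (Z y') h1
      by_cases h2 : 2 * y' + 1 < 2 * y
      · exact (snd_far T (Z y') (Z y) h2).symm
      have h3 : y = y' := by omega
      subst h3
      exact WEq.refl _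

theorem LRule.sound {T : Finset ℤ} {u v : List Ed} (h : LRule T u v) : MEq T.card (scan T u) (scan T v) := by
  cases h with
  | swap e f h => exact Snd_swap T e f h
  | cancel e h => exact snd_cancel T e h
  | sqa y h1 h2 => exact snd_sqa T y h1 h2
  | sqb y h1 h2 => exact snd_sqb T y h1 h2

theorem LEq.sound {T : Finset ℤ} {u v : List Ed} (h : LEq T u v) : MEq T.card (scan T u) (scan T v) := by
  induction h with
  | rel u v h =>
    obtain ⟨a, u', v', b, rfl, rfl, h⟩ := h
    have h1 : MEq (run T a).card (scan (run T a) u') (scan (run T a) v') := LRule.sound h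
    have h2 : run (run T a) u' = run (run T a) v' := h.run_eq
    rw [scan_append, scan_append, scan_append, scan_append, run_append, run_append, h2]
    have h3 : MEq T.card (scan T a ++ scan (run T a) u') (scan T a ++ scan (run T a) v') := by
      refine WEq.left (scan T a) ?_
      have h4 : (scan T a).foldl next T.card = (run T a).card := endk_scan T a
      rw [h4]
      exact h1
    exact WEq.right h3 _
  | refl u => exact WEq.refl _
  | symm u v _ ih => exact WEq.symm ih
  | trans u v w _ _ ih1 ih2 => exact WEq.trans ih1 ih2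

end Pool.Agent.Lib.MP_dd2c10_prF
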