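import Pool.Agent.Lib.MP_dd2c10_prF.RzB
import Pool.Agent.Lib.MP_dd2c10_prF.ML
import Pool.Agent.Lib.MP_dd2c10_prF.Snd

/-! JOB Compl (MP_dd2c10_pr): closed words are equivalent if and only if their diagrams are equivalent.

PROOFS.
* `rz_rule`: cases. `far`, `zig`, `slideCup`, `r1`, `r2`: `RzA`, `RzB`. `zag i`: `rz_rev (rz_zig h)`: `endk k [cup (i + 1), cap i] = k`,
  `rinv [cup (i + 1), cap i] = [cup i, cap (i + 1)]`. `slideCap i b` (`i + 3 ≤ k`): `rz_rev` of `rz_slideCup (k := k - 2) (!b)`: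
  `rinv [cup i, cross (i + 1) !b] = [cross (i + 1) b, cap i]`, `rinv [cup (i + 1), cross i b] = [cross i !b, cap (i + 1)]`, `endk (k - 2) _ = k`. `r1' i b`:
  `rz_rev` of `rz_r1 (k := k - 2) (!b)`. (`!!b = b`: cases on `b` makes everything `rfl`.)
* `compl_step`: `u = a ++ u' ++ b`, `v = a ++ v' ++ b`, `Rule (endk 0 a) u' v'`. `rz_rule` gives `T, x, y`. `realW` at `∅` gives `A` with `scan ∅ A = a`; `(run ∅ A).card =
  endk 0 a = T.card` (`endk_scan`); `conn`: planar `p : run ∅ A → T`. `realW` at `run T x` gives `B` with diagram `b` (validity from `valid_append`;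
  `(run T x).card = endk (endk 0 a) u'`). `W₁ = A ++ p ++ x ++ B`, `W₂ = A ++ p ++ y ++ B` are equivalent (`LEq.left`, `LEq.right`, `LEq.run_eq`), with diagrams
  `u`, `v` (`scan_append`, `PPath.scan_eq`). All ends are `∅`: cardinality `endk 0 u = 0` (`endk_scan`, `Finset.card_eq_zero`). `w ~ W₁`, `W₂ ~ w'` by `ml0`.
* `compl`: prove by induction on the generated equivalence `MEq 0 u v` the statement: `Valid 0 u → endk 0 u = 0 → ∀ w w', run ∅ w = ∅ → run ∅ w' = ∅ → scan ∅ w = u → scan ∅ w' = v →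
  LEq ∅ w w'` (and use `MEq.valid_iff`, `MEq.endk_eq`). `rel`: `compl_step`. `refl`: `ml0`. `symm`: `LEq.symm`. `trans`: `realW` gives a word with the middle diagram; its end is
  `∅` (`endk_scan`). In `compl` itself `Valid 0 u`, `endk 0 u = 0` come from `valid_scan`, `endk_scan`.
* `leq_iff`: `LEq.sound` (`T = ∅`, `card = 0`) and `compl`. -/

namespace Pool.Agent.Lib.MP_dd2c10_prF

open Gen Ed

theorem rz_rule {k : ℕ} {u v : List Gen} (h : Rule k u v) : Rz k u v := by
  cases h with
  | far g h' h1 h2 => exact rz_far g h' h1 h2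
  | zig i h => exact rz_zig h
  | zag i h =>
    have h1 := rz_rev (rz_zig h)
    have e : endk k [cup (i + 1), cap i] = k := by
      simp only [endk_cons, endk_nil, next, outs, ins]
      omega
    rw [e] at h1
    exact h1
  | slideCup i b h => exact rz_slideCup b h
  | slideCap i b h =>
    have h1 := rz_rev (rz_slideCup (k := k - 2) (i := i) (!b) (by omega))
    have e : endk (k - 2) [cup i, cross (i + 1) !b] = k := by
      simp only [endk_cons, endk_nil, next, outs, ins]
      omega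
    rw [e] at h1
    cases b <;> exact h1
  | r1 i b h => exact rz_r1 b h
  | r1' i b h =>
    have h1 := rz_rev (rz_r1 (k := k - 2) (i := i) (!b) (by omega))
    have e : endk (k - 2) [cup i, cross i !b] = k := by
      simp only [endk_cons, endk_nil, next, outs, ins]
      omega
    rw [e] at h1
    cases b <;> exact h1
  | r2 i b h => exact rz_r2 b h

private theorem Compl_end {u : List Gen} (hk : endk 0 u = 0) {w : List Ed} (hs : scan ∅ w = u) : run ∅ w = ∅ := by
  have h1 := endk_scan ∅ w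
  rw [hs, Finset.card_empty, hk] at h1
  exact Finset.card_eq_zero.1 h1.symm

theorem compl_step {u v : List Gen} (h : WStep next Rule 0 u v) (hu : Valid 0 u) (hk : endk 0 u = 0) {w w' : List Ed}
    (hw : run ∅ w = ∅) (hw' : run ∅ w' = ∅) (hs : scan ∅ w = u) (hs' : scan ∅ w' = v) : LEq ∅ w w' := by
  have hkv : endk 0 v = 0 := (MEq.endk_eq (Relation.EqvGen.rel _ _ h)).symm.trans hk
  obtain ⟨a, u', v', b, rfl, rfl, h⟩ := h
  obtain ⟨T, x, y, hT, hx, hy, hxy⟩ := rz_rule h
  have hua := (valid_append.1 hu).1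
  have hub := (valid_append.1 hu).2
  obtain ⟨A, hA⟩ : ∃ A, scan ∅ A = a := realW (T := ∅) (valid_append.1 hua).1
  have cA : (run ∅ A).card = endk 0 a := by
    have h1 := endk_scan ∅ A
    rw [hA, Finset.card_empty] at h1
    exact h1.symm
  obtain ⟨p, hp, hpT⟩ := conn (T := run ∅ A) (T' := T) (cA.trans hT.symm)
  have cB : (run T x).card = endk 0 (a ++ u') := by
    rw [← endk_scan, hx, hT, endk_append]
    rfl
  obtain ⟨B, hB⟩ : ∃ B, scan (run T x) B = b := realW (T := run T x) (by rw [cB]; exact hub)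
  have hr : run T x = run T y := hxy.run_eq
  have s1 : scan ∅ (A ++ p ++ x ++ B) = a ++ u' ++ b := by
    rw [scan_append, scan_append, scan_append, run_append, run_append, hA, hp.scan_eq, hpT, hx, run_append, hpT, hB,
      List.append_nil]
  have s2 : scan ∅ (A ++ p ++ y ++ B) = a ++ v' ++ b := by
    rw [scan_append, scan_append, scan_append, run_append, run_append, hA, hp.scan_eq, hpT, hy, run_append, hpT, ← hr, hB,
      List.append_nil]
  have h3 : LEq ∅ (A ++ p ++ x ++ B) (A ++ p ++ y ++ B) := by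
    refine LEq.right (LEq.left (A ++ p) ?_) B
    rw [run_append, hpT]
    exact hxy
  have h4 : LEq ∅ w (A ++ p ++ x ++ B) := ml0 (hs.trans s1.symm) (hw.trans (Compl_end hk s1).symm)
  have h5 : LEq ∅ (A ++ p ++ y ++ B) w' := ml0 (s2.trans hs'.symm) ((Compl_end hkv s2).trans hw'.symm)
  exact (h4.trans h3).trans h5

private theorem Compl_aux {u v : List Gen} (h : MEq 0 u v) : Valid 0 u → endk 0 u = 0 → ∀ w w' : List Ed,
    run ∅ w = ∅ → run ∅ w' = ∅ → scan ∅ w = u → scan ∅ w' = v → LEq ∅ w w' := by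
  induction h with
  | rel u v h =>
    intro hu hk w w' hw hw' hs hs'
    exact compl_step h hu hk hw hw' hs hs'
  | refl u =>
    intro _ _ w w' hw hw' hs hs'
    exact ml0 (hs.trans hs'.symm) (hw.trans hw'.symm)
  | symm u v h ih =>
    intro hv hk w w' hw hw' hs hs'
    have h1 : MEq 0 u v := h
    exact (ih (h1.valid_iff.2 hv) (h1.endk_eq.trans hk) w' w hw' hw hs' hs).symm
  | trans u v z h _ ih1 ih2 =>
    intro hu hk w w' hw hw' hs hs'
    have h1 : MEq 0 u v := h
    have hv := h1.valid_iff.1 hu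
    have hkv : endk 0 v = 0 := h1.endk_eq.symm.trans hk
    obtain ⟨m, hm⟩ : ∃ m, scan ∅ m = v := realW (T := ∅) hv
    have hm2 := Compl_end hkv hm
    exact (ih1 hu hk w m hw hm2 hs hm).trans (ih2 hv hkv m w' hm2 hw' hm hs')

theorem compl {w w' : List Ed} (hw : run ∅ w = ∅) (hw' : run ∅ w' = ∅) (h : DiagEq (scan ∅ w) (scan ∅ w')) :
    LEq ∅ w w' := by
  have h1 : Valid 0 (scan ∅ w) := valid_scan ∅ w
  have h2 : endk 0 (scan ∅ w) = 0 := by
    have h3 := endk_scan ∅ w
    rw [hw, Finset.card_empty] at h3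
    exact h3
  exact Compl_aux h h1 h2 w w' hw hw' rfl rfl

theorem leq_iff {w w' : List Ed} (hw : run ∅ w = ∅) (hw' : run ∅ w' = ∅) :
    LEq ∅ w w' ↔ DiagEq (scan ∅ w) (scan ∅ w') := by
  constructor
  · intro h
    exact h.sound
  · intro h
    exact compl hw hw' h

end Pool.Agent.Lib.MP_dd2c10_prF
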