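import Pool.Agent.Lib.MP_dd2c10_prF.CohB

/-! JOB Conn (MP_dd2c10_pr): existence of planar paths.

PROOF of `conn_above`: let `A` = the common part `≤ m` of `T` and `T'` (`T.filter (· ≤ m)`), `l`, `l'` = strictly decreasing lists of the
parts `> m` (`exists_desc`); they have the same length `c = T.card - A.card`. `T = l.toFinset ∪ A`, `T' = l'.toFinset ∪ A`. Choose `Q` with
`s + 2 < 2 (Q - 2 c)` for all `s ∈ l ++ l'`. `can_path` with `U = A` (elements of `A` are `≤ m <` elements of `l`): `canL Q l` leads from `T` to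
`tgt Q c ∪ A`, `canL Q l'` from `T'` to the same set. Take `canL Q l ++ (canL Q l').reverse` (`ppath_append`, `PPath.rev`, `run_append`,
`run_rev`), letters `> m` by `can_supp` (`List.mem_reverse`).
`conn`: `conn_above` with `m` smaller than all elements of `T ∪ T'` (then no `x ≤ m` is in either). -/

namespace Pool.Agent.Lib.MP_dd2c10_prF

open Gen Ed

/-- Strands above `m` can be moved to any other positions above `m` by a planar path above `m`. -/
theorem conn_above {T T' : Finset ℤ} (m : ℤ) (h1 : ∀ x ≤ m, (x ∈ T ↔ x ∈ T')) (h2 : T.card = T'.card) :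
    ∃ p, PPath T p ∧ run T p = T' ∧ ∀ f ∈ p, m < f.a := by
  obtain ⟨l, hl, hlB, hlc⟩ := exists_desc (T.filter fun s => ¬ s ≤ m)
  obtain ⟨l', hl', hlB', hlc'⟩ := exists_desc (T'.filter fun s => ¬ s ≤ m)
  have hA : T.filter (fun s => s ≤ m) = T'.filter (fun s => s ≤ m) := by
    ext x
    rw [Finset.mem_filter, Finset.mem_filter]
    constructor
    · rintro ⟨ha, hb⟩
      exact ⟨(h1 x hb).1 ha, hb⟩
    · rintro ⟨ha, hb⟩
      exact ⟨(h1 x hb).2 ha, hb⟩
  have e1 := Finset.card_filter_add_card_filter_not (s := T) (fun s => s ≤ m)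
  have e2 := Finset.card_filter_add_card_filter_not (s := T') (fun s => s ≤ m)
  rw [← hA] at e2
  have hlen : l.length = l'.length := by omega
  have hml : ∀ s ∈ l, s ∈ T ∧ m < s := by
    intro s hs
    have h3 : s ∈ l.toFinset := List.mem_toFinset.2 hs
    rw [hlB, Finset.mem_filter] at h3
    exact ⟨h3.1, by omega⟩
  have hml' : ∀ s ∈ l', s ∈ T' ∧ m < s := by
    intro s hs
    have h3 : s ∈ l'.toFinset := List.mem_toFinset.2 hs
    rw [hlB', Finset.mem_filter] at h3
    exact ⟨h3.1, by omega⟩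
  have hT : T = l.toFinset ∪ T.filter (fun s => s ≤ m) := by
    rw [hlB]
    ext x
    rw [Finset.mem_union, Finset.mem_filter, Finset.mem_filter]
    constructor
    · intro h
      by_cases hx : x ≤ m
      · exact Or.inr ⟨h, hx⟩
      · exact Or.inl ⟨h, hx⟩
    · rintro (h | h)
      · exact h.1
      · exact h.1
  have hT' : T' = l'.toFinset ∪ T.filter (fun s => s ≤ m) := by
    rw [hlB', hA]
    ext x
    rw [Finset.mem_union, Finset.mem_filter, Finset.mem_filter]
    constructor
    · intro h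
      by_cases hx : x ≤ m
      · exact Or.inr ⟨h, hx⟩
      · exact Or.inl ⟨h, hx⟩
    · rintro (h | h)
      · exact h.1
      · exact h.1
  obtain ⟨M, hM⟩ := (T ∪ T').bddAbove
  have hM1 : ∀ s, s ∈ T ∨ s ∈ T' → s ≤ M := by
    intro s hs
    refine hM ?_
    rw [Finset.mem_coe, Finset.mem_union]
    exact hs
  obtain ⟨Q, hQ⟩ : ∃ Q : ℤ, Q = |M| + 2 + 2 * l.length := ⟨_, rfl⟩
  have hab := le_abs_self M
  have hab0 := abs_nonneg M
  have hQl : ∀ s ∈ l, s + 2 < 2 * (Q - 2 * l.length) := by
    intro s hs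
    have := hM1 s (Or.inl (hml s hs).1)
    omega
  have hQl' : ∀ s ∈ l', s + 2 < 2 * (Q - 2 * l'.length) := by
    intro s hs
    have := hM1 s (Or.inr (hml' s hs).1)
    rw [← hlen]
    omega
  have hc := can_path l Q (T.filter fun s => s ≤ m) hl hQl (fun u hu => Or.inr fun s hs => by
    have h4 := (hml s hs).2
    have h5 := (Finset.mem_filter.1 hu).2
    omega)
  have hc' := can_path l' Q (T.filter fun s => s ≤ m) hl' hQl' (fun u hu => Or.inr fun s hs => by
    have h4 := (hml' s hs).2
    have h5 := (Finset.mem_filter.1 hu).2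
    omega)
  rw [← hT] at hc
  rw [← hT'] at hc'
  rw [← hlen, ← hc.2] at hc'
  refine ⟨canL Q l ++ (canL Q l').reverse, ppath_append.2 ⟨hc.1, ?_⟩, ?_, ?_⟩
  · rw [← hc'.2]
    exact hc'.1.rev
  · rw [run_append, ← hc'.2, run_rev]
  · intro f hf
    rcases List.mem_append.1 hf with h | h
    · exact can_supp l Q m hQl (fun s hs => (hml s hs).2) f h
    · exact can_supp l' Q m hQl' (fun s hs => (hml' s hs).2) f (List.mem_reverse.1 h)

theorem conn {T T' : Finset ℤ} (h : T.card = T'.card) : ∃ p, PPath T p ∧ run T p = T' := by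
  obtain ⟨M, hM⟩ := (T ∪ T').bddBelow
  have hM1 : ∀ s, s ∈ T ∨ s ∈ T' → M ≤ s := by
    intro s hs
    refine hM ?_
    rw [Finset.mem_coe, Finset.mem_union]
    exact hs
  obtain ⟨p, hp1, hp2, _⟩ := conn_above (T := T) (T' := T') (M - 1) (fun x hx => by
    constructor
    · intro hx'
      have := hM1 x (Or.inl hx')
      omega
    · intro hx'
      have := hM1 x (Or.inr hx')
      omega) h
  exact ⟨p, hp1, hp2⟩

end Pool.Agent.Lib.MP_dd2c10_prF
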