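import Pool.Agent.Lib.MP_dd2c10_prF.EvF

/-! JOB Dec (MP_dd2c10_pr): every word is equivalent to a word with the same diagram all of whose edges have at most one piece.

PROOFS.
* `simple_append`, `simple_of_ppath`: induction. `simple_rev`: induction on `w` (generalizing `T`): `(e :: w).reverse = w.reverse ++ [e]`, `run_rev`,
  `out_rev`, and `(rinv u).length = u.length`.
* `dec_cup`: `n, n + 2 ∉ T`, `n + 1 ∈ T`. Let `T'` be `T` with all strands above `n + 2` moved above `n + 4`:
  `T' = T.filter (· ≤ n + 2) ∪ (T.filter (n + 2 < ·)).image (· + 2)` (same cardinality), `p` the planar path above `n + 2` from `conn_above`. Then, with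
  `e = Y n`: `[e] ~ e :: (p ++ p.reverse) ~ p ++ (e :: p.reverse)` (`PPath.cancel` at the state `act T e`, where `p` is planar too by `ppath_congr_above`;
  `comm_word`). At `T'` (`n + 3`, `n + 4` empty): `e :: w ~ Y (n + 2) :: Y n :: Y (n + 2) :: w`: insert `[Y (n + 2), Y (n + 2)]` after `e` (`LEq.cancel`, symm:
  `n + 2` occupied after `e`, `n + 4` empty) and swap the first two (`LEq.swap`, common vertex `n + 2 ∉ T'`). Put
  `w = p ++ [Y (n + 2), Y n, Y (n + 2)] ++ p.reverse` (the last `p.reverse` starts at `act T' e`). Its diagram: `p`: nothing (`PPath.scan_eq`). `Y (n + 2)` at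
  `T'`: `cup (rank + 1)` (`n + 2, n + 3, n + 4` empty, `rank T' (n + 2) = rank T n + 1`). Then `Y n`: the strands `n + 1`, `n + 2` cross: `cross (rank) !p'`
  (`p' = decide (n % 2 = 1)`). Then `Y (n + 2)`: planar, nothing. This is `out T (Y n) = [cup (r + 1), cross r !p']`.
* `dec1`: if `(out T e).length ≤ 1` take `[e]`. Otherwise `e = Y n`, `n + 1 ∈ T` and `n, n + 2` both or none in `T` (cases). None: `dec_cup`. Both: apply
  `dec_cup` at `act T e` to get `w`, then take `w.reverse`: `LEq.rev`, `scan_rev`, `simple_rev`, `out_rev`, `rinv_rinv`.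
* `dec`: induction on `w`: `e :: w ~ w₁ ++ w'` with `w₁` from `dec1` and `w'` from the induction hypothesis at `act T e = run T w₁` (`LEq.run_eq`);
  `scan_append`, `simple_append`. -/

namespace Pool.Agent.Lib.MP_dd2c10_prF

open Gen Ed

/-- Every edge of the word has at most one piece. -/
def Simple (T : Finset ℤ) : List Ed → Prop
  | [] => True
  | e :: w => (out T e).length ≤ 1 ∧ Simple (act T e) w

theorem simple_append {T : Finset ℤ} {u v : List Ed} : Simple T (u ++ v) ↔ Simple T u ∧ Simple (run T u) v := by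
  induction u generalizing T with
  | nil =>
    rw [List.nil_append, run_nil]
    exact ⟨fun h => ⟨trivial, h⟩, fun h => h.2⟩
  | cons e u ih =>
    rw [List.cons_append, run_cons]
    change ((out T e).length ≤ 1 ∧ Simple (act T e) (u ++ v)) ↔
      ((out T e).length ≤ 1 ∧ Simple (act T e) u) ∧ Simple (run (act T e) u) v
    rw [ih, and_assoc]

theorem simple_of_ppath {T : Finset ℤ} {p : List Ed} (h : PPath T p) : Simple T p := by
  induction p generalizing T with
  | nil => trivial
  | cons e p ih =>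
    refine ⟨?_, ih h.2⟩
    rw [out_nil_iff.2 h.1, List.length_nil]
    omega

theorem simple_rev {T : Finset ℤ} {w : List Ed} (h : Simple T w) : Simple (run T w) w.reverse := by
  induction w generalizing T with
  | nil => trivial
  | cons e w ih =>
    rw [List.reverse_cons, run_cons, simple_append, run_rev]
    refine ⟨ih h.2, ?_, trivial⟩
    rw [out_rev]
    unfold rinv
    rw [List.length_reverse, List.length_map]
    exact h.1

private theorem Dec_out {T : Finset ℤ} {n : ℤ} {x m z : Bool} (h0 : decide (n ∈ T) = x)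
    (h1 : decide (n + 1 ∈ T) = m) (h2 : decide (n + 2 ∈ T) = z) :
    out T (Y n) = sh (rank T n) (locY (decide (n % 2 = 1)) x m z) := by
  subst h0
  subst h1
  subst h2
  rfl

theorem dec_cup {T : Finset ℤ} {n : ℤ} (h0 : n ∉ T) (h1 : n + 1 ∈ T) (h2 : n + 2 ∉ T) :
    ∃ w, LEq T [Y n] w ∧ scan T w = out T (Y n) ∧ Simple T w := by
  obtain ⟨T', hT'⟩ : ∃ T' : Finset ℤ, T' = T.filter (fun s => s ≤ n + 2) ∪
      (T.filter (fun s => ¬ s ≤ n + 2)).image (· + 2) := ⟨_, rfl⟩
  have hmem : ∀ x, x ∈ T' ↔ (x ≤ n + 2 ∧ x ∈ T) ∨ (n + 4 < x ∧ x - 2 ∈ T) := by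
    intro x
    rw [hT', Finset.mem_union, Finset.mem_filter, Finset.mem_image]
    constructor
    · rintro (⟨ha, hb⟩ | ⟨y, hy, hyx⟩)
      · exact Or.inl ⟨hb, ha⟩
      · have h3 := Finset.mem_filter.1 hy
        have h4 : y + 2 = x := hyx
        have h5 : x - 2 = y := by omega
        refine Or.inr ⟨by omega, ?_⟩
        rw [h5]
        exact h3.1
    · rintro (⟨ha, hb⟩ | ⟨ha, hb⟩)
      · exact Or.inl ⟨hb, ha⟩
      · refine Or.inr ⟨x - 2, Finset.mem_filter.2 ⟨hb, by omega⟩, ?_⟩
        omega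
  have hcard : T.card = T'.card := by
    have e1 := Finset.card_filter_add_card_filter_not (s := T) (fun s => s ≤ n + 2)
    rw [hT', Finset.card_union_of_disjoint, Finset.card_image_of_injective _ (add_left_injective 2)]
    · omega
    · rw [Finset.disjoint_left]
      intro x hx hx'
      obtain ⟨y, hy, hyx⟩ := Finset.mem_image.1 hx'
      have h3 := (Finset.mem_filter.1 hy).2
      have h4 := (Finset.mem_filter.1 hx).2
      have h5 : y + 2 = x := hyx
      omega
  have hlow : ∀ x ≤ n + 2, (x ∈ T ↔ x ∈ T') := by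
    intro x hx
    rw [hmem]
    constructor
    · exact fun h => Or.inl ⟨hx, h⟩
    · rintro (⟨_, h⟩ | ⟨h, _⟩)
      · exact h
      · omega
  obtain ⟨p, hp, hpT, hpa⟩ := conn_above (n + 2) hlow hcard
  have hp' : PPath (act T (Y n)) p := by
    refine ppath_congr_above (m := n + 2) (T := T) (fun x hx => ?_) hpa hp
    have e1 : ¬ x = n := by omega
    have e2 : ¬ x = n + 2 := by omega
    rw [mem_act, a_Y, b_Y]
    tauto
  have t0 : n ∉ T' := fun h => h0 ((hlow n (by omega)).2 h)
  have t1 : n + 1 ∈ T' := (hlow (n + 1) (by omega)).1 h1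
  have t2 : n + 2 ∉ T' := fun h => h2 ((hlow (n + 2) (by omega)).2 h)
  have t3 : n + 3 ∉ T' := by
    rw [hmem]
    rintro (⟨h, _⟩ | ⟨h, _⟩) <;> omega
  have t4 : n + 4 ∉ T' := by
    rw [hmem]
    rintro (⟨h, _⟩ | ⟨h, _⟩) <;> omega
  have hrun : run (act T (Y n)) p = act T' (Y n) := by rw [run_act, hpT]
  have hqr : PPath (act T' (Y n)) p.reverse := by
    rw [← hrun]
    exact hp'.rev
  -- the word
  have g1 : LEq T [Y n] (Y n :: (p ++ p.reverse)) := LEq.cons (Y n) hp'.cancel.symm
  have g2 : LEq T (Y n :: (p ++ p.reverse)) (p ++ (Y n :: p.reverse)) := by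
    have h3 : LEq T (Y n :: p) (p ++ [Y n]) := comm_word (Y n) p fun f hf => by
      have h4 := hpa f hf
      have h5 := f.a_lt_b
      refine ⟨?_, ?_, ?_, ?_⟩ <;> simp only [a_Y, b_Y] <;> omega
    have h6 := h3.right p.reverse
    rw [List.append_assoc, List.singleton_append] at h6
    exact h6
  have g3 : LEq T' (Y n :: p.reverse) (Y n :: Y (n + 2) :: Y (n + 2) :: p.reverse) := by
    refine LEq.cons (Y n) (LEq.cancel (Y (n + 2)) p.reverse ?_).symm
    have k1 : n + 2 ∈ act T' (Y n) := by
      rw [mem_act, a_Y, b_Y]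
      tauto
    have k2 : n + 2 + 2 ∉ act T' (Y n) := by
      have e1 : ¬ n + 2 + 2 = n := by omega
      have e2 : ¬ n + 2 + 2 = n + 2 := by omega
      have e3 : ¬ n + 2 + 2 ∈ T' := by
        rw [show n + 2 + 2 = n + 4 by omega]
        exact t4
      rw [mem_act, a_Y, b_Y]
      tauto
    rw [a_Y, b_Y]
    exact ⟨fun _ => k2, fun _ => k1⟩
  have g4 : LEq T' (Y n :: Y (n + 2) :: Y (n + 2) :: p.reverse) (Y (n + 2) :: Y n :: Y (n + 2) :: p.reverse) := by
    refine LEq.swap (Y n) (Y (n + 2)) _ fun v hv hv' => ?_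
    rw [a_Y, b_Y] at hv hv'
    have hv2 : v = n + 2 := by omega
    rw [hv2]
    exact t2
  have g5 : LEq T (p ++ (Y n :: p.reverse)) (p ++ (Y (n + 2) :: Y n :: Y (n + 2) :: p.reverse)) := by
    refine LEq.left p ?_
    rw [hpT]
    exact g3.trans g4
  -- the diagram
  obtain ⟨S1, hS1⟩ : ∃ S1, S1 = act T' (Y (n + 2)) := ⟨_, rfl⟩
  obtain ⟨S2, hS2⟩ : ∃ S2, S2 = act S1 (Y n) := ⟨_, rfl⟩
  have hm1 : ∀ x, x ∈ S1 ↔ ¬ (x ∈ T' ↔ (x = n + 2 ∨ x = n + 4)) := by
    intro x
    have e1 : (x = n + 2 + 2) ↔ (x = n + 4) := by omega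
    rw [hS1, mem_act, a_Y, b_Y, e1]
  have hm2 : ∀ x, x ∈ S2 ↔ ¬ (x ∈ S1 ↔ (x = n ∨ x = n + 2)) := by
    intro x
    rw [hS2, mem_act, a_Y, b_Y]
  have hS3 : act S2 (Y (n + 2)) = act T' (Y n) := by
    rw [hS2, hS1, act_comm, act_act]
  have s10 : n ∉ S1 := by
    rw [hm1]
    have e1 : ¬ n = n + 2 := by omega
    have e2 : ¬ n = n + 4 := by omega
    tauto
  have s11 : n + 1 ∈ S1 := by
    rw [hm1]
    have e1 : ¬ n + 1 = n + 2 := by omega
    have e2 : ¬ n + 1 = n + 4 := by omega
    tauto
  have s12 : n + 2 ∈ S1 := by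
    rw [hm1]
    tauto
  have s13 : n + 3 ∉ S1 := by
    rw [hm1]
    have e1 : ¬ n + 3 = n + 2 := by omega
    have e2 : ¬ n + 3 = n + 4 := by omega
    tauto
  have s14 : n + 4 ∈ S1 := by
    rw [hm1]
    tauto
  have s22 : n + 2 ∉ S2 := by
    rw [hm2]
    tauto
  have s23 : n + 3 ∉ S2 := by
    rw [hm2]
    have e1 : ¬ n + 3 = n := by omega
    have e2 : ¬ n + 3 = n + 2 := by omega
    tauto
  have s24 : n + 4 ∈ S2 := by
    rw [hm2]
    have e1 : ¬ n + 4 = n := by omega
    have e2 : ¬ n + 4 = n + 2 := by omega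
    tauto
  have r0 : rank T' n = rank T n := rank_congr fun s hs => (hlow s (by omega)).symm
  have r2 : rank T' (n + 2) = rank T n + 1 := by
    rw [show n + 2 = (n + 1) + 1 by omega, rank_succ, rank_succ, r0, decide_eq_false t0, decide_eq_true t1]
    rfl
  have r1 : rank S1 n = rank T n := by
    rw [← r0]
    refine rank_congr fun s hs => ?_
    rw [hm1]
    have e1 : ¬ s = n + 2 := by omega
    have e2 : ¬ s = n + 4 := by omega
    tauto
  have o1 : out T' (Y (n + 2)) = [cup (rank T n + 1)] := by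
    rw [Dec_out (x := false) (m := false) (z := false) (decide_eq_false t2)
      (decide_eq_false (by rw [show n + 2 + 1 = n + 3 by omega]; exact t3))
      (decide_eq_false (by rw [show n + 2 + 2 = n + 4 by omega]; exact t4)), r2]
    simp only [locY, sh_cons, sh_nil, Gen.move, Gen.pos, Nat.zero_add]
  have o2 : out S1 (Y n) = [cross (rank T n) !decide (n % 2 = 1)] := by
    rw [Dec_out (x := false) (m := true) (z := true) (decide_eq_false s10) (decide_eq_true s11)
      (decide_eq_true s12), r1]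
    simp only [locY, sh_cons, sh_nil, Gen.move, Gen.pos, Nat.zero_add]
  have o3 : out S2 (Y (n + 2)) = [] := by
    rw [Dec_out (x := false) (m := false) (z := true) (decide_eq_false s22)
      (decide_eq_false (by rw [show n + 2 + 1 = n + 3 by omega]; exact s23))
      (decide_eq_true (by rw [show n + 2 + 2 = n + 4 by omega]; exact s24))]
    rfl
  have o : out T (Y n) = [cup (rank T n + 1), cross (rank T n) !decide (n % 2 = 1)] := by
    rw [Dec_out (x := false) (m := true) (z := false) (decide_eq_false h0) (decide_eq_true h1)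
      (decide_eq_false h2)]
    simp only [locY, sh_cons, sh_nil, Gen.move, Gen.pos, Nat.zero_add, Nat.add_comm]
  refine ⟨p ++ (Y (n + 2) :: Y n :: Y (n + 2) :: p.reverse), g1.trans (g2.trans g5), ?_, ?_⟩
  · rw [scan_append, hp.scan_eq, hpT, scan_cons, scan_cons, scan_cons, ← hS1, ← hS2, hS3, hqr.scan_eq, o1, o2, o3, o]
    rfl
  · rw [simple_append, hpT]
    refine ⟨simple_of_ppath hp, ?_, ?_, ?_, ?_⟩
    · rw [o1]
      exact le_rfl
    · rw [← hS1, o2]
      exact le_rfl
    · rw [← hS1, ← hS2, o3]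
      exact Nat.zero_le _
    · rw [← hS1, ← hS2, hS3]
      exact simple_of_ppath hqr

theorem dec1 (T : Finset ℤ) (e : Ed) : ∃ w, LEq T [e] w ∧ scan T w = out T e ∧ Simple T w := by
  by_cases hle : (out T e).length ≤ 1
  · refine ⟨[e], LEq.refl _, ?_, hle, trivial⟩
    rw [scan_cons, scan_nil, List.append_nil]
  · cases e with
    | Z y =>
      exfalso
      apply hle
      change (sh _ (locZ (decide (2 * y ∈ T)) (decide (2 * y + 1 ∈ T)))).length ≤ 1
      unfold sh
      rw [List.length_map]
      cases decide (2 * y ∈ T) <;> cases decide (2 * y + 1 ∈ T) <;> simp [locZ]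
    | Y n =>
      have hlen : ∀ p x m z : Bool, ¬ (locY p x m z).length ≤ 1 →
          m = true ∧ ((x = false ∧ z = false) ∨ (x = true ∧ z = true)) := by
        decide
      have h3 : ¬ (locY (decide (n % 2 = 1)) (decide (n ∈ T)) (decide (n + 1 ∈ T)) (decide (n + 2 ∈ T))).length ≤ 1 := by
        intro h
        apply hle
        change (sh _ (locY (decide (n % 2 = 1)) (decide (n ∈ T)) (decide (n + 1 ∈ T)) (decide (n + 2 ∈ T)))).length ≤ 1
        unfold sh
        rw [List.length_map]
        exact h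
      obtain ⟨hm, hx⟩ := hlen _ _ _ _ h3
      have hm1 := of_decide_eq_true hm
      rcases hx with ⟨hx, hz⟩ | ⟨hx, hz⟩
      · exact dec_cup (of_decide_eq_false hx) hm1 (of_decide_eq_false hz)
      · have hx1 := of_decide_eq_true hx
        have hz1 := of_decide_eq_true hz
        have a0 : n ∉ act T (Y n) := by
          rw [mem_act, a_Y, b_Y]
          tauto
        have a1 : n + 1 ∈ act T (Y n) := by
          have e1 : ¬ n + 1 = n := by omega
          have e2 : ¬ n + 1 = n + 2 := by omega
          rw [mem_act, a_Y, b_Y]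
          tauto
        have a2 : n + 2 ∉ act T (Y n) := by
          rw [mem_act, a_Y, b_Y]
          tauto
        obtain ⟨w, hw1, hw2, hw3⟩ := dec_cup a0 a1 a2
        have hr : run (act T (Y n)) w = T := by
          rw [← hw1.run_eq, run_cons, run_nil, act_act]
        refine ⟨w.reverse, ?_, ?_, ?_⟩
        · have h4 := hw1.rev
          rw [run_cons, run_nil, act_act] at h4
          exact h4
        · have h4 := scan_rev (act T (Y n)) w
          rw [hr, hw2, out_rev, rinv_rinv] at h4
          exact h4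
        · have h4 := simple_rev hw3
          rw [hr] at h4
          exact h4

theorem dec (T : Finset ℤ) (w : List Ed) : ∃ w', LEq T w w' ∧ scan T w' = scan T w ∧ Simple T w' := by
  induction w generalizing T with
  | nil => exact ⟨[], LEq.refl _, rfl, trivial⟩
  | cons e w ih =>
    obtain ⟨w₁, h1, h2, h3⟩ := dec1 T e
    obtain ⟨w', i1, i2, i3⟩ := ih (act T e)
    have hr : run T w₁ = act T e := by
      rw [← h1.run_eq, run_cons, run_nil]
    refine ⟨w₁ ++ w', (LEq.cons e i1).trans (h1.right w'), ?_, ?_⟩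
    · rw [scan_append, hr, h2, i2, scan_cons]
    · rw [simple_append, hr]
      exact ⟨h3, i3⟩

end Pool.Agent.Lib.MP_dd2c10_prF
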