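import Pool.Agent.Lib.MP_dd2c10_prF.Words

/-!
# Link diagrams in the plane as words, modulo planar isotopy and the Reidemeister moves I and II

A diagram is drawn from left to right. At every moment there are `k` strands, which are numbered `0, 1, ..., k - 1` from
below. The elementary pieces are: a cup (two new strands `i`, `i + 1` are born, joined at their left ends), a cap (the
strands `i`, `i + 1` end, joined at their right ends) and a crossing of the strands `i` and `i + 1`.
-/

namespace Pool.Agent.Lib.MP_dd2c10_prF

open Gen

instance (k : ℕ) (g : Gen) : Decidable (g.Ok k) := by unfold Gen.Ok; infer_instance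

instance (k : ℕ) (w : List Gen) : Decidable (Valid k w) := by
  induction w generalizing k with
  | nil => exact isTrue trivial
  | cons g w ih =>
    unfold Valid
    have := ih (next k g)
    infer_instance

@[simp] theorem endk_nil (k : ℕ) : endk k [] = k := rfl

@[simp] theorem endk_cons (k : ℕ) (g : Gen) (w : List Gen) : endk k (g :: w) = endk (next k g) w := rfl

theorem endk_append (k : ℕ) (u v : List Gen) : endk k (u ++ v) = endk (endk k u) v := by
  unfold endk
  rw [List.foldl_append]

theorem valid_append {k : ℕ} {u v : List Gen} : Valid k (u ++ v) ↔ Valid k u ∧ Valid (endk k u) v := by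
  induction u generalizing k with
  | nil => simp [Valid]
  | cons g u ih =>
    rw [List.cons_append, endk_cons]
    show (g.Ok k ∧ Valid (next k g) (u ++ v)) ↔ (g.Ok k ∧ Valid (next k g) u) ∧ Valid (endk (next k g) u) v
    rw [ih, and_assoc]

@[simp] theorem sh_nil (m : ℕ) : sh m [] = [] := rfl

@[simp] theorem sh_cons (m : ℕ) (g : Gen) (w : List Gen) : sh m (g :: w) = g.move (g.pos + m) :: sh m w := rfl

theorem sh_append (m : ℕ) (u v : List Gen) : sh m (u ++ v) = sh m u ++ sh m v := List.map_append

@[simp] theorem pos_move (j : ℕ) (g : Gen) : (g.move j).pos = j := by cases g <;> rfl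

@[simp] theorem ins_move (j : ℕ) (g : Gen) : (g.move j).ins = g.ins := by cases g <;> rfl

@[simp] theorem outs_move (j : ℕ) (g : Gen) : (g.move j).outs = g.outs := by cases g <;> rfl

@[simp] theorem move_move (j l : ℕ) (g : Gen) : (g.move j).move l = g.move l := by cases g <;> rfl

@[simp] theorem move_pos (g : Gen) : g.move g.pos = g := by cases g <;> rfl

@[simp] theorem next_move (k j : ℕ) (g : Gen) : next k (g.move j) = next k g := by
  unfold next
  rw [ins_move, outs_move]

theorem sh_sh (m l : ℕ) (w : List Gen) : sh m (sh l w) = sh (l + m) w := by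
  unfold sh
  rw [List.map_map]
  refine List.map_congr_left fun g _ => ?_
  simp only [Function.comp, pos_move, move_move]
  rw [add_assoc]

@[simp] theorem sh_zero (w : List Gen) : sh 0 w = w := by
  unfold sh
  conv_rhs => rw [← List.map_id w]
  exact List.map_congr_left fun g _ => by simp

theorem next_add {k : ℕ} {g : Gen} (h : g.ins ≤ k) (m : ℕ) : next (m + k) g = m + next k g := by
  unfold next
  omega

theorem next_add' {k : ℕ} {g : Gen} (h : g.ins ≤ k) (m : ℕ) : next (k + m) g = next k g + m := by
  unfold next
  omega

theorem Gen.Ok.ins_le {k : ℕ} {g : Gen} (h : g.Ok k) : g.ins ≤ k := by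
  unfold Gen.Ok at h
  omega

theorem endk_sh {k : ℕ} {w : List Gen} (h : Valid k w) (m : ℕ) : endk (k + m) (sh m w) = endk k w + m := by
  induction w generalizing k with
  | nil => rfl
  | cons g w ih =>
    rw [sh_cons, endk_cons, endk_cons, next_move, next_add' h.1.ins_le, ih h.2]

theorem endk_add {k : ℕ} {w : List Gen} (h : Valid k w) (m : ℕ) : endk (k + m) w = endk k w + m := by
  induction w generalizing k with
  | nil => rfl
  | cons g w ih =>
    rw [endk_cons, endk_cons, next_add' h.1.ins_le, ih h.2]

theorem valid_sh {k : ℕ} {w : List Gen} (h : Valid k w) (m : ℕ) : Valid (k + m) (sh m w) := by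
  induction w generalizing k with
  | nil => trivial
  | cons g w ih =>
    refine ⟨?_, ?_⟩
    · have := h.1
      unfold Gen.Ok at this ⊢
      rw [pos_move, ins_move]
      omega
    · rw [next_move, next_add' h.1.ins_le]
      exact ih h.2

theorem valid_add {k : ℕ} {w : List Gen} (h : Valid k w) (m : ℕ) : Valid (k + m) w := by
  induction w generalizing k with
  | nil => trivial
  | cons g w ih =>
    refine ⟨?_, ?_⟩
    · have := h.1
      unfold Gen.Ok at this ⊢
      omega
    · rw [next_add' h.1.ins_le]
      exact ih h.2

/-- The rules do not change the number of strands at the end. -/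
theorem Rule.endk {k : ℕ} {u v : List Gen} (h : Rule k u v) : u.foldl next k = v.foldl next k := by
  cases h with
  | far g h h1 h2 =>
    simp only [List.foldl_cons, List.foldl_nil, next_move]
    unfold next
    omega
  | zig i h => simp only [List.foldl_cons, List.foldl_nil, next, outs, ins]; omega
  | zag i h => simp only [List.foldl_cons, List.foldl_nil, next, outs, ins]; omega
  | slideCup i b h => rfl
  | slideCap i b h => rfl
  | r1 i b h => simp only [List.foldl_cons, List.foldl_nil, next, outs, ins]; omega
  | r1' i b h => simp only [List.foldl_cons, List.foldl_nil, next, outs, ins]; omega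
  | r2 i b h => simp only [List.foldl_cons, List.foldl_nil, next, outs, ins]; omega

/-- More strands below. -/
theorem Rule.shift {k : ℕ} {u v : List Gen} (h : Rule k u v) (m : ℕ) : Rule (k + m) (sh m u) (sh m v) := by
  cases h with
  | far g h h1 h2 =>
    have e : sh m [g, h.move (h.pos + g.outs - g.ins)] =
        [g.move (g.pos + m), (h.move (h.pos + m)).move ((h.move (h.pos + m)).pos + (g.move (g.pos + m)).outs - (g.move (g.pos + m)).ins)] := by
      simp only [sh_cons, sh_nil, pos_move, move_move, outs_move, ins_move]
      rw [show h.pos + g.outs - g.ins + m = h.pos + m + g.outs - g.ins by omega]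
    rw [e]
    exact Rule.far _ _ (by simp only [pos_move, ins_move]; omega) (by simp only [pos_move, ins_move]; omega)
  | zig i h =>
    have := Rule.zig (k := k + m) (i + m) (by omega)
    rwa [show i + m + 1 = i + 1 + m by omega] at this
  | zag i h =>
    have := Rule.zag (k := k + m) (i + m) (by omega)
    rwa [show i + m + 1 = i + 1 + m by omega] at this
  | slideCup i b h =>
    have := Rule.slideCup (k := k + m) (i + m) b (by omega)
    rwa [show i + m + 1 = i + 1 + m by omega] at this
  | slideCap i b h =>
    have := Rule.slideCap (k := k + m) (i + m) b (by omega)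
    rwa [show i + m + 1 = i + 1 + m by omega] at this
  | r1 i b h => exact Rule.r1 (k := k + m) (i + m) b (by omega)
  | r1' i b h => exact Rule.r1' (k := k + m) (i + m) b (by omega)
  | r2 i b h => exact Rule.r2 (k := k + m) (i + m) b (by omega)

/-- More strands above. -/
theorem Rule.mono {k l : ℕ} {u v : List Gen} (h : Rule k u v) (hkl : k ≤ l) : Rule l u v := by
  cases h with
  | far g h h1 h2 => exact Rule.far g h h1 (by omega)
  | zig i h => exact Rule.zig i (by omega)
  | zag i h => exact Rule.zag i (by omega)
  | slideCup i b h => exact Rule.slideCup i b (by omega)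
  | slideCap i b h => exact Rule.slideCap i b (by omega)
  | r1 i b h => exact Rule.r1 i b (by omega)
  | r1' i b h => exact Rule.r1' i b (by omega)
  | r2 i b h => exact Rule.r2 i b (by omega)

namespace MEq

theorem endk_eq {k : ℕ} {u v : List Gen} (h : MEq k u v) : endk k u = endk k v :=
  WEq.run_eq (fun _ _ _ h => h.endk) h

end MEq

/-- Pieces in the lower `q` strands and pieces in the upper strands change places. -/
theorem interchange_one {q k : ℕ} (g h : Gen) (hg : g.Ok q) (hh : h.Ok k) :
    MEq (q + k) [g, h.move (h.pos + next q g)] [h.move (h.pos + q), g] := by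
  have h1 : Rule (q + k) [g, (h.move (h.pos + q)).move ((h.move (h.pos + q)).pos + g.outs - g.ins)]
      [h.move (h.pos + q), g] := by
    unfold Gen.Ok at hg hh
    exact Rule.far g (h.move (h.pos + q)) (by rw [pos_move]; omega) (by rw [pos_move, ins_move]; omega)
  rw [pos_move, move_move] at h1
  have h2 : h.pos + next q g = h.pos + q + g.outs - g.ins := by
    have := hg.ins_le
    unfold next
    omega
  rw [h2]
  exact WEq.rule h1

theorem interchange_left {q k : ℕ} (g : Gen) (v : List Gen) (hg : g.Ok q) (hv : Valid k v) :
    MEq (q + k) (g :: sh (next q g) v) (sh q v ++ [g]) := by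
  induction v generalizing k with
  | nil => exact WEq.refl _
  | cons h v ih =>
    have h1 : MEq (q + k) ([g, h.move (h.pos + next q g)] ++ sh (next q g) v)
        ([h.move (h.pos + q), g] ++ sh (next q g) v) := (interchange_one g h hg hv.1).right _
    have h2 : MEq (q + k) (h.move (h.pos + q) :: (g :: sh (next q g) v))
        (h.move (h.pos + q) :: (sh q v ++ [g])) := by
      refine WEq.cons _ ?_
      rw [next_move, next_add hv.1.ins_le]
      exact ih hv.2
    exact h1.trans h2

/-- The interchange law. -/
theorem interchange {q k : ℕ} (u v : List Gen) (hu : Valid q u) (hv : Valid k v) :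
    MEq (q + k) (u ++ sh (endk q u) v) (sh q v ++ u) := by
  induction u generalizing q with
  | nil =>
    rw [endk_nil, List.nil_append, List.append_nil]
    exact WEq.refl _
  | cons g u ih =>
    have h1 : MEq (q + k) (g :: (u ++ sh (endk (next q g) u) v)) (g :: (sh (next q g) v ++ u)) := by
      refine WEq.cons _ ?_
      rw [next_add' hu.1.ins_le]
      exact ih hu.2
    have h2 : MEq (q + k) ((g :: sh (next q g) v) ++ u) ((sh q v ++ [g]) ++ u) :=
      (interchange_left g v hu.1 hv).right _
    rw [List.append_assoc, List.singleton_append] at h2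
    exact h1.trans h2

/-- Both sides of a rule make sense. -/
theorem Rule.valid {k : ℕ} {u v : List Gen} (h : Rule k u v) : Valid k u ∧ Valid k v := by
  cases h with
  | far g h h1 h2 =>
    refine ⟨⟨?_, ?_, trivial⟩, ⟨?_, ?_, trivial⟩⟩ <;>
      simp only [Gen.Ok, pos_move, ins_move, next] <;> omega
  | zig i h => refine ⟨⟨?_, ?_, trivial⟩, trivial⟩ <;> simp only [Gen.Ok, pos, ins, outs, next] <;> omega
  | zag i h => refine ⟨⟨?_, ?_, trivial⟩, trivial⟩ <;> simp only [Gen.Ok, pos, ins, outs, next] <;> omega
  | slideCup i b h =>
    refine ⟨⟨?_, ?_, trivial⟩, ⟨?_, ?_, trivial⟩⟩ <;> simp only [Gen.Ok, pos, ins, outs, next] <;> omega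
  | slideCap i b h =>
    refine ⟨⟨?_, ?_, trivial⟩, ⟨?_, ?_, trivial⟩⟩ <;> simp only [Gen.Ok, pos, ins, outs, next] <;> omega
  | r1 i b h => refine ⟨⟨?_, ?_, trivial⟩, ⟨?_, trivial⟩⟩ <;> simp only [Gen.Ok, pos, ins, outs, next] <;> omega
  | r1' i b h => refine ⟨⟨?_, ?_, trivial⟩, ⟨?_, trivial⟩⟩ <;> simp only [Gen.Ok, pos, ins, outs, next] <;> omega
  | r2 i b h => refine ⟨⟨?_, ?_, trivial⟩, trivial⟩ <;> simp only [Gen.Ok, pos, ins, outs, next] <;> omega

theorem valid_step {k : ℕ} {u v : List Gen} (h : WStep next Rule k u v) : Valid k u ↔ Valid k v := by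
  obtain ⟨a, u', v', b, rfl, rfl, h⟩ := h
  have h1 : endk (endk k a) u' = endk (endk k a) v' := h.endk
  rw [valid_append, valid_append, valid_append, valid_append, endk_append, endk_append, h1]
  have h2 := h.valid
  have h3 : Valid (endk k a) u' := h2.1
  have h4 : Valid (endk k a) v' := h2.2
  tauto

theorem MEq.valid_iff {k : ℕ} {u v : List Gen} (h : MEq k u v) : Valid k u ↔ Valid k v := by
  induction h with
  | rel u v h => exact valid_step h
  | refl u => exact Iff.rfl
  | symm u v _ ih => exact ih.symm
  | trans u v w _ _ ih1 ih2 => exact ih1.trans ih2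

/-- Equivalent words stay equivalent if there are `m` more strands below. -/
theorem MEq.shift {k : ℕ} {u v : List Gen} (h : MEq k u v) (hu : Valid k u) (m : ℕ) :
    MEq (k + m) (sh m u) (sh m v) := by
  refine (WEq.map (Valid k) (sh m) (fun _ _ => valid_step) ?_ h hu).2
  rintro w w' hw ⟨a, u', v', b, rfl, rfl, h⟩
  rw [sh_append, sh_append, sh_append, sh_append]
  refine Relation.EqvGen.rel _ _ ⟨sh m a, sh m u', sh m v', sh m b, rfl, rfl, ?_⟩
  have h1 : (sh m a).foldl next (k + m) = endk k a + m :=
    endk_sh (valid_append.1 (valid_append.1 hw).1).1 m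
  rw [h1]
  exact h.shift m

/-- Equivalent words stay equivalent if there are `m` more strands above. -/
theorem MEq.mono {k : ℕ} {u v : List Gen} (h : MEq k u v) (hu : Valid k u) (m : ℕ) : MEq (k + m) u v := by
  refine (WEq.map (Valid k) id (fun _ _ => valid_step) ?_ h hu).2
  rintro w w' hw ⟨a, u', v', b, rfl, rfl, h⟩
  refine Relation.EqvGen.rel _ _ ⟨a, u', v', b, rfl, rfl, ?_⟩
  have h1 : a.foldl next (k + m) = endk k a + m :=
    endk_add (valid_append.1 (valid_append.1 hw).1).1 m
  rw [h1]
  exact h.mono (Nat.le_add_right _ _)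

theorem MEq.lift {k K i : ℕ} {u v : List Gen} (h : MEq k u v) (hu : Valid k u) (hK : i + k ≤ K) :
    MEq K (sh i u) (sh i v) := by
  obtain ⟨m, rfl⟩ := Nat.exists_eq_add_of_le hK
  rw [Nat.add_comm i k]
  exact (h.shift hu i).mono (valid_sh hu i) m

end Pool.Agent.Lib.MP_dd2c10_prF
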