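import Pool.Agent.Lib.MP_dd2c10_prF.Refl

/-! JOB Ev (MP_dd2c10_pr): equivalence of edges at different states.

`Ev T T' e e'`: crossing `e` at `T` is the same as a planar path from `T` to `T'`, then crossing `e'`, then a planar path back:
`e :: q ~ p ++ [e']` where `p : T → T'` and `q : act T e → act T' e'` are planar.

PROOFS.
* `refl`: `p = q = []`.
* `symm`: given `p, q` take `p.reverse : T' → T`, `q.reverse`. At `T'`:
  `e' :: q.reverse ~ (p.reverse ++ p) ++ (e' :: q.reverse)` (`PPath.cancel'`) `= p.reverse ++ ((p ++ [e']) ++ q.reverse)`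
  `~ p.reverse ++ ((e :: q) ++ q.reverse) ~ p.reverse ++ [e]` (`PPath.cancel` for `q`). Track the states with `run_append`, `run_rev`.
* `trans`: `p ++ p'`, `q ++ q'`.
* `rev`: `h : LEq T (e :: q) (p ++ [e'])`. `LEq.rev` gives at the state `act T' e'` (`= run T (e :: q)`):
  `(e :: q).reverse = q.reverse ++ [e] ~ e' :: p.reverse`. So `Ev (act T' e') (act T e) e' e` with the paths `q.reverse : act T' e' → act T e`
  and `p.reverse : T' → T` (`act_act`), and then `symm`.
* `any`: `Ev` gives `p₀, q₀`; `p ~ p₀`, `q ~ q₀` by `coh`. -/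

namespace Pool.Agent.Lib.MP_dd2c10_prF

open Gen Ed

/-- The edge `e` at the state `T` is equivalent to the edge `e'` at the state `T'`. -/
def Ev (T T' : Finset ℤ) (e e' : Ed) : Prop :=
  ∃ p q : List Ed, PPath T p ∧ run T p = T' ∧ PPath (act T e) q ∧ run (act T e) q = act T' e' ∧
    LEq T (e :: q) (p ++ [e'])

namespace Ev

variable {T T' T'' : Finset ℤ} {e e' e'' : Ed}

theorem refl (T : Finset ℤ) (e : Ed) : Ev T T e e := by
  exact ⟨[], [], trivial, rfl, trivial, rfl, LEq.refl _⟩

theorem symm (h : Ev T T' e e') : Ev T' T e' e := by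
  obtain ⟨p, q, hp, hpT, hq, hqT, hpq⟩ := h
  refine ⟨p.reverse, q.reverse, ?_, ?_, ?_, ?_, ?_⟩
  · rw [← hpT]
    exact hp.rev
  · rw [← hpT]
    exact run_rev T p
  · rw [← hqT]
    exact hq.rev
  · rw [← hqT]
    exact run_rev _ q
  · have e1 : run T' p.reverse = T := by
      rw [← hpT]
      exact run_rev T p
    have h1 : LEq T' (p.reverse ++ p) [] := by
      have := hp.cancel'
      rwa [hpT] at this
    have h2 : LEq T' ((p.reverse ++ p) ++ (e' :: q.reverse)) ([] ++ (e' :: q.reverse)) := h1.right _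
    rw [List.nil_append, List.append_assoc] at h2
    have h3 : LEq T (p ++ (e' :: q.reverse)) ((e :: q) ++ q.reverse) := by
      have := (LEq.symm hpq).right q.reverse
      rwa [List.append_assoc, List.singleton_append] at this
    have h4 : LEq T ((e :: q) ++ q.reverse) [e] := by
      rw [List.cons_append]
      exact LEq.cons e hq.cancel
    have h5 : LEq T' (p.reverse ++ (p ++ (e' :: q.reverse))) (p.reverse ++ [e]) := by
      refine LEq.left p.reverse ?_
      rw [e1]
      exact h3.trans h4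
    exact h2.symm.trans h5

theorem trans (h : Ev T T' e e') (h' : Ev T' T'' e' e'') : Ev T T'' e e'' := by
  obtain ⟨p, q, hp, hpT, hq, hqT, hpq⟩ := h
  obtain ⟨p', q', hp', hpT', hq', hqT', hpq'⟩ := h'
  refine ⟨p ++ p', q ++ q', ?_, ?_, ?_, ?_, ?_⟩
  · rw [ppath_append, hpT]
    exact ⟨hp, hp'⟩
  · rw [run_append, hpT, hpT']
  · rw [ppath_append, hqT]
    exact ⟨hq, hq'⟩
  · rw [run_append, hqT, hqT']
  · have h1 : LEq T ((e :: q) ++ q') ((p ++ [e']) ++ q') := hpq.right q'
    have h2 : LEq T (p ++ ([e'] ++ q')) (p ++ (p' ++ [e''])) := by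
      refine LEq.left p ?_
      rw [hpT]
      exact hpq'
    rw [List.append_assoc] at h1
    rw [List.append_assoc]
    exact h1.trans h2

theorem rev (h : Ev T T' e e') : Ev (act T e) (act T' e') e e' := by
  obtain ⟨p, q, hp, hpT, hq, hqT, hpq⟩ := h
  refine symm ⟨q.reverse, p.reverse, ?_, ?_, ?_, ?_, ?_⟩
  · rw [← hqT]
    exact hq.rev
  · rw [← hqT]
    exact run_rev _ q
  · rw [act_act, ← hpT]
    exact hp.rev
  · rw [act_act, act_act, ← hpT]
    exact run_rev T p
  · have h1 := LEq.rev hpq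
    rw [run_cons, hqT, List.reverse_cons, List.reverse_append, List.reverse_singleton, List.singleton_append] at h1
    exact h1.symm

theorem any (h : Ev T T' e e') {p q : List Ed} (hp : PPath T p) (hpT : run T p = T') (hq : PPath (act T e) q)
    (hqT : run (act T e) q = act T' e') : LEq T (e :: q) (p ++ [e']) := by
  obtain ⟨p₀, q₀, hp₀, hpT₀, hq₀, hqT₀, hpq⟩ := h
  have h1 : LEq T (e :: q) (e :: q₀) := LEq.cons e (coh hq hq₀ (hqT.trans hqT₀.symm))
  have h2 : LEq T (p₀ ++ [e']) (p ++ [e']) := (coh hp₀ hp (hpT₀.trans hpT.symm)).right _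
  exact (h1.trans hpq).trans h2

end Ev

end Pool.Agent.Lib.MP_dd2c10_prF
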