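import Pool.Agent.Lib.MP_dd2c10_prF.Ev

/-! JOB EvF (MP_dd2c10_pr): strands which are far from the edge `e` can be moved freely.

PROOFS.
* `ppath_congr_above`: induction on `p` generalizing `T`, `T'`: the ends of a letter `f` (`m < f.a < f.b`) and the vertices between are `> m`, where `T` and
  `T'` agree; `act T f` and `act T' f` agree above `m` (`mem_act`). The same for below.
* `run_act`: `run (act T e) p = act (run T p) e` for all words `p`: induction with `act_comm`.
* `above`: paths `p`, `p`: `p` is planar at `act T e` by `ppath_congr_above` with `m = e.b` (`mem_act`: no vertex `> e.b` is toggled),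
  `run_act`, and `e :: p ~ p ++ [e]` by `comm_word` (`Dsj e f` since `e.a < e.b < f.a < f.b`).
* `below`: the same, `f.a < f.b < e.a`.
* `free`: let `T'' = T.filter (· ≤ e.b) ∪ T'.filter (e.b < ·)`. `T.card = rank T e.a + #(T ∩ [e.a, e.b]) + #(T ∩ (e.b, ∞))` and the same
  for `T'`, so the numbers of strands above `e.b` agree, and `T''.card = T.card`. `conn_above` with `m = e.b` gives a path `T → T''` above `e.b`; use
  `above`. `T''` and `T'` agree at all `x ≥ e.a`, `T''.card = T'.card`: `conn_below` with `m = e.a` and `below`. Then `Ev.trans`. -/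

namespace Pool.Agent.Lib.MP_dd2c10_prF

open Gen Ed

theorem ppath_congr_above {T T' : Finset ℤ} {m : ℤ} {p : List Ed} (h : ∀ x, m < x → (x ∈ T ↔ x ∈ T'))
    (hp : ∀ f ∈ p, m < f.a) (hT : PPath T p) : PPath T' p := by
  induction p generalizing T T' with
  | nil => trivial
  | cons f p ih =>
    have h1 := hp f List.mem_cons_self
    have hab := f.a_lt_b
    refine ⟨⟨?_, fun x hx hx' => ?_⟩, ?_⟩
    · rw [← h f.a h1, ← h f.b (by omega)]
      exact hT.1.1
    · rw [← h x (by omega)]
      exact hT.1.2 x hx hx'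
    · refine ih (T := act T f) (fun x hx => ?_) (fun g hg => hp g (List.mem_cons_of_mem _ hg)) hT.2
      rw [mem_act, mem_act, h x hx]

theorem ppath_congr_below {T T' : Finset ℤ} {m : ℤ} {p : List Ed} (h : ∀ x, x < m → (x ∈ T ↔ x ∈ T'))
    (hp : ∀ f ∈ p, f.b < m) (hT : PPath T p) : PPath T' p := by
  induction p generalizing T T' with
  | nil => trivial
  | cons f p ih =>
    have h1 := hp f List.mem_cons_self
    have hab := f.a_lt_b
    refine ⟨⟨?_, fun x hx hx' => ?_⟩, ?_⟩
    · rw [← h f.a (by omega), ← h f.b h1]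
      exact hT.1.1
    · rw [← h x (by omega)]
      exact hT.1.2 x hx hx'
    · refine ih (T := act T f) (fun x hx => ?_) (fun g hg => hp g (List.mem_cons_of_mem _ hg)) hT.2
      rw [mem_act, mem_act, h x hx]

theorem run_act (T : Finset ℤ) (e : Ed) (p : List Ed) : run (act T e) p = act (run T p) e := by
  induction p generalizing T with
  | nil => rfl
  | cons f p ih => rw [run_cons, run_cons, act_comm, ih]

theorem Ev.above {T : Finset ℤ} {e : Ed} {p : List Ed} (hp : PPath T p) (h : ∀ f ∈ p, e.b < f.a) :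
    Ev T (run T p) e e := by
  refine ⟨p, p, hp, rfl, ?_, run_act T e p, comm_word e p fun f hf => ?_⟩
  · refine ppath_congr_above (m := e.b) (T := T) (fun x hx => ?_) h hp
    have hab := e.a_lt_b
    have e1 : ¬ x = e.a := by omega
    have e2 : ¬ x = e.b := by omega
    rw [mem_act]
    tauto
  · have h1 := h f hf
    have h2 := e.a_lt_b
    have h3 := f.a_lt_b
    refine ⟨?_, ?_, ?_, ?_⟩ <;> omega

theorem Ev.below {T : Finset ℤ} {e : Ed} {p : List Ed} (hp : PPath T p) (h : ∀ f ∈ p, f.b < e.a) :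
    Ev T (run T p) e e := by
  refine ⟨p, p, hp, rfl, ?_, run_act T e p, comm_word e p fun f hf => ?_⟩
  · refine ppath_congr_below (m := e.a) (T := T) (fun x hx => ?_) h hp
    have hab := e.a_lt_b
    have e1 : ¬ x = e.a := by omega
    have e2 : ¬ x = e.b := by omega
    rw [mem_act]
    tauto
  · have h1 := h f hf
    have h2 := e.a_lt_b
    have h3 := f.a_lt_b
    refine ⟨?_, ?_, ?_, ?_⟩ <;> omega

/-- The strands below and above the edge `e` can be moved freely. -/
theorem Ev.free {T T' : Finset ℤ} {e : Ed} (h1 : ∀ x, e.a ≤ x → x ≤ e.b → (x ∈ T ↔ x ∈ T'))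
    (h2 : rank T e.a = rank T' e.a) (h3 : T.card = T'.card) : Ev T T' e e := by
  have hab := e.a_lt_b
  have hr : rank T (e.b + 1) = rank T' (e.b + 1) := by
    rw [rank_add T (show e.a ≤ e.b + 1 by omega), rank_add T' (show e.a ≤ e.b + 1 by omega), h2]
    refine congrArg (fun s : Finset ℤ => rank T' e.a + s.card) ?_
    ext x
    rw [Finset.mem_filter, Finset.mem_filter]
    constructor
    · rintro ⟨ha, hb, hc⟩
      exact ⟨(h1 x hb (by omega)).1 ha, hb, hc⟩
    · rintro ⟨ha, hb, hc⟩
      exact ⟨(h1 x hb (by omega)).2 ha, hb, hc⟩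
  have hrk : ∀ S : Finset ℤ, rank S (e.b + 1) = (S.filter fun s => s ≤ e.b).card := by
    intro S
    unfold rank
    refine congrArg Finset.card ?_
    ext x
    rw [Finset.mem_filter, Finset.mem_filter, Int.lt_add_one_iff]
  have e1 := Finset.card_filter_add_card_filter_not (s := T) (fun s => s ≤ e.b)
  have e2 := Finset.card_filter_add_card_filter_not (s := T') (fun s => s ≤ e.b)
  rw [← hrk] at e1 e2
  obtain ⟨T'', hT''⟩ : ∃ T'' : Finset ℤ, T'' = T.filter (fun s => s ≤ e.b) ∪ T'.filter (fun s => ¬ s ≤ e.b) :=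
    ⟨_, rfl⟩
  have hmem : ∀ x, x ∈ T'' ↔ (x ≤ e.b ∧ x ∈ T) ∨ (e.b < x ∧ x ∈ T') := by
    intro x
    rw [hT'', Finset.mem_union, Finset.mem_filter, Finset.mem_filter, not_le]
    tauto
  have hcard : T''.card = T.card := by
    rw [hT'', Finset.card_union_of_disjoint, ← hrk]
    · omega
    · rw [Finset.disjoint_left]
      intro x hx hx'
      exact (Finset.mem_filter.1 hx').2 (Finset.mem_filter.1 hx).2
  obtain ⟨p, hp1, hp2, hp3⟩ := conn_above (T := T) (T' := T'') e.b (fun x hx => by
    rw [hmem]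
    constructor
    · exact fun h => Or.inl ⟨hx, h⟩
    · rintro (⟨_, h⟩ | ⟨h, _⟩)
      · exact h
      · omega) hcard.symm
  obtain ⟨q, hq1, hq2, hq3⟩ := conn_below (T := T'') (T' := T') e.a (fun x hx => by
    rw [hmem]
    constructor
    · rintro (⟨h, h'⟩ | ⟨_, h⟩)
      · exact (h1 x hx h).1 h'
      · exact h
    · intro h
      by_cases hx' : x ≤ e.b
      · exact Or.inl ⟨hx', (h1 x hx hx').2 h⟩
      · exact Or.inr ⟨by omega, h⟩) (hcard.trans h3)
  have k1 := Ev.above (e := e) hp1 hp3
  have k2 := Ev.below (e := e) hq1 hq3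
  rw [hp2] at k1
  rw [hq2] at k2
  exact k1.trans k2

end Pool.Agent.Lib.MP_dd2c10_prF
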