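import Pool.Agent.Lib.MP_dd2c10_prF.EvF

/-! JOB EvW (MP_dd2c10_pr): local equivalences of edges (births and crossings at neighbouring places).

In each case give the planar paths `p` (from `T` to the second state) and `q` (from `act T e` to `act T' e'`), check planarity and the states with
`mem_act` (`ext x`, arithmetic with `omega`, or a small case distinction) and give the equivalence of words:
* `cross_up`: `p = [Y (n + 1), Y n]`, `q = [Y (n + 2), Y (n + 1)]`, words `[Y n, Y (n + 2), Y (n + 1)] ~ [Y (n + 1), Y n, Y (n + 2)]`: move `Y (n + 1)` to the front: it is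
  disjoint from `Y (n + 2)` and from `Y n` (`LEq.swap` twice, no common vertices). Planarity of `p`: `n + 1 → n + 3` over the empty `n + 2`, then `n → n + 2` over
  the empty `n + 1`. Planarity of `q` at the state `{n + 1, n + 2}`: `n + 2 → n + 4` over the empty `n + 3`, `n + 1 → n + 3` over the empty `n + 2`.
* `cross_turn`: `p = []`, `q = [Y n, Y (n + 1)]`, words `[Y (n + 1), Y n, Y (n + 1)] ~ [Y n, Y (n + 1), Y (n + 1)] ~ [Y n]` (`LEq.swap` without
  common vertex; `LEq.cancel` at the state `act T (Y n)`: `n + 1` occupied, `n + 3` empty). Planarity of `q` at the state with `n + 2, n + 3` occupied (instead of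
  `n + 1, n + 2`): `n + 2 → n` over the empty `n + 1`; then `n + 3 → n + 1` over the empty `n + 2`.
* `cup_two`: `p = []`, `q = [Y (n + 2), Y n]`, words `[Y n, Y (n + 2), Y n] ~ [Y (n + 2), Y n, Y n] ~ [Y (n + 2)]` (`LEq.swap`, common vertex `n + 2 ∉ T`;
  `LEq.cons`, `LEq.cancel` at the state with `n + 2`, `n + 4` occupied, `n` empty).
* `cup_one`: `n = 2 y`: `p = []`, `q = [Z (y + 1), Z y]`, words `[Y (2 y), Z (y + 1), Z y] ~ [Z y, Y (2 y + 1), Z y]` (`LEq.sqb`)
  `~ [Y (2 y + 1), Z y, Z y]` (`LEq.swap`, common vertex `2 y + 1 ∉ T`) `~ [Y (2 y + 1)]` (`LEq.cancel`).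
* `cup_Z`: `p = []`, `q = [Y (2 y + 1), Z (y + 1)]`, words `[Z y, Y (2 y + 1), Z (y + 1)] ~ [Y (2 y), Z (y + 1), Z (y + 1)]` (`LEq.sqb`, symm) `~ [Y (2 y)]`
  (`LEq.cancel`: `2 y + 2` occupied, `2 y + 3` empty). -/

namespace Pool.Agent.Lib.MP_dd2c10_prF

open Gen Ed

private theorem EvW_mk {T T' : Finset ℤ} {e e' : Ed} {p q : List Ed} (hp : PPath T p) (hT : run T p = T')
    (hq : PPath (act T e) q) (h : LEq T (e :: q) (p ++ [e'])) : Ev T T' e e' := by
  refine ⟨p, q, hp, hT, hq, ?_, h⟩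
  have h1 := h.run_eq
  rw [run_append, run_cons, hT] at h1
  exact h1

private theorem EvW_yi {T : Finset ℤ} {n x : ℤ} (h : x = n ∨ x = n + 2) (hx : x ∉ T) : x ∈ act T (Y n) := by
  rw [mem_act, a_Y, b_Y]
  tauto

private theorem EvW_yo {T : Finset ℤ} {n x : ℤ} (h : x = n ∨ x = n + 2) (hx : x ∈ T) : x ∉ act T (Y n) := by
  rw [mem_act, a_Y, b_Y]
  tauto

private theorem EvW_yii {T : Finset ℤ} {n x : ℤ} (h : ¬ (x = n ∨ x = n + 2)) (hx : x ∈ T) : x ∈ act T (Y n) := by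
  rw [mem_act, a_Y, b_Y]
  tauto

private theorem EvW_yoo {T : Finset ℤ} {n x : ℤ} (h : ¬ (x = n ∨ x = n + 2)) (hx : x ∉ T) : x ∉ act T (Y n) := by
  rw [mem_act, a_Y, b_Y]
  tauto

private theorem EvW_zi {T : Finset ℤ} {y x : ℤ} (h : x = 2 * y ∨ x = 2 * y + 1) (hx : x ∉ T) : x ∈ act T (Z y) := by
  rw [mem_act, a_Z, b_Z]
  tauto

private theorem EvW_zoo {T : Finset ℤ} {y x : ℤ} (h : ¬ (x = 2 * y ∨ x = 2 * y + 1)) (hx : x ∉ T) :
    x ∉ act T (Z y) := by
  rw [mem_act, a_Z, b_Z]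
  tauto

private theorem EvW_zii {T : Finset ℤ} {y x : ℤ} (h : ¬ (x = 2 * y ∨ x = 2 * y + 1)) (hx : x ∈ T) :
    x ∈ act T (Z y) := by
  rw [mem_act, a_Z, b_Z]
  tauto

private theorem EvW_pY {T : Finset ℤ} {n : ℤ} (h : n ∈ T ↔ n + 2 ∉ T) (h' : n + 1 ∉ T) : Pln T (Y n) := by
  refine ⟨h, fun x h1 h2 => ?_⟩
  rw [a_Y] at h1
  rw [b_Y] at h2
  have h3 : x = n + 1 := by omega
  rw [h3]
  exact h'

private theorem EvW_pZ {T : Finset ℤ} {y : ℤ} (h : 2 * y ∈ T ↔ 2 * y + 1 ∉ T) : Pln T (Z y) := by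
  refine ⟨h, fun x h1 h2 => ?_⟩
  rw [a_Z] at h1
  rw [b_Z] at h2
  omega

private theorem EvW_at {T : Finset ℤ} {x y : ℤ} (h : x ∈ T) (e : y = x) : y ∈ T := e ▸ h

private theorem EvW_nt {T : Finset ℤ} {x y : ℤ} (h : x ∉ T) (e : y = x) : y ∉ T := e ▸ h

/-- The crossing of the strands at `n`, `n + 1` and the crossing of the same strands at `n + 2`, `n + 3`. -/
theorem cross_up {T : Finset ℤ} {n : ℤ} (h0 : n ∈ T) (h1 : n + 1 ∈ T) (h2 : n + 2 ∉ T) (h3 : n + 3 ∉ T)
    (h4 : n + 4 ∉ T) : Ev T (run T [Y (n + 1), Y n]) (Y n) (Y (n + 2)) := by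
  refine EvW_mk (p := [Y (n + 1), Y n]) (q := [Y (n + 2), Y (n + 1)]) ⟨?_, ?_, trivial⟩ rfl ⟨?_, ?_, trivial⟩ ?_
  · exact EvW_pY (iff_of_true h1 (EvW_nt h3 (by ring))) (EvW_nt h2 (by ring))
  · exact EvW_pY (iff_of_true (EvW_yii (by omega) h0) (EvW_yoo (by omega) h2)) (EvW_yo (by omega) h1)
  · refine EvW_pY (iff_of_true (EvW_yi (by omega) h2) ?_) ?_
    · exact EvW_yoo (by omega) (EvW_nt h4 (by ring))
    · exact EvW_yoo (by omega) (EvW_nt h3 (by ring))
  · refine EvW_pY (iff_of_true ?_ ?_) ?_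
    · exact EvW_yii (by omega) (EvW_yii (by omega) h1)
    · exact EvW_yoo (by omega) (EvW_yoo (by omega) (EvW_nt h3 (by ring)))
    · exact EvW_yo (by omega) (EvW_yi (by omega) (EvW_nt h2 (by ring)))
  · have k1 : LEq T [Y n, Y (n + 2), Y (n + 1)] [Y n, Y (n + 1), Y (n + 2)] := by
      refine LEq.cons _ (LEq.swap _ _ _ fun v h5 h6 => ?_)
      rw [a_Y, b_Y] at h5 h6
      omega
    have k2 : LEq T [Y n, Y (n + 1), Y (n + 2)] [Y (n + 1), Y n, Y (n + 2)] := by
      refine LEq.swap _ _ _ fun v h5 h6 => ?_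
      rw [a_Y, b_Y] at h5 h6
      omega
    exact k1.trans k2

/-- The two ways to cross the strands at `n + 1`, `n + 2`. -/
theorem cross_turn {T : Finset ℤ} {n : ℤ} (h0 : n ∉ T) (h1 : n + 1 ∈ T) (h2 : n + 2 ∈ T) (h3 : n + 3 ∉ T) :
    Ev T T (Y (n + 1)) (Y n) := by
  refine EvW_mk (p := []) (q := [Y n, Y (n + 1)]) trivial rfl ⟨?_, ?_, trivial⟩ ?_
  · refine EvW_pY (iff_of_false ?_ ?_) ?_
    · exact EvW_yoo (by omega) h0
    · exact fun h => h (EvW_yii (by omega) h2)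
    · exact EvW_yo (by omega) h1
  · refine EvW_pY (iff_of_false ?_ ?_) ?_
    · exact EvW_yoo (by omega) (EvW_yo (by omega) h1)
    · exact fun h => h (EvW_yii (by omega) (EvW_yi (by omega) (EvW_nt h3 (by ring))))
    · exact EvW_yo (by omega) (EvW_yii (by omega) (EvW_at h2 (by ring)))
  · have k1 : LEq T [Y (n + 1), Y n, Y (n + 1)] [Y n, Y (n + 1), Y (n + 1)] := by
      refine LEq.swap _ _ _ fun v h5 h6 => ?_
      rw [a_Y, b_Y] at h5 h6
      omega
    have k2 : LEq T [Y n, Y (n + 1), Y (n + 1)] [Y n] := by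
      refine LEq.cons _ (LEq.cancel _ _ (iff_of_true ?_ ?_))
      · rw [a_Y]
        exact EvW_yii (by omega) h1
      · rw [b_Y]
        exact EvW_yoo (by omega) (EvW_nt h3 (by ring))
    exact k1.trans k2

theorem cup_two {T : Finset ℤ} {n : ℤ} (h : ∀ x, n ≤ x → x ≤ n + 4 → x ∉ T) : Ev T T (Y n) (Y (n + 2)) := by
  refine EvW_mk (p := []) (q := [Y (n + 2), Y n]) trivial rfl ⟨?_, ?_, trivial⟩ ?_
  · refine EvW_pY (iff_of_true ?_ ?_) ?_
    · exact EvW_yi (by omega) (h _ (by omega) (by omega))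
    · exact EvW_yoo (by omega) (h _ (by omega) (by omega))
    · exact EvW_yoo (by omega) (h _ (by omega) (by omega))
  · refine EvW_pY (iff_of_true ?_ ?_) ?_
    · exact EvW_yii (by omega) (EvW_yi (by omega) (h _ (by omega) (by omega)))
    · exact EvW_yo (by omega) (EvW_yi (by omega) (h _ (by omega) (by omega)))
    · exact EvW_yoo (by omega) (EvW_yoo (by omega) (h _ (by omega) (by omega)))
  · have k1 : LEq T [Y n, Y (n + 2), Y n] [Y (n + 2), Y n, Y n] := by
      refine LEq.swap _ _ _ fun v h5 h6 => ?_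
      rw [a_Y, b_Y] at h5 h6
      exact h v (by omega) (by omega)
    have k2 : LEq T [Y (n + 2), Y n, Y n] [Y (n + 2)] := by
      refine LEq.cons _ (LEq.cancel _ _ (iff_of_false ?_ ?_))
      · rw [a_Y]
        exact EvW_yoo (by omega) (h _ (by omega) (by omega))
      · rw [b_Y]
        exact fun h5 => h5 (EvW_yi (by omega) (h _ (by omega) (by omega)))
    exact k1.trans k2

theorem cup_one {T : Finset ℤ} {y : ℤ} (h : ∀ x, 2 * y ≤ x → x ≤ 2 * y + 3 → x ∉ T) :
    Ev T T (Y (2 * y)) (Y (2 * y + 1)) := by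
  refine EvW_mk (p := []) (q := [Z (y + 1), Z y]) trivial rfl ⟨?_, ?_, trivial⟩ ?_
  · refine EvW_pZ (iff_of_true ?_ ?_)
    · exact EvW_yi (by omega) (h _ (by omega) (by omega))
    · exact EvW_yoo (by omega) (h _ (by omega) (by omega))
  · refine EvW_pZ (iff_of_true ?_ ?_)
    · exact EvW_zii (by omega) (EvW_yi (by omega) (h _ (by omega) (by omega)))
    · exact EvW_zoo (by omega) (EvW_yoo (by omega) (h _ (by omega) (by omega)))
  · have k1 : LEq T [Y (2 * y), Z (y + 1), Z y] [Z y, Y (2 * y + 1), Z y] :=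
      LEq.sqb y _ (h _ (by omega) (by omega)) (h _ (by omega) (by omega))
    have k2 : LEq T [Z y, Y (2 * y + 1), Z y] [Y (2 * y + 1), Z y, Z y] := by
      refine LEq.swap _ _ _ fun v h5 h6 => ?_
      rw [a_Z, b_Z] at h5
      exact h v (by omega) (by omega)
    have k3 : LEq T [Y (2 * y + 1), Z y, Z y] [Y (2 * y + 1)] := by
      refine LEq.cons _ (LEq.cancel _ _ (iff_of_false ?_ ?_))
      · rw [a_Z]
        exact EvW_yoo (by omega) (h _ (by omega) (by omega))
      · rw [b_Z]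
        exact fun h5 => h5 (EvW_yi (by omega) (h _ (by omega) (by omega)))
    exact (k1.trans k2).trans k3

theorem cup_Z {T : Finset ℤ} {y : ℤ} (h : ∀ x, 2 * y ≤ x → x ≤ 2 * y + 3 → x ∉ T) :
    Ev T T (Z y) (Y (2 * y)) := by
  refine EvW_mk (p := []) (q := [Y (2 * y + 1), Z (y + 1)]) trivial rfl ⟨?_, ?_, trivial⟩ ?_
  · refine EvW_pY (iff_of_true ?_ ?_) ?_
    · exact EvW_zi (by omega) (h _ (by omega) (by omega))
    · exact EvW_zoo (by omega) (h _ (by omega) (by omega))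
    · exact EvW_zoo (by omega) (h _ (by omega) (by omega))
  · refine EvW_pZ (iff_of_false ?_ ?_)
    · exact EvW_yoo (by omega) (EvW_zoo (by omega) (h _ (by omega) (by omega)))
    · exact fun h5 => h5 (EvW_yi (by omega) (EvW_zoo (by omega) (h _ (by omega) (by omega))))
  · have k1 : LEq T [Z y, Y (2 * y + 1), Z (y + 1)] [Y (2 * y), Z (y + 1), Z (y + 1)] :=
      (LEq.sqb y _ (h _ (by omega) (by omega)) (h _ (by omega) (by omega))).symm
    have k2 : LEq T [Y (2 * y), Z (y + 1), Z (y + 1)] [Y (2 * y)] := by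
      refine LEq.cons _ (LEq.cancel _ _ (iff_of_true ?_ ?_))
      · rw [a_Z]
        exact EvW_yi (by omega) (h _ (by omega) (by omega))
      · rw [b_Z]
        exact EvW_yoo (by omega) (h _ (by omega) (by omega))
    exact k1.trans k2

end Pool.Agent.Lib.MP_dd2c10_prF
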