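import Pool.Agent.Lib.MP_dd2c10_prF.ColE
import Pool.Agent.Lib.MP_dd2c10_prF.Cls
import Pool.Agent.Lib.MP_dd2c10_prF.Compl

/-! JOB Fin (MP_dd2c10_pr): the final theorem.

PROOFS.
* `diag_valid`: `valid_scan`, `endk_scan` with `T = ∅`, `rdg_run`. One component: `rdg_pe` gives that `ES (place 0 (wd ℓ))` is a polygon; `poly_onecomp`.
* `classes`: `fwd`/`bwd` and `leq_iff` (`rdg_run` for both).
* `exists_diag`: `exists_rdg` (`fin_polygon`).
* `realise`: `realW` at `∅` (`∅.card = 0`) gives `x` with `scan ∅ x = w`; `(run ∅ x).card = endk 0 w = 0`, so `run ∅ x = ∅`. `onecomp_poly` gives the polygon `ES (place 0 x)`; `place 0 x` is a reading of it (`inc_place` implies sorted and nodup; `mem_es_edge`), with the word `x` (`wd_place`). -/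

namespace Pool.Agent.Lib.MP_dd2c10_prF

open Pool.Agent.Lib.MP_dd2c10_pr Gen Ed

private theorem Fin_rdg (x : List Ed) : Rdg (ES (place 0 x)) (place 0 x) := by
  have h : Inc (place 0 x) := inc_place 0 x
  have hn : (place 0 x).Nodup := by
    refine List.Pairwise.imp ?_ h
    intro p q hpq he
    rw [he] at hpq
    exact lt_irrefl _ hpq
  refine ⟨List.Pairwise.imp ?_ h, hn, ?_⟩
  · intro p q hpq
    exact hpq.le
  · intro c e
    exact (mem_es_edge hn c e).symm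

theorem diag_valid {w : List Gen} {ω : Set (Sym2 Pt)} (hω : IsPolygon 1 ω) (h : IsDiagram w ω) : KnotDiagram w := by
  obtain ⟨ℓ, hr, hs⟩ := h
  rw [← hs]
  have hrun : run ∅ (wd ℓ) = ∅ := rdg_run (good_of_polygon hω) (fin_polygon hω).1 hr
  have h1 := valid_scan ∅ (wd ℓ)
  have h2 := endk_scan ∅ (wd ℓ)
  rw [Finset.card_empty] at h1 h2
  rw [hrun, Finset.card_empty] at h2
  exact ⟨h1, h2, poly_onecomp hrun ((rdg_pe hω hr).1.1 hω)⟩

theorem classes {v w : List Gen} {P Q : Set (Sym2 Pt)} (hP : IsPolygon 1 P) (hQ : IsPolygon 1 Q) (hv : IsDiagram v P)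
    (hw : IsDiagram w Q) : SameClass 1 P Q ↔ DiagEq v w := by
  obtain ⟨ℓ, hr, hs⟩ := hv
  obtain ⟨ℓ', hr', hs'⟩ := hw
  rw [← hs, ← hs']
  refine Iff.trans ⟨fun h => fwd h hP hr hr', fun h => bwd hP hQ hr hr' h⟩ (leq_iff ?_ ?_)
  · exact rdg_run (good_of_polygon hP) (fin_polygon hP).1 hr
  · exact rdg_run (good_of_polygon hQ) (fin_polygon hQ).1 hr'

theorem exists_diag {ω : Set (Sym2 Pt)} (hω : IsPolygon 1 ω) : ∃ w, IsDiagram w ω := by
  obtain ⟨ℓ, hr⟩ := exists_rdg (fin_polygon hω).1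
  exact ⟨scan ∅ (wd ℓ), ℓ, hr, rfl⟩

theorem realise {w : List Gen} (h : KnotDiagram w) : ∃ P, IsPolygon 1 P ∧ IsDiagram w P := by
  obtain ⟨h1, h2, h3⟩ := h
  obtain ⟨x, hx⟩ := realW (T := ∅) (u := w) (by rw [Finset.card_empty]; exact h1)
  have h4 := endk_scan ∅ x
  rw [hx, Finset.card_empty, h2] at h4
  have hrun : run ∅ x = ∅ := Finset.card_eq_zero.1 h4.symm
  rw [← hx] at h3
  refine ⟨ES (place 0 x), onecomp_poly hrun h3, place 0 x, Fin_rdg x, ?_⟩
  rw [wd_place]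
  exact hx

end Pool.Agent.Lib.MP_dd2c10_prF
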