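import Pool.Agent.Lib.MP_dd2c10_prF.Pl

/-! JOB GoodE (MP_dd2c10_pr): degrees.

The neighbours of `pt c n` in the slab are `pt (c - 1) n` (edge `xed (c - 1) n`), `pt (c + 1) n` (edge `xed c n`), `pt c (n + 2)` (edge `edgeAt c (Y n)`),
`pt c (n - 2)` (edge `edgeAt c (Y (n - 2))`) and the partner `pt c (2 (n / 2) + 1 - n % 2)` (edge `edgeAt c (Z (n / 2))`). `EvenAt ω c n` says that the number of these
edges in `ω` is even (written with `¬ (a ↔ b)` = exclusive or). `Loc ω`: if two ladder edges of a column meet in a vertex, then there is no third one, and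
the `x`-edge to the left of the vertex is not in `ω`.

PROOFS.
* `ends_iff`: `e.a = n ∨ e.b = n ↔ e = Y n ∨ e = Y (n - 2) ∨ e = Z (n / 2)`: cases on `e`, `omega`.
* `evenAt_V`: `mem_V_edge`, `mem_V_xed`: the ladder edges of `V c e` are only `edgeAt c e`; `xed c' n ∈ V c e ↔ c ≤ c' ∧ n ∈ ends`. Case distinction: `n` not an end of `e`: all
  five are false (`ends_iff`). `n` an end: `c' < c`, `c' = c`, `c' > c`. The three edges `Y n, Y (n - 2), Z (n / 2)` are different.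
* `evenAt_symmDiff`: `Set.mem_symmDiff`, propositional (`tauto` may be slow: 10 atoms; use `by_cases` on the atoms and `simp [*]`, or the group `ZMod 2`/Bool
  `xor`). `evenAt_es`: induction with the two.
* `good_of_even`: `adj`, `slab`: each element of `ω` is `edgeAt` or `xed` (`hsub`), `Sym2.eq_iff`. `deg`: `s(u, v) ∈ ω`, so `u = pt c n` for some `c, n`. The elements of `ω` at
  `u` are among the five edges. Let `L, R, U, D, Z` be the propositions that they are in `ω`. `Loc` gives that at most two of `U, D, Z` hold, and not `L` if two hold; so with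
  `EvenAt` exactly two of the five hold (at least one holds because of `v`). Give `x`, `y` in each of the cases: `L R`; `L` or `R` with one of `U, D, Z`; two of `U, D, Z`.
  It is convenient to prove first: for all `z`, `s(u, z) ∈ ω ↔ (z = pt (c - 1) n ∧ L) ∨ (z = pt (c + 1) n ∧ R) ∨ (z = pt c (n + 2) ∧ U) ∨ (z = pt c (n - 2) ∧ D) ∨
  (z = pt c m ∧ Z)` with the partner number `m`, and the five points are pairwise different.
* `even_of_good`: the same description of the edges at `pt c n` with `Good.deg`: either none of the five is in `ω` or exactly two. `loc_of_good`: `Good.not_three`. -/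

namespace Pool.Agent.Lib.MP_dd2c10_prF

open Pool.Agent.Lib.MP_dd2c10_pr Ed

/-- The number of edges of `ω` at the point `pt c n` is even. -/
def EvenAt (ω : Set (Sym2 Pt)) (c n : ℤ) : Prop :=
  (xed c n ∈ ω ↔ ¬ (xed (c - 1) n ∈ ω ↔
    ¬ (edgeAt c (Y n) ∈ ω ↔ (edgeAt c (Y (n - 2)) ∈ ω ↔ edgeAt c (Z (n / 2)) ∉ ω))))

/-- If two ladder edges of a column meet, then there is no third one and no `x`-edge to the left. -/
def Loc (ω : Set (Sym2 Pt)) : Prop :=
  ∀ (c n : ℤ) (e f : Ed), e ≠ f → (e.a = n ∨ e.b = n) → (f.a = n ∨ f.b = n) → edgeAt c e ∈ ω → edgeAt c f ∈ ω →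
    xed (c - 1) n ∉ ω ∧ ∀ g : Ed, (g.a = n ∨ g.b = n) → edgeAt c g ∈ ω → g = e ∨ g = f

theorem ends_iff {e : Ed} {n : ℤ} : (e.a = n ∨ e.b = n) ↔ e = Y n ∨ e = Y (n - 2) ∨ e = Z (n / 2) := by
  cases e with
  | Y k =>
    simp only [a_Y, b_Y, Y.injEq, reduceCtorEq, or_false]
    omega
  | Z k =>
    simp only [a_Z, b_Z, Z.injEq, reduceCtorEq, false_or]
    omega

open scoped Classical in
/-- The indicator with values in the field with two elements. -/
private noncomputable def GoodE_i (p : Prop) : ZMod 2 := if p then 1 else 0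

private theorem GoodE_i_true {p : Prop} (h : p) : GoodE_i p = 1 := if_pos h

private theorem GoodE_i_false {p : Prop} (h : ¬ p) : GoodE_i p = 0 := if_neg h

private theorem GoodE_par (r l u d z : Prop) :
    (r ↔ ¬ (l ↔ ¬ (u ↔ (d ↔ ¬ z)))) ↔ GoodE_i r + GoodE_i l + GoodE_i u + GoodE_i d + GoodE_i z = 0 := by
  have e2 : (1 : ZMod 2) + 1 = 0 := by decide
  have e1 : (1 : ZMod 2) ≠ 0 := by decide
  by_cases hr : r <;> by_cases hl : l <;> by_cases hu : u <;> by_cases hd : d <;> by_cases hz : z <;>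
    simp only [hr, hl, hu, hd, hz, GoodE_i_true trivial, GoodE_i_false not_false, not_true_eq_false, not_false_eq_true, add_zero,
      zero_add, e2, e1, iff_self, iff_true, iff_false, true_iff, false_iff]

private theorem GoodE_xor (p q : Prop) : GoodE_i ((p ∧ ¬ q) ∨ (q ∧ ¬ p)) = GoodE_i p + GoodE_i q := by
  have e2 : (1 : ZMod 2) + 1 = 0 := by decide
  by_cases hp : p <;> by_cases hq : q <;>
    simp only [hp, hq, GoodE_i_true trivial, GoodE_i_false not_false, not_true_eq_false, not_false_eq_true, add_zero,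
      zero_add, e2, and_self, and_true, and_false, or_self, or_true, or_false]

theorem evenAt_V (c : ℤ) (e : Ed) (c' n : ℤ) : EvenAt (V c e) c' n := by
  unfold EvenAt
  rw [mem_V_xed, mem_V_xed, mem_V_edge, mem_V_edge, mem_V_edge]
  cases e with
  | Y k =>
    simp only [a_Y, b_Y, Y.injEq, reduceCtorEq, and_false]
    by_cases h1 : n = k
    · subst h1
      by_cases h2 : c' = c
      · subst h2
        have e1 : ¬ (c' ≤ c' - 1) := by omega
        have e2 : ¬ (n - 2 = n) := by omega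
        simp only [e1, e2, le_refl, true_and, false_and, and_false, true_or, not_false_eq_true, iff_true, iff_false, not_true_eq_false]
      · have e2 : (c ≤ c') ↔ (c ≤ c' - 1) := by omega
        simp only [h2, e2, true_or, and_true, false_and, not_false_eq_true, iff_true, iff_false, not_true_eq_false, not_not]
    · by_cases h3 : n = k + 2
      · subst h3
        by_cases h2 : c' = c
        · subst h2
          have e1 : ¬ (c' ≤ c' - 1) := by omega
          have e2 : ¬ (k + 2 = k) := by omega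
          have e3 : k + 2 - 2 = k := by omega
          simp only [e1, e2, e3, le_refl, true_and, false_and, and_false, or_true, not_false_eq_true, iff_true, iff_false, not_true_eq_false]
        · have e2 : (c ≤ c') ↔ (c ≤ c' - 1) := by omega
          simp only [h2, e2, or_true, and_true, false_and, not_false_eq_true, iff_true, iff_false, not_true_eq_false, not_not]
      · have e3 : ¬ (n - 2 = k) := by omega
        simp only [h1, h3, e3, or_self, and_false, not_false_eq_true, iff_true, iff_false, not_true_eq_false]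
  | Z k =>
    simp only [a_Z, b_Z, Z.injEq, reduceCtorEq, and_false]
    by_cases h1 : n = 2 * k ∨ n = 2 * k + 1
    · have e4 : n / 2 = k := by omega
      by_cases h2 : c' = c
      · subst h2
        have e1 : ¬ (c' ≤ c' - 1) := by omega
        simp only [e1, e4, h1, le_refl, true_and, false_and, not_false_eq_true, iff_true, iff_false, not_true_eq_false]
      · have e2 : (c ≤ c') ↔ (c ≤ c' - 1) := by omega
        simp only [h1, h2, e2, and_true, false_and, not_false_eq_true, iff_true, iff_false, not_true_eq_false, not_not]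
    · have e4 : ¬ (n / 2 = k) := by omega
      simp only [h1, e4, and_false, not_false_eq_true, iff_true, iff_false, not_true_eq_false]

theorem evenAt_symmDiff {ω ω' : Set (Sym2 Pt)} {c n : ℤ} (h : EvenAt ω c n) (h' : EvenAt ω' c n) :
    EvenAt (symmDiff ω ω') c n := by
  unfold EvenAt at *
  rw [GoodE_par] at *
  have hx : ∀ s : Sym2 Pt, GoodE_i (s ∈ symmDiff ω ω') = GoodE_i (s ∈ ω) + GoodE_i (s ∈ ω') := by
    intro s
    rw [← GoodE_xor]
    have h1 : (s ∈ symmDiff ω ω') = ((s ∈ ω ∧ ¬ s ∈ ω') ∨ (s ∈ ω' ∧ ¬ s ∈ ω)) := propext Set.mem_symmDiff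
    rw [h1]
  rw [hx, hx, hx, hx, hx]
  linear_combination h + h'

theorem evenAt_es (ℓ : List (ℤ × Ed)) (c n : ℤ) : EvenAt (ES ℓ) c n := by
  induction ℓ with
  | nil =>
    unfold EvenAt ES
    simp only [Set.mem_empty_iff_false, not_false_eq_true, iff_true, not_true_eq_false]
  | cons p ℓ ih => exact evenAt_symmDiff (evenAt_V p.1 p.2 c n) ih

/-- The number of the partner vertex. -/
private def GoodE_m (n : ℤ) : ℤ := 2 * (n / 2) + 1 - n % 2

/-- The edges at a point. -/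
private theorem GoodE_nb {ω : Set (Sym2 Pt)} (hsub : ∀ s ∈ ω, (∃ c e, s = edgeAt c e) ∨ ∃ c n, s = xed c n) (c n : ℤ) (z : Pt) :
    s(pt c n, z) ∈ ω ↔ (z = pt (c - 1) n ∧ xed (c - 1) n ∈ ω) ∨ (z = pt (c + 1) n ∧ xed c n ∈ ω) ∨
      (z = pt c (n + 2) ∧ edgeAt c (Y n) ∈ ω) ∨ (z = pt c (n - 2) ∧ edgeAt c (Y (n - 2)) ∈ ω) ∨
      (z = pt c (GoodE_m n) ∧ edgeAt c (Z (n / 2)) ∈ ω) := by
  have e1 : xed (c - 1) n = s(pt c n, pt (c - 1) n) := by
    unfold xed
    rw [sub_add_cancel, Sym2.eq_swap]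
  have e2 : xed c n = s(pt c n, pt (c + 1) n) := rfl
  have e3 : edgeAt c (Y n) = s(pt c n, pt c (n + 2)) := rfl
  have e4 : edgeAt c (Y (n - 2)) = s(pt c n, pt c (n - 2)) := by
    unfold edgeAt
    rw [a_Y, b_Y, sub_add_cancel, Sym2.eq_swap]
  have e5 : edgeAt c (Z (n / 2)) = s(pt c n, pt c (GoodE_m n)) := by
    unfold edgeAt GoodE_m
    rw [a_Z, b_Z]
    rcases Int.emod_two_eq_zero_or_one n with h | h
    · have h1 : 2 * (n / 2) = n := by omega
      rw [h, h1, sub_zero]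
    · have h1 : 2 * (n / 2) + 1 = n := by omega
      have h2 : n - n % 2 = 2 * (n / 2) := by omega
      rw [h1, h2, Sym2.eq_swap]
  constructor
  · intro h
    rcases hsub _ h with ⟨c', e, he⟩ | ⟨c', k, he⟩
    · have he' : s(pt c n, z) = s(pt c' e.a, pt c' e.b) := he
      rw [Sym2.eq_iff] at he'
      rcases he' with ⟨h1, h2⟩ | ⟨h1, h2⟩
      · obtain ⟨h3, h4⟩ := pt_inj.1 h1
        subst h3
        cases e with
        | Y k =>
          rw [a_Y] at h4
          subst h4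
          refine Or.inr (Or.inr (Or.inl ⟨h2, ?_⟩))
          rw [← he]
          exact h
        | Z k =>
          rw [a_Z] at h4
          have h5 : n / 2 = k := by omega
          refine Or.inr (Or.inr (Or.inr (Or.inr ⟨?_, ?_⟩)))
          · rw [h2, b_Z]
            unfold GoodE_m
            congr 1
            omega
          · rw [h5, ← he]
            exact h
      · obtain ⟨h3, h4⟩ := pt_inj.1 h1
        subst h3
        cases e with
        | Y k =>
          rw [b_Y] at h4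
          have h5 : n - 2 = k := by omega
          refine Or.inr (Or.inr (Or.inr (Or.inl ⟨?_, ?_⟩)))
          · rw [h2, a_Y, h5]
          · rw [h5, ← he]
            exact h
        | Z k =>
          rw [b_Z] at h4
          have h5 : n / 2 = k := by omega
          refine Or.inr (Or.inr (Or.inr (Or.inr ⟨?_, ?_⟩)))
          · rw [h2, a_Z]
            unfold GoodE_m
            congr 1
            omega
          · rw [h5, ← he]
            exact h
    · have he' : s(pt c n, z) = s(pt c' k, pt (c' + 1) k) := he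
      rw [Sym2.eq_iff] at he'
      rcases he' with ⟨h1, h2⟩ | ⟨h1, h2⟩
      · obtain ⟨h3, h4⟩ := pt_inj.1 h1
        subst h3 h4
        refine Or.inr (Or.inl ⟨h2, ?_⟩)
        rw [← he]
        exact h
      · obtain ⟨h3, h4⟩ := pt_inj.1 h1
        have h5 : c - 1 = c' := by omega
        subst h4
        refine Or.inl ⟨?_, ?_⟩
        · rw [h2, h5]
        · rw [h5, ← he]
          exact h
  · rintro (⟨h1, h2⟩ | ⟨h1, h2⟩ | ⟨h1, h2⟩ | ⟨h1, h2⟩ | ⟨h1, h2⟩)
    · rw [h1, ← e1]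
      exact h2
    · rw [h1, ← e2]
      exact h2
    · rw [h1, ← e3]
      exact h2
    · rw [h1, ← e4]
      exact h2
    · rw [h1, ← e5]
      exact h2

/-- The five points are different. -/
private theorem GoodE_dist (c n : ℤ) : pt (c - 1) n ≠ pt (c + 1) n ∧ pt (c - 1) n ≠ pt c (n + 2) ∧ pt (c - 1) n ≠ pt c (n - 2) ∧
    pt (c - 1) n ≠ pt c (GoodE_m n) ∧ pt (c + 1) n ≠ pt c (n + 2) ∧ pt (c + 1) n ≠ pt c (n - 2) ∧
    pt (c + 1) n ≠ pt c (GoodE_m n) ∧ pt c (n + 2) ≠ pt c (n - 2) ∧ pt c (n + 2) ≠ pt c (GoodE_m n) ∧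
    pt c (n - 2) ≠ pt c (GoodE_m n) := by
  have hm : GoodE_m n = 2 * (n / 2) + 1 - n % 2 := rfl
  simp only [ne_eq, pt_inj]
  refine ⟨?_, ?_, ?_, ?_, ?_, ?_, ?_, ?_, ?_, ?_⟩ <;> omega

/-- Exactly two. -/
private theorem GoodE_two {P : Type} {x1 x2 x3 x4 x5 : P} (hd : x1 ≠ x2 ∧ x1 ≠ x3 ∧ x1 ≠ x4 ∧ x1 ≠ x5 ∧ x2 ≠ x3 ∧ x2 ≠ x4 ∧
    x2 ≠ x5 ∧ x3 ≠ x4 ∧ x3 ≠ x5 ∧ x4 ≠ x5) {p1 p2 p3 p4 p5 : Prop} {S : P → Prop}
    (hS : ∀ z, S z ↔ (z = x1 ∧ p1) ∨ (z = x2 ∧ p2) ∨ (z = x3 ∧ p3) ∨ (z = x4 ∧ p4) ∨ (z = x5 ∧ p5))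
    (he : p2 ↔ ¬ (p1 ↔ ¬ (p3 ↔ (p4 ↔ ¬ p5)))) (h34 : p3 → p4 → ¬ p1 ∧ ¬ p5) (h35 : p3 → p5 → ¬ p1 ∧ ¬ p4)
    (h45 : p4 → p5 → ¬ p1 ∧ ¬ p3) (hne : ∃ z, S z) : ∃ x y, x ≠ y ∧ ∀ z, S z ↔ z = x ∨ z = y := by
  obtain ⟨d12, d13, d14, d15, d23, d24, d25, d34, d35, d45⟩ := hd
  by_cases h1 : p1 <;> by_cases h2 : p2 <;> by_cases h3 : p3 <;> by_cases h4 : p4 <;> by_cases h5 : p5 <;>
    simp only [h1, h2, h3, h4, h5, and_true, and_false, or_false, false_or, not_true_eq_false, not_false_eq_true, iff_true, iff_false,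
      true_iff, false_iff, true_implies, false_implies, iff_self, and_self, false_and, not_not, or_self, exists_false] at hS he h34 h35 h45
  all_goals first
    | exact ⟨_, _, d12, hS⟩
    | exact ⟨_, _, d13, hS⟩
    | exact ⟨_, _, d14, hS⟩
    | exact ⟨_, _, d15, hS⟩
    | exact ⟨_, _, d23, hS⟩
    | exact ⟨_, _, d24, hS⟩
    | exact ⟨_, _, d25, hS⟩
    | exact ⟨_, _, d34, hS⟩
    | exact ⟨_, _, d35, hS⟩
    | exact ⟨_, _, d45, hS⟩
    | (obtain ⟨z, hz⟩ := hne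
       exact absurd hz (hS z))

private theorem GoodE_not3 {P : Type} {S : P → Prop} {x y a b c : P} (h : ∀ z, S z ↔ z = x ∨ z = y) (ha : S a) (hb : S b) (hc : S c)
    (hab : a ≠ b) (hac : a ≠ c) (hbc : b ≠ c) : False := by
  rw [h] at ha hb hc
  rcases ha with ha | ha <;> rcases hb with hb | hb <;> rcases hc with hc | hc
  · exact hab (ha.trans hb.symm)
  · exact hab (ha.trans hb.symm)
  · exact hac (ha.trans hc.symm)
  · exact hbc (hb.trans hc.symm)
  · exact hbc (hb.trans hc.symm)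
  · exact hac (ha.trans hc.symm)
  · exact hab (ha.trans hb.symm)
  · exact hab (ha.trans hb.symm)

/-- The converse. -/
private theorem GoodE_conv {P : Type} {x1 x2 x3 x4 x5 : P} (hd : x1 ≠ x2 ∧ x1 ≠ x3 ∧ x1 ≠ x4 ∧ x1 ≠ x5 ∧ x2 ≠ x3 ∧ x2 ≠ x4 ∧
    x2 ≠ x5 ∧ x3 ≠ x4 ∧ x3 ≠ x5 ∧ x4 ≠ x5) {p1 p2 p3 p4 p5 : Prop} {S : P → Prop}
    (hS : ∀ z, S z ↔ (z = x1 ∧ p1) ∨ (z = x2 ∧ p2) ∨ (z = x3 ∧ p3) ∨ (z = x4 ∧ p4) ∨ (z = x5 ∧ p5))
    (h : (∃ z, S z) → ∃ x y, x ≠ y ∧ ∀ z, S z ↔ z = x ∨ z = y) :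
    (p2 ↔ ¬ (p1 ↔ ¬ (p3 ↔ (p4 ↔ ¬ p5)))) ∧ (p3 → p4 → ¬ p1 ∧ ¬ p5) ∧ (p3 → p5 → ¬ p1 ∧ ¬ p4) ∧ (p4 → p5 → ¬ p1 ∧ ¬ p3) := by
  obtain ⟨d12, d13, d14, d15, d23, d24, d25, d34, d35, d45⟩ := hd
  have s1 : p1 → S x1 := fun h => (hS x1).2 (Or.inl ⟨rfl, h⟩)
  have s2 : p2 → S x2 := fun h => (hS x2).2 (Or.inr (Or.inl ⟨rfl, h⟩))
  have s3 : p3 → S x3 := fun h => (hS x3).2 (Or.inr (Or.inr (Or.inl ⟨rfl, h⟩)))
  have s4 : p4 → S x4 := fun h => (hS x4).2 (Or.inr (Or.inr (Or.inr (Or.inl ⟨rfl, h⟩))))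
  have s5 : p5 → S x5 := fun h => (hS x5).2 (Or.inr (Or.inr (Or.inr (Or.inr ⟨rfl, h⟩))))
  have n3 : ∀ {a b c : P}, S a → S b → S c → a ≠ b → a ≠ c → b ≠ c → False := by
    intro a b c ha hb hc hab hac hbc
    obtain ⟨x, y, _, hxy⟩ := h ⟨a, ha⟩
    exact GoodE_not3 hxy ha hb hc hab hac hbc
  have q134 : p1 → p3 → p4 → False := fun a b c => n3 (s1 a) (s3 b) (s4 c) d13 d14 d34
  have q345 : p3 → p4 → p5 → False := fun a b c => n3 (s3 a) (s4 b) (s5 c) d34 d35 d45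
  have q135 : p1 → p3 → p5 → False := fun a b c => n3 (s1 a) (s3 b) (s5 c) d13 d15 d35
  have q145 : p1 → p4 → p5 → False := fun a b c => n3 (s1 a) (s4 b) (s5 c) d14 d15 d45
  have q123 : p1 → p2 → p3 → False := fun a b c => n3 (s1 a) (s2 b) (s3 c) d12 d13 d23
  have q124 : p1 → p2 → p4 → False := fun a b c => n3 (s1 a) (s2 b) (s4 c) d12 d14 d24
  have q125 : p1 → p2 → p5 → False := fun a b c => n3 (s1 a) (s2 b) (s5 c) d12 d15 d25
  have q234 : p2 → p3 → p4 → False := fun a b c => n3 (s2 a) (s3 b) (s4 c) d23 d24 d34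
  have q235 : p2 → p3 → p5 → False := fun a b c => n3 (s2 a) (s3 b) (s5 c) d23 d25 d35
  have q245 : p2 → p4 → p5 → False := fun a b c => n3 (s2 a) (s4 b) (s5 c) d24 d25 d45
  refine ⟨?_, fun a b => ⟨fun c => q134 c a b, fun c => q345 a b c⟩, fun a b => ⟨fun c => q135 c a b, fun c => q345 a c b⟩,
    fun a b => ⟨fun c => q145 c a b, fun c => q345 c a b⟩⟩
  -- one alone is impossible
  have hone : ∀ {a : P}, S a → ∃ b, S b ∧ b ≠ a := by
    intro a ha
    obtain ⟨x, y, hne, hxy⟩ := h ⟨a, ha⟩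
    by_cases h1 : x = a
    · refine ⟨y, (hxy y).2 (Or.inr rfl), fun h2 => hne (h1.trans h2.symm)⟩
    · exact ⟨x, (hxy x).2 (Or.inl rfl), h1⟩
  have o1 : p1 → p2 ∨ p3 ∨ p4 ∨ p5 := by
    intro a
    obtain ⟨b, hb, hb'⟩ := hone (s1 a)
    rcases (hS b).1 hb with ⟨h1, h2⟩ | ⟨h1, h2⟩ | ⟨h1, h2⟩ | ⟨h1, h2⟩ | ⟨h1, h2⟩
    · exact absurd h1 hb'
    · exact Or.inl h2
    · exact Or.inr (Or.inl h2)
    · exact Or.inr (Or.inr (Or.inl h2))
    · exact Or.inr (Or.inr (Or.inr h2))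
  have o2 : p2 → p1 ∨ p3 ∨ p4 ∨ p5 := by
    intro a
    obtain ⟨b, hb, hb'⟩ := hone (s2 a)
    rcases (hS b).1 hb with ⟨h1, h2⟩ | ⟨h1, h2⟩ | ⟨h1, h2⟩ | ⟨h1, h2⟩ | ⟨h1, h2⟩
    · exact Or.inl h2
    · exact absurd h1 hb'
    · exact Or.inr (Or.inl h2)
    · exact Or.inr (Or.inr (Or.inl h2))
    · exact Or.inr (Or.inr (Or.inr h2))
  have o3 : p3 → p1 ∨ p2 ∨ p4 ∨ p5 := by
    intro a
    obtain ⟨b, hb, hb'⟩ := hone (s3 a)
    rcases (hS b).1 hb with ⟨h1, h2⟩ | ⟨h1, h2⟩ | ⟨h1, h2⟩ | ⟨h1, h2⟩ | ⟨h1, h2⟩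
    · exact Or.inl h2
    · exact Or.inr (Or.inl h2)
    · exact absurd h1 hb'
    · exact Or.inr (Or.inr (Or.inl h2))
    · exact Or.inr (Or.inr (Or.inr h2))
  have o4 : p4 → p1 ∨ p2 ∨ p3 ∨ p5 := by
    intro a
    obtain ⟨b, hb, hb'⟩ := hone (s4 a)
    rcases (hS b).1 hb with ⟨h1, h2⟩ | ⟨h1, h2⟩ | ⟨h1, h2⟩ | ⟨h1, h2⟩ | ⟨h1, h2⟩
    · exact Or.inl h2
    · exact Or.inr (Or.inl h2)
    · exact Or.inr (Or.inr (Or.inl h2))
    · exact absurd h1 hb'
    · exact Or.inr (Or.inr (Or.inr h2))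
  have o5 : p5 → p1 ∨ p2 ∨ p3 ∨ p4 := by
    intro a
    obtain ⟨b, hb, hb'⟩ := hone (s5 a)
    rcases (hS b).1 hb with ⟨h1, h2⟩ | ⟨h1, h2⟩ | ⟨h1, h2⟩ | ⟨h1, h2⟩ | ⟨h1, h2⟩
    · exact Or.inl h2
    · exact Or.inr (Or.inl h2)
    · exact Or.inr (Or.inr (Or.inl h2))
    · exact Or.inr (Or.inr (Or.inr h2))
    · exact absurd h1 hb'
  clear s1 s2 s3 s4 s5 n3 hone h hS d12 d13 d14 d15 d23 d24 d25 d34 d35 d45
  by_cases h1 : p1 <;> by_cases h2 : p2 <;> by_cases h3 : p3 <;> by_cases h4 : p4 <;> by_cases h5 : p5 <;>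
    simp only [h1, h2, h3, h4, h5, not_true_eq_false, not_false_eq_true, iff_true, iff_false,
      true_iff, false_iff, true_implies, false_implies, iff_self, or_self] at q134 q345 q135 q145 q123 q124 q125 q234 q235 q245 o1 o2 o3 o4 o5 ⊢

private theorem GoodE_end {ω : Set (Sym2 Pt)} (hsub : ∀ s ∈ ω, (∃ c e, s = edgeAt c e) ∨ ∃ c n, s = xed c n) {u v : Pt}
    (h : s(u, v) ∈ ω) : ∃ c n, u = pt c n := by
  rcases hsub _ h with ⟨c, e, he⟩ | ⟨c, n, he⟩
  · have he' : s(u, v) = s(pt c e.a, pt c e.b) := he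
    rw [Sym2.eq_iff] at he'
    rcases he' with ⟨h1, _⟩ | ⟨h1, _⟩
    · exact ⟨_, _, h1⟩
    · exact ⟨_, _, h1⟩
  · have he' : s(u, v) = s(pt c n, pt (c + 1) n) := he
    rw [Sym2.eq_iff] at he'
    rcases he' with ⟨h1, _⟩ | ⟨h1, _⟩
    · exact ⟨_, _, h1⟩
    · exact ⟨_, _, h1⟩

theorem good_of_even {ω : Set (Sym2 Pt)} (hsub : ∀ s ∈ ω, (∃ c e, s = edgeAt c e) ∨ ∃ c n, s = xed c n)
    (h1 : ∀ c n, EvenAt ω c n) (h2 : Loc ω) : Good ω := by
  refine ⟨fun u v h => ?_, fun u v h => ?_, fun u v h => ?_⟩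
  · rcases hsub _ h with ⟨c, e, he⟩ | ⟨c, n, he⟩
    · have he' : s(u, v) = s(pt c e.a, pt c e.b) := he
      rw [Sym2.eq_iff] at he'
      rcases he' with ⟨h3, h4⟩ | ⟨h3, h4⟩
      · rw [h3, h4]
        exact adj_edgeAt c e
      · rw [h3, h4]
        exact (adj_edgeAt c e).symm
    · have he' : s(u, v) = s(pt c n, pt (c + 1) n) := he
      rw [Sym2.eq_iff] at he'
      rcases he' with ⟨h3, h4⟩ | ⟨h3, h4⟩
      · rw [h3, h4]
        exact adj_xed c n
      · rw [h3, h4]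
        exact (adj_xed c n).symm
  · obtain ⟨c, n, rfl⟩ := GoodE_end hsub h
    exact slab_pt c n
  · obtain ⟨c, n, rfl⟩ := GoodE_end hsub h
    have a3 : (Y n).a = n ∨ (Y n).b = n := ends_iff.2 (Or.inl rfl)
    have a4 : (Y (n - 2)).a = n ∨ (Y (n - 2)).b = n := ends_iff.2 (Or.inr (Or.inl rfl))
    have a5 : (Z (n / 2)).a = n ∨ (Z (n / 2)).b = n := ends_iff.2 (Or.inr (Or.inr rfl))
    have ne34 : Y n ≠ Y (n - 2) := by
      intro h
      rw [Y.injEq] at h
      omega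
    have ne35 : Y n ≠ Z (n / 2) := by
      intro h
      cases h
    have ne45 : Y (n - 2) ≠ Z (n / 2) := by
      intro h
      cases h
    refine GoodE_two (GoodE_dist c n) (S := fun z => s(pt c n, z) ∈ ω) (fun z => GoodE_nb hsub c n z) (h1 c n) ?_ ?_ ?_ ⟨v, h⟩
    · intro p q
      obtain ⟨r, t⟩ := h2 c n _ _ ne34 a3 a4 p q
      refine ⟨r, fun w => ?_⟩
      rcases t _ a5 w with w | w
      · exact ne35 w.symm
      · exact ne45 w.symm
    · intro p q
      obtain ⟨r, t⟩ := h2 c n _ _ ne35 a3 a5 p q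
      refine ⟨r, fun w => ?_⟩
      rcases t _ a4 w with w | w
      · exact ne34 w.symm
      · exact ne45 w
    · intro p q
      obtain ⟨r, t⟩ := h2 c n _ _ ne45 a4 a5 p q
      refine ⟨r, fun w => ?_⟩
      rcases t _ a3 w with w | w
      · exact ne34 w
      · exact ne35 w

theorem good_es {ℓ : List (ℤ × Ed)} (h : Loc (ES ℓ)) : Good (ES ℓ) :=
  good_of_even (fun _ hs => es_sub hs) (evenAt_es ℓ) h

theorem sub_of_good {ω : Set (Sym2 Pt)} (h : Good ω) : ∀ s ∈ ω, (∃ c e, s = edgeAt c e) ∨ ∃ c n, s = xed c n := by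
  intro s
  induction s using Sym2.ind with
  | _ u v =>
    intro hs
    refine edge_cases (h.adj u v hs) (h.slab u v hs) (h.slab v u ?_)
    rw [Sym2.eq_swap]
    exact hs

private theorem GoodE_good {ω : Set (Sym2 Pt)} (h : Good ω) (c n : ℤ) :
    EvenAt ω c n ∧ (edgeAt c (Y n) ∈ ω → edgeAt c (Y (n - 2)) ∈ ω → ¬ xed (c - 1) n ∈ ω ∧ ¬ edgeAt c (Z (n / 2)) ∈ ω) ∧
      (edgeAt c (Y n) ∈ ω → edgeAt c (Z (n / 2)) ∈ ω → ¬ xed (c - 1) n ∈ ω ∧ ¬ edgeAt c (Y (n - 2)) ∈ ω) ∧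
      (edgeAt c (Y (n - 2)) ∈ ω → edgeAt c (Z (n / 2)) ∈ ω → ¬ xed (c - 1) n ∈ ω ∧ ¬ edgeAt c (Y n) ∈ ω) :=
  GoodE_conv (GoodE_dist c n) (S := fun z => s(pt c n, z) ∈ ω) (fun z => GoodE_nb (sub_of_good h) c n z) (fun ⟨z, hz⟩ => h.deg _ z hz)

theorem even_of_good {ω : Set (Sym2 Pt)} (h : Good ω) (c n : ℤ) : EvenAt ω c n := (GoodE_good h c n).1

theorem loc_of_good {ω : Set (Sym2 Pt)} (h : Good ω) : Loc ω := by
  intro c n e f hef he hf hme hmf
  obtain ⟨-, q34, q35, q45⟩ := GoodE_good h c n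
  rw [ends_iff] at he hf
  rcases he with rfl | rfl | rfl <;> rcases hf with rfl | rfl | rfl
  · exact absurd rfl hef
  · obtain ⟨r, t⟩ := q34 hme hmf
    refine ⟨r, fun g hg hmg => ?_⟩
    rw [ends_iff] at hg
    rcases hg with rfl | rfl | rfl
    · exact Or.inl rfl
    · exact Or.inr rfl
    · exact absurd hmg t
  · obtain ⟨r, t⟩ := q35 hme hmf
    refine ⟨r, fun g hg hmg => ?_⟩
    rw [ends_iff] at hg
    rcases hg with rfl | rfl | rfl
    · exact Or.inl rfl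
    · exact absurd hmg t
    · exact Or.inr rfl
  · obtain ⟨r, t⟩ := q34 hmf hme
    refine ⟨r, fun g hg hmg => ?_⟩
    rw [ends_iff] at hg
    rcases hg with rfl | rfl | rfl
    · exact Or.inr rfl
    · exact Or.inl rfl
    · exact absurd hmg t
  · exact absurd rfl hef
  · obtain ⟨r, t⟩ := q45 hme hmf
    refine ⟨r, fun g hg hmg => ?_⟩
    rw [ends_iff] at hg
    rcases hg with rfl | rfl | rfl
    · exact absurd hmg t
    · exact Or.inl rfl
    · exact Or.inr rfl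
  · obtain ⟨r, t⟩ := q35 hmf hme
    refine ⟨r, fun g hg hmg => ?_⟩
    rw [ends_iff] at hg
    rcases hg with rfl | rfl | rfl
    · exact Or.inr rfl
    · exact absurd hmg t
    · exact Or.inl rfl
  · obtain ⟨r, t⟩ := q45 hmf hme
    refine ⟨r, fun g hg hmg => ?_⟩
    rw [ends_iff] at hg
    rcases hg with rfl | rfl | rfl
    · exact absurd hmg t
    · exact Or.inr rfl
    · exact Or.inl rfl
  · exact absurd rfl hef

end Pool.Agent.Lib.MP_dd2c10_prF
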