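import Pool.Agent.Lib.MP_dd2c10_prF.Diag

/-!
# Words in the edges of the ladder, and their diagrams

The ladder is the graph `ℤ × {0, 1}` (the `y`- and `z`-coordinates of the slab of width one). Its vertex `(y, z)` has the
number `2 y + z`. The state of a word is the finite set of the vertices through which a strand passes.
-/

namespace Pool.Agent.Lib.MP_dd2c10_prF

open Gen

namespace Ed

@[simp] theorem a_Y (n : ℤ) : (Y n).a = n := rfl
@[simp] theorem b_Y (n : ℤ) : (Y n).b = n + 2 := rfl
@[simp] theorem a_Z (y : ℤ) : (Z y).a = 2 * y := rfl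
@[simp] theorem b_Z (y : ℤ) : (Z y).b = 2 * y + 1 := rfl

theorem a_lt_b (e : Ed) : e.a < e.b := by
  cases e <;> simp only [a_Y, b_Y, a_Z, b_Z] <;> omega

theorem a_ne_b (e : Ed) : e.a ≠ e.b := (a_lt_b e).ne

theorem b_le (e : Ed) : e.b ≤ e.a + 2 := by
  cases e <;> simp only [a_Y, b_Y, a_Z, b_Z] <;> omega

/-- Two edges with the same ends are equal. -/
theorem ext {e f : Ed} (h1 : e.a = f.a) (h2 : e.b = f.b) : e = f := by
  cases e <;> cases f <;> simp only [a_Y, b_Y, a_Z, b_Z] at h1 h2
  · rw [h1]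
  · omega
  · omega
  · exact congrArg Z (by omega)

end Ed

open Ed

theorem mem_act {T : Finset ℤ} {e : Ed} {x : ℤ} : x ∈ act T e ↔ ¬ (x ∈ T ↔ (x = e.a ∨ x = e.b)) := by
  unfold act
  rw [Finset.mem_symmDiff, Finset.mem_insert, Finset.mem_singleton]
  tauto

/-- The state after a word. -/
def run (T : Finset ℤ) (w : List Ed) : Finset ℤ := w.foldl act T

@[simp] theorem run_nil (T : Finset ℤ) : run T [] = T := rfl

@[simp] theorem run_cons (T : Finset ℤ) (e : Ed) (w : List Ed) : run T (e :: w) = run (act T e) w := rfl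

theorem run_append (T : Finset ℤ) (u v : List Ed) : run T (u ++ v) = run (run T u) v := by
  unfold run
  rw [List.foldl_append]

@[simp] theorem act_act (T : Finset ℤ) (e : Ed) : act (act T e) e = T := by
  ext x
  rw [mem_act, mem_act]
  tauto

theorem act_comm (T : Finset ℤ) (e f : Ed) : act (act T e) f = act (act T f) e := by
  ext x
  simp only [mem_act]
  tauto

/-- The local moves of words at the state `T`. `swap`: two edges change places if no strand passes through a common
vertex. `cancel`: an edge is crossed twice in succession (a strand goes forth and back). `sqa`, `sqb`: two edges of a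
square are replaced by the other two. -/
inductive LRule (T : Finset ℤ) : List Ed → List Ed → Prop
  | swap (e f : Ed) : (∀ v : ℤ, (v = e.a ∨ v = e.b) → (v = f.a ∨ v = f.b) → v ∉ T) → LRule T [e, f] [f, e]
  | cancel (e : Ed) : (e.a ∈ T ↔ e.b ∉ T) → LRule T [e, e] []
  | sqa (y : ℤ) : 2 * y ∉ T → 2 * y + 3 ∉ T → LRule T [Y (2 * y), Z y] [Y (2 * y + 1), Z (y + 1)]
  | sqb (y : ℤ) : 2 * y + 1 ∉ T → 2 * y + 2 ∉ T → LRule T [Y (2 * y), Z (y + 1)] [Z y, Y (2 * y + 1)]

/-- Equivalence of words of edges, starting at the state `T`. -/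
def LEq (T : Finset ℤ) : List Ed → List Ed → Prop := WEq act LRule T

@[simp] theorem scan_nil (T : Finset ℤ) : scan T [] = [] := rfl

@[simp] theorem scan_cons (T : Finset ℤ) (e : Ed) (w : List Ed) : scan T (e :: w) = out T e ++ scan (act T e) w := rfl

theorem scan_append (T : Finset ℤ) (u v : List Ed) : scan T (u ++ v) = scan T u ++ scan (run T u) v := by
  induction u generalizing T with
  | nil => rfl
  | cons e u ih => rw [List.cons_append, scan_cons, ih, scan_cons, run_cons, List.append_assoc]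

theorem LRule.run_eq {T : Finset ℤ} {u v : List Ed} (h : LRule T u v) : u.foldl act T = v.foldl act T := by
  cases h with
  | swap e f h => exact act_comm T e f
  | cancel e h => exact act_act T e
  | sqa y h1 h2 =>
    show act (act T _) _ = act (act T _) _
    ext x
    simp only [mem_act, a_Y, b_Y, a_Z, b_Z]
    by_cases e0 : x = 2 * y
    · subst e0
      have h1 : ¬ (2 * y = 2 * y + 2) := by omega
      have h2 : ¬ (2 * y = 2 * y + 1) := by omega
      have h3 : ¬ (2 * y = 2 * y + 1 + 2) := by omega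
      have h4 : ¬ (2 * y = 2 * (y + 1)) := by omega
      have h5 : ¬ (2 * y = 2 * (y + 1) + 1) := by omega
      tauto
    · have h1 : (x = 2 * (y + 1)) ↔ (x = 2 * y + 2) := by omega
      have h2 : (x = 2 * (y + 1) + 1) ↔ (x = 2 * y + 3) := by omega
      have h3 : (x = 2 * y + 1 + 2) ↔ (x = 2 * y + 3) := by omega
      rw [h1, h2, h3]
      by_cases e1 : x = 2 * y + 3
      · subst e1
        have h1 : ¬ (2 * y + 3 = 2 * y) := by omega
        have h2 : ¬ (2 * y + 3 = 2 * y + 1) := by omega
        have h3 : ¬ (2 * y + 3 = 2 * y + 2) := by omega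
        tauto
      · tauto
  | sqb y h1 h2 =>
    show act (act T _) _ = act (act T _) _
    ext x
    simp only [mem_act, a_Y, b_Y, a_Z, b_Z]
    have h1 : (x = 2 * (y + 1)) ↔ (x = 2 * y + 2) := by omega
    have h2 : (x = 2 * (y + 1) + 1) ↔ (x = 2 * y + 3) := by omega
    have h3 : (x = 2 * y + 1 + 2) ↔ (x = 2 * y + 3) := by omega
    rw [h1, h2, h3]
    by_cases e0 : x = 2 * y + 1
    · subst e0
      have h1 : ¬ (2 * y + 1 = 2 * y) := by omega
      have h2 : ¬ (2 * y + 1 = 2 * y + 2) := by omega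
      have h3 : ¬ (2 * y + 1 = 2 * y + 3) := by omega
      tauto
    · by_cases e1 : x = 2 * y + 2
      · subst e1
        have h1 : ¬ (2 * y + 2 = 2 * y) := by omega
        have h3 : ¬ (2 * y + 2 = 2 * y + 3) := by omega
        tauto
      · tauto

theorem LEq.run_eq {T : Finset ℤ} {u v : List Ed} (h : LEq T u v) : run T u = run T v :=
  WEq.run_eq (fun _ _ _ h => h.run_eq) h

theorem LEq.left {T : Finset ℤ} (a : List Ed) {u v : List Ed} (h : LEq (run T a) u v) : LEq T (a ++ u) (a ++ v) :=
  WEq.left a h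

theorem LEq.right {T : Finset ℤ} {u v : List Ed} (h : LEq T u v) (b : List Ed) : LEq T (u ++ b) (v ++ b) :=
  WEq.right h b

theorem LEq.cons {T : Finset ℤ} (e : Ed) {u v : List Ed} (h : LEq (act T e) u v) : LEq T (e :: u) (e :: v) :=
  WEq.cons e h

theorem LEq.refl {T : Finset ℤ} (u : List Ed) : LEq T u u := WEq.refl u

theorem LEq.symm {T : Finset ℤ} {u v : List Ed} (h : LEq T u v) : LEq T v u := WEq.symm h

theorem LEq.trans {T : Finset ℤ} {u v w : List Ed} (h : LEq T u v) (h' : LEq T v w) : LEq T u w := WEq.trans h h'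

theorem LEq.rule {T : Finset ℤ} {u v : List Ed} (h : LRule T u v) : LEq T u v := WEq.rule h

/-- Two edges without a common vertex (or with common vertices through which no strand passes) change places in front of
a word. -/
theorem LEq.swap {T : Finset ℤ} (e f : Ed) (w : List Ed)
    (h : ∀ v : ℤ, (v = e.a ∨ v = e.b) → (v = f.a ∨ v = f.b) → v ∉ T) : LEq T (e :: f :: w) (f :: e :: w) :=
  (LEq.rule (LRule.swap e f h)).right w

theorem LEq.cancel {T : Finset ℤ} (e : Ed) (w : List Ed) (h : e.a ∈ T ↔ e.b ∉ T) : LEq T (e :: e :: w) w :=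
  (LEq.rule (LRule.cancel e h)).right w

theorem LEq.sqa {T : Finset ℤ} (y : ℤ) (w : List Ed) (h1 : 2 * y ∉ T) (h2 : 2 * y + 3 ∉ T) :
    LEq T (Y (2 * y) :: Z y :: w) (Y (2 * y + 1) :: Z (y + 1) :: w) :=
  (LEq.rule (LRule.sqa y h1 h2)).right w

theorem LEq.sqb {T : Finset ℤ} (y : ℤ) (w : List Ed) (h1 : 2 * y + 1 ∉ T) (h2 : 2 * y + 2 ∉ T) :
    LEq T (Y (2 * y) :: Z (y + 1) :: w) (Z y :: Y (2 * y + 1) :: w) :=
  (LEq.rule (LRule.sqb y h1 h2)).right w

end Pool.Agent.Lib.MP_dd2c10_prF
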