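import Pool.Agent.Lib.MP_dd2c10_prF.Reo

/-! JOB MvX (MP_dd2c10_pr): elementary moves across a square `e × [c, c + 1]` give equivalent words.

PROOF of `mvx`. `ω' = symmDiff ω (PX c e)`. Membership of ladder edges: `edgeAt c' f ∈ ω' ↔ ¬ (edgeAt c' f ∈ ω ↔ (f = e ∧ (c' = c ∨ c' = c + 1)))` (`edgeAt_inj`, `edgeAt_ne_xed`).
By `rdg_leq` it is enough to find one reading of `ω` and one of `ω'` with equivalent words (`mvx_aux` for each of the four cases; `LEq.trans`).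
(1) `edgeAt c e ∈ ω`, `edgeAt (c + 1) e ∉ ω`: `exists_split` with `S = [e]`, `S' = []`: `Rdg ω (A ++ [(c, e)] ++ [] ++ B)`. Then `A ++ [(c + 1, e)] ++ B` is a reading of `ω'` (sorted: `A ≤ c`, `B ≥ c + 1`; members), with the same word.
(2) `edgeAt c e ∉ ω`, `edgeAt (c + 1) e ∈ ω`: symmetric: `S = []`, `S' = [e]`; `A ++ [(c, e)] ++ B` is a reading of `ω'`.
(3) both in `ω`: `S = S' = [e]`: the reading `A ++ [(c, e)] ++ [(c + 1, e)] ++ B` of `ω`; `A ++ B` is a reading of `ω'`. `wd A ++ [e, e] ++ wd B ~ wd A ++ wd B` by the rule `cancel` at `T = run ∅ (wd A)`: exactly one end of `e` is in `T`: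
`xed c n ∈ ω ↔ n ∈ st _ c` (`rdg_es`, `mem_es_xed`) and `st _ c = run ∅ (wd A ++ [e]) = act T e` (the letters of columns `≤ c` are those of `A` and `(c, e)`; `B` has columns `≥ c + 1`), so `xed c e.a ∈ ω ↔ e.a ∉ T`, `xed c e.b ∈ ω ↔ e.b ∉ T`
(`mem_act`), and `hp` gives that exactly one of `xed c e.a`, `xed c e.b` is in `ω`.
(4) none in `ω`: then both are in `ω'`, `ω = symmDiff ω' (PX c e)`, the pattern condition holds for `ω'` too: case (3) for `ω'` and `LEq.symm`. -/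

namespace Pool.Agent.Lib.MP_dd2c10_prF

open Pool.Agent.Lib.MP_dd2c10_pr Ed

private theorem MvX_memPX {c c' : ℤ} {e f : Ed} : edgeAt c' f ∈ PX c e ↔ f = e ∧ (c' = c ∨ c' = c + 1) := by
  unfold PX
  simp only [Set.mem_insert_iff, Set.mem_singleton_iff, edgeAt_inj]
  have h1 : ∀ n, ¬ (edgeAt c' f = xed c n) := fun n => edgeAt_ne_xed
  have h2 := h1 e.a
  have h3 := h1 e.b
  tauto

private theorem MvX_mem {ω : Set (Sym2 Pt)} {c c' : ℤ} {e f : Ed} :
    edgeAt c' f ∈ symmDiff ω (PX c e) ↔ ¬ (edgeAt c' f ∈ ω ↔ (f = e ∧ (c' = c ∨ c' = c + 1))) := by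
  rw [Set.mem_symmDiff, MvX_memPX]
  tauto

private theorem MvX_memx {ω : Set (Sym2 Pt)} {c n : ℤ} {e : Ed} (hn : n = e.a ∨ n = e.b) :
    xed c n ∈ symmDiff ω (PX c e) ↔ xed c n ∉ ω := by
  have h : xed c n ∈ PX c e := by
    unfold PX
    simp only [Set.mem_insert_iff, Set.mem_singleton_iff, xed_inj]
    tauto
  rw [Set.mem_symmDiff]
  tauto

/-- the letters different from `(c, e)`, `(c + 1, e)`, up to the column `c` and from the column `c + 1` -/
private structure MvX_S (ω : Set (Sym2 Pt)) (c : ℤ) (e : Ed) (A B : List (ℤ × Ed)) : Prop where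
  pA : A.Pairwise fun p q => p.1 ≤ q.1
  pB : B.Pairwise fun p q => p.1 ≤ q.1
  nA : A.Nodup
  nB : B.Nodup
  cA : ∀ p ∈ A, p.1 ≤ c
  cB : ∀ p ∈ B, c + 1 ≤ p.1
  eA : (c, e) ∉ A
  eB : (c + 1, e) ∉ B
  mem : ∀ c' f, ¬ (c' = c ∧ f = e) → ¬ (c' = c + 1 ∧ f = e) → (((c', f) ∈ A ∨ (c', f) ∈ B) ↔ edgeAt c' f ∈ ω)

private theorem MvX_list (e : Ed) (Q : Prop) : ∃ S : List Ed, S.Nodup ∧ ∀ x, x ∈ S ↔ x = e ∧ Q := by
  by_cases h : Q
  · exact ⟨[e], List.nodup_singleton e, fun x => by rw [List.mem_singleton]; exact ⟨fun h' => ⟨h', h⟩, fun h' => h'.1⟩⟩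
  · exact ⟨[], List.nodup_nil, fun x => ⟨fun h' => absurd h' List.not_mem_nil, fun h' => absurd h'.2 h⟩⟩

private theorem MvX_ex {ω : Set (Sym2 Pt)} (hf : ω.Finite) (c : ℤ) (e : Ed) : ∃ A B, MvX_S ω c e A B := by
  obtain ⟨S, hS, hSm⟩ := MvX_list e (edgeAt c e ∈ ω)
  obtain ⟨S', hS', hSm'⟩ := MvX_list e (edgeAt (c + 1) e ∈ ω)
  obtain ⟨A, B, ⟨hp, hn, hm⟩, hA, hB⟩ := exists_split hf c hS hS'
    (fun x hx => by rw [((hSm x).1 hx).1]; exact ((hSm x).1 hx).2)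
    (fun x hx => by rw [((hSm' x).1 hx).1]; exact ((hSm' x).1 hx).2)
  rw [List.append_assoc, List.append_assoc] at hp hn hm
  rw [List.pairwise_append, List.pairwise_append, List.pairwise_append] at hp
  rw [List.nodup_append, List.nodup_append, List.nodup_append] at hn
  obtain ⟨nA, ⟨nS, ⟨nS', nB, d3⟩, d2⟩, d1⟩ := hn
  have hm' : ∀ c' f, ((c', f) ∈ A ∨ (f ∈ S ∧ c' = c) ∨ (f ∈ S' ∧ c' = c + 1) ∨ (c', f) ∈ B) ↔ edgeAt c' f ∈ ω := by
    intro c' f
    rw [← hm c' f, List.mem_append, List.mem_append, List.mem_append, List.mem_map, List.mem_map]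
    have h1 : (∃ a, a ∈ S ∧ (c, a) = (c', f)) ↔ (f ∈ S ∧ c' = c) := by
      constructor
      · rintro ⟨a, ha, he⟩
        rw [Prod.mk.injEq] at he
        rw [← he.2, ← he.1]
        exact ⟨ha, rfl⟩
      · rintro ⟨h1, h2⟩
        exact ⟨f, h1, by rw [h2]⟩
    have h2 : (∃ a, a ∈ S' ∧ (c + 1, a) = (c', f)) ↔ (f ∈ S' ∧ c' = c + 1) := by
      constructor
      · rintro ⟨a, ha, he⟩
        rw [Prod.mk.injEq] at he
        rw [← he.2, ← he.1]
        exact ⟨ha, rfl⟩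
      · rintro ⟨h1, h2⟩
        exact ⟨f, h1, by rw [h2]⟩
    rw [h1, h2]
  refine ⟨A, B, ⟨hp.1, hp.2.1.2.1.2.1, nA, nB, hA, hB, fun h => ?_, fun h => ?_, fun c' f h1 h2 => ?_⟩⟩
  · have h1 : edgeAt c e ∈ ω := (hm' c e).1 (Or.inl h)
    have h2 : e ∈ S := (hSm e).2 ⟨rfl, h1⟩
    exact d1 _ h _ (List.mem_append_left _ (List.mem_map.2 ⟨e, h2, rfl⟩)) rfl
  · have h1 : edgeAt (c + 1) e ∈ ω := (hm' (c + 1) e).1 (Or.inr (Or.inr (Or.inr h)))
    have h2 : e ∈ S' := (hSm' e).2 ⟨rfl, h1⟩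
    exact d3 _ (List.mem_map.2 ⟨e, h2, rfl⟩) _ h rfl
  · rw [← hm' c' f]
    constructor
    · rintro (h | h)
      · exact Or.inl h
      · exact Or.inr (Or.inr (Or.inr h))
    · rintro (h | h | h | h)
      · exact Or.inl h
      · exact absurd ⟨h.2, ((hSm f).1 h.1).1⟩ h1
      · exact absurd ⟨h.2, ((hSm' f).1 h.1).1⟩ h2
      · exact Or.inr h

private theorem MvX_rdg {ω : Set (Sym2 Pt)} {c : ℤ} {e : Ed} {A B : List (ℤ × Ed)} (h : MvX_S ω c e A B)
    (M : List (ℤ × Ed)) (hp : M.Pairwise fun p q => p.1 ≤ q.1) (hn : M.Nodup)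
    (hM : ∀ p ∈ M, p.2 = e ∧ (p.1 = c ∨ p.1 = c + 1)) (h1 : edgeAt c e ∈ ω ↔ (c, e) ∈ M)
    (h2 : edgeAt (c + 1) e ∈ ω ↔ (c + 1, e) ∈ M) : Rdg ω (A ++ (M ++ B)) := by
  have hce : ∀ p ∈ M, p = (c, e) ∨ p = (c + 1, e) := by
    rintro ⟨x, y⟩ hxy
    obtain ⟨h3, h4 | h4⟩ := hM _ hxy
    · exact Or.inl (Prod.ext h4 h3)
    · exact Or.inr (Prod.ext h4 h3)
  have eA' : (c + 1, e) ∉ A := fun h' => by
    have := h.cA _ h'
    simp only at this
    omega
  have eB' : (c, e) ∉ B := fun h' => by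
    have := h.cB _ h'
    simp only at this
    omega
  refine ⟨?_, ?_, fun c' f => ?_⟩
  · rw [List.pairwise_append, List.pairwise_append]
    refine ⟨h.pA, ⟨hp, h.pB, fun p hp' q hq => ?_⟩, fun p hp' q hq => ?_⟩
    · have a1 := (hM p hp').2
      have a2 := h.cB q hq
      omega
    · have a1 := h.cA p hp'
      rcases List.mem_append.1 hq with h3 | h3
      · have a2 := (hM q h3).2
        omega
      · have a2 := h.cB q h3
        omega
  · rw [List.nodup_append, List.nodup_append]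
    refine ⟨h.nA, ⟨hn, h.nB, fun p hp' q hq he => ?_⟩, fun p hp' q hq he => ?_⟩
    · rw [← he] at hq
      rcases hce p hp' with h3 | h3
      · rw [h3] at hq
        exact eB' hq
      · rw [h3] at hq
        exact h.eB hq
    · rcases List.mem_append.1 hq with h3 | h3
      · rw [he] at hp'
        rcases hce q h3 with h4 | h4
        · rw [h4] at hp'
          exact h.eA hp'
        · rw [h4] at hp'
          exact eA' hp'
      · have a1 := h.cA p hp'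
        have a2 := h.cB q h3
        rw [he] at a1
        omega
  · rw [List.mem_append, List.mem_append]
    by_cases k1 : c' = c ∧ f = e
    · rw [k1.1, k1.2, h1]
      exact ⟨fun h3 => by
        rcases h3 with h3 | h3 | h3
        · exact absurd h3 h.eA
        · exact h3
        · exact absurd h3 eB', fun h3 => Or.inr (Or.inl h3)⟩
    · by_cases k2 : c' = c + 1 ∧ f = e
      · rw [k2.1, k2.2, h2]
        exact ⟨fun h3 => by
          rcases h3 with h3 | h3 | h3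
          · exact absurd h3 eA'
          · exact h3
          · exact absurd h3 h.eB, fun h3 => Or.inr (Or.inl h3)⟩
      · rw [← h.mem c' f k1 k2]
        constructor
        · rintro (h3 | h3 | h3)
          · exact Or.inl h3
          · rcases hce _ h3 with h4 | h4
            · rw [Prod.mk.injEq] at h4
              exact absurd h4 k1
            · rw [Prod.mk.injEq] at h4
              exact absurd h4 k2
          · exact Or.inr h3
        · rintro (h3 | h3)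
          · exact Or.inl h3
          · exact Or.inr (Or.inr h3)

private theorem MvX_S' {ω : Set (Sym2 Pt)} {c : ℤ} {e : Ed} {A B : List (ℤ × Ed)} (h : MvX_S ω c e A B) :
    MvX_S (symmDiff ω (PX c e)) c e A B :=
  ⟨h.pA, h.pB, h.nA, h.nB, h.cA, h.cB, h.eA, h.eB, fun c' f k1 k2 => by
    rw [h.mem c' f k1 k2, MvX_mem]
    tauto⟩

private theorem MvX_both {ω : Set (Sym2 Pt)} {c : ℤ} {e : Ed} {A B : List (ℤ × Ed)} (h : MvX_S ω c e A B)
    (h1 : edgeAt c e ∈ ω) (h2 : edgeAt (c + 1) e ∈ ω) : Rdg ω (A ++ ([(c, e), (c + 1, e)] ++ B)) := by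
  have hne : ((c, e) : ℤ × Ed) ≠ (c + 1, e) := by
    intro h'
    rw [Prod.mk.injEq] at h'
    omega
  refine MvX_rdg h _ ?_ ?_ ?_ ?_ ?_
  · simp
  · simp
  · intro p hp
    simp only [List.mem_cons, List.not_mem_nil, or_false] at hp
    rcases hp with rfl | rfl
    · exact ⟨rfl, Or.inl rfl⟩
    · exact ⟨rfl, Or.inr rfl⟩
  · simp [h1]
  · simp [h2]

private theorem MvX_one {ω : Set (Sym2 Pt)} {c : ℤ} {e : Ed} {A B : List (ℤ × Ed)} (h : MvX_S ω c e A B)
    (h1 : edgeAt c e ∈ ω) (h2 : edgeAt (c + 1) e ∉ ω) : Rdg ω (A ++ ([(c, e)] ++ B)) := by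
  refine MvX_rdg h _ ?_ ?_ ?_ ?_ ?_
  · simp
  · simp
  · intro p hp
    rw [List.mem_singleton] at hp
    rw [hp]
    exact ⟨rfl, Or.inl rfl⟩
  · simp [h1]
  · simp [h2]

private theorem MvX_two {ω : Set (Sym2 Pt)} {c : ℤ} {e : Ed} {A B : List (ℤ × Ed)} (h : MvX_S ω c e A B)
    (h1 : edgeAt c e ∉ ω) (h2 : edgeAt (c + 1) e ∈ ω) : Rdg ω (A ++ ([(c + 1, e)] ++ B)) := by
  refine MvX_rdg h _ ?_ ?_ ?_ ?_ ?_
  · simp
  · simp
  · intro p hp
    rw [List.mem_singleton] at hp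
    rw [hp]
    exact ⟨rfl, Or.inr rfl⟩
  · simp [h1]
  · simp [h2]

private theorem MvX_none {ω : Set (Sym2 Pt)} {c : ℤ} {e : Ed} {A B : List (ℤ × Ed)} (h : MvX_S ω c e A B)
    (h1 : edgeAt c e ∉ ω) (h2 : edgeAt (c + 1) e ∉ ω) : Rdg ω (A ++ B) := by
  have := MvX_rdg h [] List.Pairwise.nil List.nodup_nil (fun p hp => absurd hp List.not_mem_nil)
    (by simp [h1]) (by simp [h2])
  exact this

private theorem MvX_can {ω : Set (Sym2 Pt)} {c : ℤ} {e : Ed} {A B : List (ℤ × Ed)} (hG : Good ω) (hf : ω.Finite)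
    (h : MvX_S ω c e A B) (h1 : edgeAt c e ∈ ω) (h2 : edgeAt (c + 1) e ∈ ω)
    (hx : ¬ (xed c e.b ∈ ω ↔ xed c e.a ∈ ω)) :
    LEq ∅ (wd (A ++ ([(c, e), (c + 1, e)] ++ B))) (wd (A ++ B)) := by
  have hr := MvX_both h h1 h2
  have hes := rdg_es hG hf hr
  have hst : st (A ++ ([(c, e), (c + 1, e)] ++ B)) c = act (run ∅ (wd A)) e := by
    unfold st
    have f1 : A.filter (fun p => decide (p.1 ≤ c)) = A :=
      List.filter_eq_self.2 fun p hp => decide_eq_true (h.cA p hp)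
    have f2 : B.filter (fun p => decide (p.1 ≤ c)) = [] :=
      List.filter_eq_nil_iff.2 fun p hp => by
        have := h.cB p hp
        simp only [decide_eq_true_eq]
        omega
    have f3 : ([(c, e), (c + 1, e)] : List (ℤ × Ed)).filter (fun p => decide (p.1 ≤ c)) = [(c, e)] := by
      rw [List.filter_cons_of_pos (by simp), List.filter_cons_of_neg (by simp), List.filter_nil]
    rw [List.filter_append, List.filter_append, f1, f2, f3, List.append_nil]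
    unfold wd
    rw [List.map_append, run_append]
    rfl
  have key : ∀ n, xed c n ∈ ω ↔ n ∈ act (run ∅ (wd A)) e := by
    intro n
    have h3 := mem_es_xed (A ++ ([(c, e), (c + 1, e)] ++ B)) c n
    rw [← hes, hst] at h3
    exact h3
  have ka := key e.a
  have kb := key e.b
  rw [mem_act] at ka kb
  have hc : e.a ∈ run ∅ (wd A) ↔ e.b ∉ run ∅ (wd A) := by
    rw [ka, kb] at hx
    simp only [true_or, or_true, iff_true] at hx
    tauto
  have e1 : wd (A ++ ([(c, e), (c + 1, e)] ++ B)) = wd A ++ (e :: e :: wd B) := by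
    unfold wd
    rw [List.map_append, List.map_append]
    rfl
  have e2 : wd (A ++ B) = wd A ++ wd B := by
    unfold wd
    rw [List.map_append]
  rw [e1, e2]
  exact LEq.left (wd A) (LEq.cancel e (wd B) hc)

theorem mvx {ω ω' : Set (Sym2 Pt)} {c : ℤ} {e : Ed} {ℓ ℓ' : List (ℤ × Ed)} (hG : Good ω) (hf : ω.Finite) (hG' : Good ω')
    (hf' : ω'.Finite) (h : ω' = symmDiff ω (PX c e))
    (hp : ¬ ((edgeAt c e ∈ ω ↔ edgeAt (c + 1) e ∈ ω) ∧ (xed c e.b ∈ ω ↔ xed c e.a ∈ ω)))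
    (hr : Rdg ω ℓ) (hr' : Rdg ω' ℓ') : LEq ∅ (wd ℓ) (wd ℓ') := by
  obtain ⟨A, B, hS⟩ := MvX_ex hf c e
  have hS' := MvX_S' hS
  rw [← h] at hS'
  have m1 : edgeAt c e ∈ ω' ↔ edgeAt c e ∉ ω := by
    rw [h, MvX_mem]
    tauto
  have m2 : edgeAt (c + 1) e ∈ ω' ↔ edgeAt (c + 1) e ∉ ω := by
    rw [h, MvX_mem]
    tauto
  have x1 : xed c e.a ∈ ω' ↔ xed c e.a ∉ ω := by
    rw [h]
    exact MvX_memx (Or.inl rfl)
  have x2 : xed c e.b ∈ ω' ↔ xed c e.b ∉ ω := by
    rw [h]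
    exact MvX_memx (Or.inr rfl)
  have ew : ∀ p : ℤ × Ed, wd (A ++ ([p] ++ B)) = wd A ++ (p.2 :: wd B) := by
    intro p
    unfold wd
    rw [List.map_append, List.map_append]
    rfl
  by_cases h1 : edgeAt c e ∈ ω
  · by_cases h2 : edgeAt (c + 1) e ∈ ω
    · have hx : ¬ (xed c e.b ∈ ω ↔ xed c e.a ∈ ω) := fun h' => hp ⟨⟨fun _ => h2, fun _ => h1⟩, h'⟩
      exact (rdg_leq hG hf hr (MvX_both hS h1 h2)).trans ((MvX_can hG hf hS h1 h2 hx).trans
        (rdg_leq hG' hf' (MvX_none hS' (fun h' => m1.1 h' h1) (fun h' => m2.1 h' h2)) hr'))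
    · have l1 := rdg_leq hG hf hr (MvX_one hS h1 h2)
      have l2 := rdg_leq hG' hf' (MvX_two hS' (fun h' => m1.1 h' h1) (m2.2 h2)) hr'
      rw [ew] at l1 l2
      exact l1.trans l2
  · by_cases h2 : edgeAt (c + 1) e ∈ ω
    · have l1 := rdg_leq hG hf hr (MvX_two hS h1 h2)
      have l2 := rdg_leq hG' hf' (MvX_one hS' (m1.2 h1) (fun h' => m2.1 h' h2)) hr'
      rw [ew] at l1 l2
      exact l1.trans l2
    · have hx : ¬ (xed c e.b ∈ ω' ↔ xed c e.a ∈ ω') := by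
        rw [x1, x2]
        intro h'
        exact hp ⟨⟨fun h'' => absurd h'' h1, fun h'' => absurd h'' h2⟩, by tauto⟩
      exact (rdg_leq hG hf hr (MvX_none hS h1 h2)).trans ((MvX_can hG' hf' hS' (m1.2 h1) (m2.2 h2) hx).symm.trans
        (rdg_leq hG' hf' (MvX_both hS' (m1.2 h1) (m2.2 h2)) hr'))

end Pool.Agent.Lib.MP_dd2c10_prF
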