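import Pool.Agent.Lib.MP_dd2c10_prF.Check

/-!
# Local moves of words do not change the diagrams: overlapping edges

All cases are checked with certificates (lists of replacements).
-/

namespace Pool.Agent.Lib.MP_dd2c10_prF

open Gen

/-- Local identity: the edges `Y n`, `Y (n + 1)`; `x0`, ..., `x3` belong to `n`, ..., `n + 3`. -/
theorem near_YY1 (p x0 x1 x2 x3 : Bool) :
    MEq (x0.toNat + x1.toNat + x2.toNat + x3.toNat)
      (locY p x0 x1 x2 ++ sh (!x0).toNat (locY (!p) x1 (!x2) x3))
      (sh x0.toNat (locY (!p) x1 x2 x3) ++ locY p x0 (!x1) x2) :=
  match p, x0, x1, x2, x3 with
  | false, false, false, false, false => runC_sound [(0, .far (cup 0) (cup 0), true), (1, .slideCup 0 false, true)] (by decide)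
  | false, false, false, false, true => runC_sound [(0, .slideCup 0 false, true)] (by decide)
  | false, false, false, true, false => runC_sound [(1, .r2 0 false, false)] (by decide)
  | false, false, false, true, true => runC_sound [(0, .r2 0 false, false)] (by decide)
  | false, false, true, false, false => runC_sound [(0, .slideCup 0 false, false), (1, .r2 1 false, true)] (by decide)
  | false, false, true, false, true => runC_sound [(0, .slideCup 0 false, false), (1, .r2 1 false, true), (0, .far (cup 0) (cap 0), true)] (by decide)
  | false, false, true, true, false => runC_sound [] (by decide)
  | false, false, true, true, true => runC_sound [] (by decide)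
  | false, true, false, false, false => runC_sound [] (by decide)
  | false, true, false, false, true => runC_sound [] (by decide)
  | false, true, false, true, false => runC_sound [(0, .far (cap 0) (cup 2), true), (1, .r2 1 false, false), (2, .slideCap 0 true, true)] (by decide)
  | false, true, false, true, true => runC_sound [(0, .r2 1 false, false), (1, .slideCap 0 true, true)] (by decide)
  | false, true, true, false, false => runC_sound [(0, .r2 0 false, true)] (by decide)
  | false, true, true, false, true => runC_sound [(0, .r2 0 false, true)] (by decide)
  | false, true, true, true, false => runC_sound [(0, .slideCap 0 true, false)] (by decide)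
  | false, true, true, true, true => runC_sound [(0, .slideCap 0 true, false), (1, .far (cap 0) (cap 2), true)] (by decide)
  | true, false, false, false, false => runC_sound [(0, .far (cup 0) (cup 0), true), (1, .slideCup 0 true, true)] (by decide)
  | true, false, false, false, true => runC_sound [(0, .slideCup 0 true, true)] (by decide)
  | true, false, false, true, false => runC_sound [(1, .r2 0 true, false)] (by decide)
  | true, false, false, true, true => runC_sound [(0, .r2 0 true, false)] (by decide)
  | true, false, true, false, false => runC_sound [(0, .slideCup 0 true, false), (1, .r2 1 true, true)] (by decide)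
  | true, false, true, false, true => runC_sound [(0, .slideCup 0 true, false), (1, .r2 1 true, true), (0, .far (cup 0) (cap 0), true)] (by decide)
  | true, false, true, true, false => runC_sound [] (by decide)
  | true, false, true, true, true => runC_sound [] (by decide)
  | true, true, false, false, false => runC_sound [] (by decide)
  | true, true, false, false, true => runC_sound [] (by decide)
  | true, true, false, true, false => runC_sound [(0, .far (cap 0) (cup 2), true), (1, .r2 1 true, false), (2, .slideCap 0 false, true)] (by decide)
  | true, true, false, true, true => runC_sound [(0, .r2 1 true, false), (1, .slideCap 0 false, true)] (by decide)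
  | true, true, true, false, false => runC_sound [(0, .r2 0 true, true)] (by decide)
  | true, true, true, false, true => runC_sound [(0, .r2 0 true, true)] (by decide)
  | true, true, true, true, false => runC_sound [(0, .slideCap 0 false, false)] (by decide)
  | true, true, true, true, true => runC_sound [(0, .slideCap 0 false, false), (1, .far (cap 0) (cap 2), true)] (by decide)

theorem near_YY1_valid (p x0 x1 x2 x3 : Bool) :
    Valid (x0.toNat + x1.toNat + x2.toNat + x3.toNat)
      (locY p x0 x1 x2 ++ sh (!x0).toNat (locY (!p) x1 (!x2) x3)) := by
  revert p x0 x1 x2 x3
  decide

/-- Local identity: the edges `Y n`, `Y (n + 2)`; no strand passes through `n + 2`. -/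
theorem near_YY2 (p x0 x1 x3 x4 : Bool) :
    MEq (x0.toNat + x1.toNat + x3.toNat + x4.toNat)
      (locY p x0 x1 false ++ sh ((!x0).toNat + x1.toNat) (locY p true x3 x4))
      (sh (x0.toNat + x1.toNat) (locY p false x3 x4) ++ locY p x0 x1 true) :=
  match p, x0, x1, x3, x4 with
  | false, false, false, false, false => runC_sound [] (by decide)
  | false, false, false, false, true => runC_sound [(0, .zag 0, true)] (by decide)
  | false, false, false, true, false => runC_sound [(0, .slideCup 0 false, true)] (by decide)
  | false, false, false, true, true => runC_sound [(0, .slideCup 0 false, true), (1, .far (cross 0 true) (cap 2), true), (0, .zag 1, true)] (by decide)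
  | false, false, true, false, false => runC_sound [] (by decide)
  | false, false, true, false, true => runC_sound [(1, .far (cross 0 true) (cap 2), true), (0, .zag 1, true)] (by decide)
  | false, false, true, true, false => runC_sound [(1, .far (cross 0 true) (cross 2 false), true), (0, .slideCup 1 false, true)] (by decide)
  | false, false, true, true, true => runC_sound [(1, .far (cross 0 true) (cross 2 false), true), (0, .slideCup 1 false, true), (2, .far (cross 0 true) (cap 3), true), (1, .far (cross 1 true) (cap 3), true), (0, .zag 2, true)] (by decide)
  | false, true, false, false, false => runC_sound [(0, .zig 0, false)] (by decide)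
  | false, true, false, false, true => runC_sound [] (by decide)
  | false, true, false, true, false => runC_sound [(0, .zig 0, false), (1, .far (cap 0) (cross 2 false), true), (0, .slideCup 1 false, true)] (by decide)
  | false, true, false, true, true => runC_sound [(0, .slideCap 0 true, false)] (by decide)
  | false, true, true, false, false => runC_sound [(1, .zig 1, false), (0, .far (cross 0 false) (cup 2), true)] (by decide)
  | false, true, true, false, true => runC_sound [] (by decide)
  | false, true, true, true, false => runC_sound [(1, .zig 1, false), (2, .far (cap 1) (cross 3 false), true), (0, .far (cross 0 false) (cup 2), true), (1, .far (cross 0 false) (cross 3 false), true), (0, .slideCup 2 false, true)] (by decide)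
  | false, true, true, true, true => runC_sound [(1, .slideCap 1 true, false), (0, .far (cross 0 false) (cross 2 true), true)] (by decide)
  | true, false, false, false, false => runC_sound [] (by decide)
  | true, false, false, false, true => runC_sound [(0, .zag 0, true)] (by decide)
  | true, false, false, true, false => runC_sound [(0, .slideCup 0 true, true)] (by decide)
  | true, false, false, true, true => runC_sound [(0, .slideCup 0 true, true), (1, .far (cross 0 false) (cap 2), true), (0, .zag 1, true)] (by decide)
  | true, false, true, false, false => runC_sound [] (by decide)
  | true, false, true, false, true => runC_sound [(1, .far (cross 0 false) (cap 2), true), (0, .zag 1, true)] (by decide)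
  | true, false, true, true, false => runC_sound [(1, .far (cross 0 false) (cross 2 true), true), (0, .slideCup 1 true, true)] (by decide)
  | true, false, true, true, true => runC_sound [(1, .far (cross 0 false) (cross 2 true), true), (0, .slideCup 1 true, true), (2, .far (cross 0 false) (cap 3), true), (1, .far (cross 1 false) (cap 3), true), (0, .zag 2, true)] (by decide)
  | true, true, false, false, false => runC_sound [(0, .zig 0, false)] (by decide)
  | true, true, false, false, true => runC_sound [] (by decide)
  | true, true, false, true, false => runC_sound [(0, .zig 0, false), (1, .far (cap 0) (cross 2 true), true), (0, .slideCup 1 true, true)] (by decide)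
  | true, true, false, true, true => runC_sound [(0, .slideCap 0 false, false)] (by decide)
  | true, true, true, false, false => runC_sound [(1, .zig 1, false), (0, .far (cross 0 true) (cup 2), true)] (by decide)
  | true, true, true, false, true => runC_sound [] (by decide)
  | true, true, true, true, false => runC_sound [(1, .zig 1, false), (2, .far (cap 1) (cross 3 true), true), (0, .far (cross 0 true) (cup 2), true), (1, .far (cross 0 true) (cross 3 true), true), (0, .slideCup 2 true, true)] (by decide)
  | true, true, true, true, true => runC_sound [(1, .slideCap 1 false, false), (0, .far (cross 0 true) (cross 2 false), true)] (by decide)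

theorem near_YY2_valid (p x0 x1 x3 x4 : Bool) :
    Valid (x0.toNat + x1.toNat + x3.toNat + x4.toNat)
      (locY p x0 x1 false ++ sh ((!x0).toNat + x1.toNat) (locY p true x3 x4)) := by
  revert p x0 x1 x3 x4
  decide

/-- Local identity: the edges `Y (2 y)`, `Z y`; no strand passes through `2 y`. -/
theorem near_YZa (x1 x2 : Bool) :
    MEq (x1.toNat + x2.toNat)
      (locY false false x1 x2 ++ locZ true x1)
      (locZ false x1 ++ locY false true (!x1) x2) :=
  match x1, x2 with
  | false, false => runC_sound [(0, .r1 0 false, false)] (by decide)
  | false, true => runC_sound [(0, .zag 0, false), (0, .r1 0 false, false)] (by decide)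
  | true, false => runC_sound [(1, .r1' 0 true, true), (0, .zig 0, true)] (by decide)
  | true, true => runC_sound [(0, .r1' 0 true, true)] (by decide)

theorem near_YZa_valid (x1 x2 : Bool) :
    Valid (x1.toNat + x2.toNat)
      (locY false false x1 x2 ++ locZ true x1) := by
  revert x1 x2
  decide

/-- Local identity: the edges `Y (2 y + 1)`, `Z y`; no strand passes through `2 y + 1`. -/
theorem near_YZb (x0 x2 x3 : Bool) :
    MEq (x0.toNat + x2.toNat + x3.toNat)
      (sh x0.toNat (locY true false x2 x3) ++ locZ x0 true)
      (locZ x0 false ++ sh (!x0).toNat (locY true true x2 x3)) :=
  match x0, x2, x3 with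
  | false, false, false => runC_sound [] (by decide)
  | false, false, true => runC_sound [(0, .zag 0, false)] (by decide)
  | false, true, false => runC_sound [(0, .slideCup 0 true, false)] (by decide)
  | false, true, true => runC_sound [(0, .zag 1, false), (1, .far (cross 0 false) (cap 2), false), (0, .slideCup 0 true, false)] (by decide)
  | true, false, false => runC_sound [(0, .zig 0, true)] (by decide)
  | true, false, true => runC_sound [] (by decide)
  | true, true, false => runC_sound [(0, .slideCup 1 true, false), (1, .far (cap 0) (cross 2 true), false), (0, .zig 0, true)] (by decide)
  | true, true, true => runC_sound [(0, .slideCap 0 false, true)] (by decide)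

theorem near_YZb_valid (x0 x2 x3 : Bool) :
    Valid (x0.toNat + x2.toNat + x3.toNat)
      (sh x0.toNat (locY true false x2 x3) ++ locZ x0 true) := by
  revert x0 x2 x3
  decide

/-- Local identity: the edges `Y (2 y - 1)`, `Z y`; no strand passes through `2 y + 1`. -/
theorem near_YZc (x0 x1 : Bool) :
    MEq (x0.toNat + x1.toNat)
      (locY true x0 x1 false ++ sh (!x0).toNat (locZ x1 true))
      (sh x0.toNat (locZ x1 false) ++ locY true x0 (!x1) true) :=
  match x0, x1 with
  | false, false => runC_sound [(0, .r1 0 false, false)] (by decide)
  | false, true => runC_sound [(0, .slideCup 0 true, false), (1, .r1' 1 true, true), (0, .zag 0, true)] (by decide)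
  | true, false => runC_sound [(0, .zig 0, false), (0, .r1 1 false, false), (1, .slideCap 0 false, true)] (by decide)
  | true, true => runC_sound [(0, .r1' 0 true, true)] (by decide)

theorem near_YZc_valid (x0 x1 : Bool) :
    Valid (x0.toNat + x1.toNat)
      (locY true x0 x1 false ++ sh (!x0).toNat (locZ x1 true)) := by
  revert x0 x1
  decide

/-- Local identity: the edges `Y (2 y - 2)`, `Z y`; no strand passes through `2 y`. -/
theorem near_YZd (x0 x1 x3 : Bool) :
    MEq (x0.toNat + x1.toNat + x3.toNat)
      (locY false x0 x1 false ++ sh ((!x0).toNat + x1.toNat) (locZ true x3))
      (sh (x0.toNat + x1.toNat) (locZ false x3) ++ locY false x0 x1 true) :=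
  match x0, x1, x3 with
  | false, false, false => runC_sound [] (by decide)
  | false, false, true => runC_sound [(0, .zag 0, true)] (by decide)
  | false, true, false => runC_sound [] (by decide)
  | false, true, true => runC_sound [(1, .far (cross 0 true) (cap 2), true), (0, .zag 1, true)] (by decide)
  | true, false, false => runC_sound [(0, .zig 0, false)] (by decide)
  | true, false, true => runC_sound [] (by decide)
  | true, true, false => runC_sound [(1, .zig 1, false), (0, .far (cross 0 false) (cup 2), true)] (by decide)
  | true, true, true => runC_sound [] (by decide)

theorem near_YZd_valid (x0 x1 x3 : Bool) :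
    Valid (x0.toNat + x1.toNat + x3.toNat)
      (locY false x0 x1 false ++ sh ((!x0).toNat + x1.toNat) (locZ true x3)) := by
  revert x0 x1 x3
  decide

/-- Local identity: the square move; no strands pass through `2 y` and `2 y + 3`. -/
theorem near_sqa (x1 x2 : Bool) :
    MEq (x1.toNat + x2.toNat)
      (locY false false x1 x2 ++ locZ true x1)
      (locY true x1 x2 false ++ sh (!x1).toNat (locZ x2 true)) :=
  match x1, x2 with
  | false, false => runC_sound [] (by decide)
  | false, true => runC_sound [(0, .zig 0, false), (0, .r1 1 true, false), (1, .slideCap 0 true, true)] (by decide)
  | true, false => runC_sound [(1, .r1' 0 true, true), (0, .zig 0, true)] (by decide)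
  | true, true => runC_sound [] (by decide)

theorem near_sqa_valid (x1 x2 : Bool) :
    Valid (x1.toNat + x2.toNat)
      (locY false false x1 x2 ++ locZ true x1) := by
  revert x1 x2
  decide

/-- Local identity: the square move; no strands pass through `2 y + 1` and `2 y + 2`. -/
theorem near_sqb (x0 x3 : Bool) :
    MEq (x0.toNat + x3.toNat)
      (locY false x0 false false ++ sh (!x0).toNat (locZ true x3))
      (locZ x0 false ++ sh (!x0).toNat (locY true true false x3)) :=
  match x0, x3 with
  | false, false => runC_sound [] (by decide)
  | false, true => runC_sound [] (by decide)
  | true, false => runC_sound [] (by decide)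
  | true, true => runC_sound [] (by decide)

theorem near_sqb_valid (x0 x3 : Bool) :
    Valid (x0.toNat + x3.toNat)
      (locY false x0 false false ++ sh (!x0).toNat (locZ true x3)) := by
  revert x0 x3
  decide

end Pool.Agent.Lib.MP_dd2c10_prF
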