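import Pool.Agent.Lib.MP_dd2c10_prF.Surg
import Pool.Agent.Lib.MP_dd2c10_prF.GoodE

/-! JOB PE (MP_dd2c10_pr): elementary moves across the squares of the slab.

`PX c e`: the square `e × [c, c + 1]`. `PS c y`: the square of the column `c` with the corners `2 y, 2 y + 2, 2 y + 3, 2 y + 1`. `PE ω ω'`: `ω` is a polygon if and only if `ω'` is one, and
then they are in the same class.

PROOFS.
* `elem_of_moveData`: the third component of `ElemMove` is `v, i, j`; `ω' = symmDiff ω (plaquette v i j)` from `hm.diff` (`Set.ext`, `Set.mem_symmDiff`) and `hp`. Pattern: rewrite with `hp`. From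
  `hm.pat` one of the twelve patterns; the intersection `ω ∩ {..}` is `{one side}` (`ncard = 1`), `{two adjacent sides}` (third alternative: for `A B, B C`: `x = A, y = B, z = C`,
  `x ≠ z` from `hm.ac`; for `D A, A B`: `x = D, y = A, z = B`, ...) or three sides (`ncard = 3`, the sides are different: compare with the
  proof of `sym2_inter_pattern` in `Moves.lean`). Prove `ω ∩ {..} = ..` by `ext` and cases as there.
* `moveData_x`: corners `A = pt c e.a`, `B = pt c e.b`, `C = pt (c + 1) e.b`, `D = pt (c + 1) e.a`: `s(A, B) = edgeAt c e`, `s(B, C) = xed c e.b`, `s(C, D) = edgeAt (c + 1) e` (`Sym2.eq_swap`),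
  `s(D, A) = xed c e.a` (`Sym2.eq_swap`). Corners different by `pt_inj`, `a_ne_b`.
* `plaq_x`: there are `v, i, j` with `plaquette v i j = {s(A, B), s(B, C), s(C, D), s(D, A)}`: `e = Y n`: `v = pt c n`, `i = 0`, `j = 1`; `e = Z y`: `v = pt c (2 y)`, `i = 0`, `j = 2`. Unfold
  `plaquette`, `unitVec`, `pt`; compute the points (`(n + 2) / 2 = n / 2 + 1`, ... by `omega`), then `Set.ext` with `Sym2.eq_swap`.
* `moveData_s`, `plaq_s`: corners `A = pt c (2 y)`, `B = pt c (2 y + 2)`, `C = pt c (2 y + 3)`, `D = pt c (2 y + 1)`; `s(A, B) = edgeAt c (Y (2 y))`, `s(B, C) = edgeAt c (Z (y + 1))`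
  (`2 (y + 1) = 2 y + 2`), `s(C, D) = edgeAt c (Y (2 y + 1))`, `s(D, A) = edgeAt c (Z y)`; `v = A`, `i = 1`, `j = 2`.
* `pe_x`, `pe_s`: `surg` in both directions (`hm.symm`), `elem_of_moveData`, `Relation.EqvGen.rel`.
* `PE.refl`, `symm`, `trans`. -/

namespace Pool.Agent.Lib.MP_dd2c10_prF

open Pool.Agent.Lib.MP_dd2c10_pr Ed

/-- The square `e × [c, c + 1]`. -/
def PX (c : ℤ) (e : Ed) : Set (Sym2 Pt) := {edgeAt c e, xed c e.b, edgeAt (c + 1) e, xed c e.a}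

/-- The square with the number `y` of the column `c`. -/
def PS (c y : ℤ) : Set (Sym2 Pt) :=
  {edgeAt c (Y (2 * y)), edgeAt c (Z (y + 1)), edgeAt c (Y (2 * y + 1)), edgeAt c (Z y)}

/-- `ω` is a polygon if and only if `ω'` is one, and then they are in the same class. -/
def PE (ω ω' : Set (Sym2 Pt)) : Prop := (IsPolygon 1 ω ↔ IsPolygon 1 ω') ∧ (IsPolygon 1 ω → SameClass 1 ω ω')

theorem PE.refl (ω : Set (Sym2 Pt)) : PE ω ω := ⟨Iff.rfl, fun _ => Relation.EqvGen.refl _⟩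

theorem PE.symm {ω ω' : Set (Sym2 Pt)} (h : PE ω ω') : PE ω' ω :=
  ⟨h.1.symm, fun h' => Relation.EqvGen.symm _ _ (h.2 (h.1.2 h'))⟩

theorem PE.trans {ω ω' ω'' : Set (Sym2 Pt)} (h : PE ω ω') (h' : PE ω' ω'') : PE ω ω'' :=
  ⟨h.1.trans h'.1, fun h1 => Relation.EqvGen.trans _ _ _ (h.2 h1) (h'.2 (h.1.1 h1))⟩

private theorem PE_int {ω P Q : Set (Sym2 Pt)} (hQ : ∀ e ∈ Q, e ∈ P) (h : ∀ e ∈ P, e ∈ ω ↔ e ∈ Q) : ω ∩ P = Q := by
  ext e
  constructor
  · rintro ⟨h1, h2⟩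
    exact (h e h2).1 h1
  · intro h1
    exact ⟨(h e (hQ e h1)).2 h1, hQ e h1⟩

/-- the three patterns -/
private def PE_Pat (ω P : Set (Sym2 Pt)) : Prop :=
  (ω ∩ P).ncard = 1 ∨ (ω ∩ P).ncard = 3 ∨ ∃ x y z : Pt, x ≠ z ∧ ω ∩ P = {s(x, y), s(y, z)}

private theorem PE_one {ω : Set (Sym2 Pt)} {a b c d : Sym2 Pt} (h1 : a ∈ ω) (h2 : b ∉ ω) (h3 : c ∉ ω) (h4 : d ∉ ω) :
    PE_Pat ω {a, b, c, d} := by
  left
  rw [PE_int (Q := {a})]
  · exact Set.ncard_singleton a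
  · rintro e rfl
    exact Or.inl rfl
  · rintro e (rfl | rfl | rfl | rfl)
    · exact ⟨fun _ => rfl, fun _ => h1⟩
    · exact ⟨fun h => absurd h h2, fun h => absurd (by rw [Set.mem_singleton_iff] at h; rw [h]; exact h1) h2⟩
    · exact ⟨fun h => absurd h h3, fun h => absurd (by rw [Set.mem_singleton_iff] at h; rw [h]; exact h1) h3⟩
    · exact ⟨fun h => absurd h h4, fun h => absurd (by rw [Set.mem_singleton_iff] at h; rw [h]; exact h1) h4⟩

private theorem PE_two {ω : Set (Sym2 Pt)} {x y z : Pt} {c d : Sym2 Pt} (hxz : x ≠ z) (h1 : s(x, y) ∈ ω) (h2 : s(y, z) ∈ ω)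
    (h3 : c ∉ ω) (h4 : d ∉ ω) : PE_Pat ω {s(x, y), s(y, z), c, d} := by
  right
  right
  refine ⟨x, y, z, hxz, PE_int ?_ ?_⟩
  · rintro e (rfl | rfl)
    · exact Or.inl rfl
    · exact Or.inr (Or.inl rfl)
  · rintro e (rfl | rfl | rfl | rfl)
    · exact ⟨fun _ => Or.inl rfl, fun _ => h1⟩
    · exact ⟨fun _ => Or.inr rfl, fun _ => h2⟩
    · refine ⟨fun h => absurd h h3, ?_⟩
      rintro (h | h)
      · rw [h]
        exact h1
      · rw [Set.mem_singleton_iff] at h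
        rw [h]
        exact h2
    · refine ⟨fun h => absurd h h4, ?_⟩
      rintro (h | h)
      · rw [h]
        exact h1
      · rw [Set.mem_singleton_iff] at h
        rw [h]
        exact h2

private theorem PE_three {ω : Set (Sym2 Pt)} {a b c d : Sym2 Pt} (hab : a ≠ b) (hac : a ≠ c) (hbc : b ≠ c)
    (h1 : a ∈ ω) (h2 : b ∈ ω) (h3 : c ∈ ω) (h4 : d ∉ ω) : PE_Pat ω {a, b, c, d} := by
  right
  left
  rw [PE_int (Q := {a, b, c})]
  · rw [Set.ncard_insert_of_notMem (by simp [hab, hac]), Set.ncard_pair hbc]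
  · rintro e (rfl | rfl | rfl)
    · exact Or.inl rfl
    · exact Or.inr (Or.inl rfl)
    · exact Or.inr (Or.inr (Or.inl rfl))
  · rintro e (rfl | rfl | rfl | rfl)
    · exact ⟨fun _ => Or.inl rfl, fun _ => h1⟩
    · exact ⟨fun _ => Or.inr (Or.inl rfl), fun _ => h2⟩
    · exact ⟨fun _ => Or.inr (Or.inr rfl), fun _ => h3⟩
    · refine ⟨fun h => absurd h h4, ?_⟩
      rintro (h | h | h)
      · rw [h]
        exact h1
      · rw [h]
        exact h2
      · rw [Set.mem_singleton_iff] at h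
        rw [h]
        exact h3

private theorem PE_rot (a b c d : Sym2 Pt) : ({a, b, c, d} : Set (Sym2 Pt)) = {b, c, d, a} := by
  ext e
  simp only [Set.mem_insert_iff, Set.mem_singleton_iff]
  tauto

private theorem PE_sides {A B C : Pt} (hAB : A ≠ B) (hAC : A ≠ C) : s(A, B) ≠ s(B, C) := by
  rw [Ne, Sym2.eq_iff]
  rintro (⟨h1, -⟩ | ⟨h1, -⟩)
  · exact hAB h1
  · exact hAC h1

private theorem PE_opp {A B C D : Pt} (hAC : A ≠ C) (hAD : A ≠ D) : s(A, B) ≠ s(C, D) := by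
  rw [Ne, Sym2.eq_iff]
  rintro (⟨h1, -⟩ | ⟨h1, -⟩)
  · exact hAC h1
  · exact hAD h1

/-- the pattern up to rotation -/
private theorem PE_pat1 {ω ω' : Set (Sym2 Pt)} {A B C D : Pt} (hm : MoveData ω ω' A B C D) (h1 : s(A, B) ∈ ω)
    (h4 : s(D, A) ∉ ω) : PE_Pat ω {s(A, B), s(B, C), s(C, D), s(D, A)} := by
  by_cases h2 : s(B, C) ∈ ω
  · by_cases h3 : s(C, D) ∈ ω
    · exact PE_three (PE_sides hm.ab hm.ac) (PE_opp hm.ac hm.ad) (PE_sides hm.bc hm.bd) h1 h2 h3 h4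
    · exact PE_two hm.ac h1 h2 h3 h4
  · by_cases h3 : s(C, D) ∈ ω
    · exact absurd ⟨⟨fun _ => h3, fun _ => h1⟩, ⟨fun h => absurd h h2, fun h => absurd h h4⟩⟩ hm.pat
    · exact PE_one h1 h2 h3 h4

private theorem PE_pat {ω ω' : Set (Sym2 Pt)} {A B C D : Pt} (hm : MoveData ω ω' A B C D) :
    PE_Pat ω {s(A, B), s(B, C), s(C, D), s(D, A)} := by
  by_cases h1 : s(A, B) ∈ ω
  · by_cases h4 : s(D, A) ∈ ω
    · by_cases h3 : s(C, D) ∈ ω
      · -- then `B C` is not in `ω`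
        have h2 : s(B, C) ∉ ω := fun h2 => hm.pat ⟨⟨fun _ => h3, fun _ => h1⟩, ⟨fun _ => h4, fun _ => h2⟩⟩
        have := PE_pat1 hm.rot.rot h3 h2
        rw [PE_rot, PE_rot]
        exact this
      · have := PE_pat1 hm.rot.rot.rot h4 h3
        rw [PE_rot, PE_rot, PE_rot]
        exact this
    · exact PE_pat1 hm h1 h4
  · by_cases h2 : s(B, C) ∈ ω
    · have := PE_pat1 hm.rot h2 h1
      rw [PE_rot]
      exact this
    · by_cases h3 : s(C, D) ∈ ω
      · have := PE_pat1 hm.rot.rot h3 h2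
        rw [PE_rot, PE_rot]
        exact this
      · by_cases h4 : s(D, A) ∈ ω
        · have := PE_pat1 hm.rot.rot.rot h4 h3
          rw [PE_rot, PE_rot, PE_rot]
          exact this
        · exact absurd ⟨⟨fun h => absurd h h1, fun h => absurd h h3⟩, ⟨fun h => absurd h h2, fun h => absurd h h4⟩⟩ hm.pat

theorem elem_of_moveData {ω ω' : Set (Sym2 Pt)} {A B C D : Pt} (h : IsPolygon 1 ω) (h' : IsPolygon 1 ω')
    (hm : MoveData ω ω' A B C D) {v : Pt} {i j : Fin 3} (hij : i ≠ j)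
    (hp : plaquette v i j = {s(A, B), s(B, C), s(C, D), s(D, A)}) : ElemMove 1 ω ω' := by
  refine ⟨h, h', v, i, j, hij, ?_, ?_⟩
  · ext e
    rw [hp, hm.diff, Set.mem_symmDiff]
    simp only [Set.mem_insert_iff, Set.mem_singleton_iff]
    tauto
  · rw [hp]
    exact PE_pat hm

private theorem PE_of {ω ω' : Set (Sym2 Pt)} {A B C D : Pt} (hm : MoveData ω ω' A B C D) {v : Pt} {i j : Fin 3}
    (hij : i ≠ j) (hp : plaquette v i j = {s(A, B), s(B, C), s(C, D), s(D, A)}) : PE ω ω' :=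
  ⟨⟨fun h => surg h hm, fun h => surg h hm.symm⟩, fun h =>
    Relation.EqvGen.rel _ _ (elem_of_moveData h (surg h hm) hm hij hp)⟩

private theorem PE_X (c : ℤ) (e : Ed) : PX c e =
    {s(pt c e.a, pt c e.b), s(pt c e.b, pt (c + 1) e.b), s(pt (c + 1) e.b, pt (c + 1) e.a), s(pt (c + 1) e.a, pt c e.a)} := by
  rw [Sym2.eq_swap (a := pt (c + 1) e.b), Sym2.eq_swap (a := pt (c + 1) e.a) (b := pt c e.a)]
  rfl

private theorem PE_moveX {ω : Set (Sym2 Pt)} {c : ℤ} {e : Ed} (g : Good ω) (g' : Good (symmDiff ω (PX c e)))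
    (hp : ¬ ((edgeAt c e ∈ ω ↔ edgeAt (c + 1) e ∈ ω) ∧ (xed c e.b ∈ ω ↔ xed c e.a ∈ ω))) :
    MoveData ω (symmDiff ω (PX c e)) (pt c e.a) (pt c e.b) (pt (c + 1) e.b) (pt (c + 1) e.a) := by
  have hab := a_ne_b e
  refine ⟨g, g', ?_, ?_, ?_, ?_, ?_, ?_, fun x => ?_, ?_⟩
  · intro h
    exact hab (pt_inj.1 h).2
  · intro h
    have := (pt_inj.1 h).1
    omega
  · intro h
    have := (pt_inj.1 h).1
    omega
  · intro h
    have := (pt_inj.1 h).1
    omega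
  · intro h
    have := (pt_inj.1 h).1
    omega
  · intro h
    exact hab (pt_inj.1 h).2.symm
  · rw [Set.mem_symmDiff, PE_X]
    simp only [Set.mem_insert_iff, Set.mem_singleton_iff]
    tauto
  · rw [Sym2.eq_swap (a := pt (c + 1) e.b), Sym2.eq_swap (a := pt (c + 1) e.a) (b := pt c e.a)]
    exact hp

private theorem PE_plaqX (c : ℤ) (e : Ed) : ∃ (v : Pt) (i j : Fin 3), i ≠ j ∧ plaquette v i j =
    {s(pt c e.a, pt c e.b), s(pt c e.b, pt (c + 1) e.b), s(pt (c + 1) e.b, pt (c + 1) e.a), s(pt (c + 1) e.a, pt c e.a)} := by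
  cases e with
  | Y n =>
    refine ⟨pt c n, 1, 0, by decide, ?_⟩
    have h1 : pt c n + unitVec 1 = pt c (n + 2) := by
      show ((c + 0, n / 2 + 1, n % 2 + 0) : ℤ × ℤ × ℤ) = (c, (n + 2) / 2, (n + 2) % 2)
      refine Prod.ext (by show c + 0 = c; omega) (Prod.ext ?_ ?_)
      · show n / 2 + 1 = (n + 2) / 2
        omega
      · show n % 2 + 0 = (n + 2) % 2
        omega
    have h2 : ∀ m, pt c m + unitVec 0 = pt (c + 1) m := by
      intro m
      show ((c + 1, m / 2 + 0, m % 2 + 0) : ℤ × ℤ × ℤ) = (c + 1, m / 2, m % 2)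
      rw [add_zero, add_zero]
    show plaquette (pt c n) 1 0 = {s(pt c n, pt c (n + 2)), s(pt c (n + 2), pt (c + 1) (n + 2)),
      s(pt (c + 1) (n + 2), pt (c + 1) n), s(pt (c + 1) n, pt c n)}
    unfold plaquette
    rw [h1, h2, h2]
  | Z y =>
    refine ⟨pt c (2 * y), 2, 0, by decide, ?_⟩
    have h1 : pt c (2 * y) + unitVec 2 = pt c (2 * y + 1) := by
      refine Prod.ext (by show c + 0 = c; omega) (Prod.ext ?_ ?_)
      · show 2 * y / 2 + 0 = (2 * y + 1) / 2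
        omega
      · show 2 * y % 2 + 1 = (2 * y + 1) % 2
        omega
    have h2 : ∀ m, pt c m + unitVec 0 = pt (c + 1) m := by
      intro m
      show ((c + 1, m / 2 + 0, m % 2 + 0) : ℤ × ℤ × ℤ) = (c + 1, m / 2, m % 2)
      rw [add_zero, add_zero]
    show plaquette (pt c (2 * y)) 2 0 = {s(pt c (2 * y), pt c (2 * y + 1)), s(pt c (2 * y + 1), pt (c + 1) (2 * y + 1)),
      s(pt (c + 1) (2 * y + 1), pt (c + 1) (2 * y)), s(pt (c + 1) (2 * y), pt c (2 * y))}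
    unfold plaquette
    rw [h1, h2, h2]

private theorem PE_es (c y : ℤ) : edgeAt c (Y (2 * y)) = s(pt c (2 * y), pt c (2 * y + 2)) ∧
    edgeAt c (Z (y + 1)) = s(pt c (2 * y + 2), pt c (2 * y + 3)) ∧
    edgeAt c (Y (2 * y + 1)) = s(pt c (2 * y + 3), pt c (2 * y + 1)) ∧
    edgeAt c (Z y) = s(pt c (2 * y + 1), pt c (2 * y)) := by
  refine ⟨rfl, ?_, ?_, Sym2.eq_swap⟩
  · show s(pt c (2 * (y + 1)), pt c (2 * (y + 1) + 1)) = s(pt c (2 * y + 2), pt c (2 * y + 3))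
    rw [show 2 * (y + 1) = 2 * y + 2 by ring, show 2 * y + 2 + 1 = 2 * y + 3 by ring]
  · show s(pt c (2 * y + 1), pt c (2 * y + 1 + 2)) = s(pt c (2 * y + 3), pt c (2 * y + 1))
    rw [Sym2.eq_swap, show 2 * y + 1 + 2 = 2 * y + 3 by ring]

private theorem PE_S (c y : ℤ) : PS c y =
    {s(pt c (2 * y), pt c (2 * y + 2)), s(pt c (2 * y + 2), pt c (2 * y + 3)), s(pt c (2 * y + 3), pt c (2 * y + 1)),
      s(pt c (2 * y + 1), pt c (2 * y))} := by
  obtain ⟨h1, h2, h3, h4⟩ := PE_es c y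
  unfold PS
  rw [h1, h2, h3, h4]

private theorem PE_moveS {ω : Set (Sym2 Pt)} {c y : ℤ} (g : Good ω) (g' : Good (symmDiff ω (PS c y)))
    (hp : ¬ ((edgeAt c (Y (2 * y)) ∈ ω ↔ edgeAt c (Y (2 * y + 1)) ∈ ω) ∧
      (edgeAt c (Z (y + 1)) ∈ ω ↔ edgeAt c (Z y) ∈ ω))) :
    MoveData ω (symmDiff ω (PS c y)) (pt c (2 * y)) (pt c (2 * y + 2)) (pt c (2 * y + 3)) (pt c (2 * y + 1)) := by
  obtain ⟨h1, h2, h3, h4⟩ := PE_es c y
  rw [h1, h2, h3, h4] at hp
  refine ⟨g, g', ?_, ?_, ?_, ?_, ?_, ?_, fun x => ?_, hp⟩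
  · intro h
    have := (pt_inj.1 h).2
    omega
  · intro h
    have := (pt_inj.1 h).2
    omega
  · intro h
    have := (pt_inj.1 h).2
    omega
  · intro h
    have := (pt_inj.1 h).2
    omega
  · intro h
    have := (pt_inj.1 h).2
    omega
  · intro h
    have := (pt_inj.1 h).2
    omega
  · rw [Set.mem_symmDiff, PE_S]
    simp only [Set.mem_insert_iff, Set.mem_singleton_iff]
    tauto

private theorem PE_plaqS (c y : ℤ) : plaquette (pt c (2 * y)) 1 2 =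
    {s(pt c (2 * y), pt c (2 * y + 2)), s(pt c (2 * y + 2), pt c (2 * y + 3)), s(pt c (2 * y + 3), pt c (2 * y + 1)),
      s(pt c (2 * y + 1), pt c (2 * y))} := by
  have h1 : pt c (2 * y) + unitVec 1 = pt c (2 * y + 2) := by
    refine Prod.ext (by show c + 0 = c; omega) (Prod.ext ?_ ?_)
    · show 2 * y / 2 + 1 = (2 * y + 2) / 2
      omega
    · show 2 * y % 2 + 0 = (2 * y + 2) % 2
      omega
  have h2 : pt c (2 * y + 2) + unitVec 2 = pt c (2 * y + 3) := by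
    refine Prod.ext (by show c + 0 = c; omega) (Prod.ext ?_ ?_)
    · show (2 * y + 2) / 2 + 0 = (2 * y + 3) / 2
      omega
    · show (2 * y + 2) % 2 + 1 = (2 * y + 3) % 2
      omega
  have h3 : pt c (2 * y) + unitVec 2 = pt c (2 * y + 1) := by
    refine Prod.ext (by show c + 0 = c; omega) (Prod.ext ?_ ?_)
    · show 2 * y / 2 + 0 = (2 * y + 1) / 2
      omega
    · show 2 * y % 2 + 1 = (2 * y + 1) % 2
      omega
  unfold plaquette
  rw [h1, h2, h3]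

theorem pe_x {ω : Set (Sym2 Pt)} {c : ℤ} {e : Ed} (g : Good ω) (g' : Good (symmDiff ω (PX c e)))
    (hp : ¬ ((edgeAt c e ∈ ω ↔ edgeAt (c + 1) e ∈ ω) ∧ (xed c e.b ∈ ω ↔ xed c e.a ∈ ω))) :
    PE ω (symmDiff ω (PX c e)) := by
  obtain ⟨v, i, j, hij, h⟩ := PE_plaqX c e
  exact PE_of (PE_moveX g g' hp) hij h

theorem pe_s {ω : Set (Sym2 Pt)} {c y : ℤ} (g : Good ω) (g' : Good (symmDiff ω (PS c y)))
    (hp : ¬ ((edgeAt c (Y (2 * y)) ∈ ω ↔ edgeAt c (Y (2 * y + 1)) ∈ ω) ∧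
      (edgeAt c (Z (y + 1)) ∈ ω ↔ edgeAt c (Z y) ∈ ω))) : PE ω (symmDiff ω (PS c y)) := by
  exact PE_of (PE_moveS g g' hp) (by decide) (PE_plaqS c y)

end Pool.Agent.Lib.MP_dd2c10_prF
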