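import Pool.Agent.Lib.MP_dd2c10_pr.Moves
import Pool.Agent.Lib.MP_dd2c10_prF.Lad

/-! JOB Pl (MP_dd2c10_pr): edges of the lattice and placed words.

A placed word is a list of pairs `(c, e)`: the ladder edge `e` in the column `c` (the plane `x = c`). `V c e` is the edge `e` in the column `c`
together with the two rays of `x`-edges to the right of its ends. `ES ℓ` is the symmetric difference of the sets `V c e`, `(c, e) ∈ ℓ`.

PROOFS.
* `pt_inj`: `n = 2 (n / 2) + n % 2` (`omega` after `Prod.mk.injEq`). `edgeAt_inj`, `xed_inj`, `edgeAt_ne_xed`: `Sym2.eq_iff`, `pt_inj`, then `omega` /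
  `Ed.a_lt_b`, `Ed.ext`. `adj_edgeAt`, `adj_xed`: unfold `cubic`, cases on `e`; `(n + 2) / 2 = n / 2 + 1`, `(n + 2) % 2 = n % 2`,
  `2 * y / 2 = y` etc. by `omega`; then `abs` of small numbers by `simp`/`norm_num`.
* `exists_pt`: `u = (c, y, z)`, `n = 2 y + z`, `z = 0` or `1`. `edge_cases`: write `u = pt c n`, `v = pt c' n'`. The sum of three absolute values is `1`, so exactly
  one coordinate differs, by one (`omega` after splitting the absolute values with `abs_cases` or `Int.natAbs`): `x`: `xed`; `y`: `edgeAt c (Y n)` or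
  `edgeAt c (Y n')`; `z`: `edgeAt c (Z (n / 2))`. Use `Sym2.eq_swap` for the second orientation.
* `es_append`, `es_perm`: symmetric difference is associative and commutative (`symmDiff_assoc`, `symmDiff_comm`, `List.Perm.rec`).
* `mem_V_edge`: `edgeAt c' f ∈ V c e ↔ c' = c ∧ f = e`. `mem_V_xed`: `xed c' n ∈ V c e ↔ c ≤ c' ∧ (n = e.a ∨ n = e.b)`.
* `mem_es_xed`: induction on `ℓ`; both sides toggle exactly if `p.1 ≤ c` and `n` is an end of `p.2`. For this prove by induction that membership in `run T w`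
  is: `n ∈ run T w ↔ ¬ (n ∈ T ↔ Odd #{e ∈ w | n is an end of e})`, or: `run (act T e) w = act (run T w) e` (induction with `act_comm`) and `mem_act`.
* `mem_es_edge`: induction on `ℓ` (`List.nodup_cons`).
* `es_sub`: induction on `ℓ`. -/

namespace Pool.Agent.Lib.MP_dd2c10_prF

open Pool.Agent.Lib.MP_dd2c10_pr Ed

/-- The edge in the direction of `x` from the column `c` to the column `c + 1` through the ladder vertex `n`. -/
def xed (c n : ℤ) : Sym2 Pt := s(pt c n, pt (c + 1) n)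

/-- The state after the columns `≤ c`. -/
def st (ℓ : List (ℤ × Ed)) (c : ℤ) : Finset ℤ := run ∅ (wd (ℓ.filter fun p => decide (p.1 ≤ c)))

/-- A ladder edge with the two rays to the right. -/
def V (c : ℤ) (e : Ed) : Set (Sym2 Pt) :=
  {s | s = edgeAt c e ∨ ∃ c', c ≤ c' ∧ (s = xed c' e.a ∨ s = xed c' e.b)}

/-- The set of lattice edges of a placed word. -/
def ES : List (ℤ × Ed) → Set (Sym2 Pt)
  | [] => ∅
  | p :: ℓ => symmDiff (V p.1 p.2) (ES ℓ)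

private theorem Pl_run_act (T : Finset ℤ) (e : Ed) (w : List Ed) : run (act T e) w = act (run T w) e := by
  induction w generalizing T with
  | nil => rfl
  | cons f w ih => rw [run_cons, run_cons, act_comm, ih]

theorem pt_inj {c n c' n' : ℤ} : pt c n = pt c' n' ↔ c = c' ∧ n = n' := by
  unfold pt
  rw [Prod.mk.injEq, Prod.mk.injEq]
  constructor
  · rintro ⟨h1, h2, h3⟩
    exact ⟨h1, by omega⟩
  · rintro ⟨rfl, rfl⟩
    exact ⟨rfl, rfl, rfl⟩

theorem edgeAt_inj {c c' : ℤ} {e e' : Ed} : edgeAt c e = edgeAt c' e' ↔ c = c' ∧ e = e' := by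
  constructor
  · intro h
    unfold edgeAt at h
    rw [Sym2.eq_iff, pt_inj, pt_inj, pt_inj, pt_inj] at h
    have h1 := a_lt_b e
    have h2 := a_lt_b e'
    rcases h with ⟨⟨h3, h4⟩, -, h5⟩ | ⟨⟨-, h4⟩, -, h5⟩
    · exact ⟨h3, Ed.ext h4 h5⟩
    · omega
  · rintro ⟨rfl, rfl⟩
    rfl

theorem xed_inj {c n c' n' : ℤ} : xed c n = xed c' n' ↔ c = c' ∧ n = n' := by
  constructor
  · intro h
    unfold xed at h
    rw [Sym2.eq_iff, pt_inj, pt_inj, pt_inj, pt_inj] at h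
    omega
  · rintro ⟨rfl, rfl⟩
    rfl

theorem edgeAt_ne_xed {c c' n : ℤ} {e : Ed} : edgeAt c e ≠ xed c' n := by
  intro h
  unfold edgeAt xed at h
  rw [Sym2.eq_iff, pt_inj, pt_inj, pt_inj, pt_inj] at h
  omega

theorem adj_edgeAt (c : ℤ) (e : Ed) : cubic.Adj (pt c e.a) (pt c e.b) := by
  show |(pt c e.a).1 - (pt c e.b).1| + |(pt c e.a).2.1 - (pt c e.b).2.1| + |(pt c e.a).2.2 - (pt c e.b).2.2| = 1
  cases e with
  | Y n =>
    have h1 : (pt c (Y n).a).1 - (pt c (Y n).b).1 = 0 := sub_self c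
    have h2 : (pt c (Y n).a).2.1 - (pt c (Y n).b).2.1 = -1 := by
      show n / 2 - (n + 2) / 2 = -1
      omega
    have h3 : (pt c (Y n).a).2.2 - (pt c (Y n).b).2.2 = 0 := by
      show n % 2 - (n + 2) % 2 = 0
      omega
    rw [h1, h2, h3]
    norm_num
  | Z y =>
    have h1 : (pt c (Z y).a).1 - (pt c (Z y).b).1 = 0 := sub_self c
    have h2 : (pt c (Z y).a).2.1 - (pt c (Z y).b).2.1 = 0 := by
      show 2 * y / 2 - (2 * y + 1) / 2 = 0
      omega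
    have h3 : (pt c (Z y).a).2.2 - (pt c (Z y).b).2.2 = -1 := by
      show 2 * y % 2 - (2 * y + 1) % 2 = -1
      omega
    rw [h1, h2, h3]
    norm_num

theorem adj_xed (c n : ℤ) : cubic.Adj (pt c n) (pt (c + 1) n) := by
  show |c - (c + 1)| + |n / 2 - n / 2| + |n % 2 - n % 2| = 1
  have h1 : c - (c + 1) = -1 := by ring
  rw [h1, sub_self, sub_self]
  norm_num

theorem slab_pt (c n : ℤ) : 0 ≤ (pt c n).2.2 ∧ (pt c n).2.2 ≤ 1 := by
  show 0 ≤ n % 2 ∧ n % 2 ≤ 1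
  omega

theorem exists_pt {u : Pt} (h0 : 0 ≤ u.2.2) (h1 : u.2.2 ≤ 1) : ∃ c n, u = pt c n := by
  obtain ⟨c, y, z⟩ := u
  have h0' : 0 ≤ z := h0
  have h1' : z ≤ 1 := h1
  refine ⟨c, 2 * y + z, ?_⟩
  unfold pt
  rw [Prod.mk.injEq, Prod.mk.injEq]
  exact ⟨rfl, by omega, by omega⟩

theorem edge_cases {u v : Pt} (h : cubic.Adj u v) (hu : 0 ≤ u.2.2 ∧ u.2.2 ≤ 1) (hv : 0 ≤ v.2.2 ∧ v.2.2 ≤ 1) :
    (∃ c e, s(u, v) = edgeAt c e) ∨ ∃ c n, s(u, v) = xed c n := by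
  obtain ⟨c, n, rfl⟩ := exists_pt hu.1 hu.2
  obtain ⟨c', n', rfl⟩ := exists_pt hv.1 hv.2
  have h' : |c - c'| + |n / 2 - n' / 2| + |n % 2 - n' % 2| = 1 := h
  have hk : (c' = c + 1 ∧ n' = n) ∨ (c = c' + 1 ∧ n' = n) ∨ (c' = c ∧ n' = n + 2) ∨ (c' = c ∧ n = n' + 2) ∨
      (c' = c ∧ n = 2 * (n / 2) ∧ n' = 2 * (n / 2) + 1) ∨ (c' = c ∧ n' = 2 * (n / 2) ∧ n = 2 * (n / 2) + 1) := by
    rcases abs_cases (c - c') with ⟨h1, h1'⟩ | ⟨h1, h1'⟩ <;>
    rcases abs_cases (n / 2 - n' / 2) with ⟨h2, h2'⟩ | ⟨h2, h2'⟩ <;>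
    rcases abs_cases (n % 2 - n' % 2) with ⟨h3, h3'⟩ | ⟨h3, h3'⟩ <;>
    rw [h1, h2, h3] at h' <;> omega
  rcases hk with ⟨rfl, rfl⟩ | ⟨rfl, rfl⟩ | ⟨rfl, rfl⟩ | ⟨rfl, rfl⟩ | ⟨rfl, h1, h2⟩ | ⟨rfl, h1, h2⟩
  · exact Or.inr ⟨c, n', rfl⟩
  · exact Or.inr ⟨c', n', Sym2.eq_swap⟩
  · exact Or.inl ⟨c', Y n, rfl⟩
  · exact Or.inl ⟨c', Y n', Sym2.eq_swap⟩
  · refine Or.inl ⟨c', Z (n / 2), ?_⟩
    unfold edgeAt
    rw [a_Z, b_Z, ← h2, ← h1]
  · refine Or.inl ⟨c', Z (n / 2), ?_⟩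
    unfold edgeAt
    rw [a_Z, b_Z, ← h2, ← h1]
    exact Sym2.eq_swap

theorem es_append (a b : List (ℤ × Ed)) : ES (a ++ b) = symmDiff (ES a) (ES b) := by
  induction a with
  | nil =>
    show ES b = symmDiff ∅ (ES b)
    ext s
    rw [Set.mem_symmDiff]
    have : s ∉ (∅ : Set (Sym2 Pt)) := Set.notMem_empty s
    tauto
  | cons p a ih =>
    show symmDiff (V p.1 p.2) (ES (a ++ b)) = symmDiff (symmDiff (V p.1 p.2) (ES a)) (ES b)
    rw [ih, symmDiff_assoc]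

theorem es_perm {a b : List (ℤ × Ed)} (h : a.Perm b) : ES a = ES b := by
  induction h with
  | nil => rfl
  | cons p _ ih =>
    show symmDiff (V p.1 p.2) (ES _) = symmDiff (V p.1 p.2) (ES _)
    rw [ih]
  | swap p q l =>
    show symmDiff (V q.1 q.2) (symmDiff (V p.1 p.2) (ES l)) = symmDiff (V p.1 p.2) (symmDiff (V q.1 q.2) (ES l))
    rw [← symmDiff_assoc, ← symmDiff_assoc, symmDiff_comm (V q.1 q.2) (V p.1 p.2)]
  | trans _ _ ih1 ih2 => exact ih1.trans ih2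

theorem mem_V_edge {c c' : ℤ} {e f : Ed} : edgeAt c' f ∈ V c e ↔ c' = c ∧ f = e := by
  constructor
  · rintro (h | ⟨c'', -, h | h⟩)
    · exact edgeAt_inj.mp h
    · exact absurd h edgeAt_ne_xed
    · exact absurd h edgeAt_ne_xed
  · rintro ⟨rfl, rfl⟩
    exact Or.inl rfl

theorem mem_V_xed {c c' n : ℤ} {e : Ed} : xed c' n ∈ V c e ↔ c ≤ c' ∧ (n = e.a ∨ n = e.b) := by
  constructor
  · rintro (h | ⟨c'', hc, h | h⟩)
    · exact absurd h.symm edgeAt_ne_xed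
    · obtain ⟨h1, h2⟩ := xed_inj.mp h
      exact ⟨h1 ▸ hc, Or.inl h2⟩
    · obtain ⟨h1, h2⟩ := xed_inj.mp h
      exact ⟨h1 ▸ hc, Or.inr h2⟩
  · rintro ⟨h, rfl | rfl⟩
    · exact Or.inr ⟨c', h, Or.inl rfl⟩
    · exact Or.inr ⟨c', h, Or.inr rfl⟩

theorem mem_es_xed (ℓ : List (ℤ × Ed)) (c n : ℤ) : xed c n ∈ ES ℓ ↔ n ∈ st ℓ c := by
  induction ℓ with
  | nil =>
    show xed c n ∈ (∅ : Set (Sym2 Pt)) ↔ n ∈ (∅ : Finset ℤ)
    exact ⟨fun h => absurd h (Set.notMem_empty _), fun h => absurd h (Finset.notMem_empty _)⟩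
  | cons p ℓ ih =>
    have h1 : xed c n ∈ ES (p :: ℓ) ↔ ¬ ((p.1 ≤ c ∧ (n = p.2.a ∨ n = p.2.b)) ↔ n ∈ st ℓ c) := by
      show xed c n ∈ symmDiff (V p.1 p.2) (ES ℓ) ↔ _
      rw [Set.mem_symmDiff, mem_V_xed, ih]
      tauto
    rw [h1]
    by_cases hp : p.1 ≤ c
    · have h2 : st (p :: ℓ) c = act (st ℓ c) p.2 := by
        unfold st wd
        rw [List.filter_cons_of_pos (by simpa using hp), List.map_cons, run_cons, Pl_run_act]
      rw [h2, mem_act]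
      tauto
    · have h2 : st (p :: ℓ) c = st ℓ c := by
        unfold st wd
        rw [List.filter_cons_of_neg (by simpa using hp)]
      rw [h2]
      tauto

theorem mem_es_edge {ℓ : List (ℤ × Ed)} (h : ℓ.Nodup) (c : ℤ) (e : Ed) : edgeAt c e ∈ ES ℓ ↔ (c, e) ∈ ℓ := by
  induction ℓ with
  | nil =>
    show edgeAt c e ∈ (∅ : Set (Sym2 Pt)) ↔ _
    exact ⟨fun h => absurd h (Set.notMem_empty _), fun h => absurd h List.not_mem_nil⟩
  | cons p ℓ ih =>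
    rw [List.nodup_cons] at h
    have ih' := ih h.2
    have h1 : edgeAt c e ∈ ES (p :: ℓ) ↔ ¬ ((c = p.1 ∧ e = p.2) ↔ (c, e) ∈ ℓ) := by
      show edgeAt c e ∈ symmDiff (V p.1 p.2) (ES ℓ) ↔ _
      rw [Set.mem_symmDiff, mem_V_edge, ih']
      tauto
    rw [h1, List.mem_cons]
    have h2 : (c, e) = p ↔ (c = p.1 ∧ e = p.2) := by
      obtain ⟨p1, p2⟩ := p
      exact Prod.mk.injEq c e p1 p2 ▸ Iff.rfl
    rw [h2]
    by_cases h3 : c = p.1 ∧ e = p.2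
    · have h4 : (c, e) ∉ ℓ := by
        rw [h2.mpr h3]
        exact h.1
      tauto
    · tauto

/-- Columns without letters contain no ladder edges (also for lists with repetitions). -/
theorem not_mem_es_edge {ℓ : List (ℤ × Ed)} {c : ℤ} {e : Ed} (h : (c, e) ∉ ℓ) : edgeAt c e ∉ ES ℓ := by
  induction ℓ with
  | nil => exact Set.notMem_empty _
  | cons p ℓ ih =>
    rw [List.mem_cons, not_or] at h
    have ih' := ih h.2
    intro h1
    have h2 : edgeAt c e ∈ symmDiff (V p.1 p.2) (ES ℓ) := h1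
    rw [Set.mem_symmDiff] at h2
    rcases h2 with ⟨h3, -⟩ | ⟨h3, -⟩
    · obtain ⟨h4, h5⟩ := mem_V_edge.mp h3
      apply h.1
      rw [h4, h5]
    · exact ih' h3

theorem es_sub {ℓ : List (ℤ × Ed)} {s : Sym2 Pt} (h : s ∈ ES ℓ) : (∃ c e, s = edgeAt c e) ∨ ∃ c n, s = xed c n := by
  induction ℓ with
  | nil => exact absurd h (Set.notMem_empty _)
  | cons p ℓ ih =>
    have h2 : s ∈ symmDiff (V p.1 p.2) (ES ℓ) := h
    rw [Set.mem_symmDiff] at h2
    rcases h2 with ⟨h3, -⟩ | ⟨h3, -⟩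
    · rcases h3 with h3 | ⟨c', -, h3 | h3⟩
      · exact Or.inl ⟨_, _, h3⟩
      · exact Or.inr ⟨_, _, h3⟩
      · exact Or.inr ⟨_, _, h3⟩
    · exact ih h3

end Pool.Agent.Lib.MP_dd2c10_prF
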