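import Pool.Agent.Lib.MP_dd2c10_prF.Rev
import Pool.Agent.Lib.MP_dd2c10_prF.Rk

/-! JOB Pla (MP_dd2c10_pr): planar edges and planar paths (a strand moves, nothing else happens).

`Pln T e`: exactly one end of `e` is occupied and the vertex between the ends (if there is one) is empty.

PROOFS.
* `Pln.act`: the ends are toggled, the vertices strictly between `e.a` and `e.b` are not (`mem_act`).
* `out_nil_iff`: `cases e`. `Y n`: `out = sh r (locY ..)`, which is `[]` iff `n + 1 ∉ T` and exactly one of `n`, `n + 2` is in `T`; vertices strictly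
  between: only `n + 1` (`omega`). `Z y`: no vertex between. (`sh r w = [] ↔ w = []`: `List.map_eq_nil_iff`.)
* `Pln.card`: `valid_out` (file `Rk`) gives `endk T.card (out T e) = (act T e).card`; here `out T e = []`.
* `ppath_append`: induction on `p`. `PPath.rev`: induction on `p`: `(e :: p).reverse = p.reverse ++ [e]`, `ppath_append`, `run_rev`, `Pln.act`,
  `act_act`. `PPath.cancel`: induction: `e :: p ++ (e :: p).reverse = e :: ((p ++ p.reverse) ++ [e]) ~ [e, e] ~ []` (`LEq.cons`, `LEq.right`,
  `LEq.cancel`). `PPath.cancel'`: apply `cancel` to `hp.rev` (`List.reverse_reverse`, `run_rev`). `scan`, `card`: induction.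
* `comm_word`: induction on `p` with `LEq.swap` and `LEq.cons`. `comm_words`: induction on `u` with `comm_word`. -/

namespace Pool.Agent.Lib.MP_dd2c10_prF

open Gen Ed

/-- The edge `e` moves one strand along the ladder and meets no other strand. -/
def Pln (T : Finset ℤ) (e : Ed) : Prop := (e.a ∈ T ↔ e.b ∉ T) ∧ ∀ x, e.a < x → x < e.b → x ∉ T

/-- A word all of whose edges are planar. -/
def PPath (T : Finset ℤ) : List Ed → Prop
  | [] => True
  | e :: p => Pln T e ∧ PPath (act T e) p

/-- Disjoint edges. -/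
def Dsj (e f : Ed) : Prop := e.a ≠ f.a ∧ e.a ≠ f.b ∧ e.b ≠ f.a ∧ e.b ≠ f.b

theorem Pln.act {T : Finset ℤ} {e : Ed} (h : Pln T e) : Pln (act T e) e := by
  have h1 := h.1
  refine ⟨?_, fun x hx hx' => ?_⟩
  · rw [mem_act, mem_act]
    tauto
  · rw [mem_act]
    have h2 := h.2 x hx hx'
    have h3 : ¬ x = e.a := by omega
    have h4 : ¬ x = e.b := by omega
    tauto

private theorem Pla_mid {T : Finset ℤ} {n : ℤ} : (∀ x, n < x → x < n + 2 → x ∉ T) ↔ n + 1 ∉ T := by
  constructor
  · intro h
    exact h (n + 1) (by omega) (by omega)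
  · intro h x hx hx'
    have h1 : x = n + 1 := by omega
    rw [h1]
    exact h

theorem out_nil_iff {T : Finset ℤ} {e : Ed} : out T e = [] ↔ Pln T e := by
  cases e with
  | Y n =>
    show sh (rank T n) (locY (decide (n % 2 = 1)) (decide (n ∈ T)) (decide (n + 1 ∈ T)) (decide (n + 2 ∈ T))) = [] ↔
      (n ∈ T ↔ n + 2 ∉ T) ∧ (∀ x, n < x → x < n + 2 → x ∉ T)
    rw [Pla_mid]
    unfold sh
    rw [List.map_eq_nil_iff]
    by_cases h0 : n ∈ T <;> by_cases h1 : n + 1 ∈ T <;> by_cases h2 : n + 2 ∈ T <;> simp [locY, h0, h1, h2]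
  | Z y =>
    show sh (rank T (2 * y)) (locZ (decide (2 * y ∈ T)) (decide (2 * y + 1 ∈ T))) = [] ↔
      (2 * y ∈ T ↔ 2 * y + 1 ∉ T) ∧ (∀ x, 2 * y < x → x < 2 * y + 1 → x ∉ T)
    have h3 : (∀ x, 2 * y < x → x < 2 * y + 1 → x ∉ T) := by
      intro x hx hx'
      omega
    rw [and_iff_left h3]
    unfold sh
    rw [List.map_eq_nil_iff]
    by_cases h0 : 2 * y ∈ T <;> by_cases h1 : 2 * y + 1 ∈ T <;> simp [locZ, h0, h1]

theorem Pln.card {T : Finset ℤ} {e : Ed} (h : Pln T e) : (Pool.Agent.Lib.MP_dd2c10_prF.act T e).card = T.card := by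
  have h1 := (valid_out T e).2
  rw [out_nil_iff.2 h, endk_nil] at h1
  exact h1.symm

theorem ppath_append {T : Finset ℤ} {p q : List Ed} : PPath T (p ++ q) ↔ PPath T p ∧ PPath (run T p) q := by
  induction p generalizing T with
  | nil =>
    rw [List.nil_append, run_nil]
    exact ⟨fun h => ⟨trivial, h⟩, fun h => h.2⟩
  | cons e p ih =>
    show (Pln T e ∧ PPath (act T e) (p ++ q)) ↔ (Pln T e ∧ PPath (act T e) p) ∧ PPath (run (act T e) p) q
    rw [ih, and_assoc]

theorem PPath.rev {T : Finset ℤ} {p : List Ed} (h : PPath T p) : PPath (run T p) p.reverse := by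
  induction p generalizing T with
  | nil => trivial
  | cons e p ih =>
    rw [List.reverse_cons, run_cons, ppath_append, run_rev]
    exact ⟨ih h.2, h.1.act, trivial⟩

theorem PPath.cancel {T : Finset ℤ} {p : List Ed} (h : PPath T p) : LEq T (p ++ p.reverse) [] := by
  induction p generalizing T with
  | nil => exact LEq.refl _
  | cons e p ih =>
    have h1 : LEq (act T e) ((p ++ p.reverse) ++ [e]) [e] := (ih h.2).right [e]
    have h2 : LEq T (e :: ((p ++ p.reverse) ++ [e])) [e, e] := LEq.cons e h1
    have h3 : (e :: p) ++ (e :: p).reverse = e :: ((p ++ p.reverse) ++ [e]) := by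
      rw [List.reverse_cons, List.cons_append, List.append_assoc]
    rw [h3]
    exact h2.trans (LEq.cancel e [] h.1.1)

theorem PPath.cancel' {T : Finset ℤ} {p : List Ed} (h : PPath T p) : LEq (run T p) (p.reverse ++ p) [] := by
  have h1 := h.rev.cancel
  rw [List.reverse_reverse] at h1
  exact h1

theorem PPath.scan_eq {T : Finset ℤ} {p : List Ed} (h : PPath T p) : scan T p = [] := by
  induction p generalizing T with
  | nil => rfl
  | cons e p ih => rw [scan_cons, out_nil_iff.2 h.1, ih h.2, List.nil_append]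

theorem PPath.card {T : Finset ℤ} {p : List Ed} (h : PPath T p) : (run T p).card = T.card := by
  induction p generalizing T with
  | nil => rfl
  | cons e p ih => rw [run_cons, ih h.2, h.1.card]

theorem comm_word {T : Finset ℤ} (e : Ed) (p : List Ed) (h : ∀ f ∈ p, Dsj e f) : LEq T (e :: p) (p ++ [e]) := by
  induction p generalizing T with
  | nil => exact LEq.refl _
  | cons f p ih =>
    have h1 : Dsj e f := h f List.mem_cons_self
    obtain ⟨h2, h3, h4, h5⟩ := h1
    have h6 : LEq T (e :: f :: p) (f :: e :: p) := by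
      refine LEq.swap e f p fun v hv hv' => ?_
      exfalso
      rcases hv with rfl | rfl
      · rcases hv' with h7 | h7
        · exact h2 h7
        · exact h3 h7
      · rcases hv' with h7 | h7
        · exact h4 h7
        · exact h5 h7
    exact h6.trans (LEq.cons f (ih fun g hg => h g (List.mem_cons_of_mem _ hg)))

theorem comm_words {T : Finset ℤ} (u v : List Ed) (h : ∀ e ∈ u, ∀ f ∈ v, Dsj e f) : LEq T (u ++ v) (v ++ u) := by
  induction u generalizing T with
  | nil =>
    rw [List.nil_append, List.append_nil]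
    exact LEq.refl _
  | cons e u ih =>
    have h1 : LEq T (e :: (u ++ v)) (e :: (v ++ u)) :=
      LEq.cons e (ih fun e' he' => h e' (List.mem_cons_of_mem _ he'))
    have h2 : LEq T ((e :: v) ++ u) ((v ++ [e]) ++ u) := (comm_word e v (h e List.mem_cons_self)).right u
    rw [List.append_assoc, List.singleton_append] at h2
    exact h1.trans h2

end Pool.Agent.Lib.MP_dd2c10_prF
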