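import Pool.Agent.Lib.MP_dd2c10_prF.TogE

/-! JOB Rdg (MP_dd2c10_pr): readings of a set of edges.

A reading of `ω` is a list of all its ladder edges `(c, e)`, column after column from left to right.

PROOFS.
* `fin_polygon`: the edge set of a walk is finite (`List.finite_toSet`); a cycle is not `nil`, so it has an edge.
* `exists_split`: let `F` be the finite set of pairs `(c', e)` with `edgeAt c' e ∈ ω` (finite: preimage of `ω` under the injective map `edgeAt`, `edgeAt_inj`, `Set.Finite.preimage`). Let `A` = the pairs of `F` with `c' ≤ c` that are not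
  in `S` (in the column `c`), sorted by column; `B` = the pairs with `c' ≥ c + 1` not in `S'` (in the column `c + 1`), sorted by column (`List.insertionSort` or `Multiset.sort`/`Finset.sort` for the lexicographic or column order; any way to
  produce a list, pairwise `≤` in the first component, nodup, with the given members: prove first `exists_sorted : ∀ F : Finset (ℤ × Ed), ∃ l, l.Pairwise (·.1 ≤ ·.1) ∧ l.Nodup ∧ ∀ p, p ∈ l ↔ p ∈ F` by induction on `F`
  or with `List.insertionSort` for the relation `p.1 ≤ q.1`). The concatenation is sorted: columns `≤ c`, then `c`, then `c + 1`, then `≥ c + 1`. Nodup and membership are clear.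
* `exists_rdg`: `exists_split` with `S = S' = []`.
* `rdg_es`: the ladder edges agree (`mem_es_edge`). `D n c := (xed c n ∈ ω ↔ xed c n ∈ ES ℓ)`. By `even_of_good hG` and `evenAt_es` at `(c, n)` and equality of the ladder edges: `D n c ↔ D n (c - 1)` (propositional). For `c` smaller than all columns of `ω`
  (`ω` finite; columns of `xed` edges in `ω` and of letters of `ℓ`) both are false. So `D n c` for all `c` (integer induction). Then `set_ext` with `sub_of_good`, `es_sub`.
* `rdg_run`: for `c` larger than all columns, `st ℓ c = run ∅ (wd ℓ)` and `xed c n ∉ ω` for all `n` (`ω` finite, `xed_inj`): `mem_es_xed`. -/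

namespace Pool.Agent.Lib.MP_dd2c10_prF

open Pool.Agent.Lib.MP_dd2c10_pr Ed

theorem fin_polygon {ω : Set (Sym2 Pt)} (h : IsPolygon 1 ω) : ω.Finite ∧ ω.Nonempty := by
  obtain ⟨v, c, hc, hs, rfl⟩ := h
  refine ⟨List.finite_toSet _, ?_⟩
  have h0 : c.edges ≠ [] := by
    intro h
    have h1 : c.length = 0 := by
      rw [← c.length_edges, h]
      rfl
    have h2 := hc.three_le_length
    omega
  obtain ⟨e, he⟩ := List.exists_mem_of_ne_nil _ h0
  exact ⟨e, he⟩

private theorem Rdg_sorted (F : Finset (ℤ × Ed)) :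
    ∃ l : List (ℤ × Ed), l.Pairwise (fun p q => p.1 ≤ q.1) ∧ l.Nodup ∧ ∀ p, p ∈ l ↔ p ∈ F := by
  classical
  induction F using Finset.induction_on with
  | empty => exact ⟨[], List.Pairwise.nil, List.nodup_nil, fun p => by simp⟩
  | insert x s hx ih =>
    obtain ⟨l, h1, h2, h3⟩ := ih
    refine ⟨(l.filter fun p => decide (p.1 ≤ x.1)) ++ x :: (l.filter fun p => decide (¬ p.1 ≤ x.1)),
      ?_, ?_, ?_⟩
    · rw [List.pairwise_append, List.pairwise_cons]
      refine ⟨h1.sublist List.filter_sublist, ⟨?_, h1.sublist List.filter_sublist⟩, ?_⟩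
      · intro q hq
        have h4 := (List.mem_filter.1 hq).2
        simp only [decide_eq_true_eq] at h4
        omega
      · intro p hp q hq
        have h4 := (List.mem_filter.1 hp).2
        simp only [decide_eq_true_eq] at h4
        rcases List.mem_cons.1 hq with rfl | hq
        · exact h4
        · have h5 := (List.mem_filter.1 hq).2
          simp only [decide_eq_true_eq] at h5
          omega
    · rw [List.nodup_append, List.nodup_cons]
      refine ⟨h2.sublist List.filter_sublist, ⟨?_, h2.sublist List.filter_sublist⟩, ?_⟩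
      · intro hq
        have h4 := (List.mem_filter.1 hq).2
        simp at h4
      · intro p hp q hq hpq
        subst hpq
        have h4 := (List.mem_filter.1 hp)
        simp only [decide_eq_true_eq] at h4
        rcases List.mem_cons.1 hq with rfl | hq
        · exact hx ((h3 _).1 h4.1)
        · have h5 := (List.mem_filter.1 hq).2
          simp only [decide_eq_true_eq] at h5
          exact h5 h4.2
    · intro p
      rw [List.mem_append, List.mem_cons, List.mem_filter, List.mem_filter, Finset.mem_insert, h3]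
      simp only [decide_eq_true_eq]
      tauto

private theorem Rdg_finE {ω : Set (Sym2 Pt)} (hf : ω.Finite) :
    {p : ℤ × Ed | edgeAt p.1 p.2 ∈ ω}.Finite := by
  have h1 : Function.Injective fun p : ℤ × Ed => edgeAt p.1 p.2 := by
    rintro ⟨c, e⟩ ⟨c', e'⟩ h
    have h2 : c = c' ∧ e = e' := edgeAt_inj.1 h
    rw [h2.1, h2.2]
  exact hf.preimage h1.injOn

private theorem Rdg_finX {ω : Set (Sym2 Pt)} (hf : ω.Finite) (n : ℤ) : {c : ℤ | xed c n ∈ ω}.Finite := by
  have h1 : Function.Injective fun c : ℤ => xed c n := by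
    intro c c' h
    exact (xed_inj.1 h).1
  exact hf.preimage h1.injOn

private theorem Rdg_pw (S : List Ed) (c : ℤ) :
    (S.map fun e => (c, e)).Pairwise (fun p q => p.1 ≤ q.1) := by
  rw [List.pairwise_map]
  induction S with
  | nil => exact List.Pairwise.nil
  | cons a l ih => exact List.pairwise_cons.2 ⟨fun _ _ => le_refl _, ih⟩

private theorem Rdg_nd {S : List Ed} (hS : S.Nodup) (c : ℤ) : (S.map fun e => (c, e)).Nodup :=
  hS.map fun e f h => (Prod.mk.injEq _ _ _ _ ▸ h : c = c ∧ e = f).2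

private theorem Rdg_mm {S : List Ed} {c : ℤ} {p : ℤ × Ed} :
    p ∈ (S.map fun e => (c, e)) ↔ p.1 = c ∧ p.2 ∈ S := by
  rw [List.mem_map]
  constructor
  · rintro ⟨e, he, rfl⟩
    exact ⟨rfl, he⟩
  · rintro ⟨h1, h2⟩
    exact ⟨p.2, h2, by rw [← h1]⟩

/-- A reading with prescribed pieces at the end of the column `c` and at the beginning of the column `c + 1`. -/
theorem exists_split {ω : Set (Sym2 Pt)} (hf : ω.Finite) (c : ℤ) {S S' : List Ed} (hS : S.Nodup) (hS' : S'.Nodup)
    (h1 : ∀ e ∈ S, edgeAt c e ∈ ω) (h2 : ∀ e ∈ S', edgeAt (c + 1) e ∈ ω) :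
    ∃ A B : List (ℤ × Ed), Rdg ω (A ++ (S.map fun e => (c, e)) ++ (S'.map fun e => (c + 1, e)) ++ B) ∧
      (∀ p ∈ A, p.1 ≤ c) ∧ ∀ p ∈ B, c + 1 ≤ p.1 := by
  classical
  obtain ⟨A, a1, a2, a3⟩ := Rdg_sorted ((Rdg_finE hf).toFinset.filter fun p => p.1 ≤ c ∧ ¬ (p.1 = c ∧ p.2 ∈ S))
  obtain ⟨B, b1, b2, b3⟩ := Rdg_sorted ((Rdg_finE hf).toFinset.filter
    fun p => c + 1 ≤ p.1 ∧ ¬ (p.1 = c + 1 ∧ p.2 ∈ S'))
  have a4 : ∀ p, p ∈ A ↔ edgeAt p.1 p.2 ∈ ω ∧ (p.1 ≤ c ∧ ¬ (p.1 = c ∧ p.2 ∈ S)) := by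
    intro p
    rw [a3, Finset.mem_filter, Set.Finite.mem_toFinset, Set.mem_ofPred_eq]
  have b4 : ∀ p, p ∈ B ↔ edgeAt p.1 p.2 ∈ ω ∧ (c + 1 ≤ p.1 ∧ ¬ (p.1 = c + 1 ∧ p.2 ∈ S')) := by
    intro p
    rw [b3, Finset.mem_filter, Set.Finite.mem_toFinset, Set.mem_ofPred_eq]
  refine ⟨A, B, ⟨?_, ?_, ?_⟩, fun p hp => ((a4 p).1 hp).2.1, fun p hp => ((b4 p).1 hp).2.1⟩
  · rw [List.pairwise_append, List.pairwise_append, List.pairwise_append]
    refine ⟨⟨⟨a1, Rdg_pw S c, ?_⟩, Rdg_pw S' (c + 1), ?_⟩, b1, ?_⟩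
    · intro p hp q hq
      have h1 := ((a4 p).1 hp).2.1
      have h2 := (Rdg_mm.1 hq).1
      omega
    · intro p hp q hq
      have h2 := (Rdg_mm.1 hq).1
      rcases List.mem_append.1 hp with hp | hp
      · have h1 := ((a4 p).1 hp).2.1
        omega
      · have h1 := (Rdg_mm.1 hp).1
        omega
    · intro p hp q hq
      have h2 := ((b4 q).1 hq).2.1
      rcases List.mem_append.1 hp with hp | hp
      · rcases List.mem_append.1 hp with hp | hp
        · have h1 := ((a4 p).1 hp).2.1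
          omega
        · have h1 := (Rdg_mm.1 hp).1
          omega
      · have h1 := (Rdg_mm.1 hp).1
        omega
  · rw [List.nodup_append, List.nodup_append, List.nodup_append]
    refine ⟨⟨⟨a2, Rdg_nd hS c, ?_⟩, Rdg_nd hS' (c + 1), ?_⟩, b2, ?_⟩
    · intro p hp q hq hpq
      subst hpq
      exact ((a4 p).1 hp).2.2 (Rdg_mm.1 hq)
    · intro p hp q hq hpq
      subst hpq
      have h2 := (Rdg_mm.1 hq).1
      rcases List.mem_append.1 hp with hp | hp
      · have h1 := ((a4 p).1 hp).2.1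
        omega
      · have h1 := (Rdg_mm.1 hp).1
        omega
    · intro p hp q hq hpq
      subst hpq
      have h2 := ((b4 p).1 hq).2
      rcases List.mem_append.1 hp with hp | hp
      · rcases List.mem_append.1 hp with hp | hp
        · have h1 := ((a4 p).1 hp).2.1
          omega
        · have h1 := (Rdg_mm.1 hp).1
          omega
      · exact h2.2 (Rdg_mm.1 hp)
  · intro c' e
    rw [List.mem_append, List.mem_append, List.mem_append, Rdg_mm, Rdg_mm, a4, b4]
    show (((edgeAt c' e ∈ ω ∧ (c' ≤ c ∧ ¬ (c' = c ∧ e ∈ S))) ∨ (c' = c ∧ e ∈ S)) ∨ (c' = c + 1 ∧ e ∈ S')) ∨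
      (edgeAt c' e ∈ ω ∧ (c + 1 ≤ c' ∧ ¬ (c' = c + 1 ∧ e ∈ S'))) ↔ edgeAt c' e ∈ ω
    constructor
    · rintro (((h | ⟨rfl, h⟩) | ⟨rfl, h⟩) | h)
      · exact h.1
      · exact h1 e h
      · exact h2 e h
      · exact h.1
    · intro h
      by_cases hA : c' = c ∧ e ∈ S
      · exact Or.inl (Or.inl (Or.inr hA))
      · by_cases hB : c' = c + 1 ∧ e ∈ S'
        · exact Or.inl (Or.inr hB)
        · rcases le_or_gt c' c with hc | hc
          · exact Or.inl (Or.inl (Or.inl ⟨h, hc, hA⟩))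
          · exact Or.inr ⟨h, hc, hB⟩

theorem exists_rdg {ω : Set (Sym2 Pt)} (hf : ω.Finite) : ∃ ℓ, Rdg ω ℓ := by
  obtain ⟨A, B, h, _⟩ := exists_split hf 0 (S := []) (S' := []) List.nodup_nil List.nodup_nil
    (fun e he => absurd he List.not_mem_nil) (fun e he => absurd he List.not_mem_nil)
  exact ⟨_, h⟩

private theorem Rdg_low (ℓ : List (ℤ × Ed)) : ∃ N : ℤ, ∀ p ∈ ℓ, N < p.1 := by
  induction ℓ with
  | nil => exact ⟨0, fun p hp => absurd hp List.not_mem_nil⟩
  | cons q l ih =>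
    obtain ⟨N, hN⟩ := ih
    refine ⟨min N (q.1 - 1), fun p hp => ?_⟩
    rcases List.mem_cons.1 hp with rfl | hp
    · omega
    · have := hN p hp
      omega

private theorem Rdg_high (ℓ : List (ℤ × Ed)) : ∃ N : ℤ, ∀ p ∈ ℓ, p.1 ≤ N := by
  induction ℓ with
  | nil => exact ⟨0, fun p hp => absurd hp List.not_mem_nil⟩
  | cons q l ih =>
    obtain ⟨N, hN⟩ := ih
    refine ⟨max N q.1, fun p hp => ?_⟩
    rcases List.mem_cons.1 hp with rfl | hp
    · omega
    · have := hN p hp
      omega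

private theorem Rdg_bdd {ω : Set (Sym2 Pt)} (hf : ω.Finite) (n : ℤ) :
    ∃ N M : ℤ, ∀ c, (c ≤ N ∨ M ≤ c) → xed c n ∉ ω := by
  obtain ⟨N, hN⟩ := (Rdg_finX hf n).bddBelow
  obtain ⟨M, hM⟩ := (Rdg_finX hf n).bddAbove
  refine ⟨N - 1, M + 1, fun c hc h => ?_⟩
  have h1 := hN (show c ∈ {c : ℤ | xed c n ∈ ω} from h)
  have h2 := hM (show c ∈ {c : ℤ | xed c n ∈ ω} from h)
  omega

private theorem Rdg_prop {a a' b b' q : Prop} (h1 : a ↔ ¬ (a' ↔ ¬ q)) (h2 : b ↔ ¬ (b' ↔ ¬ q))
    (h : a' ↔ b') : a ↔ b := by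
  rw [h1, h2, h]

theorem rdg_es {ω : Set (Sym2 Pt)} {ℓ : List (ℤ × Ed)} (hG : Good ω) (hf : ω.Finite) (hr : Rdg ω ℓ) : ω = ES ℓ := by
  have hL : ∀ c e, edgeAt c e ∈ ES ℓ ↔ edgeAt c e ∈ ω := fun c e =>
    (mem_es_edge hr.2.1 c e).trans (hr.2.2 c e)
  have hstep : ∀ c n : ℤ, (xed (c - 1) n ∈ ω ↔ xed (c - 1) n ∈ ES ℓ) → (xed c n ∈ ω ↔ xed c n ∈ ES ℓ) := by
    intro c n h
    have h1 := even_of_good hG c n
    have h2 := evenAt_es ℓ c n
    unfold EvenAt at h1 h2
    rw [hL, hL, hL] at h2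
    exact Rdg_prop h1 h2 h
  refine set_ext (sub_of_good hG) (fun s hs => es_sub hs) (fun c e => (hL c e).symm) ?_
  intro c n
  obtain ⟨N, M, hNM⟩ := Rdg_bdd hf n
  obtain ⟨N', hN'⟩ := Rdg_low ℓ
  have hbase : ∀ c : ℤ, c ≤ min N N' → (xed c n ∈ ω ↔ xed c n ∈ ES ℓ) := by
    intro c hc
    have h1 : xed c n ∉ ω := hNM c (Or.inl (by omega))
    have h2 : xed c n ∉ ES ℓ := by
      rw [mem_es_xed]
      unfold st
      rw [List.filter_eq_nil_iff.2 fun p hp => by
        have := hN' p hp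
        simp only [decide_eq_true_eq]
        omega]
      exact Finset.notMem_empty n
    exact iff_of_false h1 h2
  rcases le_or_gt c (min N N') with hc | hc
  · exact hbase c hc
  · refine Int.leInduction (m := min N N') (motive := fun c _ => (xed c n ∈ ω ↔ xed c n ∈ ES ℓ))
      (hbase _ le_rfl) ?_ c hc.le
    intro k _ hk
    refine hstep (k + 1) n ?_
    rw [Int.add_sub_cancel]
    exact hk

theorem rdg_run {ω : Set (Sym2 Pt)} {ℓ : List (ℤ × Ed)} (hG : Good ω) (hf : ω.Finite) (hr : Rdg ω ℓ) :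
    run ∅ (wd ℓ) = ∅ := by
  rw [Finset.eq_empty_iff_forall_notMem]
  intro n hn
  obtain ⟨N, M, hNM⟩ := Rdg_bdd hf n
  obtain ⟨N', hN'⟩ := Rdg_high ℓ
  have h1 : st ℓ (max M N') = run ∅ (wd ℓ) := by
    unfold st
    rw [List.filter_eq_self.2 fun p hp => by
      have := hN' p hp
      simp only [decide_eq_true_eq]
      omega]
  have h2 : xed (max M N') n ∈ ES ℓ := by
    rw [mem_es_xed, h1]
    exact hn
  rw [← rdg_es hG hf hr] at h2
  exact hNM _ (Or.inr (le_max_left _ _)) h2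

end Pool.Agent.Lib.MP_dd2c10_prF
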