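import Pool.Agent.Lib.MP_dd2c10_prF.Refl
import Pool.Agent.Lib.MP_dd2c10_prF.Fr

/-! JOB RealG (MP_dd2c10_pr): every diagram is the diagram of a word.

`Ex g n` (`n` even) is an edge at the window `[n, n + 3]` whose diagram is the piece `g` if the strands in the window are `Wd g n`.

PROOFS.
* `wd_card`, `wd_sub`: cases. `out_ex`: cases on `g`. cup: `n, n + 1, n + 2 ∉ T`. cap: `n, n + 2 ∈ T`, `n + 1 ∉ T`. `cross _ false`: `Y n`, `n, n + 1 ∈ T`,
  `n + 2 ∉ T`, `n % 2 = 0`. `cross _ true`: `Y (n + 1)`, `n + 1, n + 2 ∈ T`, `n + 3 ∉ T`, `(n + 1) % 2 = 1`, `rank T (n + 1) = rank T n` (`rank_succ`, `n ∉ T`).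
  Unfold `out`, `locY`, `sh`, `Gen.move`, `Gen.pos`.
* `realG`: `T₀ = Fr 0 g.pos (T.card - g.pos - g.ins) (Wd g 0)` has `T.card` elements (`fr_card`, `wd_card`, `h`). `conn` gives a planar path `p : T → T₀`; take
  `x = p ++ [Ex g 0]`: `scan_append`, `PPath.scan_eq`, `out_ex` (`fr_win`, `fr_rank`), `move_pos`.
* `realW`: induction on `u` generalizing `T`: `realG` for the first piece gives `x₁`; `(run T x₁).card = next T.card g` by `endk_scan`. -/

namespace Pool.Agent.Lib.MP_dd2c10_prF

open Gen Ed

/-- The strands in the window `[n, n + 3]` for the piece `g`. -/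
def Wd : Gen → ℤ → Finset ℤ
  | cup _, _ => ∅
  | cap _, n => {n, n + 2}
  | cross _ b, n => if b then {n + 1, n + 2} else {n, n + 1}

/-- The edge of the piece `g` in the window `[n, n + 3]`. -/
def Ex : Gen → ℤ → Ed
  | cup _, n => Y n
  | cap _, n => Y n
  | cross _ b, n => if b then Y (n + 1) else Y n

theorem wd_card (g : Gen) (n : ℤ) : (Wd g n).card = g.ins := by
  cases g with
  | cup i => rfl
  | cap i =>
    show ({n, n + 2} : Finset ℤ).card = 2
    exact Finset.card_pair (by omega)
  | cross i b =>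
    cases b
    · show ({n, n + 1} : Finset ℤ).card = 2
      exact Finset.card_pair (by omega)
    · show ({n + 1, n + 2} : Finset ℤ).card = 2
      exact Finset.card_pair (by omega)

theorem wd_sub {g : Gen} {n x : ℤ} (h : x ∈ Wd g n) : n ≤ x ∧ x ≤ n + 2 := by
  cases g with
  | cup i => exact absurd h (Finset.notMem_empty x)
  | cap i =>
    have h1 : x ∈ ({n, n + 2} : Finset ℤ) := h
    rw [Finset.mem_insert, Finset.mem_singleton] at h1
    omega
  | cross i b =>
    cases b
    · have h1 : x ∈ ({n, n + 1} : Finset ℤ) := h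
      rw [Finset.mem_insert, Finset.mem_singleton] at h1
      omega
    · have h1 : x ∈ ({n + 1, n + 2} : Finset ℤ) := h
      rw [Finset.mem_insert, Finset.mem_singleton] at h1
      omega

theorem ex_sub (g : Gen) (n : ℤ) : n ≤ (Ex g n).a ∧ (Ex g n).b ≤ n + 3 := by
  cases g with
  | cup i =>
    show n ≤ n ∧ n + 2 ≤ n + 3
    omega
  | cap i =>
    show n ≤ n ∧ n + 2 ≤ n + 3
    omega
  | cross i b =>
    cases b
    · show n ≤ n ∧ n + 2 ≤ n + 3
      omega
    · show n ≤ n + 1 ∧ n + 1 + 2 ≤ n + 3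
      omega

theorem out_ex {T : Finset ℤ} {g : Gen} {n : ℤ} (hn : n % 2 = 0)
    (hW : ∀ x, n ≤ x → x ≤ n + 3 → (x ∈ T ↔ x ∈ Wd g n)) : out T (Ex g n) = [g.move (rank T n)] := by
  have w0 := hW n (by omega) (by omega)
  have w1 := hW (n + 1) (by omega) (by omega)
  have w2 := hW (n + 2) (by omega) (by omega)
  have w3 := hW (n + 3) (by omega) (by omega)
  have hp : decide (n % 2 = 1) = false := decide_eq_false (by omega)
  cases g with
  | cup i =>
    have h0 : n ∉ T := fun h => Finset.notMem_empty _ (w0.1 h)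
    have h1 : n + 1 ∉ T := fun h => Finset.notMem_empty _ (w1.1 h)
    have h2 : n + 2 ∉ T := fun h => Finset.notMem_empty _ (w2.1 h)
    show sh (rank T n) (locY (decide (n % 2 = 1)) (decide (n ∈ T)) (decide (n + 1 ∈ T)) (decide (n + 2 ∈ T))) =
      [cup (rank T n)]
    rw [hp, decide_eq_false h0, decide_eq_false h1, decide_eq_false h2]
    show [cup (0 + rank T n)] = [cup (rank T n)]
    rw [Nat.zero_add]
  | cap i =>
    have e : ∀ x, x ∈ Wd (cap i) n ↔ x = n ∨ x = n + 2 := fun x => by
      show x ∈ ({n, n + 2} : Finset ℤ) ↔ _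
      rw [Finset.mem_insert, Finset.mem_singleton]
    have h0 : n ∈ T := w0.2 ((e _).2 (by omega))
    have h1 : n + 1 ∉ T := fun h => by
      have := (e _).1 (w1.1 h)
      omega
    have h2 : n + 2 ∈ T := w2.2 ((e _).2 (by omega))
    show sh (rank T n) (locY (decide (n % 2 = 1)) (decide (n ∈ T)) (decide (n + 1 ∈ T)) (decide (n + 2 ∈ T))) =
      [cap (rank T n)]
    rw [hp, decide_eq_true h0, decide_eq_false h1, decide_eq_true h2]
    show [cap (0 + rank T n)] = [cap (rank T n)]
    rw [Nat.zero_add]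
  | cross i b =>
    cases b
    · have e : ∀ x, x ∈ Wd (cross i false) n ↔ x = n ∨ x = n + 1 := fun x => by
        show x ∈ ({n, n + 1} : Finset ℤ) ↔ _
        rw [Finset.mem_insert, Finset.mem_singleton]
      have h0 : n ∈ T := w0.2 ((e _).2 (by omega))
      have h1 : n + 1 ∈ T := w1.2 ((e _).2 (by omega))
      have h2 : n + 2 ∉ T := fun h => by
        have := (e _).1 (w2.1 h)
        omega
      show sh (rank T n) (locY (decide (n % 2 = 1)) (decide (n ∈ T)) (decide (n + 1 ∈ T)) (decide (n + 2 ∈ T))) =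
        [cross (rank T n) false]
      rw [hp, decide_eq_true h0, decide_eq_true h1, decide_eq_false h2]
      show [cross (0 + rank T n) false] = [cross (rank T n) false]
      rw [Nat.zero_add]
    · have e : ∀ x, x ∈ Wd (cross i true) n ↔ x = n + 1 ∨ x = n + 2 := fun x => by
        show x ∈ ({n + 1, n + 2} : Finset ℤ) ↔ _
        rw [Finset.mem_insert, Finset.mem_singleton]
      have h0 : n ∉ T := fun h => by
        have := (e _).1 (w0.1 h)
        omega
      have h1 : n + 1 ∈ T := w1.2 ((e _).2 (by omega))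
      have h2 : n + 1 + 1 ∈ T := by
        rw [show n + 1 + 1 = n + 2 by omega]
        exact w2.2 ((e _).2 (by omega))
      have h3 : n + 1 + 2 ∉ T := by
        rw [show n + 1 + 2 = n + 3 by omega]
        intro h
        have := (e _).1 (w3.1 h)
        omega
      have hp' : decide ((n + 1) % 2 = 1) = true := decide_eq_true (by omega)
      have hr : rank T (n + 1) = rank T n := by
        rw [rank_succ, decide_eq_false h0]
        rfl
      show sh (rank T (n + 1)) (locY (decide ((n + 1) % 2 = 1)) (decide (n + 1 ∈ T)) (decide (n + 1 + 1 ∈ T))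
        (decide (n + 1 + 2 ∈ T))) = [cross (rank T n) true]
      rw [hp', decide_eq_true h1, decide_eq_true h2, decide_eq_false h3, hr]
      show [cross (0 + rank T n) true] = [cross (rank T n) true]
      rw [Nat.zero_add]

theorem realG {T : Finset ℤ} {g : Gen} (h : g.Ok T.card) : ∃ x, scan T x = [g] := by
  have hW : ∀ x ∈ Wd g 0, (0 : ℤ) ≤ x ∧ x ≤ 0 + 4 := fun x hx => by
    have := wd_sub hx
    omega
  have hc : (Fr 0 g.pos (T.card - g.pos - g.ins) (Wd g 0)).card = T.card := by
    rw [fr_card hW, wd_card]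
    unfold Gen.Ok at h
    omega
  obtain ⟨p, hp, hr⟩ := conn hc.symm
  refine ⟨p ++ [Ex g 0], ?_⟩
  rw [scan_append, hp.scan_eq, hr, scan_cons, scan_nil, List.append_nil, List.nil_append,
    out_ex (g := g) (n := 0) rfl (fun x h1 h2 => fr_win (by omega) (by omega)),
    fr_rank hW (by omega) (by omega), move_pos]

theorem realW {T : Finset ℤ} {u : List Gen} (h : Valid T.card u) : ∃ x, scan T x = u := by
  induction u generalizing T with
  | nil => exact ⟨[], rfl⟩
  | cons g u ih =>
    obtain ⟨x, hx⟩ := realG h.1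
    have hc : (run T x).card = next T.card g := by
      rw [← endk_scan, hx, endk_cons, endk_nil]
    have h2 : Valid (run T x).card u := by
      rw [hc]
      exact h.2
    obtain ⟨y, hy⟩ := ih h2
    refine ⟨x ++ y, ?_⟩
    rw [scan_append, hx, hy, List.singleton_append]

end Pool.Agent.Lib.MP_dd2c10_prF
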