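import Pool.Agent.Lib.MP_dd2c10_prF.Conn

/-! JOB Refl (MP_dd2c10_pr): planar paths below a given vertex, by the reflection `x ↦ 1 - x` of the ladder (it maps `Y n` to `Y (-1 - n)` and `Z y` to
`Z (-y)`).

PROOFS. `rf_a`, `rf_b`: cases. `act_rf`: `ext x`, `mem_act`, `mem_rfs`. `pln_rf`: `Pln` with `rf_a`, `rf_b`, `mem_rfs`; for the vertices between: `x` is
strictly between the ends of `rf e` iff `1 - x` is strictly between the ends of `e`. `ppath_rf`, `run_rf`: induction on `p`.
`conn_below`: apply `conn_above` with `1 - m` to `rfs T`, `rfs T'` (`card` is preserved: `Finset.card_image_of_injective`), reflect the path back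
(`rf (rf e) = e`, `rfs (rfs T) = T`); `1 - m < (f).a` and `(rf f).b = 1 - f.a < m`. -/

namespace Pool.Agent.Lib.MP_dd2c10_prF

open Gen Ed

/-- The reflected edge. -/
def rf : Ed → Ed
  | Y n => Y (-1 - n)
  | Z y => Z (-y)

/-- The reflected state. -/
def rfs (T : Finset ℤ) : Finset ℤ := T.image fun x => 1 - x

theorem mem_rfs {T : Finset ℤ} {x : ℤ} : x ∈ rfs T ↔ 1 - x ∈ T := by
  unfold rfs
  rw [Finset.mem_image]
  constructor
  · rintro ⟨y, hy, rfl⟩
    rwa [sub_sub_cancel]
  · intro h
    exact ⟨1 - x, h, by ring⟩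

theorem rf_a (e : Ed) : (rf e).a = 1 - e.b := by
  cases e <;> simp only [rf, a_Y, b_Y, a_Z, b_Z] <;> ring

theorem rf_b (e : Ed) : (rf e).b = 1 - e.a := by
  cases e <;> simp only [rf, a_Y, b_Y, a_Z, b_Z] <;> ring

theorem act_rf (T : Finset ℤ) (e : Ed) : act (rfs T) (rf e) = rfs (act T e) := by
  ext x
  rw [mem_act, mem_rfs, mem_rfs, mem_act, rf_a, rf_b]
  have h1 : (x = 1 - e.b) ↔ (1 - x = e.b) := by constructor <;> intro h <;> omega
  have h2 : (x = 1 - e.a) ↔ (1 - x = e.a) := by constructor <;> intro h <;> omega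
  rw [h1, h2]
  tauto

private theorem Refl_rfs_rfs (T : Finset ℤ) : rfs (rfs T) = T := by
  ext x
  rw [mem_rfs, mem_rfs, sub_sub_cancel]

private theorem Refl_rf_rf (e : Ed) : rf (rf e) = e := by
  cases e with
  | Y n => exact congrArg Y (by omega)
  | Z y => exact congrArg Z (by omega)

private theorem Refl_map_map (p : List Ed) : (p.map rf).map rf = p := by
  induction p with
  | nil => rfl
  | cons e p ih => rw [List.map_cons, List.map_cons, ih, Refl_rf_rf]

private theorem Refl_card (T : Finset ℤ) : (rfs T).card = T.card := by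
  unfold rfs
  exact Finset.card_image_of_injective T (fun x y h => by
    have h' : 1 - x = 1 - y := h
    omega)

theorem pln_rf {T : Finset ℤ} {e : Ed} (h : Pln T e) : Pln (rfs T) (rf e) := by
  obtain ⟨h1, h2⟩ := h
  refine ⟨?_, ?_⟩
  · rw [mem_rfs, mem_rfs, rf_a, rf_b, sub_sub_cancel, sub_sub_cancel]
    tauto
  · intro x hx1 hx2
    rw [rf_a] at hx1
    rw [rf_b] at hx2
    rw [mem_rfs]
    exact h2 (1 - x) (by omega) (by omega)

theorem ppath_rf {T : Finset ℤ} {p : List Ed} (h : PPath T p) : PPath (rfs T) (p.map rf) := by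
  induction p generalizing T with
  | nil => exact trivial
  | cons e p ih =>
    have h' : Pln T e ∧ PPath (act T e) p := h
    show Pln (rfs T) (rf e) ∧ PPath (act (rfs T) (rf e)) (p.map rf)
    refine ⟨pln_rf h'.1, ?_⟩
    rw [act_rf]
    exact ih h'.2

theorem run_rf (T : Finset ℤ) (p : List Ed) : run (rfs T) (p.map rf) = rfs (run T p) := by
  induction p generalizing T with
  | nil => rfl
  | cons e p ih => rw [List.map_cons, run_cons, run_cons, act_rf, ih]

/-- Strands below `m` can be moved to any other positions below `m` by a planar path below `m`. -/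
theorem conn_below {T T' : Finset ℤ} (m : ℤ) (h1 : ∀ x ≥ m, (x ∈ T ↔ x ∈ T')) (h2 : T.card = T'.card) :
    ∃ p, PPath T p ∧ run T p = T' ∧ ∀ f ∈ p, f.b < m := by
  obtain ⟨p, hp1, hp2, hp3⟩ := conn_above (T := rfs T) (T' := rfs T') (1 - m) (fun x hx => by
    rw [mem_rfs, mem_rfs]
    exact h1 (1 - x) (by omega)) (by rw [Refl_card, Refl_card]; exact h2)
  refine ⟨p.map rf, ?_, ?_, ?_⟩
  · have h := ppath_rf hp1
    rwa [Refl_rfs_rfs] at h
  · have h := run_rf (rfs T) p
    rwa [Refl_rfs_rfs, hp2, Refl_rfs_rfs] at h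
  · intro f hf
    rw [List.mem_map] at hf
    obtain ⟨g, hg, rfl⟩ := hf
    have h := hp3 g hg
    rw [rf_b]
    omega

end Pool.Agent.Lib.MP_dd2c10_prF
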