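import Pool.Agent.Lib.MP_dd2c10_prF.Rdg

/-! JOB Reo (MP_dd2c10_pr): two readings of the same polygon give equivalent words.

`LocL T ℓ`: if two letters of a column meet in a vertex `n`, then no strand passes through `n` before this column and there is no third letter of the column at `n`.

PROOFS.
* `front`: induction on `A` generalizing `T`. `A = []`: `refl`. `A = (c, f) :: A'`: `wd (A ++ [(c, e)]) = f :: wd A' ++ [e] ~ f :: e :: wd A'` (induction hypothesis at `act T f`: a common vertex `n` of `e` and a letter `g ≠ e` of `A'`: `n ∉ act T f`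
  since `n ∉ T` and `n` is not an end of `f`) `~ e :: f :: wd A'` (`LEq.swap`). Formulate the hypothesis so that the induction works: for each letter `(c, f)` of `A` and common vertex `n` of `e`, `f`: `n ∉ T`, and no
  other letter of `A` (in `A` without `f`) has the end `n`.
* `reo`: induction on `ℓ` generalizing `T`, `ℓ'`. `[]`: trivial. `ℓ = (c, e) :: ℓ₁`: `(c, e) ∈ ℓ'`, `ℓ' = A ++ (c, e) :: B` (`List.append_of_mem`). All elements `p` of `A` are in `ℓ`, and
  `c ≤ p.1` (as `ℓ` is sorted and starts with the column `c`), and `p.1 ≤ c` (`ℓ'` is sorted): all letters of `A` are in the column `c`. The filter `(·.1 < c)` of `ℓ` is empty, so `LocL T ℓ` says that the common vertices in the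
  column `c` are not in `T`. `front` moves `e` to the front: `wd ℓ' = wd A ++ e :: wd B ~ e :: (wd A ++ wd B)`. `ℓ₁` is a permutation of `A ++ B` (`List.Perm.cons_inv`, `List.perm_middle`), both sorted, nodup.
  `LocL (act T e) ℓ₁`: for the column `c`: common vertex `n` of two letters of `ℓ₁`: not in `T`, and not an end of `e` (third letter), so not in `act T e`. For columns `c' > c`: the state before the column is
  `run T (wd (((c, e) :: ℓ₁).filter (·.1 < c'))) = run (act T e) (wd (ℓ₁.filter (·.1 < c')))`. Induction hypothesis for `ℓ₁`, `A ++ B`.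
* `locL_of_good`: `loc_of_good`; `run ∅ (wd (ℓ.filter (·.1 < c))) = st ℓ (c - 1)` (`p.1 < c ↔ p.1 ≤ c - 1`), `mem_es_xed`, `rdg_es`; `a = n ∨ b = n`, `(c, e) ∈ ℓ ↔ edgeAt c e ∈ ω`.
* `rdg_leq`: two nodup lists with the same members are permutations of each other (`List.perm_ext_iff_of_nodup`), `reo` with `T = ∅`. -/

namespace Pool.Agent.Lib.MP_dd2c10_prF

open Pool.Agent.Lib.MP_dd2c10_pr Ed

/-- If two letters of a column meet in `n`, no strand passes there before the column and there is no third letter at `n`. -/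
def LocL (T : Finset ℤ) (ℓ : List (ℤ × Ed)) : Prop :=
  ∀ (c n : ℤ) (e f : Ed), e ≠ f → (c, e) ∈ ℓ → (c, f) ∈ ℓ → (e.a = n ∨ e.b = n) → (f.a = n ∨ f.b = n) →
    n ∉ run T (wd (ℓ.filter fun p => decide (p.1 < c))) ∧
      ∀ g, (c, g) ∈ ℓ → (g.a = n ∨ g.b = n) → g = e ∨ g = f

private theorem Reo_wd_append (A B : List (ℤ × Ed)) : wd (A ++ B) = wd A ++ wd B := List.map_append

private theorem Reo_front (e : Ed) (u : List Ed) (T : Finset ℤ) (hn : u.Nodup)
    (h : ∀ f ∈ u, ∀ n : ℤ, (n = e.a ∨ n = e.b) → (n = f.a ∨ n = f.b) → n ∉ T ∧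
      ∀ g ∈ u, (n = g.a ∨ n = g.b) → g = f) : LEq T (u ++ [e]) (e :: u) := by
  induction u generalizing T with
  | nil => exact LEq.refl _
  | cons f u ih =>
    have hn' := List.nodup_cons.1 hn
    have h1 : LEq (act T f) (u ++ [e]) (e :: u) := by
      refine ih (act T f) hn'.2 fun g hg n hne hng => ?_
      have h2 := h g (List.mem_cons_of_mem _ hg) n hne hng
      refine ⟨fun hm => ?_, fun g' hg' hng' => h2.2 g' (List.mem_cons_of_mem _ hg') hng'⟩
      have h3 : ¬ (n = f.a ∨ n = f.b) := fun h4 => by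
        have h5 := h2.2 f List.mem_cons_self h4
        exact hn'.1 (h5 ▸ hg)
      rw [mem_act] at hm
      exact hm ⟨fun h4 => absurd h4 h2.1, fun h4 => absurd h4 h3⟩
    have h2 : LEq T (f :: (u ++ [e])) (f :: (e :: u)) := LEq.cons f h1
    refine h2.trans (LEq.swap f e u fun v hf he => ?_)
    exact (h f List.mem_cons_self v he hf).1

theorem reo (T : Finset ℤ) (ℓ ℓ' : List (ℤ × Ed)) (hp : ℓ.Perm ℓ') (hn : ℓ.Nodup)
    (hs : ℓ.Pairwise fun p q => p.1 ≤ q.1) (hs' : ℓ'.Pairwise fun p q => p.1 ≤ q.1) (hL : LocL T ℓ) :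
    LEq T (wd ℓ) (wd ℓ') := by
  induction ℓ generalizing T ℓ' with
  | nil =>
    rw [← hp.nil_eq]
    exact LEq.refl _
  | cons q l ih =>
    obtain ⟨c, e⟩ := q
    have hmem : (c, e) ∈ ℓ' := hp.subset List.mem_cons_self
    obtain ⟨A, B, rfl⟩ := List.append_of_mem hmem
    have hp1 : l.Perm (A ++ B) := (List.perm_cons _).1 (hp.trans List.perm_middle)
    have hn1 := List.nodup_cons.1 hn
    have hs1 := List.pairwise_cons.1 hs
    have hs2 := List.pairwise_append.1 hs'
    have hn' : (A ++ (c, e) :: B).Nodup := hp.nodup_iff.1 hn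
    have hAl : ∀ p ∈ A, p ∈ l := fun p hpA => hp1.symm.subset (List.mem_append_left _ hpA)
    have hAc : ∀ p ∈ A, p.1 = c := fun p hpA =>
      le_antisymm (hs2.2.2 p hpA (c, e) List.mem_cons_self) (hs1.1 p (hAl p hpA))
    have hge : ∀ p ∈ ((c, e) :: l : List (ℤ × Ed)), c ≤ p.1 := fun p hp => by
      rcases List.mem_cons.1 hp with rfl | hp
      · exact le_refl _
      · exact hs1.1 p hp
    have hfil : ((c, e) :: l : List (ℤ × Ed)).filter (fun p => decide (p.1 < c)) = [] := by
      refine List.filter_eq_nil_iff.2 fun p hp => ?_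
      have h1 := hge p hp
      rw [decide_eq_true_eq]
      omega
    have hfil' : l.filter (fun p => decide (p.1 < c)) = [] := by
      refine List.filter_eq_nil_iff.2 fun p hp => ?_
      have h1 := hs1.1 p hp
      rw [decide_eq_true_eq]
      omega
    have hwA : ∀ f ∈ wd A, (c, f) ∈ A := fun f hf => by
      obtain ⟨p, hpA, hpf⟩ := List.mem_map.1 hf
      have h1 := hAc p hpA
      have h2 : p = (c, f) := Prod.ext h1 hpf
      rw [← h2]
      exact hpA
    have hne : ∀ f ∈ wd A, f ≠ e := fun f hf h1 => hn1.1 (hAl _ (h1 ▸ hwA f hf))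
    have hnA : (wd A).Nodup := by
      refine List.Nodup.map_on (fun x hx y hy h1 => Prod.ext ((hAc x hx).trans (hAc y hy).symm) h1) ?_
      exact (List.nodup_append.1 hn').1
    have h1 : LEq T (wd A ++ [e]) (e :: wd A) := by
      refine Reo_front e (wd A) T hnA fun f hf n hne' hnf => ?_
      have h2 := hL c n e f (hne f hf).symm List.mem_cons_self (List.mem_cons_of_mem _ (hAl _ (hwA f hf)))
        (hne'.imp Eq.symm Eq.symm) (hnf.imp Eq.symm Eq.symm)
      rw [hfil] at h2
      refine ⟨h2.1, fun g hg hng => ?_⟩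
      rcases h2.2 g (List.mem_cons_of_mem _ (hAl _ (hwA g hg))) (hng.imp Eq.symm Eq.symm) with h3 | h3
      · exact absurd h3 (hne g hg)
      · exact h3
    have h2 : LEq T (wd (A ++ (c, e) :: B)) (e :: wd (A ++ B)) := by
      have h3 := h1.right (wd B)
      rw [Reo_wd_append, Reo_wd_append]
      rw [List.append_assoc] at h3
      exact h3
    have hL' : LocL (act T e) l := by
      intro c' n f g hfg hf hg nf ng
      have h3 := hL c' n f g hfg (List.mem_cons_of_mem _ hf) (List.mem_cons_of_mem _ hg) nf ng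
      refine ⟨?_, fun g' hg' => h3.2 g' (List.mem_cons_of_mem _ hg')⟩
      have h4 : c ≤ c' := hs1.1 _ hf
      rcases eq_or_lt_of_le h4 with h5 | h5
      · subst h5
        rw [hfil']
        rw [hfil] at h3
        have h6 : n ∉ T := h3.1
        have h7 : ¬ (n = e.a ∨ n = e.b) := fun h8 => by
          rcases h3.2 e List.mem_cons_self (h8.imp Eq.symm Eq.symm) with h9 | h9
          · exact hn1.1 (h9 ▸ hf)
          · exact hn1.1 (h9 ▸ hg)
        intro hm
        have hm' : n ∈ act T e := hm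
        rw [mem_act] at hm'
        exact hm' ⟨fun h8 => absurd h8 h6, fun h8 => absurd h8 h7⟩
      · have h6 : ((c, e) :: l : List (ℤ × Ed)).filter (fun p => decide (p.1 < c')) =
            (c, e) :: l.filter (fun p => decide (p.1 < c')) :=
          List.filter_cons_of_pos (decide_eq_true h5)
        rw [h6] at h3
        exact h3.1
    have hs3 : (A ++ B).Pairwise fun p q : ℤ × Ed => p.1 ≤ q.1 :=
      List.pairwise_append.2 ⟨hs2.1, (List.pairwise_cons.1 hs2.2.1).2,
        fun a ha b hb => hs2.2.2 a ha b (List.mem_cons_of_mem _ hb)⟩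
    have h3 : LEq (act T e) (wd l) (wd (A ++ B)) := ih (act T e) (A ++ B) hp1 hn1.2 hs1.2 hs3 hL'
    have h4 : LEq T (e :: wd l) (e :: wd (A ++ B)) := LEq.cons e h3
    exact h4.trans h2.symm

theorem locL_of_good {ω : Set (Sym2 Pt)} {ℓ : List (ℤ × Ed)} (hG : Good ω) (hf : ω.Finite) (hr : Rdg ω ℓ) :
    LocL ∅ ℓ := by
  intro c n e f hef he hf' ne nf
  have h1 := loc_of_good hG c n e f hef ne nf ((hr.2.2 c e).1 he) ((hr.2.2 c f).1 hf')
  have h2 : ℓ.filter (fun p => decide (p.1 < c)) = ℓ.filter (fun p => decide (p.1 ≤ c - 1)) := by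
    refine List.filter_congr fun p _ => ?_
    refine decide_eq_decide.2 ?_
    omega
  refine ⟨?_, fun g hg ng => h1.2 g ng ((hr.2.2 c g).1 hg)⟩
  rw [h2]
  intro h3
  have h4 : xed (c - 1) n ∈ ES ℓ := (mem_es_xed ℓ (c - 1) n).2 h3
  rw [← rdg_es hG hf hr] at h4
  exact h1.1 h4

theorem rdg_leq {ω : Set (Sym2 Pt)} {ℓ ℓ' : List (ℤ × Ed)} (hG : Good ω) (hf : ω.Finite) (hr : Rdg ω ℓ)
    (hr' : Rdg ω ℓ') : LEq ∅ (wd ℓ) (wd ℓ') := by
  have hp : ℓ.Perm ℓ' := (List.perm_ext_iff_of_nodup hr.2.1 hr'.2.1).2 fun p => by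
    have h1 := hr.2.2 p.1 p.2
    have h2 := hr'.2.2 p.1 p.2
    exact h1.trans h2.symm
  exact reo ∅ ℓ ℓ' hp hr.2.1 hr.1 hr'.1 (locL_of_good hG hf hr)

end Pool.Agent.Lib.MP_dd2c10_prF
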