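import Pool.Agent.Lib.MP_dd2c10_prF.Near

/-! JOB Rev (MP_dd2c10_pr): words and diagrams read backwards.

PROOFS.
* `out_rev`: `rank (act T e) e.a = rank T e.a` (no vertex below `e.a` is changed: `Finset.filter` sets agree by `mem_act`), the two ends
  of `e` are toggled, the middle vertex is not. `cases e`, then case distinction over the memberships; everything reduces to an equality of
  concrete lists: unfold `out, locY, locZ, rinv, Gen.inv, sh, Gen.move`.
* `scan_rev`: induction on `w` generalizing `T`: `(e :: w).reverse = w.reverse ++ [e]`, `scan_append`,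
  `run (run (act T e) w) w.reverse = act T e` (`run_rev`), then `out (act T e) e = rinv (out T e)` and `rinv_append`.
* `run_rev`: induction on `w` generalizing `T`, `run_append`, `act_act`.
* `LRule.rev`: `swap e f`: the state after `[e, f]` is `act (act T e) f`; a common vertex is toggled twice (or, if `e = f`.. the word is the same), so it is
  not in this state: `LRule.swap f e`. `cancel e`: the state after `[e, e]` is `T` (`act_act`), the word is its own reverse. `sqa y`: put
  `T' = run T [Y (2 y), Z y]`; `2 y`, `2 y + 3 ∉ T'` (`mem_act`, arithmetic by `omega`); `[Z y, Y (2 y)] ~ [Y (2 y), Z y]` (`LEq.swap`, common vertex `2 y ∉ T'`)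
  `~ [Y (2 y + 1), Z (y + 1)]` (`LEq.sqa`) `~ [Z (y + 1), Y (2 y + 1)]` (`LEq.swap`, common vertex `2 y + 3`). `sqb y`: the same with `2 y + 1`,
  `2 y + 2 ∉ T'`: `[Z (y + 1), Y (2 y)] ~ [Y (2 y), Z (y + 1)] ~ [Z y, Y (2 y + 1)] ~ [Y (2 y + 1), Z y]`.
* `LEq.rev`: induction on the generated equivalence; a step `a ++ u ++ b → a ++ v ++ b` is reversed to
  `b.reverse ++ (u.reverse ++ a.reverse) → ..` at the state `run T (a ++ u ++ b)`; `run (..) b.reverse = run (run T a) u` by `run_rev`; use
  `LEq.left`, `LEq.right` and `LRule.rev`. In the transitive and symmetric cases the end states agree by `LEq.run_eq`. -/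

namespace Pool.Agent.Lib.MP_dd2c10_prF

open Gen Ed

/-- The piece read backwards. -/
def Gen.inv : Gen → Gen
  | cup i => cap i
  | cap i => cup i
  | cross i b => cross i !b

/-- The diagram read backwards. -/
def rinv (w : List Gen) : List Gen := (w.map Gen.inv).reverse

theorem rinv_append (u v : List Gen) : rinv (u ++ v) = rinv v ++ rinv u := by
  unfold rinv
  rw [List.map_append, List.reverse_append]

private theorem Rev_inv_inv (g : Gen) : g.inv.inv = g := by
  cases g with
  | cup i => rfl
  | cap i => rfl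
  | cross i b => cases b <;> rfl

theorem rinv_rinv (u : List Gen) : rinv (rinv u) = u := by
  unfold rinv
  rw [List.map_reverse, List.reverse_reverse, List.map_map]
  conv_rhs => rw [← List.map_id u]
  exact List.map_congr_left fun g _ => Rev_inv_inv g

private theorem Rev_locY (r : ℕ) (p x m z : Bool) : sh r (locY p (!x) m (!z)) = rinv (sh r (locY p x m z)) := by
  cases p <;> cases x <;> cases m <;> cases z <;> rfl

private theorem Rev_locZ (r : ℕ) (x z : Bool) : sh r (locZ (!x) (!z)) = rinv (sh r (locZ x z)) := by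
  cases x <;> cases z <;> rfl

private theorem Rev_rank (T : Finset ℤ) (e : Ed) : rank (act T e) e.a = rank T e.a := by
  unfold rank
  congr 1
  ext x
  rw [Finset.mem_filter, Finset.mem_filter, mem_act]
  have h1 := a_lt_b e
  constructor
  · rintro ⟨h2, h3⟩
    have h4 : ¬ (x = e.a ∨ x = e.b) := by omega
    exact ⟨by tauto, h3⟩
  · rintro ⟨h2, h3⟩
    have h4 : ¬ (x = e.a ∨ x = e.b) := by omega
    exact ⟨by tauto, h3⟩

theorem out_rev (T : Finset ℤ) (e : Ed) : out (act T e) e = rinv (out T e) := by
  cases e with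
  | Y n =>
    have h0 : rank (act T (Y n)) n = rank T n := Rev_rank T (Y n)
    have h1 : decide (n ∈ act T (Y n)) = !decide (n ∈ T) := by
      rw [← decide_not]
      refine decide_eq_decide.2 ?_
      rw [mem_act, a_Y, b_Y]
      tauto
    have h2 : decide (n + 1 ∈ act T (Y n)) = decide (n + 1 ∈ T) := by
      refine decide_eq_decide.2 ?_
      rw [mem_act, a_Y, b_Y]
      have : ¬ (n + 1 = n ∨ n + 1 = n + 2) := by omega
      tauto
    have h3 : decide (n + 2 ∈ act T (Y n)) = !decide (n + 2 ∈ T) := by
      rw [← decide_not]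
      refine decide_eq_decide.2 ?_
      rw [mem_act, a_Y, b_Y]
      tauto
    show sh (rank (act T (Y n)) n) (locY (decide (n % 2 = 1)) (decide (n ∈ act T (Y n))) (decide (n + 1 ∈ act T (Y n)))
      (decide (n + 2 ∈ act T (Y n)))) = rinv (sh (rank T n) (locY (decide (n % 2 = 1)) (decide (n ∈ T))
      (decide (n + 1 ∈ T)) (decide (n + 2 ∈ T))))
    rw [h0, h1, h2, h3]
    exact Rev_locY _ _ _ _ _
  | Z y =>
    have h0 : rank (act T (Z y)) (2 * y) = rank T (2 * y) := Rev_rank T (Z y)
    have h1 : decide (2 * y ∈ act T (Z y)) = !decide (2 * y ∈ T) := by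
      rw [← decide_not]
      refine decide_eq_decide.2 ?_
      rw [mem_act, a_Z, b_Z]
      tauto
    have h3 : decide (2 * y + 1 ∈ act T (Z y)) = !decide (2 * y + 1 ∈ T) := by
      rw [← decide_not]
      refine decide_eq_decide.2 ?_
      rw [mem_act, a_Z, b_Z]
      tauto
    show sh (rank (act T (Z y)) (2 * y)) (locZ (decide (2 * y ∈ act T (Z y))) (decide (2 * y + 1 ∈ act T (Z y)))) =
      rinv (sh (rank T (2 * y)) (locZ (decide (2 * y ∈ T)) (decide (2 * y + 1 ∈ T))))
    rw [h0, h1, h3]
    exact Rev_locZ _ _ _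

theorem run_rev (T : Finset ℤ) (w : List Ed) : run (run T w) w.reverse = T := by
  induction w generalizing T with
  | nil => rfl
  | cons e w ih =>
    have h1 : run T (e :: w) = run (act T e) w := rfl
    rw [h1, List.reverse_cons, run_append, ih, run_cons, run_nil, act_act]

theorem scan_rev (T : Finset ℤ) (w : List Ed) : scan (run T w) w.reverse = rinv (scan T w) := by
  induction w generalizing T with
  | nil => rfl
  | cons e w ih =>
    rw [List.reverse_cons, scan_append, run_cons, ih, run_rev, scan_cons, scan_nil, List.append_nil, out_rev, scan_cons,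
      rinv_append]

theorem LRule.rev {T : Finset ℤ} {u v : List Ed} (h : LRule T u v) : LEq (run T u) u.reverse v.reverse := by
  cases h with
  | swap e f h =>
    refine LEq.swap f e [] fun v h1 h2 => ?_
    have h3 := h v h2 h1
    rw [run_cons, run_cons, run_nil, mem_act, mem_act]
    tauto
  | cancel e h =>
    refine LEq.cancel e [] ?_
    rw [run_cons, run_cons, run_nil, act_act]
    exact h
  | sqa y h1 h2 =>
    have h3 : 2 * y ∉ run T [Y (2 * y), Z y] := by
      rw [run_cons, run_cons, run_nil, mem_act, mem_act, a_Y, b_Y, a_Z, b_Z]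
      tauto
    have h4 : 2 * y + 3 ∉ run T [Y (2 * y), Z y] := by
      rw [run_cons, run_cons, run_nil, mem_act, mem_act, a_Y, b_Y, a_Z, b_Z]
      have e1 : ¬ (2 * y + 3 = 2 * y ∨ 2 * y + 3 = 2 * y + 1) := by omega
      have e2 : ¬ (2 * y + 3 = 2 * y ∨ 2 * y + 3 = 2 * y + 2) := by omega
      tauto
    refine (LEq.swap (Z y) (Y (2 * y)) [] fun v e1 e2 => ?_).trans ((LEq.sqa y [] h3 h4).trans
      (LEq.swap (Y (2 * y + 1)) (Z (y + 1)) [] fun v e1 e2 => ?_))
    · rw [a_Y, b_Y] at e2
      rw [a_Z, b_Z] at e1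
      have : v = 2 * y := by omega
      rw [this]
      exact h3
    · rw [a_Y, b_Y] at e1
      rw [a_Z, b_Z] at e2
      have : v = 2 * y + 3 := by omega
      rw [this]
      exact h4
  | sqb y h1 h2 =>
    have h3 : 2 * y + 1 ∉ run T [Y (2 * y), Z (y + 1)] := by
      rw [run_cons, run_cons, run_nil, mem_act, mem_act, a_Y, b_Y, a_Z, b_Z]
      have e1 : ¬ (2 * y + 1 = 2 * y ∨ 2 * y + 1 = 2 * y + 2) := by omega
      have e2 : ¬ (2 * y + 1 = 2 * (y + 1) ∨ 2 * y + 1 = 2 * (y + 1) + 1) := by omega
      tauto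
    have h4 : 2 * y + 2 ∉ run T [Y (2 * y), Z (y + 1)] := by
      rw [run_cons, run_cons, run_nil, mem_act, mem_act, a_Y, b_Y, a_Z, b_Z]
      have e1 : (2 * y + 2 = 2 * y ∨ 2 * y + 2 = 2 * y + 2) := by omega
      have e2 : (2 * y + 2 = 2 * (y + 1) ∨ 2 * y + 2 = 2 * (y + 1) + 1) := by omega
      tauto
    refine (LEq.swap (Z (y + 1)) (Y (2 * y)) [] fun v e1 e2 => ?_).trans ((LEq.sqb y [] h3 h4).trans
      (LEq.swap (Z y) (Y (2 * y + 1)) [] fun v e1 e2 => ?_))
    · rw [a_Y, b_Y] at e2
      rw [a_Z, b_Z] at e1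
      have : v = 2 * y + 2 := by omega
      rw [this]
      exact h4
    · rw [a_Y, b_Y] at e2
      rw [a_Z, b_Z] at e1
      have : v = 2 * y + 1 := by omega
      rw [this]
      exact h3

theorem LEq.rev {T : Finset ℤ} {u v : List Ed} (h : LEq T u v) : LEq (run T u) u.reverse v.reverse := by
  unfold LEq WEq at h
  induction h with
  | rel u v h =>
    obtain ⟨a, u', v', b, rfl, rfl, h⟩ := h
    have h1 : LRule (run T a) u' v' := h
    rw [List.reverse_append, List.reverse_append, List.reverse_append, List.reverse_append]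
    refine LEq.left b.reverse ?_
    rw [run_append, run_rev, run_append]
    exact h1.rev.right a.reverse
  | refl u => exact LEq.refl _
  | symm u v h ih =>
    have h1 : LEq T u v := h
    rw [← h1.run_eq]
    exact ih.symm
  | trans u v w h1 h2 ih1 ih2 =>
    have h3 : LEq T u v := h1
    rw [← h3.run_eq] at ih2
    exact ih1.trans ih2

end Pool.Agent.Lib.MP_dd2c10_prF
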