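import Pool.Agent.Lib.MP_dd2c10_prF.RealG

/-! JOB RzA (MP_dd2c10_pr): realisation of the diagram moves by moves of words: reversal, zigzag, Reidemeister II, Reidemeister I.

`Rz k u v`: there are a state with `k` strands and equivalent words with the diagrams `u` and `v`.

PROOFS. All states are `Fr 0 i c W` or `Fr 1 i c W` (`fr_win`, `fr_rank`, `fr_card`); compute the diagrams with `scan_cons`, `out`, `mem_act`, `rank_succ`,
`rank_act_le`, `locY`, `locZ`, `sh`.
* `rz_rev`: words `x.reverse`, `y.reverse` at `run T x` (`= run T y`, `LEq.run_eq`): `LEq.rev`, `scan_rev`; the number of strands is `endk_scan`.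
* `rz_zig`: `T = Fr 0 i (k - i - 1) {0}`, `x = [Y 2, Y 0]`, `y = [Y 0, Y 2]`; `y` is planar (diagram `[]`), `x` has the diagram `[cup (i + 1), cap i]`: `Y 2`: vertices
  `2, 3, 4` empty, rank of `2` is `i + 1`; `Y 0`: `0, 2` occupied, `1` empty, rank of `0` is `i`. `x ~ y`: `LEq.swap`, common vertex `2 ∉ T`.
* `rz_r2`: `n = 0` if `b = false`, `n = 1` if `b = true`; `T = Fr n i (k - i - 2) {n, n + 1}`, `x = [Y n, Y n]`, `y = []`; the diagram of `x` is
  `[cross i b, cross i !b]`; `LEq.cancel` (`n ∈ T`, `n + 2 ∉ T`).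
* `rz_r1` for `b = false`: `T = Fr 0 i (k - i) ∅`, `x = [Z 0, Y 0]`, `y = [Y 0, Z 0]`: the diagram of `x`: `Z 0`: `cup i` (strands at `0, 1`); `Y 0`: `0, 1` occupied, `2` empty:
  `cross i false`. Diagram of `y`: `cup i` (strands at `0, 2`), then `Z 0` planar. `LEq.swap`, common vertex `0 ∉ T`. For `b = true`: the same `T`,
  `x = [Y 0, Z 0, Y 1]`, `y = [Z 1]`: diagram of `x`: `cup i` (strands at `0, 2`), `Z 0` planar (strands at `1, 2`), `Y 1`: `1, 2` occupied, `3` empty: `cross i true`;
  diagram of `y`: `cup i` (strands at `2, 3`; rank of `2` is `i`). `[Y 0, Z 0, Y 1] ~ [Y 1, Z 1, Y 1]` (`LEq.sqa` with `y = 0`; `simp` the arithmetic `2 * 0`, `0 + 1`)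
  `~ [Z 1, Y 1, Y 1]` (`LEq.swap`, common vertex `3 ∉ T`) `~ [Z 1]` (`LEq.cancel`: after `Z 1`: `1` empty, `3` occupied). -/

namespace Pool.Agent.Lib.MP_dd2c10_prF

open Gen Ed

/-- There are a state with `k` strands and equivalent words with the diagrams `u` and `v`. -/
def Rz (k : ℕ) (u v : List Gen) : Prop :=
  ∃ (T : Finset ℤ) (x y : List Ed), T.card = k ∧ scan T x = u ∧ scan T y = v ∧ LEq T x y

private theorem RzA_frame {k i : ℕ} (W : Finset ℤ) (hW : ∀ x ∈ W, (0 : ℤ) ≤ x ∧ x ≤ 4) (h : i + W.card ≤ k) :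
    ∃ T : Finset ℤ, T.card = k ∧ rank T 0 = i ∧ ∀ x : ℤ, -3 ≤ x → x ≤ 7 → (x ∈ T ↔ x ∈ W) := by
  have hW' : ∀ x ∈ W, (0 : ℤ) ≤ x ∧ x ≤ 0 + 4 := fun x hx => by
    have h1 := hW x hx
    omega
  refine ⟨Fr 0 i (k - i - W.card) W, ?_, fr_rank hW' (by omega) (by omega), fun x h1 h2 => fr_win (by omega) (by omega)⟩
  rw [fr_card hW']
  omega

private theorem RzA_Y {T : Finset ℤ} {n : ℤ} {r : ℕ} {x m z : Bool} (hr : rank T n = r) (h0 : decide (n ∈ T) = x)
    (h1 : decide (n + 1 ∈ T) = m) (h2 : decide (n + 2 ∈ T) = z) :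
    out T (Y n) = sh r (locY (decide (n % 2 = 1)) x m z) := by
  subst hr h0 h1 h2
  rfl

private theorem RzA_Z {T : Finset ℤ} {y : ℤ} {r : ℕ} {x z : Bool} (hr : rank T (2 * y) = r)
    (h0 : decide (2 * y ∈ T) = x) (h1 : decide (2 * y + 1 ∈ T) = z) : out T (Z y) = sh r (locZ x z) := by
  subst hr h0 h1
  rfl

theorem rz_rev {k : ℕ} {u v : List Gen} (h : Rz k u v) : Rz (endk k u) (rinv u) (rinv v) := by
  obtain ⟨T, x, y, hT, rfl, rfl, h⟩ := h
  refine ⟨run T x, x.reverse, y.reverse, ?_, scan_rev T x, ?_, h.rev⟩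
  · rw [← endk_scan, hT]
  · rw [h.run_eq]
    exact scan_rev T y

theorem rz_zig {k i : ℕ} (h : i < k) : Rz k [cup (i + 1), cap i] [] := by
  obtain ⟨T, hc, hr, hm⟩ := RzA_frame (k := k) (i := i) {0} (fun x hx => by
    rw [Finset.mem_singleton] at hx
    omega) (by rw [Finset.card_singleton]; omega)
  have t0 : (0 : ℤ) ∈ T := (hm 0 (by omega) (by omega)).2 (by simp)
  have t1 : (1 : ℤ) ∉ T := fun h => by simpa using (hm 1 (by omega) (by omega)).1 h
  have t2 : (2 : ℤ) ∉ T := fun h => by simpa using (hm 2 (by omega) (by omega)).1 h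
  have t3 : (3 : ℤ) ∉ T := fun h => by simpa using (hm 3 (by omega) (by omega)).1 h
  have t4 : (4 : ℤ) ∉ T := fun h => by simpa using (hm 4 (by omega) (by omega)).1 h
  have r1 : rank T 1 = i + 1 := by
    have h1 := rank_succ T 0
    rw [zero_add] at h1
    rw [h1, hr, decide_eq_true t0]
    rfl
  have r2 : rank T 2 = i + 1 := by
    have h1 := rank_succ T 1
    have h2 : (1 : ℤ) + 1 = 2 := by norm_num
    rw [h2] at h1
    rw [h1, r1, decide_eq_false t1]
    rfl
  refine ⟨T, [Y 2, Y 0], [Y 0, Y 2], hc, ?_, ?_, LEq.swap (Y 2) (Y 0) [] ?_⟩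
  · rw [scan_cons, scan_cons, scan_nil, RzA_Y (x := false) (m := false) (z := false) r2 (by simpa using t2)
      (by simpa using t3) (by simpa using t4),
      RzA_Y (r := i) (x := true) (m := false) (z := true) (by rw [rank_act_le (by simp), hr])
        (by simp [mem_act, t0]) (by simp [mem_act, t1]) (by simp [mem_act, t2])]
    simp [locY, Gen.move, Gen.pos]
  · rw [scan_cons, scan_cons, scan_nil, RzA_Y (x := true) (m := false) (z := false) hr (by simpa using t0)
      (by simpa using t1) (by simpa using t2),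
      RzA_Y (x := true) (m := false) (z := false) rfl
        (by simp [mem_act, t2]) (by simp [mem_act, t3]) (by simp [mem_act, t4])]
    simp [locY]
  · intro v h1 h2
    simp only [a_Y, b_Y] at h1 h2
    have h3 : v = 2 := by omega
    rw [h3]
    exact t2

theorem rz_r2 {k i : ℕ} (b : Bool) (h : i + 2 ≤ k) : Rz k [cross i b, cross i !b] [] := by
  cases b with
  | false =>
    obtain ⟨T, hc, hr, hm⟩ := RzA_frame (k := k) (i := i) {0, 1} (fun x hx => by
      rw [Finset.mem_insert, Finset.mem_singleton] at hx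
      omega) (by rw [Finset.card_pair (by norm_num)]; omega)
    have t0 : (0 : ℤ) ∈ T := (hm 0 (by omega) (by omega)).2 (by simp)
    have t1 : (1 : ℤ) ∈ T := (hm 1 (by omega) (by omega)).2 (by simp)
    have t2 : (2 : ℤ) ∉ T := fun h => by simpa using (hm 2 (by omega) (by omega)).1 h
    refine ⟨T, [Y 0, Y 0], [], hc, ?_, rfl, LEq.cancel (Y 0) [] ?_⟩
    · rw [scan_cons, scan_cons, scan_nil, RzA_Y (x := true) (m := true) (z := false) hr (by simpa using t0)
        (by simpa using t1) (by simpa using t2),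
        RzA_Y (r := i) (x := false) (m := true) (z := true) (by rw [rank_act_le (by simp), hr])
          (by simp [mem_act, t0]) (by simp [mem_act, t1]) (by simp [mem_act, t2])]
      simp [locY, Gen.move, Gen.pos]
    · simp only [a_Y, b_Y, zero_add]
      tauto
  | true =>
    obtain ⟨T, hc, hr, hm⟩ := RzA_frame (k := k) (i := i) {1, 2} (fun x hx => by
      rw [Finset.mem_insert, Finset.mem_singleton] at hx
      omega) (by rw [Finset.card_pair (by norm_num)]; omega)
    have t0 : (0 : ℤ) ∉ T := fun h => by simpa using (hm 0 (by omega) (by omega)).1 h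
    have t1 : (1 : ℤ) ∈ T := (hm 1 (by omega) (by omega)).2 (by simp)
    have t2 : (2 : ℤ) ∈ T := (hm 2 (by omega) (by omega)).2 (by simp)
    have t3 : (3 : ℤ) ∉ T := fun h => by simpa using (hm 3 (by omega) (by omega)).1 h
    have r1 : rank T 1 = i := by
      have h1 := rank_succ T 0
      rw [zero_add] at h1
      rw [h1, hr, decide_eq_false t0]
      rfl
    refine ⟨T, [Y 1, Y 1], [], hc, ?_, rfl, LEq.cancel (Y 1) [] ?_⟩
    · rw [scan_cons, scan_cons, scan_nil, RzA_Y (x := true) (m := true) (z := false) r1 (by simpa using t1)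
        (by simpa using t2) (by simpa using t3),
        RzA_Y (r := i) (x := false) (m := true) (z := true) (by rw [rank_act_le (by simp), r1])
          (by simp [mem_act, t1]) (by simp [mem_act, t2]) (by simp [mem_act, t3])]
      simp [locY, Gen.move, Gen.pos]
    · simp only [a_Y, b_Y]
      have h2 : (1 : ℤ) + 2 = 3 := by norm_num
      rw [h2]
      tauto

theorem rz_r1 {k i : ℕ} (b : Bool) (h : i ≤ k) : Rz k [cup i, cross i b] [cup i] := by
  obtain ⟨T, hc, hr, hm⟩ := RzA_frame (k := k) (i := i) ∅ (fun x hx => by simp at hx) (by simpa using h)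
  have t : ∀ x : ℤ, -3 ≤ x → x ≤ 7 → x ∉ T := fun x h1 h2 h3 => by simpa using (hm x h1 h2).1 h3
  have t0 : (0 : ℤ) ∉ T := t 0 (by omega) (by omega)
  have t1 : (1 : ℤ) ∉ T := t 1 (by omega) (by omega)
  have t2 : (2 : ℤ) ∉ T := t 2 (by omega) (by omega)
  have t3 : (3 : ℤ) ∉ T := t 3 (by omega) (by omega)
  have r1 : rank T 1 = i := by
    have h1 := rank_succ T 0
    rw [zero_add] at h1
    rw [h1, hr, decide_eq_false t0]
    rfl
  have r2 : rank T 2 = i := by
    have h1 := rank_succ T 1
    have h2 : (1 : ℤ) + 1 = 2 := by norm_num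
    rw [h2] at h1
    rw [h1, r1, decide_eq_false t1]
    rfl
  cases b with
  | false =>
    refine ⟨T, [Z 0, Y 0], [Y 0, Z 0], hc, ?_, ?_, LEq.swap (Z 0) (Y 0) [] ?_⟩
    · rw [scan_cons, scan_cons, scan_nil, RzA_Z (r := i) (x := false) (z := false) (by rw [mul_zero]; exact hr)
        (by simpa using t0) (by simpa using t1),
        RzA_Y (r := i) (x := true) (m := true) (z := false) (by rw [rank_act_le (by simp), hr])
          (by simp [mem_act, t0]) (by simp [mem_act, t1]) (by simp [mem_act, t2])]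
      simp [locY, locZ, Gen.move, Gen.pos]
    · rw [scan_cons, scan_cons, scan_nil, RzA_Y (x := false) (m := false) (z := false) hr (by simpa using t0)
        (by simpa using t1) (by simpa using t2),
        RzA_Z (x := true) (z := false) rfl (by simp [mem_act, t0]) (by simp [mem_act, t1])]
      simp [locY, locZ, Gen.move, Gen.pos]
    · intro v h1 h2
      simp only [a_Y, b_Y, a_Z, b_Z] at h1 h2
      have h3 : v = 0 := by omega
      rw [h3]
      exact t0
  | true =>
    have r3 : rank (act (act T (Y 0)) (Z 0)) 0 = i := by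
      rw [rank_act_le (by simp), rank_act_le (by simp), hr]
    have m0 : (0 : ℤ) ∉ act (act T (Y 0)) (Z 0) := by
      rw [mem_act, mem_act]
      simp [t0]
    have r4 : rank (act (act T (Y 0)) (Z 0)) 1 = i := by
      have h1 := rank_succ (act (act T (Y 0)) (Z 0)) 0
      rw [zero_add] at h1
      rw [h1, r3, decide_eq_false m0]
      rfl
    refine ⟨T, [Y 0, Z 0, Y 1], [Z 1], hc, ?_, ?_, ?_⟩
    · rw [scan_cons, scan_cons, scan_cons, scan_nil, RzA_Y (x := false) (m := false) (z := false) hr (by simpa using t0)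
        (by simpa using t1) (by simpa using t2),
        RzA_Z (x := true) (z := false) rfl (by simp [mem_act, t0]) (by simp [mem_act, t1]),
        RzA_Y (r := i) (x := true) (m := true) (z := false) r4
          (by simp [mem_act, t1]) (by simp [mem_act, t2]) (by simp [mem_act, t3])]
      simp [locY, locZ, Gen.move, Gen.pos]
    · rw [scan_cons, scan_nil, RzA_Z (r := i) (x := false) (z := false) (by rw [mul_one]; exact r2)
        (by simpa using t2) (by simpa using t3)]
      simp [locZ, Gen.move, Gen.pos]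
    · have h1 : LEq T [Y 0, Z 0, Y 1] [Y 1, Z 1, Y 1] := by
        have h2 := LEq.sqa (T := T) 0 [Y 1] (by simpa using t0) (by simpa using t3)
        simpa using h2
      refine h1.trans ((LEq.swap (Y 1) (Z 1) [Y 1] ?_).trans (LEq.cons (Z 1) (LEq.cancel (Y 1) [] ?_)))
      · intro v h1 h2
        simp only [a_Y, b_Y, a_Z, b_Z] at h1 h2
        have h3 : v = 3 := by omega
        rw [h3]
        exact t3
      · simp [mem_act, t1, t3]

end Pool.Agent.Lib.MP_dd2c10_prF
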