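import Pool.Agent.Lib.MP_dd2c10_prF.RzA

/-! JOB RzB (MP_dd2c10_pr): realisation of the slide of a strand over or under a cup, and of the interchange of distant pieces.

PROOFS.
* `rz_slideCup`: let `m = 0` if `b = false`, `m = 1` if `b = true`, `n = m + 2` (so `b = decide (n % 2 = 1)`), `T = Fr m i (k - i - 1) {n + 1}` (`n + 1 = m + 3`; the vertices
  `m, m + 1, m + 2, m + 4, ..., m + 7` are empty). `x = [Y (n - 2), Y n, Y (n - 2)]`, `y = [Y (n + 2), Y n, Y (n + 2)]`. Both are equivalent to `[Y n]`: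
  `[Y n] ~ [Y n, Y (n - 2), Y (n - 2)]` (`LEq.cancel` symm: after `Y n` the vertex `n` is occupied, `n - 2` empty) `~ x` (`LEq.swap`, common vertex `n ∉ T`);
  `[Y n] ~ [Y n, Y (n + 2), Y (n + 2)] ~ y` (`n + 2` occupied, `n + 4` empty; common vertex `n + 2 ∉ T`). Diagram of `x`: `Y (n - 2)`: `n - 2, n - 1, n` empty, rank `i`:
  `cup i`; `Y n`: `n, n + 1` occupied, `n + 2` empty, rank of `n` is `i + 1`: `cross (i + 1) b`; `Y (n - 2)`: `n - 2` occupied, `n - 1`, `n` empty: nothing. Diagram of `y`: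
  `Y (n + 2)`: `n + 2, n + 3, n + 4` empty, rank of `n + 2` is `i + 1`: `cup (i + 1)`; `Y n`: `n` empty, `n + 1, n + 2` occupied: `cross i !b`; `Y (n + 2)`: `n + 2`, `n + 3` empty,
  `n + 4` occupied: nothing.
* `rz_far`: let `m = h.pos - g.pos - g.ins`, `c = k - h.pos - h.ins`, `B = 4 m + 12` (even), `T = Fr 0 g.pos m (Wd g 0) ∪ Fr B 0 c (Wd h B)` (disjoint; the first part is
  `≤ 4 m + 4 < B`, the second `≥ B`; cardinality `k` by `fr_card`, `wd_card`). `x = [Ex g 0, Ex h B]`, `y = [Ex h B, Ex g 0]`; `LEq.swap` (no common vertex, `ex_sub`).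
  `rank T 0 = g.pos`, `rank T B = (first part).card = h.pos` (`rank_congr`, `rank_all`, `fr_rank`). `out_ex` gives `out T (Ex g 0) = [g]`, `out T (Ex h B) = [h]` (`move_pos`).
  `out (act T (Ex h B)) (Ex g 0) = [g]` (ranks and memberships below `B` unchanged: `rank_act_le`). `out (act T (Ex g 0)) (Ex h B) = [h.move r]` with
  `r = rank (act T (Ex g 0)) B = endk (rank T B) [g] = h.pos + g.outs - g.ins` by `out_loc`. -/

namespace Pool.Agent.Lib.MP_dd2c10_prF

open Gen Ed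

private theorem RzB_out {T : Finset ℤ} {n : ℤ} {r : ℕ} (p x y z : Bool) (hp : decide (n % 2 = 1) = p)
    (hx : decide (n ∈ T) = x) (hy : decide (n + 1 ∈ T) = y) (hz : decide (n + 2 ∈ T) = z) (hr : rank T n = r) :
    out T (Y n) = sh r (locY p x y z) := by
  subst hp hx hy hz hr
  rfl

theorem rz_slideCup {k i : ℕ} (b : Bool) (h : i < k) :
    Rz k [cup i, cross (i + 1) b] [cup (i + 1), cross i !b] := by
  obtain ⟨m, hm⟩ : ∃ m : ℤ, decide (m % 2 = 1) = b := by
    cases b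
    · exact ⟨0, by decide⟩
    · exact ⟨1, by decide⟩
  have hm2 : decide ((m + 2) % 2 = 1) = b := by
    have h1 : (m + 2) % 2 = m % 2 := by omega
    rw [h1]
    exact hm
  have hW : ∀ x ∈ ({m + 3} : Finset ℤ), m ≤ x ∧ x ≤ m + 4 := by
    intro x hx
    rw [Finset.mem_singleton] at hx
    omega
  obtain ⟨T, hT⟩ : ∃ T, T = Fr m i (k - i - 1) {m + 3} := ⟨_, rfl⟩
  have hmem : ∀ x, m - 3 ≤ x → x ≤ m + 7 → (x ∈ T ↔ x = m + 3) := by
    intro x h1 h2
    rw [hT, fr_win h1 h2, Finset.mem_singleton]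
  have hrank : rank T m = i := by
    rw [hT]
    exact fr_rank hW (by omega) le_rfl
  have hcard : T.card = k := by
    rw [hT, fr_card hW, Finset.card_singleton]
    omega
  have e0 := hmem m (by omega) (by omega)
  have e1 := hmem (m + 1) (by omega) (by omega)
  have e2 := hmem (m + 2) (by omega) (by omega)
  have e3 := hmem (m + 3) (by omega) (by omega)
  have e4 := hmem (m + 4) (by omega) (by omega)
  have e5 := hmem (m + 5) (by omega) (by omega)
  have e6 := hmem (m + 6) (by omega) (by omega)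
  have n0 : m ∉ T := by rw [e0]; omega
  have n1 : m + 1 ∉ T := by rw [e1]; omega
  have n2 : m + 2 ∉ T := by rw [e2]; omega
  have n3 : m + 3 ∈ T := by rw [e3]
  have n4 : m + 4 ∉ T := by rw [e4]; omega
  have n5 : m + 5 ∉ T := by rw [e5]; omega
  have n6 : m + 6 ∉ T := by rw [e6]; omega
  have a2 : ∀ x : ℤ, x + 1 + 1 = x + 2 := fun x => by ring
  have a3 : ∀ x : ℤ, x + 2 + 1 = x + 3 := fun x => by ring
  have a4 : ∀ x : ℤ, x + 2 + 2 = x + 4 := fun x => by ring
  have a5 : ∀ x : ℤ, x + 4 + 1 = x + 5 := fun x => by ring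
  have a6 : ∀ x : ℤ, x + 4 + 2 = x + 6 := fun x => by ring
  -- the states
  obtain ⟨T1, hT1⟩ : ∃ T1, T1 = act T (Y m) := ⟨_, rfl⟩
  obtain ⟨T2, hT2⟩ : ∃ T2, T2 = act T1 (Y (m + 2)) := ⟨_, rfl⟩
  obtain ⟨S1, hS1⟩ : ∃ S1, S1 = act T (Y (m + 4)) := ⟨_, rfl⟩
  obtain ⟨S2, hS2⟩ : ∃ S2, S2 = act S1 (Y (m + 2)) := ⟨_, rfl⟩
  obtain ⟨U, hU⟩ : ∃ U, U = act T (Y (m + 2)) := ⟨_, rfl⟩
  have mT1 : ∀ x, x ∈ T1 ↔ ¬ (x ∈ T ↔ (x = m ∨ x = m + 2)) := by
    intro x
    rw [hT1, mem_act, a_Y, b_Y]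
  have mT2 : ∀ x, x ∈ T2 ↔ ¬ (x ∈ T1 ↔ (x = m + 2 ∨ x = m + 4)) := by
    intro x
    rw [hT2, mem_act, a_Y, b_Y, a4]
  have mS1 : ∀ x, x ∈ S1 ↔ ¬ (x ∈ T ↔ (x = m + 4 ∨ x = m + 6)) := by
    intro x
    rw [hS1, mem_act, a_Y, b_Y, a6]
  have mS2 : ∀ x, x ∈ S2 ↔ ¬ (x ∈ S1 ↔ (x = m + 2 ∨ x = m + 4)) := by
    intro x
    rw [hS2, mem_act, a_Y, b_Y, a4]
  have mU : ∀ x, x ∈ U ↔ ¬ (x ∈ T ↔ (x = m + 2 ∨ x = m + 4)) := by
    intro x
    rw [hU, mem_act, a_Y, b_Y, a4]
  have d : ∀ x y : ℤ, x ≠ y → ¬ (m + x = m + y) := fun x y hxy h => hxy (by omega)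
  have t0 : m ∈ T1 := by
    rw [mT1]
    simp [n0]
  have t1 : m + 1 ∉ T1 := by
    rw [mT1]
    simp [n1]
  have t2 : m + 2 ∈ T1 := by
    rw [mT1]
    simp [n2]
  have t3 : m + 3 ∈ T1 := by
    rw [mT1]
    simp [n3]
  have t4 : m + 4 ∉ T1 := by
    rw [mT1]
    simp [n4]
  have u0 : m ∈ T2 := by
    rw [mT2]
    simp [t0]
  have u1 : m + 1 ∉ T2 := by
    rw [mT2]
    simp [t1]
  have u2 : m + 2 ∉ T2 := by
    rw [mT2]
    simp [t2]
  have s2 : m + 2 ∉ S1 := by
    rw [mS1]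
    simp [n2]
  have s3 : m + 3 ∈ S1 := by
    rw [mS1]
    simp [n3]
  have s4 : m + 4 ∈ S1 := by
    rw [mS1]
    simp [n4]
  have s5 : m + 5 ∉ S1 := by
    rw [mS1]
    simp [n5]
  have s6 : m + 6 ∈ S1 := by
    rw [mS1]
    simp [n6]
  have v4 : m + 4 ∉ S2 := by
    rw [mS2]
    simp [s4]
  have v5 : m + 5 ∉ S2 := by
    rw [mS2]
    simp [s5]
  have v6 : m + 6 ∈ S2 := by
    rw [mS2]
    simp [s6]
  have w0 : m ∉ U := by
    rw [mU]
    simp [n0]
  have w2 : m + 2 ∈ U := by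
    rw [mU]
    simp [n2]
  have w4 : m + 4 ∈ U := by
    rw [mU]
    simp [n4]
  have w6 : m + 6 ∉ U := by
    rw [mU]
    simp [n6]
  -- ranks
  have r1 : rank T1 m = i := by
    rw [hT1, rank_act_le (by rw [a_Y]), hrank]
  have r2 : rank T1 (m + 2) = i + 1 := by
    rw [← a2, rank_succ, rank_succ, r1, decide_eq_true t0, decide_eq_false t1]
    rfl
  have r3 : rank T (m + 2) = i := by
    rw [← a2, rank_succ, rank_succ, hrank, decide_eq_false n0, decide_eq_false n1]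
    rfl
  have r4 : rank T (m + 4) = i + 1 := by
    have h1 : m + 4 = m + 2 + 1 + 1 := by ring
    rw [h1, rank_succ, rank_succ, r3, a3, decide_eq_false n2, decide_eq_true n3]
    rfl
  have r5 : rank S1 (m + 2) = i := by
    rw [hS1, rank_act_le (by rw [a_Y]; omega), r3]
  refine ⟨T, [Y m, Y (m + 2), Y m], [Y (m + 4), Y (m + 2), Y (m + 4)], hcard, ?_, ?_, ?_⟩
  · rw [scan_cons, scan_cons, scan_cons, scan_nil, ← hT1, ← hT2,
      RzB_out b false false false hm (decide_eq_false n0) (decide_eq_false n1) (decide_eq_false n2) hrank,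
      RzB_out b true true false hm2 (decide_eq_true t2) (by rw [a3]; exact decide_eq_true t3)
        (by rw [a4]; exact decide_eq_false t4) r2,
      RzB_out b true false false hm (decide_eq_true u0) (decide_eq_false u1) (decide_eq_false u2) rfl]
    simp [locY, sh, Gen.move, Gen.pos, add_comm]
  · rw [scan_cons, scan_cons, scan_cons, scan_nil, ← hS1, ← hS2,
      RzB_out b false false false (by rw [← hm2]; congr 1; simp; omega) (decide_eq_false n4) (by rw [a5]; exact decide_eq_false n5)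
        (by rw [a6]; exact decide_eq_false n6) r4,
      RzB_out b false true true hm2 (decide_eq_false s2) (by rw [a3]; exact decide_eq_true s3)
        (by rw [a4]; exact decide_eq_true s4) r5,
      RzB_out b false false true (by rw [← hm2]; congr 1; simp; omega) (decide_eq_false v4) (by rw [a5]; exact decide_eq_false v5)
        (by rw [a6]; exact decide_eq_true v6) rfl]
    simp [locY, sh, Gen.move, Gen.pos, add_comm]
  · have k1 : LEq T [Y m, Y (m + 2), Y m] [Y (m + 2), Y m, Y m] := by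
      refine LEq.swap _ _ _ fun v h1 h2 => ?_
      rw [a_Y, b_Y] at h1 h2
      have h3 : v = m + 2 := by omega
      rw [h3]
      exact n2
    have k2 : LEq T [Y (m + 2), Y m, Y m] [Y (m + 2)] := by
      refine LEq.cons _ (LEq.cancel _ _ ?_)
      rw [a_Y, b_Y, ← hU]
      exact iff_of_false w0 (fun h => h w2)
    have k3 : LEq T [Y (m + 4), Y (m + 2), Y (m + 4)] [Y (m + 2), Y (m + 4), Y (m + 4)] := by
      refine LEq.swap _ _ _ fun v h1 h2 => ?_
      rw [a_Y, b_Y] at h1 h2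
      have h3 : v = m + 4 := by omega
      rw [h3]
      exact n4
    have k4 : LEq T [Y (m + 2), Y (m + 4), Y (m + 4)] [Y (m + 2)] := by
      refine LEq.cons _ (LEq.cancel _ _ ?_)
      rw [a_Y, b_Y, a6, ← hU]
      exact iff_of_true w4 w6
    exact (k1.trans k2).trans (k3.trans k4).symm

theorem rz_far {k : ℕ} (g h : Gen) (h1 : g.pos + g.ins ≤ h.pos) (h2 : h.pos + h.ins ≤ k) :
    Rz k [g, h.move (h.pos + g.outs - g.ins)] [h, g] := by
  obtain ⟨m, hm⟩ : ∃ m, m = h.pos - g.pos - g.ins := ⟨_, rfl⟩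
  obtain ⟨c, hc⟩ : ∃ c, c = k - h.pos - h.ins := ⟨_, rfl⟩
  obtain ⟨B, hB⟩ : ∃ B : ℤ, B = 4 * m + 12 := ⟨_, rfl⟩
  obtain ⟨P, hP⟩ : ∃ P, P = Fr 0 g.pos m (Wd g 0) := ⟨_, rfl⟩
  obtain ⟨Q, hQ⟩ : ∃ Q, Q = Fr B 0 c (Wd h B) := ⟨_, rfl⟩
  have hPl : ∀ x ∈ P, x < B := by
    intro x hx
    rw [hP, mem_fr] at hx
    rcases hx with ⟨j, hj, hx⟩ | hx | ⟨j, hj, hx⟩
    · omega
    · have := wd_sub hx
      omega
    · omega
  have hQl : ∀ x ∈ Q, B ≤ x := by
    intro x hx
    rw [hQ, mem_fr] at hx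
    rcases hx with ⟨j, hj, hx⟩ | hx | ⟨j, hj, hx⟩
    · omega
    · exact (wd_sub hx).1
    · omega
  have hPc : P.card = h.pos := by
    rw [hP, fr_card (fun x hx => by
      have := wd_sub hx
      omega), wd_card]
    omega
  have hQc : Q.card = h.ins + c := by
    rw [hQ, fr_card (fun x hx => by
      have := wd_sub hx
      omega), wd_card]
    omega
  have hlow : ∀ x, x < B → (x ∈ P ∪ Q ↔ x ∈ P) := by
    intro x hx
    rw [Finset.mem_union, or_iff_left_iff_imp]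
    intro h3
    have := hQl x h3
    omega
  have hhigh : ∀ x, B ≤ x → (x ∈ P ∪ Q ↔ x ∈ Q) := by
    intro x hx
    rw [Finset.mem_union, or_iff_right_iff_imp]
    intro h3
    have := hPl x h3
    omega
  have hdj : Disjoint P Q := by
    rw [Finset.disjoint_left]
    intro x h3 h4
    have := hPl x h3
    have := hQl x h4
    omega
  obtain ⟨T, hT⟩ : ∃ T, T = P ∪ Q := ⟨_, rfl⟩
  have hTc : T.card = k := by
    rw [hT, Finset.card_union_of_disjoint hdj, hPc, hQc]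
    omega
  have hr0 : rank T 0 = g.pos := by
    have h3 : rank T 0 = rank P 0 := rank_congr fun s hs => by
      rw [hT]
      exact hlow s (by omega)
    rw [h3, hP]
    exact fr_rank (fun x hx => by
      have := wd_sub hx
      omega) (by omega) le_rfl
  have hrB : rank T B = h.pos := by
    have h3 : rank T B = rank P B := rank_congr fun s hs => by
      rw [hT]
      exact hlow s hs
    rw [h3, rank_all hPl, hPc]
  have hBe : B % 2 = 0 := by omega
  have hg := ex_sub g 0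
  have hh := ex_sub h B
  have hga := (Ex g 0).a_lt_b
  have hha := (Ex h B).a_lt_b
  have hW0 : ∀ x, 0 ≤ x → x ≤ 0 + 3 → (x ∈ T ↔ x ∈ Wd g 0) := by
    intro x h3 h4
    rw [hT, hlow x (by omega), hP, fr_win (by omega) (by omega)]
  have hWB : ∀ x, B ≤ x → x ≤ B + 3 → (x ∈ T ↔ x ∈ Wd h B) := by
    intro x h3 h4
    rw [hT, hhigh x h3, hQ, fr_win (by omega) (by omega)]
  have o1 : out T (Ex g 0) = [g] := by
    rw [out_ex (by omega) hW0, hr0, move_pos]
  have o2 : out T (Ex h B) = [h] := by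
    rw [out_ex hBe hWB, hrB, move_pos]
  have o3 : out (act T (Ex h B)) (Ex g 0) = [g] := by
    rw [out_ex (by omega) (fun x h3 h4 => ?_), rank_act_le (by omega), hr0, move_pos]
    rw [mem_act, hW0 x h3 h4]
    have h5 : ¬ (x = (Ex h B).a ∨ x = (Ex h B).b) := by omega
    tauto
  have o4 : out (act T (Ex g 0)) (Ex h B) = [h.move (h.pos + g.outs - g.ins)] := by
    have h6 := (out_loc T (Ex g 0) B (by omega)).2
    rw [o1, hrB, endk_cons, endk_nil] at h6
    rw [out_ex hBe (fun x h3 h4 => ?_), ← h6]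
    · rfl
    · rw [mem_act, hWB x h3 h4]
      have h5 : ¬ (x = (Ex g 0).a ∨ x = (Ex g 0).b) := by omega
      tauto
  refine ⟨T, [Ex g 0, Ex h B], [Ex h B, Ex g 0], hTc, ?_, ?_, ?_⟩
  · rw [scan_cons, scan_cons, scan_nil, o1, o4]
    rfl
  · rw [scan_cons, scan_cons, scan_nil, o2, o3]
    rfl
  · refine LEq.swap _ _ _ fun v h3 h4 => ?_
    exfalso
    omega

end Pool.Agent.Lib.MP_dd2c10_prF
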