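import Pool.Agent.Lib.MP_dd2c10_prF.Rk

/-! JOB SndF (MP_dd2c10_pr): edges which are far from each other change places: the diagrams are related by the interchange law.

PROOF. `scan T [e, f] = out T e ++ out (act T e) f` and `scan T [f, e] = out T f ++ out (act T f) e`. Put `m = e.b + 1 ≤ f.a`,
`q = rank T m`, `q' = rank (act T e) m`, `j = #{s ∈ T | m ≤ s < f.a}`, `k = #{s ∈ T | m ≤ s}`. By `rank_add` `rank T f.a = q + j` and
`rank (act T e) f.a = q' + j` (the act does not change the vertices `≥ m`). So with `u = out T e` and `v = sh j loc` (`loc` = the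
`locY`/`locZ` word of `f`; the memberships of the vertices of `f` and of the middle vertex are the same in `T` and
`act T e`, as they are `≥ m`): `out T f = sh q v`, `out (act T e) f = sh q' v` (`sh_sh`), `out (act T f) e = u` (the ranks and
memberships up to `e.b` are not changed by `f`: `rank_act_le`), `T.card = q + k`, `Valid q u` and `endk q u = q'` (`out_loc` with `m`), and
`Valid k v`: from `locY_valid`-type facts or: apply `valid_out` to the set `T.filter (m ≤ ·)` whose rank at `f.a` is `j` and whose
cardinality is `k` (then `out (T.filter ..) f = v`). `interchange u v` gives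
`MEq (q + k) (u ++ sh q' v) (sh q v ++ u)`, which is the claim. -/

namespace Pool.Agent.Lib.MP_dd2c10_prF

open Gen Ed

private theorem SndF_outY (T : Finset ℤ) (n : ℤ) : out T (Y n) = sh (rank T n)
    (locY (decide (n % 2 = 1)) (decide (n ∈ T)) (decide (n + 1 ∈ T)) (decide (n + 2 ∈ T))) := rfl

private theorem SndF_outZ (T : Finset ℤ) (y : ℤ) : out T (Z y) = sh (rank T (2 * y))
    (locZ (decide (2 * y ∈ T)) (decide (2 * y + 1 ∈ T))) := rfl

/-- the diagram of an edge depends only on the state up to its upper end -/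
private theorem SndF_congr {S S' : Finset ℤ} (e : Ed) (h : ∀ s, s ≤ e.b → (s ∈ S ↔ s ∈ S')) : out S e = out S' e := by
  cases e with
  | Y n =>
    rw [b_Y] at h
    rw [SndF_outY, SndF_outY, rank_congr (T := S) (T' := S') (x := n) fun s hs => h s (by omega), decide_eq_decide.2 (h n (by omega)),
      decide_eq_decide.2 (h (n + 1) (by omega)), decide_eq_decide.2 (h (n + 2) (by omega))]
  | Z y =>
    rw [b_Z] at h
    rw [SndF_outZ, SndF_outZ, rank_congr (T := S) (T' := S') (x := 2 * y) fun s hs => h s (by omega), decide_eq_decide.2 (h (2 * y) (by omega)),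
      decide_eq_decide.2 (h (2 * y + 1) (by omega))]

/-- the upper part of the state -/
private theorem SndF_up {S : Finset ℤ} {m : ℤ} (g : Ed) (h : m ≤ g.a) :
    out S g = sh (rank S m) (out (S.filter fun s => m ≤ s) g) := by
  have h1 : ∀ x, m ≤ x → rank S x = rank (S.filter fun s => m ≤ s) x + rank S m := by
    intro x hx
    rw [rank_add S hx, add_comm]
    unfold rank
    rw [Finset.filter_filter]
  have h2 : ∀ x, m ≤ x → (x ∈ S ↔ x ∈ S.filter fun s => m ≤ s) := by
    intro x hx
    rw [Finset.mem_filter]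
    exact ⟨fun h => ⟨h, hx⟩, fun h => h.1⟩
  cases g with
  | Y n =>
    rw [a_Y] at h
    rw [SndF_outY, SndF_outY, h1 n h, decide_eq_decide.2 (h2 n h), decide_eq_decide.2 (h2 (n + 1) (by omega)),
      decide_eq_decide.2 (h2 (n + 2) (by omega)), sh_sh]
  | Z y =>
    rw [a_Z] at h
    rw [SndF_outZ, SndF_outZ, h1 (2 * y) h, decide_eq_decide.2 (h2 (2 * y) h), decide_eq_decide.2 (h2 (2 * y + 1) (by omega)), sh_sh]

private theorem SndF_filter {T : Finset ℤ} {e : Ed} {m : ℤ} (h : e.b < m) :
    (act T e).filter (fun s => m ≤ s) = T.filter fun s => m ≤ s := by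
  ext x
  rw [Finset.mem_filter, Finset.mem_filter, mem_act]
  have h1 := a_lt_b e
  constructor
  · rintro ⟨h2, h3⟩
    have h4 : ¬ (x = e.a ∨ x = e.b) := by omega
    exact ⟨by tauto, h3⟩
  · rintro ⟨h2, h3⟩
    have h4 : ¬ (x = e.a ∨ x = e.b) := by omega
    exact ⟨by tauto, h3⟩

theorem snd_far (T : Finset ℤ) (e f : Ed) (h : e.b < f.a) : MEq T.card (scan T [e, f]) (scan T [f, e]) := by
  obtain ⟨m, hm⟩ : ∃ m, m = e.b + 1 := ⟨_, rfl⟩
  have h1 : e.b < m := by omega
  have h2 : m ≤ f.a := by omega
  obtain ⟨U, hU⟩ : ∃ U, U = T.filter fun s => m ≤ s := ⟨_, rfl⟩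
  have hcard : T.card = rank T m + U.card := by
    rw [hU]
    unfold rank
    have h3 := Finset.card_filter_add_card_filter_not (s := T) (fun s => s < m)
    have h4 : (T.filter fun s => ¬ s < m) = T.filter fun s => m ≤ s := by
      ext x
      rw [Finset.mem_filter, Finset.mem_filter, not_lt]
    rw [h4] at h3
    exact h3.symm
  have e1 : out T f = sh (rank T m) (out U f) := by
    rw [hU]
    exact SndF_up f h2
  have e2 : out (act T e) f = sh (rank (act T e) m) (out U f) := by
    rw [hU, ← SndF_filter (T := T) h1]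
    exact SndF_up f h2
  have e3 : out (act T f) e = out T e := by
    refine SndF_congr e fun s hs => ?_
    rw [mem_act]
    have h3 := a_lt_b f
    have h4 : ¬ (s = f.a ∨ s = f.b) := by omega
    tauto
  obtain ⟨v1, v2⟩ := out_loc T e m h1
  have key := interchange (out T e) (out U f) v1 (valid_out U f).1
  rw [v2, ← e1, ← e2, ← hcard] at key
  rw [scan_cons, scan_cons, scan_nil, List.append_nil, scan_cons, scan_cons, scan_nil, List.append_nil, e3]
  exact key

end Pool.Agent.Lib.MP_dd2c10_prF
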