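import Pool.Agent.Lib.MP_dd2c10_prF.EvW
import Pool.Agent.Lib.MP_dd2c10_prF.Fr

/-! JOB StdA (MP_dd2c10_pr): all births (cups) with the same numbers of strands below and above are equivalent.

PROOFS. (`∅ ⊆` window conditions are trivial.)
* `cup_step`: let `T₀ = Fr n i c ∅`; no strand in `[n - 3, n + 7]` (`fr_win`). First `Ev T₀ T₀ (Y n) (Y (n + 1))`: if `n = 2 y`: `cup_one`. If `n + 1 = 2 y`:
  `cup_two` gives `Y n → Y (n + 2)`, `cup_one` gives `Y (n + 1) → Y (n + 2)`; `trans`, `symm`. Then `Ev.free` from `T₀` to `Fr (n + 1) i c ∅` for the edge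
  `Y (n + 1)`: both have no strands in `[n + 1, n + 3]` (`fr_win` with `n`, resp. `n + 1`), the ranks of `n + 1` are both `i` (`fr_rank` for `n + 1`;
  for `T₀`: `rank_succ` and `fr_rank`, or the filter argument), cardinalities `i + 0 + c` (`fr_card`).
* `cup_zero`: integer induction (`Int.induction_on n`) with `cup_step` and `Ev.trans`, `Ev.symm` (downwards: `cup_step (-k - 1)` ends at `-k`; rewrite
  `-(k : ℤ) - 1 + 1 = -k`).
* `std_Ycup`: `i = rank T n`, `c = T.card - i` (`i ≤ T.card` by `rank_le_card`). `Ev.free` from `T` to `Fr n i c ∅` for `Y n` (vertices of `[n, n + 2]` not in `T`),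
  then `cup_zero`.
* `std_Zcup`: `Ev.free` for `Z y` to `Fr (2 y) i c ∅`, `cup_Z`, `cup_zero`. -/

namespace Pool.Agent.Lib.MP_dd2c10_prF

open Gen Ed

private theorem StdA_win {n x : ℤ} {i c : ℕ} (h1 : n - 3 ≤ x) (h2 : x ≤ n + 7) : x ∉ Fr n i c ∅ := by
  rw [fr_win h1 h2]
  exact Finset.notMem_empty x

private theorem StdA_emp {n : ℤ} : ∀ x ∈ (∅ : Finset ℤ), n ≤ x ∧ x ≤ n + 4 := fun x hx =>
  absurd hx (Finset.notMem_empty x)

private theorem StdA_one (n : ℤ) (i c : ℕ) : Ev (Fr n i c ∅) (Fr n i c ∅) (Y n) (Y (n + 1)) := by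
  rcases Int.emod_two_eq_zero_or_one n with h | h
  · obtain ⟨y, hy⟩ : ∃ y, n = 2 * y := ⟨n / 2, by omega⟩
    have h1 : ∀ x, 2 * y ≤ x → x ≤ 2 * y + 3 → x ∉ Fr n i c ∅ := fun x hx hx' =>
      StdA_win (by omega) (by omega)
    have h2 := cup_one h1
    rw [← hy] at h2
    exact h2
  · obtain ⟨y, hy⟩ : ∃ y, n + 1 = 2 * y := ⟨(n + 1) / 2, by omega⟩
    have h1 : ∀ x, 2 * y ≤ x → x ≤ 2 * y + 3 → x ∉ Fr n i c ∅ := fun x hx hx' =>
      StdA_win (by omega) (by omega)
    have h2 := cup_one h1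
    rw [← hy] at h2
    have h3 : n + 1 + 1 = n + 2 := by omega
    rw [h3] at h2
    have h4 : Ev (Fr n i c ∅) (Fr n i c ∅) (Y n) (Y (n + 2)) := cup_two fun x hx hx' =>
      StdA_win (by omega) (by omega)
    exact h4.trans h2.symm

theorem cup_step (n : ℤ) (i c : ℕ) : Ev (Fr n i c ∅) (Fr (n + 1) i c ∅) (Y n) (Y (n + 1)) := by
  refine (StdA_one n i c).trans (Ev.free (fun x hx hx' => ?_) ?_ ?_)
  · simp only [a_Y, b_Y] at hx hx'
    exact iff_of_false (StdA_win (by omega) (by omega)) (StdA_win (by omega) (by omega))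
  · rw [a_Y, fr_rank StdA_emp (by omega) (le_refl _), rank_succ, fr_rank StdA_emp (by omega) (le_refl _)]
    have h1 : n ∉ Fr n i c ∅ := StdA_win (by omega) (by omega)
    rw [decide_eq_false h1]
    rfl
  · rw [fr_card StdA_emp, fr_card StdA_emp]

theorem cup_zero (n : ℤ) (i c : ℕ) : Ev (Fr n i c ∅) (Fr 0 i c ∅) (Y n) (Y 0) := by
  induction n using Int.induction_on with
  | zero => exact Ev.refl _ _
  | succ k ih => exact (cup_step (k : ℤ) i c).symm.trans ih
  | pred k ih =>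
    have h1 := cup_step (-(k : ℤ) - 1) i c
    rw [sub_add_cancel] at h1
    exact h1.trans ih

theorem std_Ycup {T : Finset ℤ} {n : ℤ} (h0 : n ∉ T) (h1 : n + 1 ∉ T) (h2 : n + 2 ∉ T) :
    Ev T (Fr 0 (rank T n) (T.card - rank T n) ∅) (Y n) (Y 0) := by
  refine Ev.trans (Ev.free (T' := Fr n (rank T n) (T.card - rank T n) ∅) (fun x hx hx' => ?_) ?_ ?_)
    (cup_zero n _ _)
  · simp only [a_Y, b_Y] at hx hx'
    refine iff_of_false ?_ (StdA_win (by omega) (by omega))
    have h3 : x = n ∨ x = n + 1 ∨ x = n + 2 := by omega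
    rcases h3 with rfl | rfl | rfl
    · exact h0
    · exact h1
    · exact h2
  · rw [a_Y, fr_rank StdA_emp (by omega) (le_refl _)]
  · rw [fr_card StdA_emp, Finset.card_empty]
    have := rank_le_card T n
    omega

theorem std_Zcup {T : Finset ℤ} {y : ℤ} (h0 : 2 * y ∉ T) (h1 : 2 * y + 1 ∉ T) :
    Ev T (Fr 0 (rank T (2 * y)) (T.card - rank T (2 * y)) ∅) (Z y) (Y 0) := by
  refine Ev.trans (Ev.free (T' := Fr (2 * y) (rank T (2 * y)) (T.card - rank T (2 * y)) ∅) (fun x hx hx' => ?_) ?_ ?_)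
    ((cup_Z fun x hx hx' => StdA_win (by omega) (by omega)).trans (cup_zero (2 * y) _ _))
  · simp only [a_Z, b_Z] at hx hx'
    refine iff_of_false ?_ (StdA_win (by omega) (by omega))
    have h3 : x = 2 * y ∨ x = 2 * y + 1 := by omega
    rcases h3 with rfl | rfl
    · exact h0
    · exact h1
  · rw [a_Z, fr_rank StdA_emp (by omega) (le_refl _)]
  · rw [fr_card StdA_emp, Finset.card_empty]
    have := rank_le_card T (2 * y)
    omega

end Pool.Agent.Lib.MP_dd2c10_prF
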