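import Pool.Agent.Lib.MP_dd2c10_pr.Moves

/-! JOB Surg (MP_dd2c10_pr): toggling a square of a polygon gives a polygon if all degrees stay right.

PROOFS.
* `polygon_path`: let `c` be the cycle. Rotate it to start at `A` (`Walk.rotate`, `IsCycle.rotate`; edges of the rotated walk are a cyclic rotation: `rotate_edges`, `IsRotated.mem_iff`).
  It is `cons h p` with `p : Walk x A`, `p.IsPath`, `s(A, x) ∉ p.edges` (`Walk.cons_isCycle_iff`). If `x = B` done. Otherwise `s(A, B) ∈ p.edges`; as `p` is a path ending at `A`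
  its only edge at `A` is the last one. So the reversed cycle (`IsCycle.reverse`, or `p.reverse` starts with the edge `A B`) starts with `B`. Alternatively: take the cycle
  `c`, the edge `s(A, B) ∈ c.edges`; Mathlib may have `IsCycle` → path on the complement of an edge (`Walk.IsCycle.isPath_takeUntil`, `adj_and_reachable_delete_edges_iff_exists_cycle`).
* `surg1`: `A B ∈ ω`, the other three sides not. `C` and `D` are not on `ω`: else there would be two edges of `ω` at `D` (`Good.deg`), which are not sides of the square except ..., so both stay in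
  `ω'`, and together with `s(D, A)`, `s(C, D) ∈ ω'` there are at least three edges at `D` (`Good.not_three`). (This is `MoveData.corner` of `Moves.lean`, for the
  corners `C`, `D`: use `hm.rot`, ..: if `s(D, v) ∈ ω` then `s(C, D) ∈ ω ∨ s(D, A) ∈ ω`.) Let `p : Walk B A` be the path of `polygon_path`. New cycle:
  `cons (A D) (cons (D C) (cons (C B) p))`: `D, C ∉ p.support`, `C ≠ D`; the edge `s(A, D)` is not an edge of the path (its end `D` occurs only as the first vertex; the first edge is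
  `s(D, C) ≠ s(A, D)`). Adjacency of the new sides: they are in `ω'`, `hm.good'.adj`; slab: `hm.good'.slab`. Its edge set is `ω'` by `hm.diff`.
* `surg2`: `A B, B C ∈ ω`, the other two not. `polygon_path` for `A, B`: `p : Walk B A`; `p` starts with the edge `B C` (the edges of `ω` at `B` are exactly `A B` and `B C`):
  `p = cons _ p'`, `p' : Walk C A` a path without `B`. `D` is not on `ω` (as before). New cycle: `cons (A D) (cons (D C) p')`.
* `surg3`: `A B, B C, C D ∈ ω`, `D A` not: `p : Walk B A` starts with `B C`, `C D`: `p = cons _ (cons _ p'')`, `p'' : Walk D A` a path without `B`, `C`. New cycle `cons (A D) p''`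
  (`s(A, D) ∉ ω`, so it is not an edge of `p''`).
* `surg`: by `hm.pat` one of the twelve patterns holds; each is `surg1`, `surg2` or `surg3` for `hm`, `hm.rot`, `hm.rot.rot`, `hm.rot.rot.rot`
  (`Sym2.eq_swap` if needed; `rot` maps the sides `AB, BC, CD, DA` to `BC, CD, DA, AB`). -/

namespace Pool.Agent.Lib.MP_dd2c10_prF

open Pool.Agent.Lib.MP_dd2c10_pr

private theorem Surg_prop1 {a b c d q : Prop} (f1 : a → ¬q) (f2 : b → ¬q) (f3 : c → ¬q) (f4 : d → ¬q)
    (g2 : a → ¬b) (g3 : a → ¬c) (g4 : a → ¬d) :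
    (¬((a ∨ q) ↔ (a ∨ b ∨ c ∨ d))) ↔ (d ∨ c ∨ b ∨ q) := by
  by_cases ha : a <;> by_cases hq : q <;> by_cases hb : b <;> by_cases hc : c <;> by_cases hd : d <;> simp_all

private theorem Surg_prop2 {a b c d q : Prop} (f1 : a → ¬q) (f2 : b → ¬q) (f3 : c → ¬q) (f4 : d → ¬q)
    (g3 : a → ¬c) (g4 : a → ¬d) (g5 : b → ¬c) (g6 : b → ¬d) :
    (¬((a ∨ b ∨ q) ↔ (a ∨ b ∨ c ∨ d))) ↔ (d ∨ c ∨ q) := by
  by_cases ha : a <;> by_cases hq : q <;> by_cases hb : b <;> by_cases hc : c <;> by_cases hd : d <;> simp_all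

private theorem Surg_prop3 {a b c d q : Prop} (f1 : a → ¬q) (f2 : b → ¬q) (f3 : c → ¬q) (f4 : d → ¬q)
    (g4 : a → ¬d) (g6 : b → ¬d) (g7 : c → ¬d) :
    (¬((a ∨ b ∨ c ∨ q) ↔ (a ∨ b ∨ c ∨ d))) ↔ (d ∨ q) := by
  by_cases ha : a <;> by_cases hq : q <;> by_cases hb : b <;> by_cases hc : c <;> by_cases hd : d <;> simp_all

private theorem Surg_first {A B : Pt} (c : cubic.Walk A A) (hc : c.IsCycle) (h : s(A, B) ∈ c.edges) :
    ∃ (hadj : cubic.Adj A B) (p : cubic.Walk B A), p.IsPath ∧ s(A, B) ∉ p.edges ∧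
      (∀ e, e ∈ (SimpleGraph.Walk.cons hadj p).edges ↔ e ∈ c.edges) ∧ ∀ x ∈ p.support, x ∈ c.support := by
  cases c with
  | nil =>
    rw [SimpleGraph.Walk.edges_nil] at h
    exact absurd h List.not_mem_nil
  | @cons _ x _ h1 p =>
    have hc1 := (SimpleGraph.Walk.cons_isCycle_iff p h1).1 hc
    by_cases hxB : x = B
    · subst hxB
      exact ⟨h1, p, hc1.1, hc1.2, fun e => Iff.rfl, fun y hy => by
        rw [SimpleGraph.Walk.support_cons]
        exact List.mem_cons_of_mem _ hy⟩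
    · have h2 : s(A, B) ∈ p.edges := by
        rw [SimpleGraph.Walk.edges_cons, List.mem_cons] at h
        rcases h with h | h
        · exfalso
          rw [Sym2.eq_iff] at h
          rcases h with ⟨-, h⟩ | ⟨h, h'⟩
          · exact hxB h.symm
          · exact hxB (h.symm.trans h'.symm)
        · exact h
      obtain ⟨q, hq, hqe, hqs, hcyc⟩ : ∃ q : cubic.Walk A x, q.IsPath ∧ (∀ e, e ∈ q.edges ↔ e ∈ p.edges) ∧
          (∀ y, y ∈ q.support → y ∈ p.support) ∧
          (q.append (SimpleGraph.Walk.cons h1.symm SimpleGraph.Walk.nil)).IsCycle :=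
        ⟨p.reverse, hc1.1.reverse, fun e => by rw [SimpleGraph.Walk.edges_reverse, List.mem_reverse],
          fun y hy => by
            rw [SimpleGraph.Walk.support_reverse, List.mem_reverse] at hy
            exact hy, by
            have h5 := hc.reverse
            rw [SimpleGraph.Walk.reverse_cons] at h5
            exact h5⟩
      cases q with
      | nil => exact absurd rfl h1.ne
      | @cons _ y _ h3 q' =>
        have hcyc' : (SimpleGraph.Walk.cons h3 (q'.append (SimpleGraph.Walk.cons h1.symm SimpleGraph.Walk.nil))).IsCycle := hcyc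
        have hc2 := (SimpleGraph.Walk.cons_isCycle_iff _ h3).1 hcyc'
        have hy : y = B := by
          have h4 := (hqe _).2 h2
          rw [SimpleGraph.Walk.edges_cons, List.mem_cons] at h4
          rcases h4 with h4 | h4
          · rw [Sym2.eq_iff] at h4
            rcases h4 with ⟨-, h4⟩ | ⟨h4, h4'⟩
            · exact h4.symm
            · exact h4.symm.trans h4'.symm
          · exact absurd (q'.fst_mem_support_of_mem_edges h4) ((SimpleGraph.Walk.cons_isPath_iff h3 q').1 hq).2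
        subst hy
        refine ⟨h3, q'.append (SimpleGraph.Walk.cons h1.symm SimpleGraph.Walk.nil), hc2.1, hc2.2, ?_, ?_⟩
        · intro e
          have h5 := hqe e
          rw [SimpleGraph.Walk.edges_cons, List.mem_cons] at h5
          rw [SimpleGraph.Walk.edges_cons, SimpleGraph.Walk.edges_append, SimpleGraph.Walk.edges_cons,
            SimpleGraph.Walk.edges_nil, SimpleGraph.Walk.edges_cons, List.mem_cons, List.mem_append, List.mem_singleton,
            List.mem_cons, ← h5, Sym2.eq_swap (a := x) (b := A)]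
          tauto
        · intro z hz
          rw [SimpleGraph.Walk.mem_support_append_iff, SimpleGraph.Walk.support_cons, SimpleGraph.Walk.support_nil,
            List.mem_cons, List.mem_singleton] at hz
          rw [SimpleGraph.Walk.support_cons, List.mem_cons]
          rcases hz with hz | hz | hz
          · right
            apply hqs
            rw [SimpleGraph.Walk.support_cons]
            exact List.mem_cons_of_mem _ hz
          · right
            rw [hz]
            exact p.start_mem_support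
          · left
            exact hz

private theorem Surg_vert {A X Y : Pt} (p : cubic.Walk X A) (hY : Y ≠ A) (h : Y ∈ p.support) : ∃ v, s(Y, v) ∈ p.edges := by
  rcases SimpleGraph.Walk.mem_support_iff_exists_mem_edges.1 h with h1 | ⟨e, he, hYe⟩
  · exact absurd h1 hY
  · obtain ⟨v, hv⟩ := hYe
    exact ⟨v, by rw [← hv]; exact he⟩

/-- The next vertex of a path: `Z` is the other neighbour. -/
private theorem Surg_next {ω : Set (Sym2 Pt)} (hg : Good ω) {X Y Z A : Pt} (hYA : Y ≠ A) (p : cubic.Walk Y A) (hp : p.IsPath)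
    (hXY : s(X, Y) ∉ p.edges) (hpω : ∀ e ∈ p.edges, e ∈ ω) (h1 : s(Y, X) ∈ ω) (h2 : s(Y, Z) ∈ ω) (hXZ : X ≠ Z) :
    ∃ (_ : cubic.Adj Y Z) (q : cubic.Walk Z A), q.IsPath ∧ Y ∉ q.support ∧ (∀ e, e ∈ p.edges ↔ e = s(Y, Z) ∨ e ∈ q.edges) ∧
      ∀ x, x ∈ q.support → x ∈ p.support := by
  cases p with
  | nil => exact absurd rfl hYA
  | @cons _ x _ h3 q =>
    have hq := (SimpleGraph.Walk.cons_isPath_iff h3 q).1 hp
    have h4 : s(Y, x) ∈ ω := hpω _ (by
      rw [SimpleGraph.Walk.edges_cons]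
      exact List.mem_cons_self)
    have hxX : x ≠ X := by
      rintro rfl
      apply hXY
      rw [SimpleGraph.Walk.edges_cons, Sym2.eq_swap]
      exact List.mem_cons_self
    have hxZ : x = Z := by
      by_contra hne
      exact hg.not_three h4 h1 h2 hxX hne hXZ
    subst hxZ
    refine ⟨h3, q, hq.1, hq.2, fun e => by rw [SimpleGraph.Walk.edges_cons, List.mem_cons], fun z hz => ?_⟩
    rw [SimpleGraph.Walk.support_cons]
    exact List.mem_cons_of_mem _ hz

/-- A polygon is an edge and a path between its ends. -/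
theorem polygon_path {ω : Set (Sym2 Pt)} (h : IsPolygon 1 ω) {A B : Pt} (hAB : s(A, B) ∈ ω) :
    ∃ (hadj : cubic.Adj A B) (p : cubic.Walk B A), p.IsPath ∧ s(A, B) ∉ p.edges ∧
      (∀ x ∈ p.support, 0 ≤ x.2.2 ∧ x.2.2 ≤ 1) ∧ ω = {e | e ∈ (SimpleGraph.Walk.cons hadj p).edges} := by
  obtain ⟨v, c, hc, hs, hω⟩ := h
  have hAB' : s(A, B) ∈ c.edges := by
    rw [hω] at hAB
    exact hAB
  have hA : A ∈ c.support := c.fst_mem_support_of_mem_edges hAB'
  obtain ⟨c', hc', hs', he'⟩ : ∃ c' : cubic.Walk A A, c'.IsCycle ∧ (∀ x, x ∈ c'.support → x ∈ c.support) ∧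
      ∀ e, e ∈ c'.edges ↔ e ∈ c.edges :=
    ⟨c.rotate A hA, hc.rotate hA, fun x hx => (c.mem_support_rotate_iff A hA).1 hx,
      fun e => (c.rotate_edges A hA).perm.mem_iff⟩
  obtain ⟨hadj, p, hp, hne, hedg, hsup⟩ := Surg_first c' hc' ((he' _).2 hAB')
  refine ⟨hadj, p, hp, hne, fun x hx => hs x (hs' x (hsup x hx)), ?_⟩
  rw [hω]
  ext e
  show e ∈ c.edges ↔ e ∈ (SimpleGraph.Walk.cons hadj p).edges
  rw [hedg, he']

/-- Conversely. -/
theorem path_polygon {ω : Set (Sym2 Pt)} {A B : Pt} (hadj : cubic.Adj A B) (p : cubic.Walk B A) (hp : p.IsPath)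
    (h1 : s(A, B) ∉ p.edges) (h2 : ∀ x ∈ p.support, 0 ≤ x.2.2 ∧ x.2.2 ≤ 1)
    (h3 : ω = {e | e ∈ (SimpleGraph.Walk.cons hadj p).edges}) : IsPolygon 1 ω := by
  refine ⟨A, SimpleGraph.Walk.cons hadj p, (SimpleGraph.Walk.cons_isCycle_iff p hadj).2 ⟨hp, h1⟩, ?_, h3⟩
  intro x hx
  rw [SimpleGraph.Walk.support_cons, List.mem_cons] at hx
  rcases hx with hx | hx
  · rw [hx]
    exact h2 A p.end_mem_support
  · exact h2 x hx

theorem surg1 {ω ω' : Set (Sym2 Pt)} {A B C D : Pt} (h : IsPolygon 1 ω) (hm : MoveData ω ω' A B C D)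
    (h1 : s(A, B) ∈ ω) (h2 : s(B, C) ∉ ω) (h3 : s(C, D) ∉ ω) (h4 : s(D, A) ∉ ω) : IsPolygon 1 ω' := by
  obtain ⟨hadj, p, hp, hne, hsl, hω⟩ := polygon_path h h1
  have hmem : ∀ e, e ∈ ω ↔ e = s(A, B) ∨ e ∈ p.edges := by
    intro e
    rw [hω]
    show e ∈ (SimpleGraph.Walk.cons hadj p).edges ↔ _
    rw [SimpleGraph.Walk.edges_cons, List.mem_cons]
  have hD : D ∉ p.support := by
    intro hD
    obtain ⟨v, hv⟩ := Surg_vert p hm.ad.symm hD
    rcases hm.rot.rot.rot.corner ((hmem _).2 (Or.inr hv)) with h5 | h5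
    · exact h4 h5
    · exact h3 h5
  have hC : C ∉ p.support := by
    intro hC
    obtain ⟨v, hv⟩ := Surg_vert p hm.ac.symm hC
    rcases hm.rot.rot.corner ((hmem _).2 (Or.inr hv)) with h5 | h5
    · exact h3 h5
    · exact h2 h5
  have e2 : s(B, C) ∈ ω' := by
    rw [hm.diff]
    tauto
  have e3 : s(C, D) ∈ ω' := by
    rw [hm.diff]
    tauto
  have e4 : s(D, A) ∈ ω' := by
    rw [hm.diff]
    tauto
  have a2 : cubic.Adj C B := (hm.good'.adj _ _ e2).symm
  have a3 : cubic.Adj D C := (hm.good'.adj _ _ e3).symm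
  have a4 : cubic.Adj A D := (hm.good'.adj _ _ e4).symm
  have n2 : s(B, C) ∉ p.edges := fun h5 => h2 ((hmem _).2 (Or.inr h5))
  have n3 : s(C, D) ∉ p.edges := fun h5 => h3 ((hmem _).2 (Or.inr h5))
  have n4 : s(D, A) ∉ p.edges := fun h5 => h4 ((hmem _).2 (Or.inr h5))
  refine path_polygon a4 (SimpleGraph.Walk.cons a3 (SimpleGraph.Walk.cons a2 p)) ?_ ?_ ?_ ?_
  · rw [SimpleGraph.Walk.cons_isPath_iff, SimpleGraph.Walk.cons_isPath_iff, SimpleGraph.Walk.support_cons, List.mem_cons]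
    exact ⟨⟨hp, hC⟩, fun h5 => h5.elim (fun h6 => hm.cd h6.symm) hD⟩
  · rw [SimpleGraph.Walk.edges_cons, SimpleGraph.Walk.edges_cons, List.mem_cons, List.mem_cons]
    rintro (h5 | h5 | h5)
    · rw [Sym2.eq_iff] at h5
      rcases h5 with ⟨h5, -⟩ | ⟨h5, -⟩
      · exact hm.ad h5
      · exact hm.ac h5
    · rw [Sym2.eq_iff] at h5
      rcases h5 with ⟨h5, -⟩ | ⟨h5, -⟩
      · exact hm.ac h5
      · exact hm.ab h5
    · rw [Sym2.eq_swap] at h5
      exact n4 h5
  · intro x hx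
    rw [SimpleGraph.Walk.support_cons, SimpleGraph.Walk.support_cons, List.mem_cons, List.mem_cons] at hx
    rcases hx with hx | hx | hx
    · rw [hx]
      exact hm.good'.slab _ _ e4
    · rw [hx]
      exact hm.good'.slab _ _ e3
    · exact hsl x hx
  · ext e
    show e ∈ ω' ↔ e ∈ (SimpleGraph.Walk.cons a4 (SimpleGraph.Walk.cons a3 (SimpleGraph.Walk.cons a2 p))).edges
    rw [SimpleGraph.Walk.edges_cons, SimpleGraph.Walk.edges_cons, SimpleGraph.Walk.edges_cons, List.mem_cons, List.mem_cons,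
      List.mem_cons, hm.diff, hmem, Sym2.eq_swap (a := A) (b := D), Sym2.eq_swap (a := D) (b := C),
      Sym2.eq_swap (a := C) (b := B)]
    have f1 : e = s(A, B) → ¬ (e ∈ p.edges) := fun h5 => by rw [h5]; exact hne
    have f2 : e = s(B, C) → ¬ (e ∈ p.edges) := fun h5 => by rw [h5]; exact n2
    have f3 : e = s(C, D) → ¬ (e ∈ p.edges) := fun h5 => by rw [h5]; exact n3
    have f4 : e = s(D, A) → ¬ (e ∈ p.edges) := fun h5 => by rw [h5]; exact n4
    have g2 : e = s(A, B) → ¬ (e = s(B, C)) := fun h5 h6 => h2 (by rw [← h6, h5]; exact h1)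
    have g3 : e = s(A, B) → ¬ (e = s(C, D)) := fun h5 h6 => h3 (by rw [← h6, h5]; exact h1)
    have g4 : e = s(A, B) → ¬ (e = s(D, A)) := fun h5 h6 => h4 (by rw [← h6, h5]; exact h1)
    exact Surg_prop1 f1 f2 f3 f4 g2 g3 g4

theorem surg2 {ω ω' : Set (Sym2 Pt)} {A B C D : Pt} (h : IsPolygon 1 ω) (hm : MoveData ω ω' A B C D)
    (h1 : s(A, B) ∈ ω) (h2 : s(B, C) ∈ ω) (h3 : s(C, D) ∉ ω) (h4 : s(D, A) ∉ ω) : IsPolygon 1 ω' := by
  obtain ⟨hadj, p, hp, hne, hsl, hω⟩ := polygon_path h h1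
  have hmem : ∀ e, e ∈ ω ↔ e = s(A, B) ∨ e ∈ p.edges := by
    intro e
    rw [hω]
    show e ∈ (SimpleGraph.Walk.cons hadj p).edges ↔ _
    rw [SimpleGraph.Walk.edges_cons, List.mem_cons]
  obtain ⟨hBC, q, hq, hBq, hqe, hqs⟩ := Surg_next hm.good hm.ab.symm p hp hne (fun e he => (hmem e).2 (Or.inr he))
    (by rw [Sym2.eq_swap]; exact h1) h2 hm.ac
  have hD : D ∉ q.support := by
    intro hD
    obtain ⟨v, hv⟩ := Surg_vert q hm.ad.symm hD
    rcases hm.rot.rot.rot.corner ((hmem _).2 (Or.inr ((hqe _).2 (Or.inr hv)))) with h5 | h5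
    · exact h4 h5
    · exact h3 h5
  have e3 : s(C, D) ∈ ω' := by
    rw [hm.diff]
    tauto
  have e4 : s(D, A) ∈ ω' := by
    rw [hm.diff]
    tauto
  have a3 : cubic.Adj D C := (hm.good'.adj _ _ e3).symm
  have a4 : cubic.Adj A D := (hm.good'.adj _ _ e4).symm
  have n1 : s(A, B) ∉ q.edges := fun h5 => hne ((hqe _).2 (Or.inr h5))
  have n2 : s(B, C) ∉ q.edges := fun h5 => hBq (q.fst_mem_support_of_mem_edges h5)
  have n3 : s(C, D) ∉ q.edges := fun h5 => h3 ((hmem _).2 (Or.inr ((hqe _).2 (Or.inr h5))))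
  have n4 : s(D, A) ∉ q.edges := fun h5 => h4 ((hmem _).2 (Or.inr ((hqe _).2 (Or.inr h5))))
  refine path_polygon a4 (SimpleGraph.Walk.cons a3 q) ?_ ?_ ?_ ?_
  · rw [SimpleGraph.Walk.cons_isPath_iff]
    exact ⟨hq, hD⟩
  · rw [SimpleGraph.Walk.edges_cons, List.mem_cons]
    rintro (h5 | h5)
    · rw [Sym2.eq_iff] at h5
      rcases h5 with ⟨h5, -⟩ | ⟨h5, -⟩
      · exact hm.ad h5
      · exact hm.ac h5
    · rw [Sym2.eq_swap] at h5
      exact n4 h5
  · intro x hx
    rw [SimpleGraph.Walk.support_cons, List.mem_cons] at hx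
    rcases hx with hx | hx
    · rw [hx]
      exact hm.good'.slab _ _ e4
    · exact hsl x (hqs x hx)
  · ext e
    show e ∈ ω' ↔ e ∈ (SimpleGraph.Walk.cons a4 (SimpleGraph.Walk.cons a3 q)).edges
    rw [SimpleGraph.Walk.edges_cons, SimpleGraph.Walk.edges_cons, List.mem_cons, List.mem_cons,
      hm.diff, hmem, hqe, Sym2.eq_swap (a := A) (b := D), Sym2.eq_swap (a := D) (b := C)]
    have f1 : e = s(A, B) → ¬ (e ∈ q.edges) := fun h5 => by rw [h5]; exact n1
    have f2 : e = s(B, C) → ¬ (e ∈ q.edges) := fun h5 => by rw [h5]; exact n2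
    have f3 : e = s(C, D) → ¬ (e ∈ q.edges) := fun h5 => by rw [h5]; exact n3
    have f4 : e = s(D, A) → ¬ (e ∈ q.edges) := fun h5 => by rw [h5]; exact n4
    have g3 : e = s(A, B) → ¬ (e = s(C, D)) := fun h5 h6 => h3 (by rw [← h6, h5]; exact h1)
    have g4 : e = s(A, B) → ¬ (e = s(D, A)) := fun h5 h6 => h4 (by rw [← h6, h5]; exact h1)
    have g5 : e = s(B, C) → ¬ (e = s(C, D)) := fun h5 h6 => h3 (by rw [← h6, h5]; exact h2)
    have g6 : e = s(B, C) → ¬ (e = s(D, A)) := fun h5 h6 => h4 (by rw [← h6, h5]; exact h2)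
    exact Surg_prop2 f1 f2 f3 f4 g3 g4 g5 g6

theorem surg3 {ω ω' : Set (Sym2 Pt)} {A B C D : Pt} (h : IsPolygon 1 ω) (hm : MoveData ω ω' A B C D)
    (h1 : s(A, B) ∈ ω) (h2 : s(B, C) ∈ ω) (h3 : s(C, D) ∈ ω) (h4 : s(D, A) ∉ ω) : IsPolygon 1 ω' := by
  obtain ⟨hadj, p, hp, hne, hsl, hω⟩ := polygon_path h h1
  have hmem : ∀ e, e ∈ ω ↔ e = s(A, B) ∨ e ∈ p.edges := by
    intro e
    rw [hω]
    show e ∈ (SimpleGraph.Walk.cons hadj p).edges ↔ _
    rw [SimpleGraph.Walk.edges_cons, List.mem_cons]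
  obtain ⟨hBC, q, hq, hBq, hqe, hqs⟩ := Surg_next hm.good hm.ab.symm p hp hne (fun e he => (hmem e).2 (Or.inr he))
    (by rw [Sym2.eq_swap]; exact h1) h2 hm.ac
  obtain ⟨hCD, w, hw, hCw, hwe, hws⟩ := Surg_next hm.good hm.ac.symm q hq
    (fun h5 => hBq (q.fst_mem_support_of_mem_edges h5))
    (fun e he => (hmem e).2 (Or.inr ((hqe e).2 (Or.inr he)))) (by rw [Sym2.eq_swap]; exact h2) h3 hm.bd
  have e4 : s(D, A) ∈ ω' := by
    rw [hm.diff]
    tauto
  have a4 : cubic.Adj A D := (hm.good'.adj _ _ e4).symm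
  have n1 : s(A, B) ∉ w.edges := fun h5 => hne ((hqe _).2 (Or.inr ((hwe _).2 (Or.inr h5))))
  have n2 : s(B, C) ∉ w.edges := fun h5 => hCw (w.snd_mem_support_of_mem_edges h5)
  have n3 : s(C, D) ∉ w.edges := fun h5 => hCw (w.fst_mem_support_of_mem_edges h5)
  have n4 : s(D, A) ∉ w.edges := fun h5 => h4 ((hmem _).2 (Or.inr ((hqe _).2 (Or.inr ((hwe _).2 (Or.inr h5))))))
  refine path_polygon a4 w hw ?_ ?_ ?_
  · intro h5
    rw [Sym2.eq_swap] at h5
    exact n4 h5
  · intro x hx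
    exact hsl x (hqs x (hws x hx))
  · ext e
    show e ∈ ω' ↔ e ∈ (SimpleGraph.Walk.cons a4 w).edges
    rw [SimpleGraph.Walk.edges_cons, List.mem_cons,
      hm.diff, hmem, hqe, hwe, Sym2.eq_swap (a := A) (b := D)]
    have f1 : e = s(A, B) → ¬ (e ∈ w.edges) := fun h5 => by rw [h5]; exact n1
    have f2 : e = s(B, C) → ¬ (e ∈ w.edges) := fun h5 => by rw [h5]; exact n2
    have f3 : e = s(C, D) → ¬ (e ∈ w.edges) := fun h5 => by rw [h5]; exact n3
    have f4 : e = s(D, A) → ¬ (e ∈ w.edges) := fun h5 => by rw [h5]; exact n4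
    have g4 : e = s(A, B) → ¬ (e = s(D, A)) := fun h5 h6 => h4 (by rw [← h6, h5]; exact h1)
    have g6 : e = s(B, C) → ¬ (e = s(D, A)) := fun h5 h6 => h4 (by rw [← h6, h5]; exact h2)
    have g7 : e = s(C, D) → ¬ (e = s(D, A)) := fun h5 h6 => h4 (by rw [← h6, h5]; exact h3)
    exact Surg_prop3 f1 f2 f3 f4 g4 g6 g7

/-- Toggling a square of a polygon gives a polygon if all degrees stay right. -/
theorem surg {ω ω' : Set (Sym2 Pt)} {A B C D : Pt} (h : IsPolygon 1 ω) (hm : MoveData ω ω' A B C D) :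
    IsPolygon 1 ω' := by
  have r0 := hm
  have r1 := hm.rot
  have r2 := hm.rot.rot
  have r3 := hm.rot.rot.rot
  have hp := hm.pat
  by_cases h1 : s(A, B) ∈ ω <;> by_cases h2 : s(B, C) ∈ ω <;> by_cases h3 : s(C, D) ∈ ω <;>
    by_cases h4 : s(D, A) ∈ ω
  · exact absurd ⟨⟨fun _ => h3, fun _ => h1⟩, ⟨fun _ => h4, fun _ => h2⟩⟩ hp
  · exact surg3 h r0 h1 h2 h3 h4
  · exact surg3 h r3 h4 h1 h2 h3
  · exact surg2 h r0 h1 h2 h3 h4
  · exact surg3 h r2 h3 h4 h1 h2
  · exact absurd ⟨⟨fun _ => h3, fun _ => h1⟩, ⟨fun h5 => absurd h5 h2, fun h5 => absurd h5 h4⟩⟩ hp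
  · exact surg2 h r3 h4 h1 h2 h3
  · exact surg1 h r0 h1 h2 h3 h4
  · exact surg3 h r1 h2 h3 h4 h1
  · exact surg2 h r1 h2 h3 h4 h1
  · exact absurd ⟨⟨fun h5 => absurd h5 h1, fun h5 => absurd h5 h3⟩, ⟨fun _ => h4, fun _ => h2⟩⟩ hp
  · exact surg1 h r1 h2 h3 h4 h1
  · exact surg2 h r2 h3 h4 h1 h2
  · exact surg1 h r2 h3 h4 h1 h2
  · exact surg1 h r3 h4 h1 h2 h3
  · exact absurd ⟨⟨fun h5 => absurd h5 h1, fun h5 => absurd h5 h3⟩, ⟨fun h5 => absurd h5 h2, fun h5 => absurd h5 h4⟩⟩ hp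

end Pool.Agent.Lib.MP_dd2c10_prF
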