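import Pool.Agent.Lib.MP_dd2c10_prF.PE

/-! JOB TogE (MP_dd2c10_pr): placed words and squares.

PROOFS.
* `V_shift`: `ext s`. `s ∈ V c e ↔ s = edgeAt c e ∨ ∃ c' ≥ c, ..`. The rays from `c` and from `c + 1` differ in `xed c e.a`, `xed c e.b` (which are not in `V (c + 1) e`, `mem_V_xed`), the
  edges `edgeAt c e`, `edgeAt (c + 1) e` are in exactly one of the two sets. It is convenient to prove `s ∈ V c e ↔ s = edgeAt c e ∨ s = xed c e.a ∨ s = xed c e.b ∨
  (∃ c' ≥ c + 1, ..)` and to use `edgeAt_inj`, `xed_inj`, `edgeAt_ne_xed`; or: both sides contain only elements of the form `edgeAt`, `xed`; compare membership of these with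
  `mem_V_edge`, `mem_V_xed` (theorem `set_ext`).
* `V_sq`: with `set_ext`, `mem_V_edge`, `mem_V_xed`: the four ladder edges are different; each ray (vertices `2 y, 2 y + 1, 2 y + 2, 2 y + 3`) occurs in exactly two of the four sets.
* `es_move`: `ES (a ++ (c, e) :: b) = ES a ∆ (V c e ∆ ES b)`; `symmDiff` is associative, commutative, `symmDiff_symmDiff_cancel_left`. From `V_shift`: `V c e ∆ PX c e = V (c + 1) e`.
* `es_cancel`, `es_sqa`, `es_sqb`: the same.
* `good_inc`: columns of `ℓ` are different, so two ladder edges of `ES ℓ` in the same column are equal (`not_mem_es_edge`: `edgeAt c e ∈ ES ℓ → (c, e) ∈ ℓ`; `Pairwise` gives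
  uniqueness): `Loc` holds vacuously; `good_es`.
* `good_pair`: let `ω = ES (a ++ (c, e) :: (c, f) :: b)`. Ladder edges of `ω` at a column `c' ≠ c`: at most one. In the column `c` only `e` and `f`. `Loc`: the two edges are `e`, `f` (or
  `f`, `e`) meeting in `n`; `xed (c - 1) n ∈ ω ↔ n ∈ st _ (c - 1)` (`mem_es_xed`), and the letters of columns `≤ c - 1` are exactly those of `a` (`List.filter_append`,
  `List.filter_eq_self`, `List.filter_eq_nil_iff`), so this is `n ∈ run ∅ (wd a)`, false by `h`. -/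

namespace Pool.Agent.Lib.MP_dd2c10_prF

open Pool.Agent.Lib.MP_dd2c10_pr Ed

/-- Two sets of edges of the slab are equal if they contain the same ladder edges and the same `x`-edges. -/
theorem set_ext {ω ω' : Set (Sym2 Pt)} (h : ∀ s ∈ ω, (∃ c e, s = edgeAt c e) ∨ ∃ c n, s = xed c n)
    (h' : ∀ s ∈ ω', (∃ c e, s = edgeAt c e) ∨ ∃ c n, s = xed c n)
    (h1 : ∀ c e, edgeAt c e ∈ ω ↔ edgeAt c e ∈ ω') (h2 : ∀ c n, xed c n ∈ ω ↔ xed c n ∈ ω') : ω = ω' := by
  ext s
  constructor
  · intro hs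
    rcases h s hs with ⟨c, e, rfl⟩ | ⟨c, n, rfl⟩
    · exact (h1 c e).1 hs
    · exact (h2 c n).1 hs
  · intro hs
    rcases h' s hs with ⟨c, e, rfl⟩ | ⟨c, n, rfl⟩
    · exact (h1 c e).2 hs
    · exact (h2 c n).2 hs

private theorem TogE_V_sub {c : ℤ} {e : Ed} {s : Sym2 Pt} (h : s ∈ V c e) :
    (∃ c e, s = edgeAt c e) ∨ ∃ c n, s = xed c n := by
  rcases h with h | ⟨c', _, h | h⟩
  · exact Or.inl ⟨_, _, h⟩
  · exact Or.inr ⟨_, _, h⟩
  · exact Or.inr ⟨_, _, h⟩

private theorem TogE_sd {A B : Set (Sym2 Pt)} (hA : ∀ s ∈ A, (∃ c e, s = edgeAt c e) ∨ ∃ c n, s = xed c n)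
    (hB : ∀ s ∈ B, (∃ c e, s = edgeAt c e) ∨ ∃ c n, s = xed c n) :
    ∀ s ∈ symmDiff A B, (∃ c e, s = edgeAt c e) ∨ ∃ c n, s = xed c n := by
  intro s hs
  rcases Set.mem_symmDiff.1 hs with h | h
  · exact hA s h.1
  · exact hB s h.1

private theorem TogE_ne {c c' n : ℤ} {e : Ed} : (edgeAt c e = xed c' n) ↔ False :=
  ⟨fun h => edgeAt_ne_xed h, fun h => h.elim⟩

private theorem TogE_ne' {c c' n : ℤ} {e : Ed} : (xed c' n = edgeAt c e) ↔ False :=
  ⟨fun h => edgeAt_ne_xed h.symm, fun h => h.elim⟩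

theorem V_shift (c : ℤ) (e : Ed) : symmDiff (V c e) (V (c + 1) e) = PX c e := by
  refine set_ext (TogE_sd (fun s hs => TogE_V_sub hs) (fun s hs => TogE_V_sub hs)) ?_ ?_ ?_
  · intro s hs
    unfold PX at hs
    simp only [Set.mem_insert_iff, Set.mem_singleton_iff] at hs
    rcases hs with h | h | h | h
    · exact Or.inl ⟨_, _, h⟩
    · exact Or.inr ⟨_, _, h⟩
    · exact Or.inl ⟨_, _, h⟩
    · exact Or.inr ⟨_, _, h⟩
  · intro c' f
    unfold PX
    simp only [Set.mem_symmDiff, mem_V_edge, Set.mem_insert_iff, Set.mem_singleton_iff, edgeAt_inj, TogE_ne, false_or, or_false]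
    have h1 : ¬ (c' = c ∧ c' = c + 1) := by omega
    tauto
  · intro c' n
    unfold PX
    simp only [Set.mem_symmDiff, mem_V_xed, Set.mem_insert_iff, Set.mem_singleton_iff, xed_inj, TogE_ne', false_or]
    omega

theorem V_sq (c y : ℤ) :
    symmDiff (symmDiff (V c (Y (2 * y))) (V c (Z (y + 1)))) (symmDiff (V c (Y (2 * y + 1))) (V c (Z y))) = PS c y := by
  refine set_ext (TogE_sd (TogE_sd (fun s hs => TogE_V_sub hs) (fun s hs => TogE_V_sub hs))
    (TogE_sd (fun s hs => TogE_V_sub hs) (fun s hs => TogE_V_sub hs))) ?_ ?_ ?_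
  · intro s hs
    unfold PS at hs
    simp only [Set.mem_insert_iff, Set.mem_singleton_iff] at hs
    rcases hs with h | h | h | h
    · exact Or.inl ⟨_, _, h⟩
    · exact Or.inl ⟨_, _, h⟩
    · exact Or.inl ⟨_, _, h⟩
    · exact Or.inl ⟨_, _, h⟩
  · intro c' f
    unfold PS
    simp only [Set.mem_symmDiff, mem_V_edge, Set.mem_insert_iff, Set.mem_singleton_iff, edgeAt_inj]
    cases f with
    | Y n =>
      simp only [Ed.Y.injEq, reduceCtorEq, and_false, or_false, false_or, not_false_eq_true, and_true, false_and]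
      omega
    | Z n =>
      simp only [Ed.Z.injEq, reduceCtorEq, and_false, false_or, not_false_eq_true, and_true, false_and]
      omega
  · intro c' n
    unfold PS
    simp only [Set.mem_symmDiff, mem_V_xed, Set.mem_insert_iff, Set.mem_singleton_iff, TogE_ne', a_Y, b_Y, a_Z, b_Z, or_false, iff_false]
    omega

private theorem TogE_aux (A B V1 V2 V3 V4 : Set (Sym2 Pt)) :
    symmDiff (symmDiff A (symmDiff V1 (symmDiff V4 B))) (symmDiff (symmDiff V1 V2) (symmDiff V3 V4)) =
      symmDiff A (symmDiff V3 (symmDiff V2 B)) := by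
  calc symmDiff (symmDiff A (symmDiff V1 (symmDiff V4 B))) (symmDiff (symmDiff V1 V2) (symmDiff V3 V4))
      = symmDiff (symmDiff V1 V1) (symmDiff (symmDiff V4 V4) (symmDiff A (symmDiff V3 (symmDiff V2 B)))) := by ac_rfl
    _ = symmDiff A (symmDiff V3 (symmDiff V2 B)) := by rw [symmDiff_self, bot_symmDiff, symmDiff_self, bot_symmDiff]

private theorem TogE_aux' (A B V1 V2 V3 V4 : Set (Sym2 Pt)) :
    symmDiff (symmDiff A (symmDiff V1 (symmDiff V2 B))) (symmDiff (symmDiff V1 V2) (symmDiff V3 V4)) =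
      symmDiff A (symmDiff V4 (symmDiff V3 B)) := by
  calc symmDiff (symmDiff A (symmDiff V1 (symmDiff V2 B))) (symmDiff (symmDiff V1 V2) (symmDiff V3 V4))
      = symmDiff (symmDiff V1 V1) (symmDiff (symmDiff V2 V2) (symmDiff A (symmDiff V4 (symmDiff V3 B)))) := by ac_rfl
    _ = symmDiff A (symmDiff V4 (symmDiff V3 B)) := by rw [symmDiff_self, bot_symmDiff, symmDiff_self, bot_symmDiff]

private theorem TogE_cons (p : ℤ × Ed) (ℓ : List (ℤ × Ed)) : ES (p :: ℓ) = symmDiff (V p.1 p.2) (ES ℓ) := rfl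

theorem es_move (a b : List (ℤ × Ed)) (c : ℤ) (e : Ed) :
    symmDiff (ES (a ++ (c, e) :: b)) (PX c e) = ES (a ++ (c + 1, e) :: b) := by
  rw [es_append, es_append, TogE_cons, TogE_cons, ← V_shift]
  calc symmDiff (symmDiff (ES a) (symmDiff (V c e) (ES b))) (symmDiff (V c e) (V (c + 1) e))
      = symmDiff (symmDiff (V c e) (V c e)) (symmDiff (ES a) (symmDiff (V (c + 1) e) (ES b))) := by ac_rfl
    _ = symmDiff (ES a) (symmDiff (V (c + 1) e) (ES b)) := by rw [symmDiff_self, bot_symmDiff]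

theorem es_cancel (a b : List (ℤ × Ed)) (c : ℤ) (e : Ed) :
    symmDiff (ES (a ++ (c, e) :: (c + 1, e) :: b)) (PX c e) = ES (a ++ b) := by
  rw [es_append, es_append, TogE_cons, TogE_cons, ← V_shift]
  calc symmDiff (symmDiff (ES a) (symmDiff (V c e) (symmDiff (V (c + 1) e) (ES b)))) (symmDiff (V c e) (V (c + 1) e))
      = symmDiff (symmDiff (V c e) (V c e)) (symmDiff (symmDiff (V (c + 1) e) (V (c + 1) e))
          (symmDiff (ES a) (ES b))) := by ac_rfl
    _ = symmDiff (ES a) (ES b) := by rw [symmDiff_self, bot_symmDiff, symmDiff_self, bot_symmDiff]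

theorem es_sqa (a b : List (ℤ × Ed)) (c y : ℤ) :
    symmDiff (ES (a ++ (c, Y (2 * y)) :: (c, Z y) :: b)) (PS c y) =
      ES (a ++ (c, Y (2 * y + 1)) :: (c, Z (y + 1)) :: b) := by
  rw [es_append, es_append, TogE_cons, TogE_cons, TogE_cons, TogE_cons, ← V_sq]
  exact TogE_aux (ES a) (ES b) (V c (Y (2 * y))) (V c (Z (y + 1))) (V c (Y (2 * y + 1))) (V c (Z y))

theorem es_sqb (a b : List (ℤ × Ed)) (c y : ℤ) :
    symmDiff (ES (a ++ (c, Y (2 * y)) :: (c, Z (y + 1)) :: b)) (PS c y) =
      ES (a ++ (c, Z y) :: (c, Y (2 * y + 1)) :: b) := by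
  rw [es_append, es_append, TogE_cons, TogE_cons, TogE_cons, TogE_cons, ← V_sq]
  exact TogE_aux' (ES a) (ES b) (V c (Y (2 * y))) (V c (Z (y + 1))) (V c (Y (2 * y + 1))) (V c (Z y))

/-- Strictly increasing columns. -/
def Inc (ℓ : List (ℤ × Ed)) : Prop := ℓ.Pairwise fun p q => p.1 < q.1

private theorem TogE_uniq {ℓ : List (ℤ × Ed)} (h : Inc ℓ) {c : ℤ} {e f : Ed} (he : (c, e) ∈ ℓ) (hf : (c, f) ∈ ℓ) :
    e = f := by
  by_contra hne
  have h1 : ℓ.Pairwise fun p q => p.1 ≠ q.1 := List.Pairwise.imp (fun hab => ne_of_lt hab) h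
  have : Std.Symm (fun p q : ℤ × Ed => p.1 ≠ q.1) := ⟨fun _ _ hab => hab.symm⟩
  have h2 := List.Pairwise.forall (R := fun p q : ℤ × Ed => p.1 ≠ q.1) h1 he hf (fun h3 => hne (congrArg Prod.snd h3))
  exact h2 rfl

theorem good_inc {ℓ : List (ℤ × Ed)} (h : Inc ℓ) : Good (ES ℓ) := by
  refine good_es ?_
  intro c n e f hef _ _ he hf
  have h1 : (c, e) ∈ ℓ := by
    by_contra hc
    exact not_mem_es_edge hc he
  have h2 : (c, f) ∈ ℓ := by
    by_contra hc
    exact not_mem_es_edge hc hf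
  exact absurd (TogE_uniq h h1 h2) hef

theorem good_pair {a b : List (ℤ × Ed)} {c : ℤ} {e f : Ed} (ha : Inc a) (hb : Inc b) (hac : ∀ p ∈ a, p.1 < c)
    (hbc : ∀ p ∈ b, c < p.1) (hef : e ≠ f)
    (h : ∀ v : ℤ, (v = e.a ∨ v = e.b) → (v = f.a ∨ v = f.b) → v ∉ run ∅ (wd a)) :
    Good (ES (a ++ (c, e) :: (c, f) :: b)) := by
  refine good_es ?_
  have hmem : ∀ (c' : ℤ) (g : Ed), edgeAt c' g ∈ ES (a ++ (c, e) :: (c, f) :: b) →
      (c', g) ∈ a ∨ (c' = c ∧ g = e) ∨ (c' = c ∧ g = f) ∨ (c', g) ∈ b := by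
    intro c' g hg
    have h1 : (c', g) ∈ a ++ (c, e) :: (c, f) :: b := by
      by_contra hc
      exact not_mem_es_edge hc hg
    simp only [List.mem_append, List.mem_cons, Prod.mk.injEq] at h1
    exact h1
  have hc : ∀ g : Ed, edgeAt c g ∈ ES (a ++ (c, e) :: (c, f) :: b) → g = e ∨ g = f := by
    intro g hg
    rcases hmem c g hg with h1 | h1 | h1 | h1
    · exact absurd (hac _ h1) (lt_irrefl _)
    · exact Or.inl h1.2
    · exact Or.inr h1.2
    · exact absurd (hbc _ h1) (lt_irrefl _)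
  have hst : st (a ++ (c, e) :: (c, f) :: b) (c - 1) = run ∅ (wd a) := by
    unfold st
    have h1 : (a ++ (c, e) :: (c, f) :: b).filter (fun p => decide (p.1 ≤ c - 1)) = a := by
      rw [List.filter_append]
      have h2 : a.filter (fun p => decide (p.1 ≤ c - 1)) = a := by
        rw [List.filter_eq_self]
        intro p hp
        have := hac p hp
        exact decide_eq_true (by omega)
      have h3 : ((c, e) :: (c, f) :: b).filter (fun p => decide (p.1 ≤ c - 1)) = [] := by
        rw [List.filter_eq_nil_iff]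
        intro p hp
        have h4 : c ≤ p.1 := by
          rcases List.mem_cons.1 hp with h5 | h5
          · rw [h5]
          · rcases List.mem_cons.1 h5 with h6 | h6
            · rw [h6]
            · exact (hbc p h6).le
        intro h5
        have h6 := of_decide_eq_true h5
        omega
      rw [h2, h3, List.append_nil]
    rw [h1]
  intro c' n e' f' hef' hn1 hn2 he' hf'
  by_cases hcc : c' = c
  · subst hcc
    have h1 := hc e' he'
    have h2 := hc f' hf'
    refine ⟨?_, ?_⟩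
    · rw [mem_es_xed, hst]
      rcases h1 with h1 | h1
      · rcases h2 with h2 | h2
        · exact absurd (h1.trans h2.symm) hef'
        · rw [h1] at hn1
          rw [h2] at hn2
          exact h n (hn1.imp Eq.symm Eq.symm) (hn2.imp Eq.symm Eq.symm)
      · rcases h2 with h2 | h2
        · rw [h1] at hn1
          rw [h2] at hn2
          exact h n (hn2.imp Eq.symm Eq.symm) (hn1.imp Eq.symm Eq.symm)
        · exact absurd (h1.trans h2.symm) hef'
    · intro g _ hg
      rcases h1 with h1 | h1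
      · rcases h2 with h2 | h2
        · exact absurd (h1.trans h2.symm) hef'
        · rw [h1, h2]
          exact hc g hg
      · rcases h2 with h2 | h2
        · rw [h1, h2]
          exact (hc g hg).symm
        · exact absurd (h1.trans h2.symm) hef'
  · exfalso
    rcases hmem c' e' he' with h1 | h1 | h1 | h1
    · rcases hmem c' f' hf' with h2 | h2 | h2 | h2
      · exact hef' (TogE_uniq ha h1 h2)
      · exact hcc h2.1
      · exact hcc h2.1
      · have := hac _ h1
        have := hbc _ h2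
        omega
    · exact hcc h1.1
    · exact hcc h1.1
    · rcases hmem c' f' hf' with h2 | h2 | h2 | h2
      · have := hbc _ h1
        have := hac _ h2
        omega
      · exact hcc h2.1
      · exact hcc h2.1
      · exact hef' (TogE_uniq hb h1 h2)

end Pool.Agent.Lib.MP_dd2c10_prF
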