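import Pool.Agent.Lib.MP_dd2c10_prF.Pla

/-! JOB Up (MP_dd2c10_pr): the path of the topmost strand to the height `2 Q`.

`up s Q` moves a strand from `s` to `2 Q`: by steps `Y` of length two, and a last step `Z Q` if `s` is odd. (`s = 2 y` or
`s = 2 y + 1`, `y = s / 2`, there are `Q - y` steps `Y`.)

PROOFS.
* `upN_path`: induction on `k` generalizing `T`, `s`: `Y s` is planar: `s ∈ T`, `s + 2 ∉ T`, `s + 1 ∉ T`; the state is then
  `insert (s + 2) (T.erase s)` (`ext`, `mem_act`), the hypothesis for it holds with the same bound `B`.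
* `up_path`: `s` even: `upN_path`, `s + 2 (Q - s / 2) = 2 Q`, with `B = 2 Q + 1`. `s` odd: `upN_path` up to `2 Q + 1`, then `Z Q`:
  `2 Q ∉ T`, `2 Q + 1` is occupied.
* `up_supp`: letters of `upN k s` are `Y (s + 2 j)`, `j < k`; and `Z Q` with `2 Q ≥ s`.
* `up_Z`: the word `Z y :: (upN k (2 y + 1) ++ [Z (y + k)])` is equivalent to `upN k (2 y)` if `2 y ∈ T`, `2 y + 1 ∉ T` and the vertices
  from `2 y + 1` to `2 (y + k) + 1` are empty: induction on `k` generalizing `T`, `y`: `k = 0`: `[Z y, Z y] ~ []` (`LEq.cancel`). Step: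
  `Z y :: Y (2 y + 1) :: w ~ Y (2 y) :: Z (y + 1) :: w` (`LEq.sqb`, `2 y + 1, 2 y + 2 ∉ T`), then `LEq.cons` and the induction hypothesis for `y + 1` at the
  state `act T (Y (2 y))` (note `2 y + 1 + 2 = 2 (y + 1) + 1`).
* `up_single`: four cases. `s' = s + 2`, `e = Y s`: equality `Y s :: up (s + 2) Q = up s Q`. `s' = s - 2`, `e = Y s'`:
  `up s' Q = Y s' :: up s Q`, and `LEq.cancel`. `e = Z y`, `s = 2 y`, `s' = 2 y + 1`: `up_Z`. `s = 2 y + 1`, `s' = 2 y`:
  `Z y :: up (2 y) Q ~ Z y :: Z y :: up (2 y + 1) Q ~ up (2 y + 1) Q` by `up_Z` (symm) at the state `act T (Z y)`, and `LEq.cancel`. -/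

namespace Pool.Agent.Lib.MP_dd2c10_prF

open Gen Ed

/-- `k` steps of length two upwards. -/
def upN : ℕ → ℤ → List Ed
  | 0, _ => []
  | k + 1, s => Y s :: upN k (s + 2)

/-- The path from `s` to `2 Q`. -/
def up (s Q : ℤ) : List Ed := upN (Q - s / 2).toNat s ++ if s % 2 = 0 then [] else [Z Q]

theorem upN_path {T : Finset ℤ} {s B : ℤ} (k : ℕ) (hs : s ∈ T) (hB : s + 2 * k ≤ B)
    (hT : ∀ x ∈ T, x ≠ s → x < s ∨ B < x) :
    PPath T (upN k s) ∧ run T (upN k s) = insert (s + 2 * k) (T.erase s) := by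
  induction k generalizing T s with
  | zero =>
    refine ⟨trivial, ?_⟩
    show T = _
    rw [Nat.cast_zero, mul_zero, add_zero, Finset.insert_erase hs]
  | succ k ih =>
    push_cast at hB
    have h2 : s + 2 ∉ T := fun h => by
      have := hT _ h (by omega)
      omega
    have h1 : s + 1 ∉ T := fun h => by
      have := hT _ h (by omega)
      omega
    have hmem : ∀ x, x ∈ act T (Y s) ↔ x = s + 2 ∨ (x ≠ s ∧ x ∈ T) := by
      intro x
      rw [mem_act, a_Y, b_Y]
      by_cases e1 : x = s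
      · subst e1
        have : ¬ (x = x + 2) := by omega
        tauto
      · by_cases e2 : x = s + 2
        · subst e2
          tauto
        · tauto
    obtain ⟨i1, i2⟩ := ih (T := act T (Y s)) (s := s + 2) ((hmem _).2 (Or.inl rfl)) (by omega) (fun x hx hxs => by
      rcases (hmem x).1 hx with h | ⟨h, h'⟩
      · exact absurd h hxs
      · have := hT x h' h
        omega)
    refine ⟨⟨⟨?_, fun x hx1 hx2 => ?_⟩, i1⟩, ?_⟩
    · rw [a_Y, b_Y]
      tauto
    · rw [a_Y] at hx1
      rw [b_Y] at hx2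
      rwa [show x = s + 1 by omega]
    · show run (act T (Y s)) (upN k (s + 2)) = _
      rw [i2]
      ext x
      rw [Finset.mem_insert, Finset.mem_insert, Finset.mem_erase, Finset.mem_erase, hmem]
      push_cast
      rw [show s + 2 + 2 * (k : ℤ) = s + 2 * (k + 1) by ring]
      by_cases e2 : x = s + 2
      · subst e2
        tauto
      · tauto

private theorem Up_even {s Q : ℤ} (hQ : s < 2 * Q) (h : s % 2 = 0) : s + 2 * ((Q - s / 2).toNat : ℤ) = 2 * Q := by
  rw [Int.toNat_of_nonneg (by omega)]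
  omega

private theorem Up_odd {s Q : ℤ} (hQ : s < 2 * Q) (h : ¬ s % 2 = 0) : s + 2 * ((Q - s / 2).toNat : ℤ) = 2 * Q + 1 := by
  rw [Int.toNat_of_nonneg (by omega)]
  omega

theorem up_path {T : Finset ℤ} {s Q : ℤ} (hs : s ∈ T) (hQ : s < 2 * Q)
    (hT : ∀ x ∈ T, x ≠ s → x < s ∨ 2 * Q + 1 < x) :
    PPath T (up s Q) ∧ run T (up s Q) = insert (2 * Q) (T.erase s) := by
  unfold up
  by_cases h : s % 2 = 0
  · rw [if_pos h, List.append_nil]
    have h1 := upN_path (B := 2 * Q + 1) (Q - s / 2).toNat hs (by rw [Up_even hQ h]; omega) hT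
    rwa [Up_even hQ h] at h1
  · rw [if_neg h]
    obtain ⟨h1, h2⟩ := upN_path (B := 2 * Q + 1) (Q - s / 2).toNat hs (by rw [Up_odd hQ h]) hT
    rw [Up_odd hQ h] at h2
    have h3 : 2 * Q ∉ T := fun h => by
      have := hT _ h (by omega)
      omega
    have h4 : 2 * Q + 1 ∉ T := fun h => by
      have := hT _ h (by omega)
      omega
    rw [ppath_append, run_append, h2]
    refine ⟨⟨h1, ⟨?_, fun x hx1 hx2 => ?_⟩, trivial⟩, ?_⟩
    · rw [a_Z, b_Z, Finset.mem_insert, Finset.mem_insert, Finset.mem_erase, Finset.mem_erase]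
      have h5 : ¬ (2 * Q = 2 * Q + 1) := by omega
      tauto
    · rw [a_Z] at hx1
      rw [b_Z] at hx2
      omega
    · show act _ (Z Q) = _
      ext x
      rw [mem_act, a_Z, b_Z, Finset.mem_insert, Finset.mem_insert, Finset.mem_erase]
      by_cases e1 : x = 2 * Q
      · subst e1
        have h5 : ¬ (2 * Q = 2 * Q + 1) := by omega
        tauto
      · by_cases e2 : x = 2 * Q + 1
        · subst e2
          tauto
        · tauto

private theorem Up_mem {f : Ed} : ∀ (k : ℕ) (s : ℤ), f ∈ upN k s → s ≤ f.a ∧ f.b ≤ s + 2 * k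
  | 0, s, h => absurd h (List.not_mem_nil)
  | k + 1, s, h => by
    have h' : f ∈ Y s :: upN k (s + 2) := h
    rw [List.mem_cons] at h'
    push_cast
    rcases h' with rfl | h'
    · rw [a_Y, b_Y]
      omega
    · have := Up_mem k (s + 2) h'
      omega

theorem up_supp {s Q : ℤ} (hQ : s < 2 * Q) : ∀ f ∈ up s Q, s ≤ f.a ∧ f.b ≤ 2 * Q + 1 := by
  intro f hf
  unfold up at hf
  rw [List.mem_append] at hf
  rcases hf with hf | hf
  · have h1 := Up_mem _ _ hf
    by_cases h : s % 2 = 0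
    · rw [Up_even hQ h] at h1
      omega
    · rw [Up_odd hQ h] at h1
      omega
  · by_cases h : s % 2 = 0
    · rw [if_pos h] at hf
      exact absurd hf (List.not_mem_nil)
    · rw [if_neg h, List.mem_singleton] at hf
      subst hf
      rw [a_Z, b_Z]
      omega

theorem up_Z {T : Finset ℤ} {y : ℤ} (k : ℕ) (h1 : 2 * y ∈ T) (h2 : ∀ x, 2 * y < x → x ≤ 2 * (y + k) + 1 → x ∉ T) :
    LEq T (Z y :: (upN k (2 * y + 1) ++ [Z (y + k)])) (upN k (2 * y)) := by
  induction k generalizing T y with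
  | zero =>
    show LEq T (Z y :: ([] ++ [Z (y + (0 : ℕ))])) []
    rw [Nat.cast_zero, add_zero, List.nil_append]
    refine LEq.cancel (Z y) [] ?_
    rw [a_Z, b_Z]
    have := h2 (2 * y + 1) (by omega) (by push_cast; omega)
    tauto
  | succ k ih =>
    push_cast at h2
    have n1 : 2 * y + 1 ∉ T := h2 _ (by omega) (by omega)
    have n2 : 2 * y + 2 ∉ T := h2 _ (by omega) (by omega)
    have hmem : ∀ x, x ∈ act T (Y (2 * y)) ↔ x = 2 * y + 2 ∨ (x ≠ 2 * y ∧ x ∈ T) := by
      intro x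
      rw [mem_act, a_Y, b_Y]
      by_cases e1 : x = 2 * y
      · subst e1
        have : ¬ (2 * y = 2 * y + 2) := by omega
        tauto
      · by_cases e2 : x = 2 * y + 2
        · subst e2
          tauto
        · tauto
    have i := ih (T := act T (Y (2 * y))) (y := y + 1) ((hmem _).2 (Or.inl (by ring))) (fun x hx1 hx2 hx => by
      rcases (hmem x).1 hx with h | ⟨h, h'⟩
      · omega
      · exact h2 x (by omega) (by omega) h')
    have e1 : upN (k + 1) (2 * y + 1) = Y (2 * y + 1) :: upN k (2 * (y + 1) + 1) := by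
      show Y (2 * y + 1) :: upN k (2 * y + 1 + 2) = _
      rw [show 2 * y + 1 + 2 = 2 * (y + 1) + 1 by ring]
    have e2 : upN (k + 1) (2 * y) = Y (2 * y) :: upN k (2 * (y + 1)) := by
      show Y (2 * y) :: upN k (2 * y + 2) = _
      rw [show 2 * y + 2 = 2 * (y + 1) by ring]
    have e3 : y + ((k + 1 : ℕ) : ℤ) = y + 1 + k := by
      push_cast
      ring
    rw [e1, e2, e3, List.cons_append]
    exact (LEq.sqb y _ n1 n2).symm.trans (LEq.cons _ i)

/-- A step of the topmost strand followed by its path upwards. -/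
theorem up_single {T : Finset ℤ} {s s' Q : ℤ} {e : Ed} (he : (e.a = s ∧ e.b = s') ∨ (e.a = s' ∧ e.b = s))
    (hs : s ∈ T) (hs' : s' ∉ T) (hQ : s + 2 < 2 * Q)
    (hT : ∀ x ∈ T, x ≠ s → (x < s ∧ x < s') ∨ 2 * Q + 1 < x) : LEq T (e :: up s' Q) (up s Q) := by
  have hup : ∀ n : ℤ, n + 2 ≤ 2 * Q → up n Q = Y n :: up (n + 2) Q := by
    intro n hn
    unfold up
    have e1 : (Q - n / 2).toNat = (Q - (n + 2) / 2).toNat + 1 := by omega
    have e2 : (n + 2) % 2 = n % 2 := by omega
    rw [e1, e2]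
    rfl
  have hZ : ∀ (S : Finset ℤ) (y : ℤ), 2 * y < 2 * Q → 2 * y ∈ S → (∀ x, 2 * y < x → x ≤ 2 * Q + 1 → x ∉ S) →
      LEq S (Z y :: up (2 * y + 1) Q) (up (2 * y) Q) := by
    intro S y hy h1 h2
    have e1 : y + ((Q - y).toNat : ℤ) = Q := by
      rw [Int.toNat_of_nonneg (by omega)]
      ring
    have h3 := up_Z (T := S) (y := y) (Q - y).toNat h1 (by rw [e1]; exact h2)
    rw [e1] at h3
    have e2 : up (2 * y + 1) Q = upN (Q - y).toNat (2 * y + 1) ++ [Z Q] := by
      unfold up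
      rw [if_neg (by omega), show (2 * y + 1) / 2 = y by omega]
    have e3 : up (2 * y) Q = upN (Q - y).toNat (2 * y) := by
      unfold up
      rw [if_pos (by omega), show (2 * y) / 2 = y by omega, List.append_nil]
    rw [e2, e3]
    exact h3
  cases e with
  | Y n =>
    rw [a_Y, b_Y] at he
    rcases he with ⟨rfl, rfl⟩ | ⟨rfl, rfl⟩
    · rw [hup n (by omega)]
      exact LEq.refl _
    · rw [hup n (by omega)]
      refine LEq.cancel (Y n) _ ?_
      rw [a_Y, b_Y]
      tauto
  | Z y =>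
    rw [a_Z, b_Z] at he
    rcases he with ⟨rfl, rfl⟩ | ⟨rfl, rfl⟩
    · refine hZ T y (by omega) hs fun x hx1 hx2 hx => ?_
      have := hT x hx (by omega)
      omega
    · have hmem : ∀ x, x ∈ act T (Z y) ↔ x = 2 * y ∨ (x ≠ 2 * y + 1 ∧ x ∈ T) := by
        intro x
        rw [mem_act, a_Z, b_Z]
        by_cases e1 : x = 2 * y
        · subst e1
          tauto
        · by_cases e2 : x = 2 * y + 1
          · subst e2
            tauto
          · tauto
      have h1 := hZ (act T (Z y)) y (by omega) ((hmem _).2 (Or.inl rfl)) (fun x hx1 hx2 hx => by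
        rcases (hmem x).1 hx with h | ⟨h, h'⟩
        · omega
        · have := hT x h' h
          omega)
      refine (LEq.cons (Z y) h1.symm).trans (LEq.cancel (Z y) _ ?_)
      rw [a_Z, b_Z]
      tauto

end Pool.Agent.Lib.MP_dd2c10_prF
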