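import Pool.Agent.Lib.MP_dd2c10_prF.Base

/-!
# Words read by a state machine, modulo local rules
-/

namespace Pool.Agent.Lib.MP_dd2c10_prF

variable {σ α : Type*}

namespace WEq

variable {next : σ → α → σ} {R : σ → List α → List α → Prop} {s : σ}

theorem refl (w : List α) : WEq next R s w w := Relation.EqvGen.refl w

theorem symm {w w' : List α} (h : WEq next R s w w') : WEq next R s w' w := Relation.EqvGen.symm _ _ h

theorem trans {w w' w'' : List α} (h : WEq next R s w w') (h' : WEq next R s w' w'') : WEq next R s w w'' :=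
  Relation.EqvGen.trans _ _ _ h h'

theorem of_eq {w w' : List α} (h : w = w') : WEq next R s w w' := h ▸ refl w

theorem rule {u v : List α} (h : R s u v) : WEq next R s u v :=
  Relation.EqvGen.rel _ _ ⟨[], u, v, [], by simp, by simp, h⟩

theorem left (a : List α) {u v : List α} (h : WEq next R (a.foldl next s) u v) : WEq next R s (a ++ u) (a ++ v) := by
  induction h with
  | rel u v h =>
    obtain ⟨a', u', v', b, rfl, rfl, h⟩ := h
    refine Relation.EqvGen.rel _ _ ⟨a ++ a', u', v', b, by simp, by simp, ?_⟩
    rwa [List.foldl_append]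
  | refl u => exact refl _
  | symm u v _ ih => exact ih.symm
  | trans u v w _ _ ih1 ih2 => exact ih1.trans ih2

theorem right {u v : List α} (h : WEq next R s u v) (b : List α) : WEq next R s (u ++ b) (v ++ b) := by
  induction h with
  | rel u v h =>
    obtain ⟨a', u', v', b', rfl, rfl, h⟩ := h
    exact Relation.EqvGen.rel _ _ ⟨a', u', v', b' ++ b, by simp, by simp, h⟩
  | refl u => exact refl _
  | symm u v _ ih => exact ih.symm
  | trans u v w _ _ ih1 ih2 => exact ih1.trans ih2

theorem cons (a : α) {u v : List α} (h : WEq next R (next s a) u v) : WEq next R s (a :: u) (a :: v) :=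
  left [a] h

theorem run_eq (hR : ∀ s u v, R s u v → u.foldl next s = v.foldl next s) {u v : List α} (h : WEq next R s u v) :
    u.foldl next s = v.foldl next s := by
  induction h with
  | rel u v h =>
    obtain ⟨a', u', v', b', rfl, rfl, h⟩ := h
    rw [List.foldl_append, List.foldl_append, List.foldl_append, List.foldl_append, hR _ _ _ h]
  | refl u => rfl
  | symm u v _ ih => exact ih.symm
  | trans u v w _ _ ih1 ih2 => exact ih1.trans ih2

theorem append {u u' v v' : List α}
    (h : WEq next R s u u') (h' : WEq next R (u.foldl next s) v v') : WEq next R s (u ++ v) (u' ++ v') :=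
  (left u h').trans (h.right v')

/-- A map of words that respects the rules respects the equivalence. -/
theorem map {τ β : Type*} {next' : τ → β → τ} {R' : τ → List β → List β → Prop} {t : τ}
    (P : List α → Prop) (f : List α → List β)
    (hP : ∀ w w', WStep next R s w w' → (P w ↔ P w'))
    (hf : ∀ w w', P w → WStep next R s w w' → WEq next' R' t (f w) (f w')) {w w' : List α} (h : WEq next R s w w')
    (hw : P w) : P w' ∧ WEq next' R' t (f w) (f w') := by
  suffices H : (P w ↔ P w') ∧ (P w → WEq next' R' t (f w) (f w')) from ⟨H.1.1 hw, H.2 hw⟩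
  clear hw
  induction h with
  | rel u v h => exact ⟨hP u v h, fun hu => hf u v hu h⟩
  | refl u => exact ⟨Iff.rfl, fun _ => refl _⟩
  | symm u v _ ih => exact ⟨ih.1.symm, fun hv => (ih.2 (ih.1.2 hv)).symm⟩
  | trans u v w _ _ ih1 ih2 => exact ⟨ih1.1.trans ih2.1, fun hu => (ih1.2 hu).trans (ih2.2 (ih1.1.1 hu))⟩

end WEq

end Pool.Agent.Lib.MP_dd2c10_prF
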